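import Mathlib

set_option autoImplicit false

namespace Pool.Agent.Helper371.Rho

open Finset Equiv

section mult
variable {Z : Type} [Fintype Z] [DecidableEq Z]

/-- multiplicities of the values of `q` -/
def mult {a : ℕ} (q : Fin a → Z) (z : Z) : ℕ := (univ.filter (fun i => q i = z)).card

theorem mult_sum {a : ℕ} (q : Fin a → Z) : ∑ z, mult q z = a := by
  unfold mult
  have h := Finset.card_eq_sum_card_fiberwise (s := (univ : Finset (Fin a))) (t := (univ : Finset Z))
    (f := q) (fun _ _ => Finset.mem_coe.mpr (mem_univ _))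
  rw [Finset.card_univ, Fintype.card_fin] at h
  exact h.symm

omit [Fintype Z] in
theorem mult_comp_perm {a : ℕ} (q : Fin a → Z) (σ : Perm (Fin a)) : mult (q ∘ σ) = mult q := by
  funext z
  unfold mult
  apply Finset.card_bij (fun i _ => σ i)
  · intro i hi
    simpa using hi
  · intro i _ j _ h
    exact σ.injective h
  · intro j hj
    refine ⟨σ.symm j, ?_, by simp⟩
    simpa using hj

omit [Fintype Z] in
theorem mult_comp_h {a : ℕ} (q : Fin a → Z) (h : Perm Z) (z : Z) :
    mult (h ∘ q) (h z) = mult q z := by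
  unfold mult
  congr 1
  ext i
  simp

omit [Fintype Z] in
theorem exists_perm {a : ℕ} (q q' : Fin a → Z) (hq : mult q = mult q') :
    ∃ σ : Perm (Fin a), q ∘ σ = q' := by
  have e : ∀ z, Nonempty ({i // q' i = z} ≃ {i // q i = z}) := by
    intro z
    rw [← Fintype.card_eq, Fintype.card_subtype, Fintype.card_subtype]
    exact (congrFun hq z).symm
  refine ⟨(Equiv.sigmaFiberEquiv q').symm.trans
    ((Equiv.sigmaCongrRight (fun z => (e z).some)).trans (Equiv.sigmaFiberEquiv q)), ?_⟩
  funext i
  exact ((e (q' i)).some ⟨i, rfl⟩).2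

theorem exists_of_sum {a : ℕ} (μ : Z → ℕ) (hμ : ∑ z, μ z = a) : ∃ q : Fin a → Z, mult q = μ := by
  have e : Fin a ≃ (Σ z, Fin (μ z)) := Fintype.equivOfCardEq (by simp [hμ])
  refine ⟨fun i => (e i).1, ?_⟩
  funext z
  unfold mult
  rw [← Fintype.card_subtype]
  have e2 : {i // (e i).1 = z} ≃ Fin (μ z) :=
    (Equiv.subtypeEquiv e (fun _ => Iff.rfl)).trans (Equiv.sigmaSubtype z)
  rw [Fintype.card_congr e2, Fintype.card_fin]

/-- number of permutations carrying `q` to `q'` -/
def kk {a : ℕ} (q q' : Fin a → Z) : ℕ := (univ.filter (fun σ : Perm (Fin a) => q ∘ σ = q')).card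

omit [Fintype Z] in
theorem kk_const {a : ℕ} {q q' q0 : Fin a → Z} (h1 : mult q = mult q0) (h2 : mult q' = mult q0) :
    kk q q' = kk q0 q0 := by
  obtain ⟨g, rfl⟩ := exists_perm q0 q h1.symm
  obtain ⟨g', rfl⟩ := exists_perm q0 q' h2.symm
  unfold kk
  apply Finset.card_bij (fun σ _ => g * σ * g'⁻¹)
  · intro σ hσ
    simp only [mem_filter, mem_univ, true_and] at hσ ⊢
    funext i
    have := congrFun hσ (g'⁻¹ i)
    simpa using this
  · intro σ _ τ _ h
    simpa using h
  · intro τ hτ
    refine ⟨g⁻¹ * τ * g', ?_, by group⟩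
    simp only [mem_filter, mem_univ, true_and] at hτ ⊢
    funext i
    have := congrFun hτ (g' i)
    simpa using this

theorem class_sum {a : ℕ} (h : Perm Z) (μ : Z → ℕ) (hμ : ∑ z, μ z = a) (hinv : ∀ z, μ (h z) = μ z) :
    ∑ q : Fin a → Z, ∑ σ : Perm (Fin a), (if mult q = μ ∧ q ∘ σ = h ∘ q then (1 : ℤ) else 0) =
      (a.factorial : ℤ) := by
  obtain ⟨q0, hq0⟩ := exists_of_sum μ hμ
  have hcl : ∀ q : Fin a → Z, mult q = μ → mult (h ∘ q) = μ := by
    intro q hq
    funext z
    have h1 := mult_comp_h q h (h.symm z)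
    rw [Equiv.apply_symm_apply] at h1
    rw [h1, hq]
    have := hinv (h.symm z)
    rw [Equiv.apply_symm_apply] at this
    exact this.symm
  have hA : ∑ q : Fin a → Z, ∑ σ : Perm (Fin a), (if mult q = μ ∧ q ∘ σ = h ∘ q then (1 : ℤ) else 0) =
      ∑ q : Fin a → Z, (if mult q = μ then (kk q0 q0 : ℤ) else 0) := by
    apply Finset.sum_congr rfl
    intro q _
    by_cases hq : mult q = μ
    · rw [if_pos hq]
      rw [← kk_const (q := q) (q' := h ∘ q) (q0 := q0) (by rw [hq, hq0]) (by rw [hcl q hq, hq0])]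
      unfold kk
      rw [Finset.card_filter]
      push_cast
      apply Finset.sum_congr rfl
      intro σ _
      simp [hq]
    · simp [hq]
  have hB : (a.factorial : ℤ) = ∑ q : Fin a → Z, (if mult q = μ then (kk q0 q0 : ℤ) else 0) := by
    have h1 : (a.factorial : ℤ) = ∑ σ : Perm (Fin a), (1 : ℤ) := by
      simp [Fintype.card_perm]
    rw [h1]
    have h2 : ∀ σ : Perm (Fin a), (1 : ℤ) = ∑ q : Fin a → Z, (if q0 ∘ σ = q then (1 : ℤ) else 0) := by
      intro σ
      rw [Finset.sum_ite_eq]
      simp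
    rw [Finset.sum_congr rfl (fun σ _ => h2 σ), Finset.sum_comm]
    apply Finset.sum_congr rfl
    intro q _
    by_cases hq : mult q = μ
    · rw [if_pos hq]
      rw [← kk_const (q := q0) (q' := q) (q0 := q0) rfl (by rw [hq, hq0])]
      unfold kk
      rw [Finset.card_filter]
      push_cast
      rfl
    · rw [if_neg hq]
      apply Finset.sum_eq_zero
      intro σ _
      rw [if_neg]
      rintro rfl
      exact hq (by rw [mult_comp_perm, hq0])
  rw [hA, ← hB]

/-- sign of `h` on an invariant set, zero if the set is not invariant -/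
def sgnOn (h : Perm Z) (S : Finset Z) : ℤ :=
  if H : ∀ z, h z ∈ S ↔ z ∈ S then ((Perm.sign (h.subtypePerm H) : ℤˣ) : ℤ) else 0

/-- indicator -/
def ind (S : Finset Z) (z : Z) : ℕ := if z ∈ S then 1 else 0

omit [Fintype Z] in
theorem mult_inj {b : ℕ} {q : Fin b → Z} (hq : Function.Injective q) :
    mult q = ind (univ.image q) := by
  funext z
  unfold mult ind
  split_ifs with h
  · rw [Finset.mem_image] at h
    obtain ⟨i, _, rfl⟩ := h
    rw [Finset.card_eq_one]
    refine ⟨i, ?_⟩
    ext j
    simp [hq.eq_iff]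
  · rw [Finset.card_eq_zero]
    ext j
    simp only [mem_filter, mem_univ, true_and, notMem_empty, iff_false]
    rintro rfl
    exact h (by simp)

omit [Fintype Z] in
theorem inj_of_mult {b : ℕ} {q : Fin b → Z} {S : Finset Z} (hq : mult q = ind S) :
    Function.Injective q ∧ univ.image q = S := by
  have h1 : Function.Injective q := by
    intro i j hij
    by_contra hne
    have h2 : mult q (q i) ≤ 1 := by
      rw [hq]; unfold ind; split_ifs <;> omega
    have h3 : ({i, j} : Finset (Fin b)) ⊆ univ.filter (fun k => q k = q i) := by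
      intro k hk
      simp only [mem_insert, mem_singleton] at hk
      rcases hk with rfl | rfl <;> simp [hij]
    have h4 := Finset.card_le_card h3
    rw [Finset.card_pair hne] at h4
    unfold mult at h2
    omega
  refine ⟨h1, ?_⟩
  have h5 := mult_inj h1
  rw [hq] at h5
  ext z
  have h6 := congrFun h5 z
  unfold ind at h6
  split_ifs at h6 with h7 h8 <;> simp_all

theorem sgn_eq {b : ℕ} (h : Perm Z) {q : Fin b → Z} (hq : Function.Injective q)
    {σ : Perm (Fin b)} (hσ : q ∘ σ = h ∘ q) :
    ((Perm.sign σ : ℤˣ) : ℤ) = sgnOn h (univ.image q) := by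
  have H : ∀ z, h z ∈ univ.image q ↔ z ∈ univ.image q := by
    have h0 : ∀ z, z ∈ univ.image q → h z ∈ univ.image q := by
      intro z hz
      rw [Finset.mem_image] at hz ⊢
      obtain ⟨i, _, rfl⟩ := hz
      exact ⟨σ i, mem_univ _, congrFun hσ i⟩
    intro z
    refine ⟨?_, h0 z⟩
    intro hz
    rw [Finset.mem_image] at hz ⊢
    obtain ⟨i, _, hi⟩ := hz
    refine ⟨σ.symm i, mem_univ _, ?_⟩
    apply h.injective
    rw [← hi]
    have := congrFun hσ (σ.symm i)
    simpa using this.symm
  unfold sgnOn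
  rw [dif_pos H]
  let e : Fin b ≃ {z // z ∈ univ.image q} :=
    Equiv.ofBijective (fun i => ⟨q i, by simp⟩) ⟨fun i j hij => hq (by simpa using hij), by
      rintro ⟨z, hz⟩
      rw [Finset.mem_image] at hz
      obtain ⟨i, _, rfl⟩ := hz
      exact ⟨i, rfl⟩⟩
  have he : h.subtypePerm H = e.permCongr σ := by
    ext x
    obtain ⟨i, rfl⟩ := e.surjective x
    rw [Equiv.permCongr_apply, Equiv.symm_apply_apply]
    exact (congrFun hσ i).symm
  rw [he, Perm.sign_permCongr]

omit [Fintype Z] in
theorem noninj {b : ℕ} (q q' : Fin b → Z) (hq : ¬ Function.Injective q) :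
    ∑ σ : Perm (Fin b), (if q ∘ σ = q' then ((Perm.sign σ : ℤˣ) : ℤ) else 0) = 0 := by
  unfold Function.Injective at hq
  push Not at hq
  obtain ⟨i, j, hij, hne⟩ := hq
  have h1 := Equiv.sum_comp (Equiv.mulLeft (swap i j))
    (fun σ : Perm (Fin b) => (if q ∘ σ = q' then ((Perm.sign σ : ℤˣ) : ℤ) else 0))
  have hsw : q ∘ (swap i j) = q := by
    funext k
    simp only [Function.comp_apply]
    rw [swap_apply_def]
    split_ifs with h1 h2
    · rw [h1, hij]
    · rw [h2, hij]
    · rfl
  have h2 : ∀ σ : Perm (Fin b), (if q ∘ (Equiv.mulLeft (swap i j) σ) = q' then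
      ((Perm.sign (Equiv.mulLeft (swap i j) σ) : ℤˣ) : ℤ) else 0) =
      - (if q ∘ σ = q' then ((Perm.sign σ : ℤˣ) : ℤ) else 0) := by
    intro σ
    have h3 : q ∘ (Equiv.mulLeft (swap i j) σ) = q ∘ σ := by
      rw [Equiv.coe_mulLeft, Perm.coe_mul, ← Function.comp_assoc, hsw]
    rw [h3]
    split_ifs
    · rw [Equiv.coe_mulLeft, Perm.sign_mul, Perm.sign_swap hne]
      simp
    · simp
  rw [Finset.sum_congr rfl (fun σ _ => h2 σ), Finset.sum_neg_distrib] at h1
  linarith

/-- sum with the trivial character -/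
theorem sum_triv {a : ℕ} (h : Perm Z) (G : (Z → ℕ) → ℤ) :
    ∑ q : Fin a → Z, ∑ σ : Perm (Fin a), (if q ∘ σ = h ∘ q then G (mult q) else 0) =
      (a.factorial : ℤ) * ∑ μ ∈ Finset.piAntidiag univ a, (if ∀ z, μ (h z) = μ z then G μ else 0) := by
  rw [Finset.mul_sum]
  have h1 : ∀ q : Fin a → Z, ∑ σ : Perm (Fin a), (if q ∘ σ = h ∘ q then G (mult q) else 0) =
      ∑ μ ∈ Finset.piAntidiag univ a, ∑ σ : Perm (Fin a),
        (if mult q = μ ∧ q ∘ σ = h ∘ q then G μ else 0) := by
    intro q
    rw [Finset.sum_comm]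
    apply Finset.sum_congr rfl
    intro σ _
    have h2 : ∀ μ : Z → ℕ, (if mult q = μ ∧ q ∘ σ = h ∘ q then G μ else 0) =
        if mult q = μ then (if q ∘ σ = h ∘ q then G (mult q) else 0) else 0 := by
      intro μ
      by_cases e : mult q = μ
      · subst e; simp
      · simp [e]
    have hmem : mult q ∈ Finset.piAntidiag (univ : Finset Z) a := by
      rw [Finset.mem_piAntidiag]
      exact ⟨mult_sum q, fun i _ => mem_univ i⟩
    rw [Finset.sum_congr rfl (fun μ _ => h2 μ), Finset.sum_ite_eq, if_pos hmem]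
  rw [Finset.sum_congr rfl (fun q _ => h1 q), Finset.sum_comm]
  apply Finset.sum_congr rfl
  intro μ hμ
  rw [Finset.mem_piAntidiag] at hμ
  split_ifs with hinv
  · rw [← class_sum h μ hμ.1 hinv, Finset.sum_mul]
    apply Finset.sum_congr rfl
    intro q _
    rw [Finset.sum_mul]
    apply Finset.sum_congr rfl
    intro σ _
    split_ifs <;> simp
  · rw [mul_zero]
    apply Finset.sum_eq_zero
    intro q _
    apply Finset.sum_eq_zero
    intro σ _
    rw [if_neg]
    rintro ⟨rfl, h2⟩
    apply hinv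
    intro z
    rw [← mult_comp_h q h z, ← h2, mult_comp_perm]

/-- sum with the sign character -/
theorem sum_sign {b : ℕ} (h : Perm Z) (G : (Z → ℕ) → ℤ) :
    ∑ q : Fin b → Z, ∑ σ : Perm (Fin b),
      (if q ∘ σ = h ∘ q then ((Perm.sign σ : ℤˣ) : ℤ) * G (mult q) else 0) =
      (b.factorial : ℤ) * ∑ S ∈ Finset.powersetCard b univ, sgnOn h S * G (ind S) := by
  rw [Finset.mul_sum]
  have h1 : ∀ q : Fin b → Z, ∑ σ : Perm (Fin b),
      (if q ∘ σ = h ∘ q then ((Perm.sign σ : ℤˣ) : ℤ) * G (mult q) else 0) =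
      ∑ S ∈ Finset.powersetCard b univ, ∑ σ : Perm (Fin b),
        (if mult q = ind S ∧ q ∘ σ = h ∘ q then sgnOn h S * G (ind S) else 0) := by
    intro q
    by_cases hq : Function.Injective q
    · rw [Finset.sum_comm]
      apply Finset.sum_congr rfl
      intro σ _
      have h2 : ∀ S : Finset Z, (if mult q = ind S ∧ q ∘ σ = h ∘ q then sgnOn h S * G (ind S) else 0) =
          if univ.image q = S then (if q ∘ σ = h ∘ q then
            ((Perm.sign σ : ℤˣ) : ℤ) * G (mult q) else 0) else 0 := by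
        intro S
        by_cases e : mult q = ind S
        · obtain ⟨h3, h4⟩ := inj_of_mult e
          rw [if_pos h4]
          by_cases e2 : q ∘ σ = h ∘ q
          · rw [if_pos ⟨e, e2⟩, if_pos e2, sgn_eq h hq e2, h4, e]
          · rw [if_neg (fun h => e2 h.2), if_neg e2]
        · rw [if_neg (fun h => e h.1), if_neg]
          rintro rfl
          exact e (mult_inj hq)
      have hmem : univ.image q ∈ Finset.powersetCard b (univ : Finset Z) := by
        rw [Finset.mem_powersetCard]
        exact ⟨subset_univ _, by rw [Finset.card_image_of_injective _ hq]; simp⟩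
      rw [Finset.sum_congr rfl (fun S _ => h2 S), Finset.sum_ite_eq, if_pos hmem]
    · have h2 : ∑ σ : Perm (Fin b), (if q ∘ σ = h ∘ q then ((Perm.sign σ : ℤˣ) : ℤ) * G (mult q) else 0)
          = 0 := by
        have h3 := noninj q (h ∘ q) hq
        have h4 : ∑ σ : Perm (Fin b), (if q ∘ σ = h ∘ q then
            ((Perm.sign σ : ℤˣ) : ℤ) * G (mult q) else 0) =
            (∑ σ : Perm (Fin b), (if q ∘ σ = h ∘ q then ((Perm.sign σ : ℤˣ) : ℤ) else 0)) *
              G (mult q) := by
          rw [Finset.sum_mul]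
          apply Finset.sum_congr rfl
          intro σ _
          split_ifs <;> simp
        rw [h4, h3, zero_mul]
      rw [h2]
      symm
      apply Finset.sum_eq_zero
      intro S _
      apply Finset.sum_eq_zero
      intro σ _
      rw [if_neg]
      rintro ⟨h3, _⟩
      exact hq (inj_of_mult h3).1
  rw [Finset.sum_congr rfl (fun q _ => h1 q), Finset.sum_comm]
  apply Finset.sum_congr rfl
  intro S hS
  rw [Finset.mem_powersetCard] at hS
  by_cases hinv : ∀ z, h z ∈ S ↔ z ∈ S
  · have h5 : ∑ z, ind S z = b := by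
      unfold ind
      rw [Finset.sum_ite_mem]
      simp [hS.2]
    have h6 : ∀ z, ind S (h z) = ind S z := by
      intro z
      unfold ind
      simp [hinv z]
    rw [← class_sum h (ind S) h5 h6, Finset.sum_mul]
    apply Finset.sum_congr rfl
    intro q _
    rw [Finset.sum_mul]
    apply Finset.sum_congr rfl
    intro σ _
    split_ifs <;> simp
  · have h7 : sgnOn h S = 0 := by
      unfold sgnOn
      rw [dif_neg hinv]
    rw [h7]
    simp

end mult

end Pool.Agent.Helper371.Rho
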