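import Pool.Agent.Helper371.RhoA

set_option autoImplicit false

namespace Pool.Agent.Helper371.Rho

open Finset Equiv

section cancel
variable {Z : Type} [Fintype Z] [DecidableEq Z]

/-- `h` restricted to `S`, extended by the identity -/
def restr (h : Perm Z) (S : Finset Z) (H : ∀ z, h z ∈ S ↔ z ∈ S) : Perm Z :=
  Perm.ofSubtype (h.subtypePerm H)

omit [Fintype Z] in
theorem restr_apply (h : Perm Z) (S : Finset Z) (H : ∀ z, h z ∈ S ↔ z ∈ S) (z : Z) :
    restr h S H z = if z ∈ S then h z else z := by
  unfold restr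
  split_ifs with hz
  · rw [Perm.ofSubtype_apply_of_mem _ hz]
    rfl
  · rw [Perm.ofSubtype_apply_of_not_mem _ hz]

theorem sgnOn_eq (h : Perm Z) (S : Finset Z) (H : ∀ z, h z ∈ S ↔ z ∈ S) :
    sgnOn h S = ((Perm.sign (restr h S H) : ℤˣ) : ℤ) := by
  unfold sgnOn restr
  rw [dif_pos H, Perm.sign_ofSubtype]

/-- the orbit of `z0` -/
noncomputable def orb (h : Perm Z) (z0 : Z) : Finset Z := by
  classical exact univ.filter (fun z => h.SameCycle z0 z)

theorem mem_orb {h : Perm Z} {z0 z : Z} : z ∈ orb h z0 ↔ h.SameCycle z0 z := by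
  unfold orb; simp

theorem orb_inv (h : Perm Z) (z0 z : Z) : h z ∈ orb h z0 ↔ z ∈ orb h z0 := by
  rw [mem_orb, mem_orb, Perm.sameCycle_apply_right]

theorem sgn_orb (h : Perm Z) (z0 : Z) : (-1 : ℤ) ^ (orb h z0).card * sgnOn h (orb h z0) = -1 := by
  classical
  rw [sgnOn_eq h _ (orb_inv h z0)]
  have h1 : restr h (orb h z0) (orb_inv h z0) = h.cycleOf z0 := by
    ext z
    rw [restr_apply, Perm.cycleOf_apply]
    simp only [mem_orb]
  rw [h1]
  by_cases hz : h z0 = z0
  · have h2 : h.cycleOf z0 = 1 := by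
      rw [Perm.cycleOf_eq_one_iff]; exact hz
    have h3 : orb h z0 = {z0} := by
      ext z
      rw [mem_orb, mem_singleton]
      constructor
      · intro h4
        exact (h4.eq_of_left hz).symm
      · rintro rfl
        exact Perm.SameCycle.refl _ _
    rw [h2, h3]
    simp
  · have h2 := (Perm.isCycle_cycleOf h hz)
    have h3 : (h.cycleOf z0).support = orb h z0 := by
      ext z
      rw [Perm.mem_support_cycleOf_iff, mem_orb]
      constructor
      · exact fun h => h.1
      · intro h4
        exact ⟨h4, Perm.mem_support.mpr hz⟩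
    rw [h2.sign, h3]
    push_cast
    rw [mul_neg, ← pow_add, ← two_mul, pow_mul]
    simp

theorem sgnOn_union (h : Perm Z) {S C : Finset Z} (hS : ∀ z, h z ∈ S ↔ z ∈ S)
    (hC : ∀ z, h z ∈ C ↔ z ∈ C) (hd : Disjoint S C) : sgnOn h (S ∪ C) = sgnOn h S * sgnOn h C := by
  have hU : ∀ z, h z ∈ S ∪ C ↔ z ∈ S ∪ C := by
    intro z
    rw [mem_union, mem_union, hS, hC]
  rw [sgnOn_eq h _ hU, sgnOn_eq h _ hS, sgnOn_eq h _ hC, ← Units.val_mul, ← Perm.sign_mul]
  congr 2
  ext z
  rw [Perm.mul_apply, restr_apply, restr_apply, restr_apply]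
  by_cases h1 : z ∈ C
  · have h2 : z ∉ S := fun h => Finset.disjoint_left.mp hd h h1
    have h3 : h z ∉ S := by rw [hS]; exact h2
    simp [h1, h3]
  · simp [h1]

/-- signed weight -/
noncomputable def sw (h : Perm Z) (S : Finset Z) : ℤ := (-1 : ℤ) ^ S.card * sgnOn h S

theorem sw_union (h : Perm Z) {S : Finset Z} {z0 : Z} (hS : ∀ z, h z ∈ S ↔ z ∈ S)
    (hd : Disjoint S (orb h z0)) : sw h (S ∪ orb h z0) = - sw h S := by
  unfold sw
  rw [sgnOn_union h hS (orb_inv h z0) hd, Finset.card_union_of_disjoint hd, pow_add]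
  have := sgn_orb h z0
  calc (-1 : ℤ) ^ S.card * (-1) ^ (orb h z0).card * (sgnOn h S * sgnOn h (orb h z0))
      = (-1 : ℤ) ^ S.card * sgnOn h S * ((-1) ^ (orb h z0).card * sgnOn h (orb h z0)) := by ring
    _ = - ((-1 : ℤ) ^ S.card * sgnOn h S) := by rw [this]; ring

theorem sw_symm (h : Perm Z) (S : Finset Z) (z0 : Z) :
    sw h S + sw h (symmDiff S (orb h z0)) = 0 := by
  by_cases hS : ∀ z, h z ∈ S ↔ z ∈ S
  · by_cases h0 : z0 ∈ S
    · -- orbit inside S
      have hsub : orb h z0 ⊆ S := by
        intro z hz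
        rw [mem_orb] at hz
        obtain ⟨n, rfl⟩ := hz
        have key : ∀ n : ℤ, (h ^ n) z0 ∈ S := by
          intro n
          induction n using Int.induction_on with
          | zero => simpa using h0
          | succ n ih =>
            rw [add_comm, zpow_add, Perm.mul_apply, zpow_one, hS]
            exact ih
          | pred n ih =>
            rw [← hS, ← Perm.mul_apply, ← zpow_one_add]
            simpa using ih
        exact key n
      have h1 : symmDiff S (orb h z0) = S \ orb h z0 := by
        ext z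
        rw [Finset.mem_symmDiff, Finset.mem_sdiff]
        constructor
        · rintro (h | h)
          · exact h
          · exact absurd (hsub h.1) h.2
        · exact fun h => Or.inl h
      have h2 : ∀ z, h z ∈ S \ orb h z0 ↔ z ∈ S \ orb h z0 := by
        intro z
        rw [mem_sdiff, mem_sdiff, hS, orb_inv]
      have h3 := sw_union h (z0 := z0) h2 Finset.sdiff_disjoint
      rw [Finset.sdiff_union_of_subset hsub] at h3
      rw [h1, h3]
      ring
    · have hd : Disjoint S (orb h z0) := by
        rw [Finset.disjoint_left]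
        intro z hz hz2
        rw [mem_orb] at hz2
        apply h0
        obtain ⟨n, hn⟩ := hz2
        have key : ∀ n : ℤ, (h ^ n) z ∈ S := by
          intro n
          induction n using Int.induction_on with
          | zero => simpa using hz
          | succ n ih =>
            rw [add_comm, zpow_add, Perm.mul_apply, zpow_one, hS]
            exact ih
          | pred n ih =>
            rw [← hS, ← Perm.mul_apply, ← zpow_one_add]
            simpa using ih
        have h5 := key (-n)
        rw [← hn, ← Perm.mul_apply, ← zpow_add] at h5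
        simpa using h5
      have h1 : symmDiff S (orb h z0) = S ∪ orb h z0 := by
        ext z
        rw [Finset.mem_symmDiff, Finset.mem_union]
        have hh : z ∈ S → z ∉ orb h z0 := fun h => Finset.disjoint_left.mp hd h
        tauto
      rw [h1, sw_union h hS hd]
      ring
  · have h1 : ¬ ∀ z, h z ∈ symmDiff S (orb h z0) ↔ z ∈ symmDiff S (orb h z0) := by
      intro h2
      apply hS
      intro z
      have h3 := h2 z
      have h4 := orb_inv h z0 z
      rw [Finset.mem_symmDiff, Finset.mem_symmDiff] at h3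
      tauto
    have h2 : sw h S = 0 := by
      unfold sw sgnOn
      rw [dif_neg hS, mul_zero]
    have h3 : sw h (symmDiff S (orb h z0)) = 0 := by
      unfold sw sgnOn
      rw [dif_neg h1, mul_zero]
    rw [h2, h3, add_zero]

theorem cancel (h : Perm Z) (A : Finset Z) (hA : ∀ z, h z ∈ A ↔ z ∈ A) :
    ∑ S ∈ A.powerset, sw h S = if A = ∅ then 1 else 0 := by
  split_ifs with he
  · subst he
    rw [Finset.powerset_empty, Finset.sum_singleton]
    unfold sw
    rw [sgnOn_eq h ∅ (by simp)]
    have : restr h ∅ (by simp) = 1 := by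
      ext z; rw [restr_apply]; simp
    rw [this]
    simp
  · obtain ⟨z0, hz0⟩ := Finset.nonempty_iff_ne_empty.mpr he
    have hsub : orb h z0 ⊆ A := by
      intro z hz
      rw [mem_orb] at hz
      obtain ⟨n, rfl⟩ := hz
      have key : ∀ n : ℤ, (h ^ n) z0 ∈ A := by
        intro n
        induction n using Int.induction_on with
        | zero => simpa using hz0
        | succ n ih =>
          rw [add_comm, zpow_add, Perm.mul_apply, zpow_one, hA]
          exact ih
        | pred n ih =>
          rw [← hA, ← Perm.mul_apply, ← zpow_one_add]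
          simpa using ih
      exact key n
    apply Finset.sum_involution (fun S _ => symmDiff S (orb h z0))
    · intro S _
      exact sw_symm h S z0
    · intro S _ _ heq
      rw [symmDiff_eq_left] at heq
      have : z0 ∈ orb h z0 := mem_orb.mpr (Perm.SameCycle.refl _ _)
      rw [heq] at this
      simp at this
    · intro S hS
      rw [Finset.mem_powerset] at hS ⊢
      intro z hz
      rw [Finset.mem_symmDiff] at hz
      rcases hz with hz | hz
      · exact hS hz.1
      · exact hsub hz.1
    · intro S _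
      rw [symmDiff_assoc, symmDiff_self, symmDiff_bot]

/-- inner sum -/
theorem inner_sum (a b : ℕ) (h : Perm Z) :
    ∑ q : Fin a → Z, ∑ σ : Perm (Fin a), ∑ q' : Fin b → Z, ∑ σ' : Perm (Fin b),
      (if q ∘ σ = h ∘ q ∧ q' ∘ σ' = h ∘ q' ∧ ∀ z, 1 ≤ mult q z + mult q' z then
        ((Perm.sign σ' : ℤˣ) : ℤ) else 0) =
      (a.factorial : ℤ) * (b.factorial : ℤ) *
      ∑ S ∈ powersetCard b univ, ∑ μ ∈ piAntidiag univ a,
        (if (∀ z, μ (h z) = μ z) ∧ ∀ z, 1 ≤ μ z + ind S z then sgnOn h S else 0) := by
  have h1 : ∀ (q : Fin a → Z) (σ : Perm (Fin a)), ∑ q' : Fin b → Z, ∑ σ' : Perm (Fin b),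
      (if q ∘ σ = h ∘ q ∧ q' ∘ σ' = h ∘ q' ∧ ∀ z, 1 ≤ mult q z + mult q' z then
        ((Perm.sign σ' : ℤˣ) : ℤ) else 0) =
      if q ∘ σ = h ∘ q then (b.factorial : ℤ) * ∑ S ∈ powersetCard b univ, sgnOn h S *
        (if ∀ z, 1 ≤ mult q z + ind S z then 1 else 0) else 0 := by
    intro q σ
    split_ifs with hq
    · rw [← sum_sign h (fun ν => if ∀ z, 1 ≤ mult q z + ν z then 1 else 0)]
      apply Finset.sum_congr rfl
      intro q' _
      apply Finset.sum_congr rfl
      intro σ' _
      by_cases h2 : q' ∘ σ' = h ∘ q' <;> by_cases h3 : ∀ z, 1 ≤ mult q z + mult q' z <;>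
        simp [hq, h2, h3]
    · apply Finset.sum_eq_zero
      intro q' _
      apply Finset.sum_eq_zero
      intro σ' _
      rw [if_neg (fun h => hq h.1)]
  rw [Finset.sum_congr rfl (fun q _ => Finset.sum_congr rfl (fun σ _ => h1 q σ))]
  rw [sum_triv h (fun μ => (b.factorial : ℤ) * ∑ S ∈ powersetCard b univ, sgnOn h S *
        (if ∀ z, 1 ≤ μ z + ind S z then 1 else 0))]
  rw [Finset.sum_comm, mul_assoc]
  congr 1
  rw [Finset.mul_sum]
  apply Finset.sum_congr rfl
  intro μ _
  by_cases hμ : ∀ z, μ (h z) = μ z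
  · rw [if_pos hμ]
    congr 1
    apply Finset.sum_congr rfl
    intro S _
    by_cases h3 : ∀ z, 1 ≤ μ z + ind S z <;> simp [hμ, h3]
  · rw [if_neg hμ]
    symm
    rw [Finset.sum_eq_zero, mul_zero]
    intro S _
    rw [if_neg (fun h => hμ h.1)]

theorem fixedS (m : ℕ) (h : Perm Z) (S : Finset Z) :
    (if 2 * S.card ≤ m then ∑ μ ∈ piAntidiag univ (m - 2 * S.card),
      (if (∀ z, μ (h z) = μ z) ∧ ∀ z, 1 ≤ μ z + ind S z then sw h S else 0) else 0) =
    ∑ w ∈ piAntidiag univ m, (if (∀ z, w (h z) = w z) ∧ (∀ z, 1 ≤ w z) ∧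
      (∀ z ∈ S, 2 ≤ w z) then sw h S else 0) := by
  by_cases hS : ∀ z, h z ∈ S ↔ z ∈ S
  swap
  · have h0 : sw h S = 0 := by
      unfold sw sgnOn
      rw [dif_neg hS, mul_zero]
    rw [h0]
    simp
  have hcard : ∑ z, ind S z = S.card := by
    unfold ind
    simp
  have hind : ∀ z, ind S (h z) = ind S z := by
    intro z; unfold ind; simp [hS z]
  split_ifs with hm
  · rw [← Finset.sum_filter, ← Finset.sum_filter]
    apply Finset.sum_bij (fun μ _ => fun z => μ z + 2 * ind S z)
    · intro μ hμ
      rw [mem_filter, mem_piAntidiag] at hμ ⊢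
      obtain ⟨⟨h1, _⟩, h2, h3⟩ := hμ
      refine ⟨⟨?_, fun z _ => mem_univ z⟩, ?_, ?_, ?_⟩
      · rw [Finset.sum_add_distrib, ← Finset.mul_sum, hcard, h1]
        omega
      · intro z
        simp only
        rw [h2, hind]
      · intro z
        have := h3 z
        simp only
        omega
      · intro z hz
        have := h3 z
        have h4 : ind S z = 1 := by unfold ind; rw [if_pos hz]
        simp only
        omega
    · intro μ _ ν _ heq
      funext z
      have : μ z + 2 * ind S z = ν z + 2 * ind S z := congrFun heq z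
      omega
    · intro w hw
      rw [mem_filter, mem_piAntidiag] at hw
      obtain ⟨⟨h1, _⟩, h2, h3, h4⟩ := hw
      have h5 : ∀ z, 2 * ind S z ≤ w z := by
        intro z
        unfold ind
        split_ifs with hz
        · have := h4 z hz; omega
        · omega
      refine ⟨fun z => w z - 2 * ind S z, ?_, ?_⟩
      · rw [mem_filter, mem_piAntidiag]
        refine ⟨⟨?_, fun z _ => mem_univ z⟩, ?_, ?_⟩
        · rw [Finset.sum_tsub_distrib _ (fun z _ => h5 z), ← Finset.mul_sum, hcard, h1]
        · intro z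
          simp only
          rw [h2, hind]
        · intro z
          simp only
          have h6 := h3 z
          have h7 := h5 z
          by_cases hz : z ∈ S
          · have := h4 z hz
            have h8 : ind S z = 1 := by unfold ind; rw [if_pos hz]
            omega
          · have h8 : ind S z = 0 := by unfold ind; rw [if_neg hz]
            omega
      · funext z
        have := h5 z
        show w z - 2 * ind S z + 2 * ind S z = w z
        omega
    · intro μ _
      rfl
  · symm
    apply Finset.sum_eq_zero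
    intro w hw
    rw [mem_piAntidiag] at hw
    rw [if_neg]
    rintro ⟨_, h3, h4⟩
    apply hm
    rw [← hw.1, ← hcard, Finset.mul_sum]
    apply Finset.sum_le_sum
    intro z _
    unfold ind
    split_ifs with hz
    · have := h4 z hz; omega
    · omega

/-- the boson-fermion cancellation -/
theorem surj_sum (m : ℕ) (h : Perm Z) :
    ∑ b ∈ range (m / 2 + 1), ((-1 : ℚ) ^ b / ((m - 2 * b).factorial * b.factorial)) *
      ((∑ q : Fin (m - 2 * b) → Z, ∑ σ : Perm (Fin (m - 2 * b)), ∑ q' : Fin b → Z,
        ∑ σ' : Perm (Fin b),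
        (if q ∘ σ = h ∘ q ∧ q' ∘ σ' = h ∘ q' ∧ ∀ z, 1 ≤ mult q z + mult q' z then
        ((Perm.sign σ' : ℤˣ) : ℤ) else 0) : ℤ) : ℚ) =
      if Fintype.card Z = m then 1 else 0 := by
  have h1 : ∀ b ∈ range (m / 2 + 1), ((-1 : ℚ) ^ b / ((m - 2 * b).factorial * b.factorial)) *
      ((∑ q : Fin (m - 2 * b) → Z, ∑ σ : Perm (Fin (m - 2 * b)), ∑ q' : Fin b → Z,
        ∑ σ' : Perm (Fin b),
        (if q ∘ σ = h ∘ q ∧ q' ∘ σ' = h ∘ q' ∧ ∀ z, 1 ≤ mult q z + mult q' z then
        ((Perm.sign σ' : ℤˣ) : ℤ) else 0) : ℤ) : ℚ) =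
      ((∑ S : Finset Z, (if S.card = b then (if 2 * S.card ≤ m then
        ∑ μ ∈ piAntidiag univ (m - 2 * S.card),
        (if (∀ z, μ (h z) = μ z) ∧ ∀ z, 1 ≤ μ z + ind S z then sw h S else 0) else 0) else 0) : ℤ) : ℚ) := by
    intro b hb
    rw [mem_range] at hb
    rw [inner_sum]
    have h2 : (((m - 2 * b).factorial : ℤ) : ℚ) ≠ 0 := by
      exact_mod_cast (Nat.factorial_ne_zero _)
    have h3 : ((b.factorial : ℤ) : ℚ) ≠ 0 := by
      exact_mod_cast (Nat.factorial_ne_zero _)
    have h4 : ((-1 : ℚ) ^ b / ((m - 2 * b).factorial * b.factorial)) *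
      ((((m - 2 * b).factorial : ℤ) * (b.factorial : ℤ) *
      ∑ S ∈ powersetCard b univ, ∑ μ ∈ piAntidiag univ (m - 2 * b),
        (if (∀ z, μ (h z) = μ z) ∧ ∀ z, 1 ≤ μ z + ind S z then sgnOn h S else 0) : ℤ) : ℚ) =
      (((-1 : ℤ) ^ b * ∑ S ∈ powersetCard b univ, ∑ μ ∈ piAntidiag univ (m - 2 * b),
        (if (∀ z, μ (h z) = μ z) ∧ ∀ z, 1 ≤ μ z + ind S z then sgnOn h S else 0) : ℤ) : ℚ) := by
      push_cast at h2 h3 ⊢
      field_simp
    rw [h4]
    congr 1
    rw [← Finset.sum_filter]
    have h5 : powersetCard b (univ : Finset Z) = univ.filter (fun S => S.card = b) := by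
      ext S; simp
    rw [h5, Finset.mul_sum]
    apply Finset.sum_congr rfl
    intro S hS
    rw [mem_filter] at hS
    obtain ⟨_, rfl⟩ := hS
    rw [if_pos (by omega), Finset.mul_sum]
    apply Finset.sum_congr rfl
    intro μ _
    split_ifs
    · rfl
    · rw [mul_zero]
  rw [Finset.sum_congr rfl h1, ← Int.cast_sum, Finset.sum_comm]
  have h6 : ∀ S : Finset Z, ∑ b ∈ range (m / 2 + 1), (if S.card = b then (if 2 * S.card ≤ m then
        ∑ μ ∈ piAntidiag univ (m - 2 * S.card),
        (if (∀ z, μ (h z) = μ z) ∧ ∀ z, 1 ≤ μ z + ind S z then sw h S else 0) else 0) else 0) =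
      ∑ w ∈ piAntidiag univ m, (if (∀ z, w (h z) = w z) ∧ (∀ z, 1 ≤ w z) ∧
      (∀ z ∈ S, 2 ≤ w z) then sw h S else 0) := by
    intro S
    rw [← fixedS, Finset.sum_ite_eq]
    by_cases hm : 2 * S.card ≤ m
    · rw [if_pos (by rw [mem_range]; omega)]
    · rw [if_neg hm]
      simp
  rw [Finset.sum_congr rfl (fun S _ => h6 S), Finset.sum_comm]
  have h7 : ∀ w ∈ piAntidiag (univ : Finset Z) m, ∑ S : Finset Z,
      (if (∀ z, w (h z) = w z) ∧ (∀ z, 1 ≤ w z) ∧ (∀ z ∈ S, 2 ≤ w z) then sw h S else 0) =
      if w = (fun _ => 1) then 1 else 0 := by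
    intro w _
    by_cases hinv : ∀ z, w (h z) = w z
    · by_cases h1w : ∀ z, 1 ≤ w z
      · have h8 := cancel h (univ.filter (fun z => 2 ≤ w z)) (by
          intro z; simp [hinv z])
        have h9 : ∑ S : Finset Z, (if (∀ z, w (h z) = w z) ∧ (∀ z, 1 ≤ w z) ∧
            (∀ z ∈ S, 2 ≤ w z) then sw h S else 0) =
            ∑ S ∈ (univ.filter (fun z => 2 ≤ w z)).powerset, sw h S := by
          rw [← Finset.sum_filter]
          apply Finset.sum_congr _ (fun _ _ => rfl)
          ext S
          simp only [mem_filter, mem_univ, true_and, mem_powerset]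
          constructor
          · rintro ⟨_, _, h4⟩ z hz
            simp only [mem_filter, mem_univ, true_and]
            exact h4 z hz
          · intro h4
            refine ⟨hinv, h1w, ?_⟩
            intro z hz
            have := h4 hz
            simpa using this
        rw [h9, h8]
        congr 1
        rw [eq_iff_iff]
        constructor
        · intro h10
          funext z
          have h11 : z ∉ univ.filter (fun z => 2 ≤ w z) := by rw [h10]; simp
          have h12 := h1w z
          simp only [mem_filter, mem_univ, true_and] at h11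
          omega
        · rintro rfl
          ext z; simp
      · rw [if_neg]
        · apply Finset.sum_eq_zero
          intro S _
          rw [if_neg (fun h => h1w h.2.1)]
        · rintro rfl
          exact h1w (fun _ => le_refl _)
    · rw [if_neg]
      · apply Finset.sum_eq_zero
        intro S _
        rw [if_neg (fun h => hinv h.1)]
      · rintro rfl
        exact hinv (fun _ => rfl)
  rw [Finset.sum_congr rfl h7, Finset.sum_ite_eq']
  have h8 : ((fun _ => 1 : Z → ℕ) ∈ piAntidiag (univ : Finset Z) m) ↔ Fintype.card Z = m := by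
    rw [mem_piAntidiag]
    simp
  by_cases h9 : Fintype.card Z = m
  · rw [if_pos h9, if_pos (h8.mpr h9)]
    simp
  · rw [if_neg h9, if_neg (fun h => h9 (h8.mp h))]
    simp

end cancel

end Pool.Agent.Helper371.Rho
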