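import Pool.Agent.Helper371.RhoB

set_option autoImplicit false

namespace Pool.Agent.Helper371.Rho

open Finset Equiv

/-- the curvature of a matrix with entries in `ZMod 2` -/
def curv {U V : Type} (M : U → V → ZMod 2) : U → U → V → V → ZMod 2 :=
  fun i i' j j' => M i j + M i' j + M i j' + M i' j'

/-- curvatures -/
def IsCurv {U V : Type} (c : U → U → V → V → ZMod 2) : Prop := ∃ M, c = curv M

/-- pullback -/
def pull {U V P Q : Type} (f : U → P) (g : V → Q) (c : P → P → Q → Q → ZMod 2) :
    U → U → V → V → ZMod 2 := fun i i' j j' => c (f i) (f i') (g j) (g j')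

/-- transpose -/
def tr {U V : Type} (c : U → U → V → V → ZMod 2) : V → V → U → U → ZMod 2 :=
  fun j j' i i' => c i i' j j'

/-- parallel rows -/
def rp {U V : Type} (c : U → U → V → V → ZMod 2) (i i' : U) : Prop := ∀ j j', c i i' j j' = 0

/-- no two rows parallel, no two columns parallel -/
def Red {U V : Type} (c : U → U → V → V → ZMod 2) : Prop :=
  (∀ i i', rp c i i' → i = i') ∧ (∀ j j', rp (tr c) j j' → j = j')

section basic
variable {U V P Q : Type}

theorem z2 (x : ZMod 2) : x + x = 0 := by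
  revert x; decide

theorem IsCurv.pull {c : P → P → Q → Q → ZMod 2} (hc : IsCurv c) (f : U → P) (g : V → Q) :
    IsCurv (pull f g c) := by
  obtain ⟨M, rfl⟩ := hc
  exact ⟨fun i j => M (f i) (g j), rfl⟩

theorem IsCurv.tr {c : U → U → V → V → ZMod 2} (hc : IsCurv c) : IsCurv (tr c) := by
  obtain ⟨M, rfl⟩ := hc
  refine ⟨fun j i => M i j, ?_⟩
  funext j j' i i'
  simp only [Rho.tr, curv]
  ring

theorem tr_tr (c : U → U → V → V → ZMod 2) : tr (tr c) = c := rfl

theorem pull_pull {A B : Type} (f : U → P) (g : V → Q) (f' : A → U) (g' : B → V)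
    (c : P → P → Q → Q → ZMod 2) : pull f' g' (pull f g c) = pull (f ∘ f') (g ∘ g') c := rfl

theorem tr_pull (f : U → P) (g : V → Q) (c : P → P → Q → Q → ZMod 2) :
    tr (pull f g c) = pull g f (tr c) := rfl

theorem rp_refl {c : U → U → V → V → ZMod 2} (hc : IsCurv c) (i : U) : rp c i i := by
  obtain ⟨M, rfl⟩ := hc
  intro j j'
  simp only [curv]
  rw [z2, zero_add, z2]

theorem rp_left {c : U → U → V → V → ZMod 2} (hc : IsCurv c) {i i2 : U} (h : rp c i i2) (i' : U)
    (j j' : V) : c i i' j j' = c i2 i' j j' := by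
  obtain ⟨M, rfl⟩ := hc
  have h1 := h j j'
  simp only [curv] at h1 ⊢
  have h2 := z2 (M i2 j)
  have h3 := z2 (M i2 j')
  linear_combination h1 - h2 - h3

theorem rp_right {c : U → U → V → V → ZMod 2} (hc : IsCurv c) {i' i2 : U} (h : rp c i' i2) (i : U)
    (j j' : V) : c i i' j j' = c i i2 j j' := by
  obtain ⟨M, rfl⟩ := hc
  have h1 := h j j'
  simp only [curv] at h1 ⊢
  have h2 := z2 (M i2 j)
  have h3 := z2 (M i2 j')
  linear_combination h1 - h2 - h3

theorem rp_symm {c : U → U → V → V → ZMod 2} (hc : IsCurv c) {i i' : U} (h : rp c i i') :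
    rp c i' i := by
  obtain ⟨M, rfl⟩ := hc
  intro j j'
  have h1 := h j j'
  simp only [curv] at h1 ⊢
  linear_combination h1

theorem rp_trans {c : U → U → V → V → ZMod 2} (hc : IsCurv c) {i i' i2 : U} (h : rp c i i')
    (h' : rp c i' i2) : rp c i i2 := by
  intro j j'
  rw [rp_left hc h]
  exact h' j j'

/-- parallelism as an equivalence relation -/
def parSetoid {c : U → U → V → V → ZMod 2} (hc : IsCurv c) : Setoid U where
  r := rp c
  iseqv := ⟨rp_refl hc, fun h => rp_symm hc h, fun h h' => rp_trans hc h h'⟩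

/-- (P3) -/
theorem ker_of_red {c : U → U → V → V → ZMod 2} {r : P → P → Q → Q → ZMod 2} (hr : IsCurv r)
    (hred : Red r) {f : U → P} {g : V → Q} (hg : Function.Surjective g) (h : pull f g r = c)
    (i i' : U) : f i = f i' ↔ rp c i i' := by
  subst h
  constructor
  · intro h j j'
    simp only [pull]
    rw [h]
    exact rp_refl hr _ _ _
  · intro h
    apply hred.1
    intro q q'
    obtain ⟨j, rfl⟩ := hg q
    obtain ⟨j', rfl⟩ := hg q'
    exact h j j'

theorem red_tr {c : U → U → V → V → ZMod 2} (h : Red c) : Red (tr c) := ⟨h.2, h.1⟩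

/-- (P1) -/
theorem pull_inj {r r' : P → P → Q → Q → ZMod 2} {f : U → P} {g : V → Q}
    (hf : Function.Surjective f) (hg : Function.Surjective g) (h : pull f g r = pull f g r') :
    r = r' := by
  funext p p' q q'
  obtain ⟨i, rfl⟩ := hf p
  obtain ⟨i', rfl⟩ := hf p'
  obtain ⟨j, rfl⟩ := hg q
  obtain ⟨j', rfl⟩ := hg q'
  exact congrFun (congrFun (congrFun (congrFun h i) i') j) j'

/-- (P2) -/
theorem exists_factor {c : U → U → V → V → ZMod 2} (hc : IsCurv c) {f : U → P} {g : V → Q}
    (hf : Function.Surjective f) (hg : Function.Surjective g)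
    (kf : ∀ i i', f i = f i' ↔ rp c i i') (kg : ∀ j j', g j = g j' ↔ rp (tr c) j j') :
    ∃ r : P → P → Q → Q → ZMod 2, IsCurv r ∧ Red r ∧ pull f g r = c := by
  obtain ⟨s, hs⟩ := hf.hasRightInverse
  obtain ⟨t, ht⟩ := hg.hasRightInverse
  have hct : IsCurv (tr c) := hc.tr
  have e1 : ∀ i, rp c (s (f i)) i := fun i => (kf _ _).mp (hs (f i))
  have e2 : ∀ j, rp (tr c) (t (g j)) j := fun j => (kg _ _).mp (ht (g j))
  have key : ∀ i i' j j', c (s (f i)) (s (f i')) (t (g j)) (t (g j')) = c i i' j j' := by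
    intro i i' j j'
    rw [rp_left hc (e1 i), rp_right hc (e1 i')]
    have h1 := rp_left hct (e2 j) (t (g j')) i i'
    have h2 := rp_right hct (e2 j') j i i'
    simp only [tr] at h1 h2
    rw [h1, h2]
  refine ⟨pull s t c, hc.pull s t, ⟨?_, ?_⟩, ?_⟩
  · intro p p' h
    have h1 : rp c (s p) (s p') := by
      intro j j'
      have h2 := h (g j) (g j')
      simp only [pull] at h2
      obtain ⟨i, rfl⟩ := hf p
      obtain ⟨i', rfl⟩ := hf p'
      rw [key] at h2
      rw [rp_left hc (e1 i), rp_right hc (e1 i')]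
      exact h2
    have h2 := (kf _ _).mpr h1
    rw [hs, hs] at h2
    exact h2
  · intro q q' h
    have h1 : rp (tr c) (t q) (t q') := by
      intro i i'
      have h2 := h (f i) (f i')
      simp only [pull, tr] at h2
      obtain ⟨j, rfl⟩ := hg q
      obtain ⟨j', rfl⟩ := hg q'
      rw [key] at h2
      rw [rp_left hct (e2 j), rp_right hct (e2 j')]
      exact h2
    have h2 := (kg _ _).mpr h1
    rw [ht, ht] at h2
    exact h2
  · funext i i' j j'
    exact key i i' j j'

theorem exists_perm_of_surj {f : U → P} (hf : Function.Surjective f) (γ : Perm U)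
    (h : ∀ i i', f (γ i) = f (γ i') ↔ f i = f i') : ∃ α : Perm P, f ∘ γ = α ∘ f := by
  obtain ⟨s, hs⟩ := hf.hasRightInverse
  have key : ∀ i, f (γ (s (f i))) = f (γ i) := fun i => (h _ _).mpr (hs (f i))
  refine ⟨Equiv.ofBijective (fun p => f (γ (s p))) ⟨?_, ?_⟩, ?_⟩
  · intro p p' hpp
    have := (h _ _).mp hpp
    rwa [hs, hs] at this
  · intro p
    obtain ⟨i, rfl⟩ := hf p
    refine ⟨f (γ.symm i), ?_⟩
    simp only
    rw [key, Equiv.apply_symm_apply]
  · funext i
    simp only [Function.comp_apply, Equiv.ofBijective_apply]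
    exact (key i).symm

theorem perm_unique {f : U → P} (hf : Function.Surjective f) {α β : Perm P} {k : U → P}
    (h1 : k = α ∘ f) (h2 : k = β ∘ f) : α = β := by
  ext p
  obtain ⟨i, rfl⟩ := hf p
  have := congrFun (h1.symm.trans h2) i
  exact this

end basic

end Pool.Agent.Helper371.Rho
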