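import Pool.Agent.Helper371.RhoC

set_option autoImplicit false

namespace Pool.Agent.Helper371.Rho

open Finset Equiv

open Classical in
/-- number of surjections onto `Fin p` with a given kernel -/
theorem ker_count {U : Type} [Fintype U] (R : Setoid U) (p : ℕ) :
    Nat.card {f : U → Fin p // Function.Surjective f ∧ ∀ i i', f i = f i' ↔ R i i'} =
      if Nat.card (Quotient R) = p then p.factorial else 0 := by
  have e : {f : U → Fin p // Function.Surjective f ∧ ∀ i i', f i = f i' ↔ R i i'} ≃
      (Quotient R ≃ Fin p) :=
    { toFun := fun f => Equiv.ofBijective (Quotient.lift f.1 (fun a b h => (f.2.2 a b).mpr h)) (by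
        constructor
        · intro x y
          induction x using Quotient.inductionOn
          induction y using Quotient.inductionOn
          intro h
          exact Quotient.sound ((f.2.2 _ _).mp h)
        · intro z
          obtain ⟨i, hi⟩ := f.2.1 z
          exact ⟨Quotient.mk R i, hi⟩)
      invFun := fun e => ⟨fun i => e (Quotient.mk R i), by
        constructor
        · intro z
          obtain ⟨x, hx⟩ := e.surjective z
          obtain ⟨i, rfl⟩ := Quotient.exists_rep x
          exact ⟨i, hx⟩
        · intro i i'
          rw [e.injective.eq_iff]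
          exact Quotient.eq⟩
      left_inv := by
        intro f
        rfl
      right_inv := by
        intro e
        ext x
        induction x using Quotient.inductionOn
        rfl }
  rw [Nat.card_congr e, Nat.card_eq_fintype_card]
  split_ifs with h
  · rw [Nat.card_eq_fintype_card] at h
    have e2 : Quotient R ≃ Fin p := Fintype.equivFinOfCardEq h
    rw [Fintype.card_equiv e2, h]
  · rw [Fintype.card_eq_zero_iff]
    constructor
    intro e2
    apply h
    rw [Nat.card_congr e2, Nat.card_eq_fintype_card, Fintype.card_fin]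

open Classical in
/-- indicator with values in `ℚ` -/
noncomputable def ii (p : Prop) : ℚ := if p then 1 else 0

theorem ii_and (p q : Prop) : ii (p ∧ q) = ii p * ii q := by
  unfold ii; split_ifs <;> simp_all

theorem ii_true {p : Prop} (h : p) : ii p = 1 := by unfold ii; rw [if_pos h]
theorem ii_false {p : Prop} (h : ¬ p) : ii p = 0 := by unfold ii; rw [if_neg h]

theorem ii_congr {p q : Prop} (h : p ↔ q) : ii p = ii q := by
  rw [propext h]

/-- a sum of indicators with a unique solution -/
theorem sum_ii_unique {A : Type} [Fintype A] (p : A → Prop) (a : A) (ha : p a)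
    (hu : ∀ b, p b → b = a) : ∑ b, ii (p b) = 1 := by
  classical
  rw [Finset.sum_eq_single a]
  · exact ii_true ha
  · intro b _ hb
    exact ii_false (fun h => hb (hu b h))
  · intro h
    exact absurd (mem_univ a) h

theorem sum_ii_none {A : Type} [Fintype A] (p : A → Prop) (h : ∀ a, ¬ p a) :
    ∑ b, ii (p b) = 0 :=
  Finset.sum_eq_zero (fun b _ => ii_false (h b))

theorem sum_ii_card {A : Type} [Fintype A] (p : A → Prop) :
    ∑ b, ii (p b) = (Nat.card {a // p a} : ℚ) := by
  classical
  unfold ii
  rw [Finset.sum_boole, Nat.card_eq_fintype_card, Fintype.card_subtype]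

section deco
variable {U V : Type} [Fintype U] [Fintype V] [DecidableEq U] [DecidableEq V]

/-- the number of surjections `f` with `f ∘ γ = α ∘ f` -/
noncomputable def KK {p : ℕ} (γ : Perm U) (α : Perm (Fin p)) : ℚ :=
  ∑ f : U → Fin p, ii (Function.Surjective f) * ii (f ∘ γ = α ∘ f)

omit [Fintype V] [DecidableEq V] in
theorem one_side {c : U → U → V → V → ZMod 2} (hc : IsCurv c) (N : ℕ) (hN : Fintype.card U ≤ N) :
    ∑ p ∈ range (N + 1), ((p.factorial : ℚ)⁻¹) * ∑ f : U → Fin p,
      ii (Function.Surjective f) * ii (∀ i i', f i = f i' ↔ rp c i i') = 1 := by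
  classical
  have h1 : ∀ p ∈ range (N + 1), ((p.factorial : ℚ)⁻¹) * ∑ f : U → Fin p,
      ii (Function.Surjective f) * ii (∀ i i', f i = f i' ↔ rp c i i') =
      if Nat.card (Quotient (parSetoid hc)) = p then 1 else 0 := by
    intro p _
    have h2 := ker_count (parSetoid hc) p
    have h3 : ∑ f : U → Fin p, ii (Function.Surjective f) * ii (∀ i i', f i = f i' ↔ rp c i i') =
        (Nat.card {f : U → Fin p // Function.Surjective f ∧
          ∀ i i', f i = f i' ↔ (parSetoid hc) i i'} : ℚ) := by
      rw [← sum_ii_card]
      apply Finset.sum_congr rfl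
      intro f _
      rw [ii_and]
      rfl
    rw [h3, h2]
    split_ifs with h4
    · have : (p.factorial : ℚ) ≠ 0 := by exact_mod_cast Nat.factorial_ne_zero p
      field_simp
    · simp
  rw [Finset.sum_congr rfl h1, Finset.sum_ite_eq, if_pos]
  rw [mem_range]
  have : Nat.card (Quotient (parSetoid hc)) ≤ Fintype.card U := by
    rw [Nat.card_eq_fintype_card]
    exact Fintype.card_le_of_surjective _ Quotient.mk_surjective
  omega

omit [DecidableEq U] [DecidableEq V] [Fintype U] [Fintype V] in
/-- transport of the fixed point condition -/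
theorem two_side {p q : ℕ} {r : Fin p → Fin p → Fin q → Fin q → ZMod 2} (hr : IsCurv r)
    (hred : Red r) {f : U → Fin p} {g : V → Fin q} (hf : Function.Surjective f)
    (hg : Function.Surjective g) (γ : Perm U) (γ' : Perm V) :
    ∑ α : Perm (Fin p), ∑ β : Perm (Fin q),
      ii (f ∘ γ = α ∘ f) * ii (g ∘ γ' = β ∘ g) * ii (pull α β r = r) =
      ii (pull γ γ' (pull f g r) = pull f g r) := by
  have hgo : ∀ (α : Perm (Fin p)) (β : Perm (Fin q)), f ∘ γ = α ∘ f → g ∘ γ' = β ∘ g →
      (pull α β r = r ↔ pull γ γ' (pull f g r) = pull f g r) := by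
    intro α β h1 h2
    rw [pull_pull, h1, h2, ← pull_pull]
    constructor
    · intro h; rw [h]
    · intro h; exact pull_inj hf hg h
  by_cases hfix : pull γ γ' (pull f g r) = pull f g r
  · rw [ii_true hfix]
    have kf := ker_of_red hr hred (f := f) hg rfl
    have kg := ker_of_red hr.tr (red_tr hred) (f := g) (g := f) (c := tr (pull f g r)) hf rfl
    obtain ⟨α, hα⟩ := exists_perm_of_surj hf γ (by
      intro i i'
      rw [kf, kf]
      constructor
      · intro h j j'
        rw [← hfix]
        exact h _ _
      · intro h j j'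
        have h1 := h (γ'.symm j) (γ'.symm j')
        rw [← hfix] at h1
        simp only [pull, Equiv.apply_symm_apply] at h1
        exact h1)
    obtain ⟨β, hβ⟩ := exists_perm_of_surj hg γ' (by
      intro i i'
      rw [kg, kg]
      constructor
      · intro h j j'
        rw [← hfix]
        exact h _ _
      · intro h j j'
        have h1 := h (γ.symm j) (γ.symm j')
        rw [← hfix] at h1
        simp only [pull, tr, Equiv.apply_symm_apply] at h1
        exact h1)
    rw [Finset.sum_eq_single α]
    · rw [Finset.sum_eq_single β]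
      · rw [ii_true hα, ii_true hβ, ii_true ((hgo α β hα hβ).mpr hfix)]
        norm_num
      · intro β' _ hne
        have : ¬ (g ∘ γ' = β' ∘ g) := fun h => hne (perm_unique hg h hβ)
        rw [ii_false this]
        ring
      · intro h; exact absurd (mem_univ _) h
    · intro α' _ hne
      have : ¬ (f ∘ γ = α' ∘ f) := fun h => hne (perm_unique hf h hα)
      apply Finset.sum_eq_zero
      intro β' _
      rw [ii_false this]
      ring
    · intro h; exact absurd (mem_univ _) h
  · rw [ii_false hfix]
    apply Finset.sum_eq_zero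
    intro α _
    apply Finset.sum_eq_zero
    intro β _
    by_cases h1 : f ∘ γ = α ∘ f
    · by_cases h2 : g ∘ γ' = β ∘ g
      · have h3 : ¬ (pull α β r = r) := fun h => hfix ((hgo α β h1 h2).mp h)
        rw [ii_false h3]
        ring
      · rw [ii_false h2]
        ring
    · rw [ii_false h1]
      ring

/-- the number of fixed curvatures decomposes -/
theorem decomp (γ : Perm U) (γ' : Perm V) (N : ℕ) (hU : Fintype.card U ≤ N)
    (hV : Fintype.card V ≤ N) :
    ∑ c : U → U → V → V → ZMod 2, ii (IsCurv c) * ii (pull γ γ' c = c) =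
    ∑ p ∈ range (N + 1), ∑ q ∈ range (N + 1), ((p.factorial : ℚ)⁻¹) * ((q.factorial : ℚ)⁻¹) *
      ∑ α : Perm (Fin p), ∑ β : Perm (Fin q), KK γ α * KK γ' β *
        ∑ r : Fin p → Fin p → Fin q → Fin q → ZMod 2, ii (IsCurv r) * ii (Red r) *
          ii (pull α β r = r) := by
  classical
  -- expand each fixed curvature
  have h1 : ∀ c : U → U → V → V → ZMod 2, ii (IsCurv c) * ii (pull γ γ' c = c) =
      ∑ p ∈ range (N + 1), ∑ q ∈ range (N + 1), ((p.factorial : ℚ)⁻¹) * ((q.factorial : ℚ)⁻¹) *
        ∑ f : U → Fin p, ∑ g : V → Fin q,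
          ∑ r : Fin p → Fin p → Fin q → Fin q → ZMod 2,
          ii (Function.Surjective f) * ii (Function.Surjective g) * (ii (IsCurv r) * ii (Red r)) *
            ii (pull f g r = c) * ii (pull γ γ' c = c) := by
    intro c
    by_cases hc : IsCurv c
    · rw [ii_true hc, one_mul]
      have hA := one_side hc N hU
      have hB := one_side hc.tr N hV
      have hC : ∑ p ∈ range (N + 1), ∑ q ∈ range (N + 1),
          ((p.factorial : ℚ)⁻¹) * ((q.factorial : ℚ)⁻¹) *
          ∑ f : U → Fin p, ∑ g : V → Fin q,
            (ii (Function.Surjective f) * ii (∀ i i', f i = f i' ↔ rp c i i')) *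
            (ii (Function.Surjective g) * ii (∀ i i', g i = g i' ↔ rp (tr c) i i')) = 1 := by
        have h2 : (∑ p ∈ range (N + 1), ((p.factorial : ℚ)⁻¹) * ∑ f : U → Fin p,
            ii (Function.Surjective f) * ii (∀ i i', f i = f i' ↔ rp c i i')) *
            (∑ p ∈ range (N + 1), ((p.factorial : ℚ)⁻¹) * ∑ f : V → Fin p,
            ii (Function.Surjective f) * ii (∀ i i', f i = f i' ↔ rp (tr c) i i')) = 1 := by
          rw [hA, hB]; norm_num
        rw [← h2, Finset.sum_mul_sum]
        apply Finset.sum_congr rfl
        intro p _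
        apply Finset.sum_congr rfl
        intro q _
        rw [← Finset.sum_mul_sum]
        ring
      have hD : ii (pull γ γ' c = c) = 1 * ii (pull γ γ' c = c) := (one_mul _).symm
      conv_lhs => rw [hD, ← hC, Finset.sum_mul]
      apply Finset.sum_congr rfl
      intro p _
      rw [Finset.sum_mul]
      apply Finset.sum_congr rfl
      intro q _
      rw [mul_assoc]
      congr 1
      rw [Finset.sum_mul]
      apply Finset.sum_congr rfl
      intro f _
      rw [Finset.sum_mul]
      apply Finset.sum_congr rfl
      intro g _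
      rw [← Finset.sum_mul]
      congr 1
      by_cases hf : Function.Surjective f
      swap
      · rw [ii_false hf]; simp
      by_cases hg : Function.Surjective g
      swap
      · rw [ii_false hg]; simp
      rw [ii_true hf, ii_true hg]
      simp only [one_mul]
      rw [← ii_and]
      have h2 : ∑ r : Fin p → Fin p → Fin q → Fin q → ZMod 2, ii (IsCurv r) * ii (Red r) *
          ii (pull f g r = c) = ∑ r : Fin p → Fin p → Fin q → Fin q → ZMod 2,
          ii (IsCurv r ∧ Red r ∧ pull f g r = c) := by
        apply Finset.sum_congr rfl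
        intro r _
        rw [ii_and, ii_and, mul_assoc]
      rw [h2]
      by_cases hk : (∀ i i', f i = f i' ↔ rp c i i') ∧ (∀ i i', g i = g i' ↔ rp (tr c) i i')
      · rw [ii_true hk]
        obtain ⟨r, hr1, hr2, hr3⟩ := exists_factor hc hf hg hk.1 hk.2
        rw [sum_ii_unique _ r ⟨hr1, hr2, hr3⟩]
        rintro r' ⟨_, _, h5⟩
        exact pull_inj hf hg (h5.trans hr3.symm)
      · rw [ii_false hk, sum_ii_none]
        rintro r ⟨hr1, hr2, hr3⟩
        apply hk
        exact ⟨ker_of_red hr1 hr2 hg hr3,
          ker_of_red hr1.tr (red_tr hr2) hf (by rw [← hr3]; rfl)⟩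
    · rw [ii_false hc, zero_mul]
      symm
      apply Finset.sum_eq_zero
      intro p _
      apply Finset.sum_eq_zero
      intro q _
      have : ∑ f : U → Fin p, ∑ g : V → Fin q, ∑ r : Fin p → Fin p → Fin q → Fin q → ZMod 2,
          ii (Function.Surjective f) * ii (Function.Surjective g) * (ii (IsCurv r) * ii (Red r)) *
            ii (pull f g r = c) * ii (pull γ γ' c = c) = 0 := by
        apply Finset.sum_eq_zero
        intro f _
        apply Finset.sum_eq_zero
        intro g _
        apply Finset.sum_eq_zero
        intro r _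
        by_cases hr : IsCurv r
        · have : ¬ (pull f g r = c) := by
            rintro rfl
            exact hc (hr.pull f g)
          rw [ii_false this]; ring
        · rw [ii_false hr]; ring
      rw [this, mul_zero]
  rw [Finset.sum_congr rfl (fun c _ => h1 c), Finset.sum_comm]
  apply Finset.sum_congr rfl
  intro p _
  rw [Finset.sum_comm]
  apply Finset.sum_congr rfl
  intro q _
  rw [← Finset.mul_sum]
  congr 1
  -- collapse the sum over `c`
  rw [Finset.sum_comm]
  have h3 : ∀ (f : U → Fin p) (g : V → Fin q), ∑ c : U → U → V → V → ZMod 2,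
      ∑ r : Fin p → Fin p → Fin q → Fin q → ZMod 2,
        ii (Function.Surjective f) * ii (Function.Surjective g) * (ii (IsCurv r) * ii (Red r)) *
            ii (pull f g r = c) * ii (pull γ γ' c = c) =
      ∑ α : Perm (Fin p), ∑ β : Perm (Fin q), (ii (Function.Surjective f) * ii (f ∘ γ = α ∘ f)) *
        (ii (Function.Surjective g) * ii (g ∘ γ' = β ∘ g)) *
        ∑ r : Fin p → Fin p → Fin q → Fin q → ZMod 2, ii (IsCurv r) * ii (Red r) *
          ii (pull α β r = r) := by
    intro f g
    rw [Finset.sum_comm]
    have h4 : ∀ r : Fin p → Fin p → Fin q → Fin q → ZMod 2, ∑ c : U → U → V → V → ZMod 2,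
        ii (Function.Surjective f) * ii (Function.Surjective g) * (ii (IsCurv r) * ii (Red r)) *
            ii (pull f g r = c) * ii (pull γ γ' c = c) =
        ∑ α : Perm (Fin p), ∑ β : Perm (Fin q), (ii (Function.Surjective f) * ii (f ∘ γ = α ∘ f)) *
        (ii (Function.Surjective g) * ii (g ∘ γ' = β ∘ g)) *
        (ii (IsCurv r) * ii (Red r) * ii (pull α β r = r)) := by
      intro r
      rw [Finset.sum_eq_single (pull f g r)]
      · rw [ii_true (p := pull f g r = pull f g r) rfl, mul_one]
        by_cases hf : Function.Surjective f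
        swap
        · rw [ii_false hf]; simp
        by_cases hg : Function.Surjective g
        swap
        · rw [ii_false hg]; simp
        by_cases hr : IsCurv r
        swap
        · rw [ii_false hr]; simp
        by_cases hred : Red r
        swap
        · rw [ii_false hred]; simp
        rw [← two_side hr hred hf hg γ γ', ii_true hf, ii_true hg, ii_true hr, ii_true hred]
        simp only [one_mul]
      · intro c _ hne
        rw [ii_false (p := pull f g r = c) (fun h => hne h.symm)]
        ring
      · intro h; exact absurd (mem_univ _) h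
    rw [Finset.sum_congr rfl (fun r _ => h4 r), Finset.sum_comm]
    apply Finset.sum_congr rfl
    intro α _
    rw [Finset.sum_comm]
    apply Finset.sum_congr rfl
    intro β _
    rw [Finset.mul_sum]
  have h5 : ∀ f : U → Fin p, ∑ c : U → U → V → V → ZMod 2, ∑ g : V → Fin q,
      ∑ r : Fin p → Fin p → Fin q → Fin q → ZMod 2,
        ii (Function.Surjective f) * ii (Function.Surjective g) * (ii (IsCurv r) * ii (Red r)) *
            ii (pull f g r = c) * ii (pull γ γ' c = c) =
      ∑ g : V → Fin q, ∑ α : Perm (Fin p), ∑ β : Perm (Fin q),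
        (ii (Function.Surjective f) * ii (f ∘ γ = α ∘ f)) *
        (ii (Function.Surjective g) * ii (g ∘ γ' = β ∘ g)) *
        ∑ r : Fin p → Fin p → Fin q → Fin q → ZMod 2, ii (IsCurv r) * ii (Red r) *
          ii (pull α β r = r) := by
    intro f
    rw [Finset.sum_comm]
    exact Finset.sum_congr rfl (fun g _ => h3 f g)
  rw [Finset.sum_congr rfl (fun f _ => h5 f)]
  -- rearrange
  unfold KK
  have h6 : ∀ f : U → Fin p, ∑ g : V → Fin q, ∑ α : Perm (Fin p), ∑ β : Perm (Fin q),
        (ii (Function.Surjective f) * ii (f ∘ γ = α ∘ f)) *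
        (ii (Function.Surjective g) * ii (g ∘ γ' = β ∘ g)) *
        ∑ r : Fin p → Fin p → Fin q → Fin q → ZMod 2, ii (IsCurv r) * ii (Red r) *
          ii (pull α β r = r) = ∑ α : Perm (Fin p), ∑ β : Perm (Fin q),
          (ii (Function.Surjective f) * ii (f ∘ γ = α ∘ f)) *
          ((∑ g : V → Fin q, (ii (Function.Surjective g) * ii (g ∘ γ' = β ∘ g))) *
          ∑ r : Fin p → Fin p → Fin q → Fin q → ZMod 2, ii (IsCurv r) * ii (Red r) *
          ii (pull α β r = r)) := by
    intro f
    rw [Finset.sum_comm]
    apply Finset.sum_congr rfl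
    intro α _
    rw [Finset.sum_comm]
    apply Finset.sum_congr rfl
    intro β _
    rw [Finset.sum_mul, Finset.mul_sum]
    apply Finset.sum_congr rfl
    intro g _
    ring
  rw [Finset.sum_congr rfl (fun f _ => h6 f), Finset.sum_comm]
  apply Finset.sum_congr rfl
  intro α _
  rw [Finset.sum_comm]
  apply Finset.sum_congr rfl
  intro β _
  rw [← Finset.sum_mul]
  ring

end deco

end Pool.Agent.Helper371.Rho
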