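import Pool.Agent.Helper371.SDefs

set_option autoImplicit false

namespace Pool.Agent.Helper371

/-- The `d`-regular S-graphs of diameter four on the vertex sets `Fin n`, for all `n`. Every finite
graph is isomorphic to a graph on some `Fin n`. -/
def RegSGraph4 (d : ℕ) : Type :=
  {x : (n : ℕ) × SimpleGraph (Fin n) //
    (∀ v, (x.2.neighborSet v).ncard = d) ∧ IsSGraph x.2 ∧ x.2.diam = 4}

/-- Isomorphism of graphs, as an equivalence relation on `RegSGraph4 d`. -/
def isoSetoid (d : ℕ) : Setoid (RegSGraph4 d) where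
  r x y := Nonempty (x.1.2 ≃g y.1.2)
  iseqv := ⟨fun _ => ⟨SimpleGraph.Iso.refl⟩, fun ⟨f⟩ => ⟨f.symm⟩, fun ⟨f⟩ ⟨g⟩ => ⟨f.trans g⟩⟩

/-- The isomorphism classes of the `d`-regular S-graphs of diameter four. -/
abbrev IsoClasses (d : ℕ) : Type := Quotient (isoSetoid d)

/-- `ρ(d)`, the number of the isomorphism classes of the `d`-regular S-graphs of diameter four. -/
noncomputable def rho (d : ℕ) : ℕ := Nat.card (IsoClasses d)

/-- `z(A) = ∏ i ^ mᵢ * mᵢ!`, where `mᵢ` is the multiplicity of `i` in the multiset `A`. -/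
def zee (A : Multiset ℕ) : ℕ := A.prod * ∏ n ∈ A.toFinset, (A.count n).factorial

/-- The sum of `gcd(a, b)` over the pairs `a ∈ A`, `b ∈ B`. -/
def gcdSum (A B : Multiset ℕ) : ℕ := (A.map fun a => (B.map fun b => Nat.gcd a b).sum).sum

/-- The number of the `a ∈ A` whose exponent of two is less than those of all `b ∈ B`, plus the
number of the `b ∈ B` whose exponent of two is less than those of all `a ∈ A`; but `1` if this sum
is `0`. -/
def eps (A B : Multiset ℕ) : ℕ :=
  max 1 ((A.filter fun a => ∀ b ∈ B, padicValNat 2 a < padicValNat 2 b).card +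
    (B.filter fun b => ∀ a ∈ A, padicValNat 2 b < padicValNat 2 a).card)

/-- The number of the odd elements of `A`. -/
def oddCount (A : Multiset ℕ) : ℕ := (A.filter fun a => Odd a).card

/-- The alternating sum of `F (l + k) / (z(l) z(k))` over the partitions `l` of `d - 2 b` and
`k` of `b`, for all `b ≤ d / 2`; the sign is the parity of the number of the parts of `k`. -/
def altSum (d : ℕ) (F : Multiset ℕ → ℚ) : ℚ :=
  ∑ b ∈ Finset.range (d / 2 + 1), ∑ l : (d - 2 * b).Partition, ∑ k : b.Partition,
    (-1) ^ k.parts.card / (zee l.parts * zee k.parts) * F (l.parts + k.parts)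

/-- The first half of the count. -/
def RR (d : ℕ) : ℚ :=
  altSum d fun A => altSum d fun B => 2 ^ (gcdSum A B + eps A B) / 2 ^ (A.card + B.card)

/-- The second half of the count. -/
def SS (d : ℕ) : ℚ :=
  altSum d fun A => 2 ^ ((gcdSum A A + oddCount A) / 2 + (if oddCount A = 0 then 1 else 0)) /
    2 ^ A.card

end Pool.Agent.Helper371
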