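import Pool.Agent.Helper371.RhoD

set_option autoImplicit false

namespace Pool.Agent.Helper371.Rho

open Finset Equiv

section swap
variable {U : Type} [Fintype U] [DecidableEq U]

omit [Fintype U] [DecidableEq U] in
theorem rp_swap {c : U → U → U → U → ZMod 2} (γ : Perm U) (hfix : tr (pull γ id c) = c) (i i' : U) :
    rp (tr c) i i' ↔ rp c i i' := by
  constructor
  · intro h j j'
    rw [← hfix]
    exact h _ _
  · intro h k k'
    have h1 := h (γ.symm k) (γ.symm k')
    rw [← hfix] at h1
    simp only [tr, pull, Equiv.apply_symm_apply, id] at h1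
    exact h1

omit [Fintype U] [DecidableEq U] in
theorem rp_swap2 {c : U → U → U → U → ZMod 2} (γ : Perm U) (hfix : tr (pull γ id c) = c) (i i' : U) :
    rp c (γ i) (γ i') ↔ rp c i i' := by
  rw [← rp_swap γ hfix i i']
  have h2 : tr c = pull γ id c := by
    conv_lhs => rw [← hfix]
    rfl
  rw [h2]
  rfl

omit [Fintype U] [DecidableEq U] in
theorem two_side' {p : ℕ} {r : Fin p → Fin p → Fin p → Fin p → ZMod 2} (hr : IsCurv r)
    (hred : Red r) {f : U → Fin p} (hf : Function.Surjective f) (γ : Perm U) :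
    ∑ α : Perm (Fin p), ii (f ∘ γ = α ∘ f) * ii (tr (pull α id r) = r) =
      ii (tr (pull γ id (pull f f r)) = pull f f r) := by
  have hgo : ∀ (α : Perm (Fin p)), f ∘ γ = α ∘ f →
      (tr (pull α id r) = r ↔ tr (pull γ id (pull f f r)) = pull f f r) := by
    intro α h1
    have h2 : tr (pull γ id (pull f f r)) = pull f f (tr (pull α id r)) := by
      have h3 : pull γ id (pull f f r) = pull (f ∘ γ) f r := rfl
      rw [h3, h1]
      rfl
    rw [h2]
    constructor
    · intro h; rw [h]
    · intro h; exact pull_inj hf hf h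
  by_cases hfix : tr (pull γ id (pull f f r)) = pull f f r
  · rw [ii_true hfix]
    have kf := ker_of_red hr hred (f := f) (g := f) hf rfl
    obtain ⟨α, hα⟩ := exists_perm_of_surj hf γ (by
      intro i i'
      rw [kf, kf]
      exact rp_swap2 γ hfix i i')
    rw [Finset.sum_eq_single α]
    · rw [ii_true hα, ii_true ((hgo α hα).mpr hfix)]
      norm_num
    · intro α' _ hne
      have : ¬ (f ∘ γ = α' ∘ f) := fun h => hne (perm_unique hf h hα)
      rw [ii_false this]
      ring
    · intro h; exact absurd (mem_univ _) h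
  · rw [ii_false hfix]
    apply Finset.sum_eq_zero
    intro α _
    by_cases h1 : f ∘ γ = α ∘ f
    · have h3 : ¬ (tr (pull α id r) = r) := fun h => hfix ((hgo α h1).mp h)
      rw [ii_false h3]
      ring
    · rw [ii_false h1]
      ring

/-- the number of fixed curvatures decomposes, swap version -/
theorem decomp' (γ : Perm U) (N : ℕ) (hU : Fintype.card U ≤ N) :
    ∑ c : U → U → U → U → ZMod 2, ii (IsCurv c) * ii (tr (pull γ id c) = c) =
    ∑ p ∈ range (N + 1), ((p.factorial : ℚ)⁻¹) *
      ∑ α : Perm (Fin p), KK γ α *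
        ∑ r : Fin p → Fin p → Fin p → Fin p → ZMod 2, ii (IsCurv r) * ii (Red r) *
          ii (tr (pull α id r) = r) := by
  classical
  have h1 : ∀ c : U → U → U → U → ZMod 2, ii (IsCurv c) * ii (tr (pull γ id c) = c) =
      ∑ p ∈ range (N + 1), ((p.factorial : ℚ)⁻¹) *
        ∑ f : U → Fin p, ∑ r : Fin p → Fin p → Fin p → Fin p → ZMod 2,
          ii (Function.Surjective f) * (ii (IsCurv r) * ii (Red r)) *
            ii (pull f f r = c) * ii (tr (pull γ id c) = c) := by
    intro c
    by_cases hc : IsCurv c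
    · by_cases hfix : tr (pull γ id c) = c
      swap
      · rw [ii_false hfix]; simp
      rw [ii_true hc, ii_true hfix, mul_one]
      have hA := one_side hc N hU
      refine hA.symm.trans ?_
      apply Finset.sum_congr rfl
      intro p _
      congr 1
      apply Finset.sum_congr rfl
      intro f _
      by_cases hf : Function.Surjective f
      swap
      · rw [ii_false hf]; simp
      rw [ii_true hf, one_mul]
      have h2 : ∑ r : Fin p → Fin p → Fin p → Fin p → ZMod 2, 1 * (ii (IsCurv r) * ii (Red r)) *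
          ii (pull f f r = c) * 1 = ∑ r : Fin p → Fin p → Fin p → Fin p → ZMod 2,
          ii (IsCurv r ∧ Red r ∧ pull f f r = c) := by
        apply Finset.sum_congr rfl
        intro r _
        rw [ii_and, ii_and]
        ring
      rw [h2]
      by_cases hk : (∀ i i', f i = f i' ↔ rp c i i')
      · rw [ii_true hk]
        obtain ⟨r, hr1, hr2, hr3⟩ := exists_factor hc hf hf hk (by
          intro j j'
          rw [hk, rp_swap γ hfix])
        rw [sum_ii_unique _ r ⟨hr1, hr2, hr3⟩]
        rintro r' ⟨_, _, h5⟩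
        exact pull_inj hf hf (h5.trans hr3.symm)
      · rw [ii_false hk, sum_ii_none]
        rintro r ⟨hr1, hr2, hr3⟩
        exact hk (ker_of_red hr1 hr2 hf hr3)
    · rw [ii_false hc, zero_mul]
      symm
      apply Finset.sum_eq_zero
      intro p _
      have : ∑ f : U → Fin p, ∑ r : Fin p → Fin p → Fin p → Fin p → ZMod 2,
          ii (Function.Surjective f) * (ii (IsCurv r) * ii (Red r)) *
            ii (pull f f r = c) * ii (tr (pull γ id c) = c) = 0 := by
        apply Finset.sum_eq_zero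
        intro f _
        apply Finset.sum_eq_zero
        intro r _
        by_cases hr : IsCurv r
        · have : ¬ (pull f f r = c) := by
            rintro rfl
            exact hc (hr.pull f f)
          rw [ii_false this]; ring
        · rw [ii_false hr]; ring
      rw [this, mul_zero]
  rw [Finset.sum_congr rfl (fun c _ => h1 c), Finset.sum_comm]
  apply Finset.sum_congr rfl
  intro p _
  rw [← Finset.mul_sum]
  congr 1
  rw [Finset.sum_comm]
  have h3 : ∀ f : U → Fin p, ∑ c : U → U → U → U → ZMod 2,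
      ∑ r : Fin p → Fin p → Fin p → Fin p → ZMod 2,
        ii (Function.Surjective f) * (ii (IsCurv r) * ii (Red r)) *
            ii (pull f f r = c) * ii (tr (pull γ id c) = c) =
      ∑ α : Perm (Fin p), (ii (Function.Surjective f) * ii (f ∘ γ = α ∘ f)) *
        ∑ r : Fin p → Fin p → Fin p → Fin p → ZMod 2, ii (IsCurv r) * ii (Red r) *
          ii (tr (pull α id r) = r) := by
    intro f
    rw [Finset.sum_comm]
    have h4 : ∀ r : Fin p → Fin p → Fin p → Fin p → ZMod 2, ∑ c : U → U → U → U → ZMod 2,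
        ii (Function.Surjective f) * (ii (IsCurv r) * ii (Red r)) *
            ii (pull f f r = c) * ii (tr (pull γ id c) = c) =
        ∑ α : Perm (Fin p), (ii (Function.Surjective f) * ii (f ∘ γ = α ∘ f)) *
        (ii (IsCurv r) * ii (Red r) * ii (tr (pull α id r) = r)) := by
      intro r
      rw [Finset.sum_eq_single (pull f f r)]
      · rw [ii_true (p := pull f f r = pull f f r) rfl, mul_one]
        by_cases hf : Function.Surjective f
        swap
        · rw [ii_false hf]; simp
        by_cases hr : IsCurv r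
        swap
        · rw [ii_false hr]; simp
        by_cases hred : Red r
        swap
        · rw [ii_false hred]; simp
        rw [← two_side' hr hred hf γ, ii_true hf, ii_true hr, ii_true hred]
        simp only [one_mul]
      · intro c _ hne
        rw [ii_false (p := pull f f r = c) (fun h => hne h.symm)]
        ring
      · intro h; exact absurd (mem_univ _) h
    rw [Finset.sum_congr rfl (fun r _ => h4 r), Finset.sum_comm]
    apply Finset.sum_congr rfl
    intro α _
    rw [Finset.mul_sum]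
  rw [Finset.sum_congr rfl (fun f _ => h3 f), Finset.sum_comm]
  apply Finset.sum_congr rfl
  intro α _
  unfold KK
  rw [Finset.sum_mul]

end swap

/-- the alternating sum -/
noncomputable def W (m : ℕ) (F : ∀ b : ℕ, Perm (Fin (m - 2 * b) ⊕ Fin b) → ℚ) : ℚ :=
  ∑ b ∈ range (m / 2 + 1), ((-1 : ℚ) ^ b / ((m - 2 * b).factorial * b.factorial)) *
    ∑ σ : Perm (Fin (m - 2 * b)), ∑ σ' : Perm (Fin b),
      (((Perm.sign σ' : ℤˣ) : ℤ) : ℚ) * F b (Equiv.sumCongr σ σ')

theorem W_congr (m : ℕ) {F F' : ∀ b : ℕ, Perm (Fin (m - 2 * b) ⊕ Fin b) → ℚ}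
    (h : ∀ b ∈ range (m / 2 + 1), ∀ γ, F b γ = F' b γ) : W m F = W m F' := by
  unfold W
  apply Finset.sum_congr rfl
  intro b hb
  congr 1
  apply Finset.sum_congr rfl
  intro σ _
  apply Finset.sum_congr rfl
  intro σ' _
  rw [h b hb]

theorem W_mul (m : ℕ) (a : ℚ) (F : ∀ b : ℕ, Perm (Fin (m - 2 * b) ⊕ Fin b) → ℚ) :
    W m (fun b γ => F b γ * a) = W m F * a := by
  unfold W
  rw [Finset.sum_mul]
  apply Finset.sum_congr rfl
  intro b _
  rw [mul_assoc]
  congr 1
  rw [Finset.sum_mul]
  apply Finset.sum_congr rfl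
  intro σ _
  rw [Finset.sum_mul]
  apply Finset.sum_congr rfl
  intro σ' _
  ring

theorem W_sum {A : Type} (s : Finset A) (m : ℕ)
    (F : A → ∀ b : ℕ, Perm (Fin (m - 2 * b) ⊕ Fin b) → ℚ) :
    W m (fun b γ => ∑ x ∈ s, F x b γ) = ∑ x ∈ s, W m (F x) := by
  unfold W
  simp only [Finset.mul_sum]
  conv_rhs => rw [Finset.sum_comm]
  apply Finset.sum_congr rfl
  intro b _
  conv_rhs => rw [Finset.sum_comm]
  apply Finset.sum_congr rfl
  intro σ _
  conv_rhs => rw [Finset.sum_comm]

theorem W_KK (m p : ℕ) (α : Perm (Fin p)) :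
    W m (fun _ γ => KK γ α) = if p = m then 1 else 0 := by
  classical
  have h1 := surj_sum m α
  rw [Fintype.card_fin] at h1
  rw [← h1]
  unfold W
  apply Finset.sum_congr rfl
  intro b _
  congr 1
  push_cast
  -- reorganise
  have h2 : ∀ (σ : Perm (Fin (m - 2 * b))) (σ' : Perm (Fin b)),
      (((Perm.sign σ' : ℤˣ) : ℤ) : ℚ) * KK (Equiv.sumCongr σ σ') α =
      ∑ q : Fin (m - 2 * b) → Fin p, ∑ q' : Fin b → Fin p,
        (if q ∘ σ = α ∘ q ∧ q' ∘ σ' = α ∘ q' ∧ ∀ z, 1 ≤ mult q z + mult q' z then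
        (((Perm.sign σ' : ℤˣ) : ℤ) : ℚ) else 0) := by
    intro σ σ'
    unfold KK
    rw [Finset.mul_sum, ← Fintype.sum_prod_type']
    apply Fintype.sum_equiv (Equiv.sumArrowEquivProdArrow _ _ _)
    intro f
    have e1 : Function.Surjective f ↔ ∀ z, 1 ≤
        mult (Equiv.sumArrowEquivProdArrow _ _ _ f).1 z +
        mult (Equiv.sumArrowEquivProdArrow _ _ _ f).2 z := by
      constructor
      · intro hf z
        obtain ⟨x, hx⟩ := hf z
        rcases x with i | i
        · have : 1 ≤ mult (Equiv.sumArrowEquivProdArrow _ _ _ f).1 z := by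
            unfold mult
            rw [Nat.succ_le_iff, Finset.card_pos]
            exact ⟨i, Finset.mem_filter.mpr ⟨mem_univ _, hx⟩⟩
          omega
        · have : 1 ≤ mult (Equiv.sumArrowEquivProdArrow _ _ _ f).2 z := by
            unfold mult
            rw [Nat.succ_le_iff, Finset.card_pos]
            exact ⟨i, Finset.mem_filter.mpr ⟨mem_univ _, hx⟩⟩
          omega
      · intro h z
        have h3 := h z
        by_cases h4 : 1 ≤ mult (Equiv.sumArrowEquivProdArrow _ _ _ f).1 z
        · unfold mult at h4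
          rw [Nat.succ_le_iff, Finset.card_pos] at h4
          obtain ⟨i, hi⟩ := h4
          exact ⟨Sum.inl i, (Finset.mem_filter.mp hi).2⟩
        · have h5 : 1 ≤ mult (Equiv.sumArrowEquivProdArrow _ _ _ f).2 z := by omega
          unfold mult at h5
          rw [Nat.succ_le_iff, Finset.card_pos] at h5
          obtain ⟨i, hi⟩ := h5
          exact ⟨Sum.inr i, (Finset.mem_filter.mp hi).2⟩
    have e2 : f ∘ (Equiv.sumCongr σ σ') = α ∘ f ↔
        (Equiv.sumArrowEquivProdArrow _ _ _ f).1 ∘ σ = α ∘ (Equiv.sumArrowEquivProdArrow _ _ _ f).1 ∧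
        (Equiv.sumArrowEquivProdArrow _ _ _ f).2 ∘ σ' = α ∘ (Equiv.sumArrowEquivProdArrow _ _ _ f).2 := by
      constructor
      · intro h
        constructor
        · funext i
          exact congrFun h (Sum.inl i)
        · funext i
          exact congrFun h (Sum.inr i)
      · rintro ⟨h3, h4⟩
        funext x
        rcases x with i | i
        · exact congrFun h3 i
        · exact congrFun h4 i
    rw [← ii_and, ii_congr (and_congr e1 e2)]
    unfold ii
    split_ifs with h5 h6 h6
    · rw [mul_one]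
    · exact absurd ⟨h5.2.1, h5.2.2, h5.1⟩ h6
    · exact absurd ⟨h6.2.2, h6.1, h6.2.1⟩ h5
    · rw [mul_zero]
  rw [Finset.sum_congr rfl (fun σ _ => Finset.sum_congr rfl (fun σ' _ => h2 σ σ'))]
  have h3 : ∀ σ : Perm (Fin (m - 2 * b)), ∑ σ' : Perm (Fin b), ∑ q : Fin (m - 2 * b) → Fin p,
      ∑ q' : Fin b → Fin p,
        (if q ∘ σ = α ∘ q ∧ q' ∘ σ' = α ∘ q' ∧ ∀ z, 1 ≤ mult q z + mult q' z then
        (((Perm.sign σ' : ℤˣ) : ℤ) : ℚ) else 0) =
      ∑ q : Fin (m - 2 * b) → Fin p, ∑ q' : Fin b → Fin p, ∑ σ' : Perm (Fin b),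
        (if q ∘ σ = α ∘ q ∧ q' ∘ σ' = α ∘ q' ∧ ∀ z, 1 ≤ mult q z + mult q' z then
        (((Perm.sign σ' : ℤˣ) : ℤ) : ℚ) else 0) := by
    intro σ
    rw [Finset.sum_comm]
    apply Finset.sum_congr rfl
    intro q _
    rw [Finset.sum_comm]
  rw [Finset.sum_congr rfl (fun σ _ => h3 σ), Finset.sum_comm]

theorem W_mul_left (m : ℕ) (a : ℚ) (F : ∀ b : ℕ, Perm (Fin (m - 2 * b) ⊕ Fin b) → ℚ) :
    W m (fun b γ => a * F b γ) = a * W m F := by
  rw [mul_comm, ← W_mul]
  congr 1
  funext b γ
  ring

/-- number of the curvatures fixed by a pair of permutations -/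
noncomputable def nfix {U V : Type} [Fintype U] [Fintype V] [DecidableEq U] [DecidableEq V]
    (γ : Perm U) (γ' : Perm V) : ℚ :=
  ∑ c : U → U → V → V → ZMod 2, ii (IsCurv c) * ii (pull γ γ' c = c)

/-- number of the curvatures fixed by a swap -/
noncomputable def sfix {U : Type} [Fintype U] [DecidableEq U] (γ : Perm U) : ℚ :=
  ∑ c : U → U → U → U → ZMod 2, ii (IsCurv c) * ii (tr (pull γ id c) = c)

theorem card_le_of_mem {d b : ℕ} (hb : b ∈ range (d / 2 + 1)) :
    Fintype.card (Fin (d - 2 * b) ⊕ Fin b) ≤ d := by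
  rw [mem_range] at hb
  rw [Fintype.card_sum, Fintype.card_fin, Fintype.card_fin]
  omega

/-- twisted sum for the product group -/
theorem NS (d : ℕ) :
    W d (fun b γ => W d (fun b' γ' => nfix γ γ')) =
    ((d.factorial : ℚ)⁻¹) * ((d.factorial : ℚ)⁻¹) *
      ∑ α : Perm (Fin d), ∑ β : Perm (Fin d), ∑ r : Fin d → Fin d → Fin d → Fin d → ZMod 2,
        ii (IsCurv r) * ii (Red r) * ii (pull α β r = r) := by
  -- inner sum
  have h1 : ∀ b ∈ range (d / 2 + 1), ∀ γ : Perm (Fin (d - 2 * b) ⊕ Fin b),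
      W d (fun b' γ' => nfix γ γ') =
      ∑ p ∈ range (d + 1), ∑ α : Perm (Fin p), KK γ α * (((p.factorial : ℚ)⁻¹) *
        ((d.factorial : ℚ)⁻¹) * ∑ β : Perm (Fin d),
        ∑ r : Fin p → Fin p → Fin d → Fin d → ZMod 2,
        ii (IsCurv r) * ii (Red r) * ii (pull α β r = r)) := by
    intro b hb γ
    rw [W_congr d (F' := fun b' γ' => ∑ p ∈ range (d + 1), ∑ q ∈ range (d + 1),
      ∑ α : Perm (Fin p), ∑ β : Perm (Fin q), KK γ' β * (KK γ α * (((p.factorial : ℚ)⁻¹) *
        ((q.factorial : ℚ)⁻¹) * ∑ r : Fin p → Fin p → Fin q → Fin q → ZMod 2,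
        ii (IsCurv r) * ii (Red r) * ii (pull α β r = r)))) (by
      intro b' hb' γ'
      unfold nfix
      rw [decomp γ γ' d (card_le_of_mem hb) (card_le_of_mem hb')]
      apply Finset.sum_congr rfl
      intro p _
      apply Finset.sum_congr rfl
      intro q _
      rw [Finset.mul_sum]
      apply Finset.sum_congr rfl
      intro α _
      rw [Finset.mul_sum]
      apply Finset.sum_congr rfl
      intro β _
      ring)]
    rw [W_sum]
    apply Finset.sum_congr rfl
    intro p _
    rw [W_sum]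
    have h2 : ∀ q ∈ range (d + 1), W d (fun b' γ' => ∑ α : Perm (Fin p), ∑ β : Perm (Fin q),
        KK γ' β * (KK γ α * (((p.factorial : ℚ)⁻¹) *
        ((q.factorial : ℚ)⁻¹) * ∑ r : Fin p → Fin p → Fin q → Fin q → ZMod 2,
        ii (IsCurv r) * ii (Red r) * ii (pull α β r = r)))) =
        if q = d then ∑ α : Perm (Fin p), ∑ β : Perm (Fin q), (KK γ α * (((p.factorial : ℚ)⁻¹) *
        ((q.factorial : ℚ)⁻¹) * ∑ r : Fin p → Fin p → Fin q → Fin q → ZMod 2,
        ii (IsCurv r) * ii (Red r) * ii (pull α β r = r))) else 0 := by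
      intro q _
      rw [W_sum]
      have h3 : ∀ α : Perm (Fin p), W d (fun b' γ' => ∑ β : Perm (Fin q),
        KK γ' β * (KK γ α * (((p.factorial : ℚ)⁻¹) *
        ((q.factorial : ℚ)⁻¹) * ∑ r : Fin p → Fin p → Fin q → Fin q → ZMod 2,
        ii (IsCurv r) * ii (Red r) * ii (pull α β r = r)))) = ∑ β : Perm (Fin q),
        (if q = d then 1 else 0) * (KK γ α * (((p.factorial : ℚ)⁻¹) *
        ((q.factorial : ℚ)⁻¹) * ∑ r : Fin p → Fin p → Fin q → Fin q → ZMod 2,
        ii (IsCurv r) * ii (Red r) * ii (pull α β r = r))) := by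
        intro α
        rw [W_sum]
        apply Finset.sum_congr rfl
        intro β _
        rw [W_mul, W_KK]
      rw [Finset.sum_congr rfl (fun α _ => h3 α)]
      split_ifs
      · simp only [one_mul]
      · simp
    rw [Finset.sum_congr rfl h2, Finset.sum_ite_eq', if_pos (by simp)]
    apply Finset.sum_congr rfl
    intro α _
    rw [← Finset.mul_sum, ← Finset.mul_sum]
  rw [W_congr d h1, W_sum]
  have h4 : ∀ p ∈ range (d + 1), W d (fun b γ => ∑ α : Perm (Fin p),
      KK γ α * (((p.factorial : ℚ)⁻¹) * ((d.factorial : ℚ)⁻¹) * ∑ β : Perm (Fin d),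
        ∑ r : Fin p → Fin p → Fin d → Fin d → ZMod 2,
        ii (IsCurv r) * ii (Red r) * ii (pull α β r = r))) =
      if p = d then ∑ α : Perm (Fin p), (((p.factorial : ℚ)⁻¹) * ((d.factorial : ℚ)⁻¹) *
        ∑ β : Perm (Fin d), ∑ r : Fin p → Fin p → Fin d → Fin d → ZMod 2,
        ii (IsCurv r) * ii (Red r) * ii (pull α β r = r)) else 0 := by
    intro p _
    rw [W_sum]
    have h5 : ∀ α : Perm (Fin p), W d (fun b γ => KK γ α * (((p.factorial : ℚ)⁻¹) *
        ((d.factorial : ℚ)⁻¹) * ∑ β : Perm (Fin d),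
        ∑ r : Fin p → Fin p → Fin d → Fin d → ZMod 2,
        ii (IsCurv r) * ii (Red r) * ii (pull α β r = r))) =
        (if p = d then 1 else 0) * (((p.factorial : ℚ)⁻¹) *
        ((d.factorial : ℚ)⁻¹) * ∑ β : Perm (Fin d),
        ∑ r : Fin p → Fin p → Fin d → Fin d → ZMod 2,
        ii (IsCurv r) * ii (Red r) * ii (pull α β r = r)) := by
      intro α
      rw [W_mul, W_KK]
    rw [Finset.sum_congr rfl (fun α _ => h5 α)]
    split_ifs
    · simp only [one_mul]
    · simp
  rw [Finset.sum_congr rfl h4, Finset.sum_ite_eq', if_pos (by simp), ← Finset.mul_sum]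

/-- twisted sum for the swap coset -/
theorem SWs (d : ℕ) :
    W d (fun b γ => sfix γ) =
    ((d.factorial : ℚ)⁻¹) *
      ∑ α : Perm (Fin d), ∑ r : Fin d → Fin d → Fin d → Fin d → ZMod 2,
        ii (IsCurv r) * ii (Red r) * ii (tr (pull α id r) = r) := by
  rw [W_congr d (F' := fun b γ => ∑ p ∈ range (d + 1), ∑ α : Perm (Fin p), KK γ α *
    (((p.factorial : ℚ)⁻¹) * ∑ r : Fin p → Fin p → Fin p → Fin p → ZMod 2,
        ii (IsCurv r) * ii (Red r) * ii (tr (pull α id r) = r))) (by
      intro b hb γ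
      unfold sfix
      rw [decomp' γ d (card_le_of_mem hb)]
      apply Finset.sum_congr rfl
      intro p _
      rw [Finset.mul_sum]
      apply Finset.sum_congr rfl
      intro α _
      ring)]
  rw [W_sum]
  have h4 : ∀ p ∈ range (d + 1), W d (fun b γ => ∑ α : Perm (Fin p),
      KK γ α * (((p.factorial : ℚ)⁻¹) * ∑ r : Fin p → Fin p → Fin p → Fin p → ZMod 2,
        ii (IsCurv r) * ii (Red r) * ii (tr (pull α id r) = r))) =
      if p = d then ∑ α : Perm (Fin p), (((p.factorial : ℚ)⁻¹) *
        ∑ r : Fin p → Fin p → Fin p → Fin p → ZMod 2,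
        ii (IsCurv r) * ii (Red r) * ii (tr (pull α id r) = r)) else 0 := by
    intro p _
    rw [W_sum]
    have h5 : ∀ α : Perm (Fin p), W d (fun b γ => KK γ α * (((p.factorial : ℚ)⁻¹) *
        ∑ r : Fin p → Fin p → Fin p → Fin p → ZMod 2,
        ii (IsCurv r) * ii (Red r) * ii (tr (pull α id r) = r))) =
        (if p = d then 1 else 0) * (((p.factorial : ℚ)⁻¹) *
        ∑ r : Fin p → Fin p → Fin p → Fin p → ZMod 2,
        ii (IsCurv r) * ii (Red r) * ii (tr (pull α id r) = r)) := by
      intro α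
      rw [W_mul, W_KK]
    rw [Finset.sum_congr rfl (fun α _ => h5 α)]
    split_ifs
    · simp only [one_mul]
    · simp
  rw [Finset.sum_congr rfl h4, Finset.sum_ite_eq', if_pos (by simp), ← Finset.mul_sum]

end Pool.Agent.Helper371.Rho
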