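import Mathlib

set_option autoImplicit false

namespace Pool.Agent.Helper371.Rho

open Finset Equiv Function

section cyc
variable {X : Type} [Fintype X]

/-- the cycles (including the fixed points) of a permutation -/
abbrev CQ (ρ : Perm X) : Type := Quotient (Perm.SameCycle.setoid ρ)

noncomputable instance (ρ : Perm X) : Fintype (CQ ρ) := by
  classical exact Fintype.ofFinite _

noncomputable instance (ρ : Perm X) : DecidableEq (CQ ρ) := Classical.decEq _

/-- the cycle of a point -/
def cls (ρ : Perm X) (x : X) : CQ ρ := Quotient.mk _ x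

omit [Fintype X] in
theorem cls_eq {ρ : Perm X} {x y : X} : cls ρ x = cls ρ y ↔ ρ.SameCycle x y := Quotient.eq

omit [Fintype X] in
theorem cls_apply (ρ : Perm X) (x : X) : cls ρ (ρ x) = cls ρ x := by
  rw [cls_eq, Perm.sameCycle_apply_left]

omit [Fintype X] in
theorem cls_iterate (ρ : Perm X) (n : ℕ) (x : X) : cls ρ (ρ^[n] x) = cls ρ x := by
  induction n with
  | zero => rfl
  | succ n ih => rw [Function.iterate_succ_apply', cls_apply, ih]

theorem per (ρ : Perm X) (x : X) : x ∈ periodicPts ρ := by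
  rw [mem_periodicPts]
  exact ⟨orderOf ρ, orderOf_pos ρ, by
    rw [IsPeriodicPt, IsFixedPt, ← Perm.coe_pow, pow_orderOf_eq_one]; rfl⟩

/-- length of the cycle of a point -/
noncomputable def ell (ρ : Perm X) (x : X) : ℕ := minimalPeriod ρ x

theorem ell_pos (ρ : Perm X) (x : X) : 0 < ell ρ x :=
  minimalPeriod_pos_of_mem_periodicPts (per ρ x)

omit [Fintype X] in
theorem ell_spec (ρ : Perm X) (x : X) : ρ^[ell ρ x] x = x := iterate_minimalPeriod

theorem exists_iterate {ρ : Perm X} {x y : X} (h : cls ρ x = cls ρ y) : ∃ n, ρ^[n] x = y := by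
  rw [cls_eq] at h
  obtain ⟨i, _, hi⟩ := h.exists_pow_eq'
  exact ⟨i, by rw [← Perm.coe_pow]; exact hi⟩

/-- a sum over a cycle -/
theorem sum_cls [DecidableEq X] {N : Type} [AddCommMonoid N] (ρ : Perm X) (x : X) (u : X → N) :
    ∑ y, (if cls ρ y = cls ρ x then u y else 0) = ∑ k ∈ range (ell ρ x), u (ρ^[k] x) := by
  rw [← Finset.sum_filter]
  symm
  apply Finset.sum_bij (fun k _ => ρ^[k] x)
  · intro k _
    rw [mem_filter]
    exact ⟨mem_univ _, cls_iterate _ _ _⟩
  · intro k hk k' hk' h
    rw [mem_range] at hk hk'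
    exact iterate_injOn_Iio_minimalPeriod hk hk' h
  · intro y hy
    rw [mem_filter] at hy
    obtain ⟨n, hn⟩ := exists_iterate hy.2.symm
    refine ⟨n % ell ρ x, ?_, ?_⟩
    · rw [mem_range]
      exact Nat.mod_lt _ (ell_pos ρ x)
    · unfold ell
      rw [iterate_mod_minimalPeriod_eq]
      exact hn
  · intro k _
    rfl

theorem ell_congr {ρ : Perm X} {x y : X} (h : cls ρ x = cls ρ y) : ell ρ x = ell ρ y := by
  classical
  have h1 := sum_cls ρ x (fun _ => (1 : ℕ))
  have h2 := sum_cls ρ y (fun _ => (1 : ℕ))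
  rw [h] at h1
  rw [h1] at h2
  simpa using h2

omit [Fintype X] in
/-- sum over several rounds -/
theorem sum_rounds [DecidableEq X] {N : Type} [AddCommMonoid N] (ρ : Perm X) (x : X) (u : X → N)
    (n : ℕ) : ∑ k ∈ range (n * ell ρ x), u (ρ^[k] x) =
      n • ∑ k ∈ range (ell ρ x), u (ρ^[k] x) := by
  induction n with
  | zero => simp
  | succ n ih =>
    rw [Nat.succ_mul, Finset.sum_range_add, ih, succ_nsmul]
    congr 1
    apply Finset.sum_congr rfl
    intro k _
    congr 1
    rw [add_comm, Function.iterate_add_apply]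
    congr 1
    have h1 : IsPeriodicPt ρ (n * ell ρ x) x := (isPeriodicPt_minimalPeriod ρ x).const_mul n
    exact h1

/-- cycle sums -/
noncomputable def T (ρ : Perm X) (u : X → ZMod 2) (q : CQ ρ) : ZMod 2 :=
  ∑ x, if cls ρ x = q then u x else 0

theorem T_range [DecidableEq X] (ρ : Perm X) (u : X → ZMod 2) (x : X) :
    T ρ u (cls ρ x) = ∑ k ∈ range (ell ρ x), u (ρ^[k] x) := sum_cls ρ x u

theorem T_add (ρ : Perm X) (u v : X → ZMod 2) (q : CQ ρ) : T ρ (u + v) q = T ρ u q + T ρ v q := by
  unfold T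
  rw [← Finset.sum_add_distrib]
  apply Finset.sum_congr rfl
  intro x _
  split_ifs
  · rfl
  · simp

theorem T_surj (ρ : Perm X) (α : CQ ρ → ZMod 2) : ∃ u, T ρ u = α := by
  classical
  refine ⟨fun x => if x = (cls ρ x).out then α (cls ρ x) else 0, ?_⟩
  funext q
  unfold T
  rw [Finset.sum_eq_single q.out]
  · have h1 : cls ρ q.out = q := Quotient.out_eq q
    rw [if_pos h1]
    show (if q.out = (cls ρ q.out).out then α (cls ρ q.out) else 0) = α q
    rw [h1, if_pos rfl]
  · intro x _ hx
    by_cases h1 : cls ρ x = q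
    · rw [if_pos h1]
      show (if x = (cls ρ x).out then α (cls ρ x) else 0) = 0
      rw [if_neg]
      rw [h1]
      exact hx
    · rw [if_neg h1]
  · intro h; exact absurd (mem_univ _) h

theorem card_fun (A : Type) [Fintype A] : Nat.card (A → ZMod 2) = 2 ^ Fintype.card A := by
  classical
  rw [Nat.card_eq_fintype_card]
  simp [ZMod.card]

/-- the fibres of the cycle sum map -/
theorem card_T (ρ : Perm X) (α : CQ ρ → ZMod 2) :
    Nat.card {u // T ρ u = α} * 2 ^ Fintype.card (CQ ρ) = 2 ^ Fintype.card X := by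
  classical
  have h0 : ∀ β : CQ ρ → ZMod 2, Nat.card {u // T ρ u = β} = Nat.card {u // T ρ u = α} := by
    intro β
    obtain ⟨v, hv⟩ := T_surj ρ (α + β)
    apply Nat.card_congr
    refine ⟨fun u => ⟨u.1 + v, ?_⟩, fun u => ⟨u.1 + v, ?_⟩, ?_, ?_⟩
    · funext q
      rw [T_add, u.2, hv, Pi.add_apply]
      have := CharTwo.add_self_eq_zero (β q)
      linear_combination this
    · funext q
      rw [T_add, u.2, hv, Pi.add_apply]
      have := CharTwo.add_self_eq_zero (α q)
      linear_combination this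
    · intro u
      ext x
      simp only [Pi.add_apply]
      have := CharTwo.add_self_eq_zero (v x)
      linear_combination this
    · intro u
      ext x
      simp only [Pi.add_apply]
      have := CharTwo.add_self_eq_zero (v x)
      linear_combination this
  rw [← card_fun X, ← card_fun (CQ ρ)]
  rw [Nat.card_congr (Equiv.sigmaFiberEquiv (T ρ)).symm, Nat.card_sigma]
  rw [Finset.sum_congr rfl (fun β _ => h0 β)]
  rw [Finset.sum_const, Finset.card_univ, smul_eq_mul, Nat.card_eq_fintype_card
    (α := CQ ρ → ZMod 2), mul_comm]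

/-- the homogeneous equation -/
theorem card_hom (ρ : Perm X) :
    Nat.card {m : X → ZMod 2 // ∀ x, m (ρ x) = m x} = 2 ^ Fintype.card (CQ ρ) := by
  rw [← card_fun]
  apply Nat.card_congr
  refine ⟨fun m => Quotient.lift m.1 ?_, fun a => ⟨fun x => a (cls ρ x), ?_⟩, ?_, ?_⟩
  · intro x y hxy
    obtain ⟨n, hn⟩ := exists_iterate (ρ := ρ) (x := x) (y := y) (Quotient.sound hxy)
    rw [← hn]
    clear hn
    induction n with
    | zero => rfl
    | succ n ih => rw [Function.iterate_succ_apply', m.2, ← ih]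
  · intro x
    show a (cls ρ (ρ x)) = a (cls ρ x)
    rw [cls_apply]
  · intro m
    rfl
  · intro a
    funext q
    induction q using Quotient.inductionOn
    rfl

theorem exists_sol (ρ : Perm X) (u : X → ZMod 2) (hu : T ρ u = 0) :
    ∃ m : X → ZMod 2, ∀ x, m (ρ x) = m x + u x := by
  classical
  have hk : ∀ x, ∃ n, ρ^[n] (cls ρ x).out = x := by
    intro x
    apply exists_iterate
    exact Quotient.out_eq _
  choose k hk using hk
  -- independence
  have key : ∀ (r : X) (n n' : ℕ), n ≤ n' → ρ^[n] r = ρ^[n'] r →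
      ∑ j ∈ range n, u (ρ^[j] r) = ∑ j ∈ range n', u (ρ^[j] r) := by
    intro r n n' hle h
    obtain ⟨t, rfl⟩ := Nat.exists_eq_add_of_le hle
    rw [Finset.sum_range_add]
    have h1 : ρ^[t] r = r := by
      rw [Function.iterate_add_apply] at h
      have := (ρ.injective.iterate n) h
      exact this.symm
    have h2 : ell ρ r ∣ t := IsPeriodicPt.minimalPeriod_dvd h1
    obtain ⟨e, rfl⟩ := h2
    have h3 : ell ρ (ρ^[n] r) = ell ρ r := ell_congr (cls_iterate _ _ _)
    have h4 : ∑ x ∈ range (ell ρ r * e), u (ρ^[n + x] r) = 0 := by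
      have h5 := sum_rounds ρ (ρ^[n] r) u e
      rw [← T_range, hu, Pi.zero_apply, smul_zero, h3] at h5
      rw [mul_comm]
      have h6 : ∀ x, ρ^[n + x] r = ρ^[x] (ρ^[n] r) := by
        intro x
        rw [add_comm, Function.iterate_add_apply]
      simp only [h6]
      exact h5
    rw [h4, add_zero]
  refine ⟨fun x => ∑ j ∈ range (k x), u (ρ^[j] (cls ρ x).out), ?_⟩
  intro x
  simp only
  have h1 := hk (ρ x)
  rw [cls_apply] at h1 ⊢
  have h2 : ρ^[k x + 1] (cls ρ x).out = ρ x := by
    rw [Function.iterate_succ_apply', hk x]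
  have h3 : ∑ j ∈ range (k (ρ x)), u (ρ^[j] (cls ρ x).out) =
      ∑ j ∈ range (k x + 1), u (ρ^[j] (cls ρ x).out) := by
    rcases le_total (k (ρ x)) (k x + 1) with h | h
    · exact key _ _ _ h (h1.trans h2.symm)
    · exact (key _ _ _ h (h2.trans h1.symm)).symm
  rw [h3, Finset.sum_range_succ, hk x]

theorem T_of_sol (ρ : Perm X) (u m : X → ZMod 2) (hm : ∀ x, m (ρ x) = m x + u x) : T ρ u = 0 := by
  classical
  funext q
  obtain ⟨x, rfl⟩ := Quotient.exists_rep q
  have h1 : T ρ u (cls ρ x) = ∑ k ∈ range (ell ρ x), u (ρ^[k] x) := T_range ρ u x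
  have h2 : ∀ n, ∑ k ∈ range n, u (ρ^[k] x) = m (ρ^[n] x) - m x := by
    intro n
    induction n with
    | zero => simp
    | succ n ih =>
      rw [Finset.sum_range_succ, ih, Function.iterate_succ_apply', hm]
      ring
  rw [h2, ell_spec, sub_self] at h1
  exact h1

open Classical in
/-- the inhomogeneous equation -/
theorem card_sol (ρ : Perm X) (u : X → ZMod 2) :
    Nat.card {m : X → ZMod 2 // ∀ x, m (ρ x) = m x + u x} =
      if T ρ u = 0 then 2 ^ Fintype.card (CQ ρ) else 0 := by
  split_ifs with hu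
  · obtain ⟨m0, hm0⟩ := exists_sol ρ u hu
    rw [← card_hom]
    apply Nat.card_congr
    refine ⟨fun m => ⟨m.1 + m0, ?_⟩, fun m => ⟨m.1 + m0, ?_⟩, ?_, ?_⟩
    · intro x
      simp only [Pi.add_apply]
      rw [m.2, hm0]
      have := CharTwo.add_self_eq_zero (u x)
      linear_combination this
    · intro x
      simp only [Pi.add_apply]
      rw [m.2, hm0]
      ring
    · intro m
      ext x
      simp only [Pi.add_apply]
      have := CharTwo.add_self_eq_zero (m0 x)
      linear_combination this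
    · intro m
      ext x
      simp only [Pi.add_apply]
      have := CharTwo.add_self_eq_zero (m0 x)
      linear_combination this
  · rw [Nat.card_eq_zero]
    left
    constructor
    rintro ⟨m, hm⟩
    exact hu (T_of_sol ρ u m hm)

/-- sums over cycles as sums over points -/
theorem sum_cycles (ρ : Perm X) (F : CQ ρ → ℚ) :
    ∑ q, F q = ∑ x, F (cls ρ x) / ell ρ x := by
  classical
  have h1 : ∀ q : CQ ρ, F q = ∑ x, if cls ρ x = q then F (cls ρ x) / ell ρ x else 0 := by
    intro q
    obtain ⟨y, rfl⟩ := Quotient.exists_rep q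
    have h2 : ∀ x, (if cls ρ x = cls ρ y then F (cls ρ x) / ell ρ x else 0) =
        if cls ρ x = cls ρ y then F (cls ρ y) / ell ρ y else 0 := by
      intro x
      split_ifs with h
      · rw [h, ell_congr h]
      · rfl
    have h3 : ∑ x, (if cls ρ x = cls ρ y then F (cls ρ x) / ell ρ x else 0) = F (cls ρ y) := by
      rw [Finset.sum_congr rfl (fun x _ => h2 x), sum_cls ρ y (fun _ => F (cls ρ y) / ell ρ y)]
      rw [Finset.sum_const, card_range, nsmul_eq_mul]
      have : (ell ρ y : ℚ) ≠ 0 := by exact_mod_cast (ell_pos ρ y).ne'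
      field_simp
    exact h3.symm
  rw [Finset.sum_congr rfl (fun q _ => h1 q), Finset.sum_comm]
  apply Finset.sum_congr rfl
  intro x _
  rw [Finset.sum_ite_eq]
  simp

end cyc

end Pool.Agent.Helper371.Rho
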