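import Pool.Agent.Helper371.RhoE
import Pool.Agent.Helper371.RhoF

set_option autoImplicit false

namespace Pool.Agent.Helper371.Rho

open Finset Equiv Function

/-- exponent of 2 -/
def v2 (n : ℕ) : ℕ := n.factorization 2

theorem odd_iff_v2 {n : ℕ} (hn : n ≠ 0) : Odd n ↔ v2 n = 0 := by
  unfold v2
  rw [Nat.factorization_eq_zero_iff]
  constructor
  · intro h
    right; left
    rw [← even_iff_two_dvd]
    exact Nat.not_even_iff_odd.mpr h
  · rintro (h | h | h)
    · exact absurd Nat.prime_two h
    · rw [← even_iff_two_dvd] at h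
      exact Nat.not_even_iff_odd.mp h
    · exact absurd h hn

theorem odd_lcm_div {a b : ℕ} (ha : a ≠ 0) (hb : b ≠ 0) : Odd (Nat.lcm a b / a) ↔ v2 b ≤ v2 a := by
  have h1 : Nat.lcm a b / a ≠ 0 := by
    apply Nat.ne_of_gt
    apply Nat.div_pos
    · exact Nat.le_of_dvd (Nat.lcm_pos (Nat.pos_of_ne_zero ha) (Nat.pos_of_ne_zero hb))
        (Nat.dvd_lcm_left a b)
    · exact Nat.pos_of_ne_zero ha
  rw [odd_iff_v2 h1]
  unfold v2
  rw [Nat.factorization_div (Nat.dvd_lcm_left a b), Nat.factorization_lcm ha hb]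
  simp only [Finsupp.coe_tsub, Pi.sub_apply, Finsupp.sup_apply]
  omega

theorem smul_z2 (n : ℕ) (x : ZMod 2) : n • x = if Odd n then x else 0 := by
  split_ifs with h
  · obtain ⟨k, rfl⟩ := h
    rw [add_smul, mul_smul, one_smul]
    have : (2 : ℕ) • (k • x) = 0 := by
      rw [two_nsmul]
      exact CharTwo.add_self_eq_zero _
    rw [this, zero_add]
  · rw [Nat.not_odd_iff_even] at h
    obtain ⟨k, rfl⟩ := h
    rw [add_smul]
    exact CharTwo.add_self_eq_zero _

/-- the compatibility condition of the cycle sums, in terms of the exponents of 2 -/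
def Cond {C D : Type} (v : C → ℕ) (w : D → ℕ) (α : C → ZMod 2) (β : D → ZMod 2) : Prop :=
  ∀ c d, (v c = w d → α c = β d) ∧ (v c < w d → β d = 0) ∧ (w d < v c → α c = 0)

theorem cond_iff {C D : Type} (a : C → ℕ) (b : D → ℕ) (ha : ∀ c, a c ≠ 0) (hb : ∀ d, b d ≠ 0)
    (α : C → ZMod 2) (β : D → ZMod 2) :
    (∀ c d, (Nat.lcm (a c) (b d) / a c) • α c + (Nat.lcm (a c) (b d) / b d) • β d = 0) ↔
      Cond (fun c => v2 (a c)) (fun d => v2 (b d)) α β := by
  unfold Cond
  apply forall_congr'; intro c
  apply forall_congr'; intro d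
  rw [smul_z2, smul_z2]
  have h1 := odd_lcm_div (ha c) (hb d)
  have h2 := odd_lcm_div (hb d) (ha c)
  rw [Nat.lcm_comm] at h2
  simp only [h1, h2]
  rcases lt_trichotomy (v2 (a c)) (v2 (b d)) with h | h | h
  · rw [if_neg (by omega), if_pos (by omega), zero_add]
    constructor
    · intro h3
      exact ⟨fun h4 => by omega, fun _ => h3, fun h4 => by omega⟩
    · intro h3
      exact h3.2.1 h
  · rw [if_pos (by omega), if_pos (by omega)]
    constructor
    · intro h3
      refine ⟨fun _ => ?_, fun h4 => by omega, fun h4 => by omega⟩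
      have := CharTwo.add_self_eq_zero (β d)
      linear_combination h3 - this
    · intro h3
      rw [h3.1 h]
      exact CharTwo.add_self_eq_zero _
  · rw [if_pos (by omega), if_neg (by omega), add_zero]
    constructor
    · intro h3
      exact ⟨fun h4 => by omega, fun h4 => by omega, fun _ => h3⟩
    · intro h3
      exact h3.2.2 h

open Classical in
/-- the exponent counting the free signs -/
noncomputable def epsf {C D : Type} [Fintype C] [Fintype D] (v : C → ℕ) (w : D → ℕ) : ℕ :=
  Fintype.card {c // ∀ d, v c < w d} + Fintype.card {d // ∀ c, w d < v c} +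
    (if ∃ c d, v c = w d ∧ (∀ c', v c ≤ v c') ∧ ∀ d', w d ≤ w d' then 1 else 0)

theorem card_cond_lt {C D : Type} [Fintype C] [Fintype D] (v : C → ℕ) (w : D → ℕ) (c0 : C) (d0 : D)
    (hd : ∀ d, w d0 ≤ w d) (hlt : v c0 < w d0) :
    Nat.card {p : (C → ZMod 2) × (D → ZMod 2) // Cond v w p.1 p.2} =
      2 ^ Nat.card {c // ∀ d, v c < w d} := by
  classical
  rw [Nat.card_eq_fintype_card (α := {c // ∀ d, v c < w d}), ← card_fun]
  apply Nat.card_congr
  refine ⟨fun p c => p.1.1 c.1, fun α => ⟨(fun c => if h : ∀ d, v c < w d then α ⟨c, h⟩ else 0,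
    fun _ => 0), ?_⟩, ?_, ?_⟩
  · intro c d
    simp only
    refine ⟨?_, fun _ => by trivial, ?_⟩
    · intro h
      rw [dif_neg]
      intro h2
      have := h2 d
      omega
    · intro h
      rw [dif_neg]
      intro h2
      have := h2 d
      omega
  · rintro ⟨⟨α, β⟩, h⟩
    simp only [Subtype.mk.injEq, Prod.mk.injEq]
    simp only at h
    have hβ : β = fun _ => 0 := by
      funext d
      exact (h c0 d).2.1 (lt_of_lt_of_le hlt (hd d))
    refine ⟨?_, hβ.symm⟩
    funext c
    split_ifs with h2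
    · rfl
    · push Not at h2
      obtain ⟨d, hd2⟩ := h2
      rcases lt_or_eq_of_le hd2 with h3 | h3
      · exact ((h c d).2.2 h3).symm
      · rw [(h c d).1 h3.symm, hβ]
  · intro α
    funext c
    simp only
    rw [dif_pos c.2]

theorem card_cond_swap {C D : Type} (v : C → ℕ) (w : D → ℕ) :
    Nat.card {p : (C → ZMod 2) × (D → ZMod 2) // Cond v w p.1 p.2} =
      Nat.card {p : (D → ZMod 2) × (C → ZMod 2) // Cond w v p.1 p.2} := by
  apply Nat.card_congr
  refine ⟨fun p => ⟨(p.1.2, p.1.1), ?_⟩, fun p => ⟨(p.1.2, p.1.1), ?_⟩, ?_, ?_⟩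
  · intro d c
    exact ⟨fun h => ((p.2 c d).1 h.symm).symm, fun h => (p.2 c d).2.2 h, fun h => (p.2 c d).2.1 h⟩
  · intro c d
    exact ⟨fun h => ((p.2 d c).1 h.symm).symm, fun h => (p.2 d c).2.2 h, fun h => (p.2 d c).2.1 h⟩
  · intro p; rfl
  · intro p; rfl

theorem card_cond_eq {C D : Type} [Fintype C] [Fintype D] (v : C → ℕ) (w : D → ℕ) (c0 : C) (d0 : D)
    (hc : ∀ c, v c0 ≤ v c) (hd : ∀ d, w d0 ≤ w d) (heq : v c0 = w d0) :
    Nat.card {p : (C → ZMod 2) × (D → ZMod 2) // Cond v w p.1 p.2} = 2 := by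
  classical
  have h2 : Nat.card (ZMod 2) = 2 := by simp
  refine (Nat.card_congr (β := ZMod 2) ?_).trans h2
  refine ⟨fun p => p.1.1 c0, fun x => ⟨(fun c => if v c = v c0 then x else 0,
    fun d => if w d = w d0 then x else 0), ?_⟩, ?_, ?_⟩
  · intro c d
    have h3 := hc c
    have h4 := hd d
    simp only
    refine ⟨?_, ?_, ?_⟩
    · intro h
      split_ifs <;> first | rfl | omega
    · intro h
      rw [if_neg (by omega)]
    · intro h
      rw [if_neg (by omega)]
  · rintro ⟨⟨α, β⟩, h⟩
    simp only [Subtype.mk.injEq, Prod.mk.injEq]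
    simp only at h
    constructor
    · funext c
      have h3 := hc c
      split_ifs with h4
      · rw [(h c d0).1 (by omega), (h c0 d0).1 heq]
      · exact ((h c d0).2.2 (by omega)).symm
    · funext d
      have h3 := hd d
      split_ifs with h4
      · exact (h c0 d).1 (by omega)
      · exact ((h c0 d).2.1 (by omega)).symm
  · intro x
    simp

theorem card_cond {C D : Type} [Fintype C] [Fintype D] [Nonempty C] [Nonempty D] (v : C → ℕ)
    (w : D → ℕ) : Nat.card {p : (C → ZMod 2) × (D → ZMod 2) // Cond v w p.1 p.2} =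
      2 ^ epsf v w := by
  classical
  obtain ⟨c0, hc⟩ := Finite.exists_min v
  obtain ⟨d0, hd⟩ := Finite.exists_min w
  unfold epsf
  rcases lt_trichotomy (v c0) (w d0) with h | h | h
  · rw [card_cond_lt v w c0 d0 hd h, if_neg, Nat.card_eq_fintype_card]
    · have h1 : Fintype.card {d // ∀ c, w d < v c} = 0 := by
        rw [Fintype.card_eq_zero_iff]
        constructor
        rintro ⟨d, h2⟩
        have h3 := h2 c0
        have h4 := hd d
        omega
      rw [h1]
      simp only [add_zero]
    · rintro ⟨c, d, h1, h2, h3⟩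
      have h4 := h2 c0
      have h5 := hc c
      have h6 := h3 d0
      have h7 := hd d
      omega
  · rw [card_cond_eq v w c0 d0 hc hd h, if_pos ⟨c0, d0, h, hc, hd⟩]
    have h1 : Fintype.card {d // ∀ c, w d < v c} = 0 := by
      rw [Fintype.card_eq_zero_iff]
      constructor
      rintro ⟨d, h2⟩
      have h3 := h2 c0
      have h4 := hd d
      omega
    have h2 : Fintype.card {c // ∀ d, v c < w d} = 0 := by
      rw [Fintype.card_eq_zero_iff]
      constructor
      rintro ⟨c, h2⟩
      have h3 := h2 d0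
      have h4 := hc c
      omega
    rw [h1, h2]
    rfl
  · rw [card_cond_swap, card_cond_lt w v d0 c0 hc h, if_neg, Nat.card_eq_fintype_card]
    · have h1 : Fintype.card {c // ∀ d, v c < w d} = 0 := by
        rw [Fintype.card_eq_zero_iff]
        constructor
        rintro ⟨c, h2⟩
        have h3 := h2 d0
        have h4 := hc c
        omega
      rw [h1]
      simp only [add_zero, zero_add]
    · rintro ⟨c, d, h1, h2, h3⟩
      have h4 := h2 c0
      have h5 := hc c
      have h6 := h3 d0
      have h7 := hd d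
      omega

end Pool.Agent.Helper371.Rho
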