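import Pool.Agent.Helper371.RhoG

set_option autoImplicit false

namespace Pool.Agent.Helper371.Rho

open Finset Equiv Function

section two
variable {U V : Type}

theorem curv_zero_iff [Nonempty U] [Nonempty V] (m : U → V → ZMod 2) :
    curv m = 0 ↔ ∃ s : U → ZMod 2, ∃ t : V → ZMod 2, ∀ i j, m i j = s i + t j := by
  constructor
  · intro h
    obtain ⟨i0⟩ := ‹Nonempty U›
    obtain ⟨j0⟩ := ‹Nonempty V›
    refine ⟨fun i => m i j0 + m i0 j0, fun j => m i0 j, ?_⟩
    intro i j
    have h1 := congrFun (congrFun (congrFun (congrFun h i) i0) j) j0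
    simp only [curv, Pi.zero_apply] at h1
    have h2 := z2 (m i0 j)
    have h3 := z2 (m i j0)
    have h4 := z2 (m i0 j0)
    linear_combination h1 - h2 - h3 - h4
  · rintro ⟨s, t, h⟩
    funext i i' j j'
    simp only [curv, h, Pi.zero_apply]
    have h1 := z2 (s i)
    have h2 := z2 (s i')
    have h3 := z2 (t j)
    have h4 := z2 (t j')
    linear_combination h1 + h2 + h3 + h4

theorem two_sol [Fintype U] [Fintype V] [DecidableEq U] [DecidableEq V] [Nonempty U] [Nonempty V]
    (m : U → V → ZMod 2) :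
    ∑ s : U → ZMod 2, ∑ t : V → ZMod 2, ii (∀ i j, m i j = s i + t j) = 2 * ii (curv m = 0) := by
  by_cases h : curv m = 0
  · rw [ii_true h, mul_one, ← Fintype.sum_prod_type', sum_ii_card
      (fun p : (U → ZMod 2) × (V → ZMod 2) => ∀ i j, m i j = p.1 i + p.2 j)]
    have h2 : Nat.card (ZMod 2) = 2 := by simp
    have h3 : Nat.card {p : (U → ZMod 2) × (V → ZMod 2) // ∀ i j, m i j = p.1 i + p.2 j} = 2 := by
      obtain ⟨i0⟩ := ‹Nonempty U›
      obtain ⟨j0⟩ := ‹Nonempty V›
      refine (Nat.card_congr (β := ZMod 2) ?_).trans h2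
      refine ⟨fun p => p.1.1 i0, fun x => ⟨(fun i => m i j0 + m i0 j0 + x,
        fun j => m i0 j + x), ?_⟩, ?_, ?_⟩
      · intro i j
        have h1 := congrFun (congrFun (congrFun (congrFun h i) i0) j) j0
        simp only [curv, Pi.zero_apply] at h1 ⊢
        have h2 := z2 (m i0 j)
        have h3 := z2 (m i j0)
        have h4 := z2 (m i0 j0)
        have h5 := z2 x
        linear_combination h1 - h2 - h3 - h4 - h5
      · rintro ⟨⟨s, t⟩, h1⟩
        simp only [Subtype.mk.injEq, Prod.mk.injEq]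
        simp only at h1
        constructor
        · funext i
          rw [h1, h1]
          have h2 := z2 (t j0)
          have h3 := z2 (s i0)
          linear_combination h2 + h3
        · funext j
          rw [h1]
          have h3 := z2 (s i0)
          linear_combination h3
      · intro x
        simp only
        have h4 := z2 (m i0 j0)
        linear_combination h4
    rw [h3]
    norm_num
  · rw [ii_false h, mul_zero]
    apply Finset.sum_eq_zero
    intro s _
    apply Finset.sum_eq_zero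
    intro t _
    apply ii_false
    intro h1
    exact h ((curv_zero_iff m).mpr ⟨s, t, h1⟩)

theorem curv_add (m m' : U → V → ZMod 2) : curv (m + m') = curv m + curv m' := by
  funext i i' j j'
  simp only [curv, Pi.add_apply]
  ring

theorem curv_eq_iff (m m' : U → V → ZMod 2) : curv m = curv m' ↔ curv (m + m') = 0 := by
  rw [curv_add]
  constructor
  · intro h
    rw [h]
    funext i i' j j'
    exact z2 _
  · intro h
    funext i i' j j'
    have h1 := congrFun (congrFun (congrFun (congrFun h i) i') j) j'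
    simp only [Pi.add_apply, Pi.zero_apply] at h1
    have h2 := z2 (curv m' i i' j j')
    linear_combination h1 - h2

/-- the number of matrices of a given curvature -/
theorem card_curv [Fintype U] [Fintype V] [DecidableEq U] [DecidableEq V] [Nonempty U] [Nonempty V]
    (m0 : U → V → ZMod 2) : 2 * ∑ m : U → V → ZMod 2, ii (curv m = curv m0) =
      2 ^ (Fintype.card U + Fintype.card V) := by
  have h1 : ∑ m : U → V → ZMod 2, ii (curv m = curv m0) = ∑ m : U → V → ZMod 2, ii (curv m = 0) := by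
    apply Fintype.sum_equiv (Equiv.addRight m0)
    intro m
    rw [ii_congr (curv_eq_iff m m0)]
    rfl
  rw [h1, Finset.mul_sum, Finset.sum_congr rfl (fun m _ => (two_sol m).symm), Finset.sum_comm]
  have h2 : ∀ s : U → ZMod 2, ∑ m : U → V → ZMod 2, ∑ t : V → ZMod 2,
      ii (∀ i j, m i j = s i + t j) = 2 ^ Fintype.card V := by
    intro s
    rw [Finset.sum_comm]
    have h3 : ∀ t : V → ZMod 2, ∑ m : U → V → ZMod 2, ii (∀ i j, m i j = s i + t j) = 1 := by
      intro t
      apply sum_ii_unique _ (fun i j => s i + t j)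
      · intro i j; rfl
      · intro m hm
        funext i j
        exact hm i j
    rw [Finset.sum_congr rfl (fun t _ => h3 t)]
    simp [ZMod.card]
  rw [Finset.sum_congr rfl (fun s _ => h2 s), pow_add]
  simp [ZMod.card]

/-- from curvatures to matrices -/
theorem curv_count [Fintype U] [Fintype V] [DecidableEq U] [DecidableEq V] [Nonempty U] [Nonempty V]
    (P : (U → U → V → V → ZMod 2) → Prop) :
    (∑ c : U → U → V → V → ZMod 2, ii (IsCurv c) * ii (P c)) *
      2 ^ (Fintype.card U + Fintype.card V) = 2 * ∑ m : U → V → ZMod 2, ii (P (curv m)) := by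
  have h1 : ∀ c : U → U → V → V → ZMod 2, ii (IsCurv c) * ii (P c) *
      2 ^ (Fintype.card U + Fintype.card V) =
      2 * ∑ m : U → V → ZMod 2, ii (P c) * ii (curv m = c) := by
    intro c
    by_cases hc : IsCurv c
    · obtain ⟨m0, rfl⟩ := hc
      rw [ii_true (p := IsCurv (curv m0)) ⟨m0, rfl⟩, ← card_curv m0, ← Finset.mul_sum]
      ring
    · rw [ii_false hc, zero_mul, zero_mul, Finset.sum_eq_zero, mul_zero]
      intro m _
      rw [ii_false (p := curv m = c) (fun h => hc ⟨m, h.symm⟩), mul_zero]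
  rw [Finset.sum_mul, Finset.sum_congr rfl (fun c _ => h1 c), ← Finset.mul_sum, Finset.sum_comm]
  congr 1
  apply Finset.sum_congr rfl
  intro m _
  rw [Finset.sum_eq_single (curv m)]
  · rw [ii_true (p := curv m = curv m) rfl, mul_one]
  · intro c _ hc
    rw [ii_false (p := curv m = c) (fun h => hc h.symm), mul_zero]
  · intro h; exact absurd (mem_univ _) h

end two

section tt
variable {X : Type} [Fintype X] [DecidableEq X]

/-- pushing a sum forward along the cycle sums -/
theorem sum_T (ρ : Perm X) (F : (CQ ρ → ZMod 2) → ℚ) :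
    (∑ u : X → ZMod 2, F (T ρ u)) * 2 ^ Fintype.card (CQ ρ) =
      2 ^ Fintype.card X * ∑ α : CQ ρ → ZMod 2, F α := by
  classical
  have h1 : ∀ α : CQ ρ → ZMod 2, (∑ u : X → ZMod 2, ii (T ρ u = α)) * 2 ^ Fintype.card (CQ ρ) =
      2 ^ Fintype.card X := by
    intro α
    rw [sum_ii_card (fun u => T ρ u = α)]
    exact_mod_cast card_T ρ α
  have h2 : ∀ u : X → ZMod 2, F (T ρ u) = ∑ α : CQ ρ → ZMod 2, F α * ii (T ρ u = α) := by
    intro u
    rw [Finset.sum_eq_single (T ρ u)]
    · rw [ii_true (p := T ρ u = T ρ u) rfl, mul_one]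
    · intro α _ hα
      rw [ii_false (p := T ρ u = α) (fun h => hα h.symm), mul_zero]
    · intro h; exact absurd (mem_univ _) h
  rw [Finset.sum_congr rfl (fun u _ => h2 u), Finset.sum_comm, Finset.sum_mul, Finset.mul_sum]
  apply Finset.sum_congr rfl
  intro α _
  rw [← Finset.mul_sum, mul_assoc, h1]
  ring

/-- the sum over the solutions of an inhomogeneous equation -/
theorem sum_sol (ρ : Perm X) (u : X → ZMod 2) :
    ∑ m : X → ZMod 2, ii (∀ x, m (ρ x) = m x + u x) =
      2 ^ Fintype.card (CQ ρ) * ii (T ρ u = 0) := by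
  classical
  rw [sum_ii_card (fun m : X → ZMod 2 => ∀ x, m (ρ x) = m x + u x), card_sol]
  unfold ii
  split_ifs <;> push_cast <;> ring

end tt

section prod
variable {U V : Type} [Fintype U] [Fintype V] [DecidableEq U] [DecidableEq V]

omit [Fintype U] [Fintype V] [DecidableEq U] [DecidableEq V] in
theorem prod_iterate (σ : Perm U) (τ : Perm V) (n : ℕ) (x : U) (y : V) :
    (Equiv.prodCongr σ τ)^[n] (x, y) = (σ^[n] x, τ^[n] y) := by
  induction n with
  | zero => rfl
  | succ n ih =>
    rw [Function.iterate_succ_apply', ih, Function.iterate_succ_apply', Function.iterate_succ_apply']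
    rfl

omit [DecidableEq U] [DecidableEq V] [Fintype U] [Fintype V] in
theorem ell_prod (σ : Perm U) (τ : Perm V) (x : U) (y : V) :
    ell (Equiv.prodCongr σ τ : Perm (U × V)) (x, y) = Nat.lcm (ell σ x) (ell τ y) := by
  unfold ell
  have h1 : ((Equiv.prodCongr σ τ : Perm (U × V)) : U × V → U × V) = Prod.map σ τ := rfl
  rw [h1, minimalPeriod_prodMap]

theorem T_prod (σ : Perm U) (τ : Perm V) (s : U → ZMod 2) (t : V → ZMod 2) (x : U) (y : V) :
    T (Equiv.prodCongr σ τ : Perm (U × V)) (fun z => s z.1 + t z.2) (cls _ (x, y)) =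
      (Nat.lcm (ell σ x) (ell τ y) / ell σ x) • T σ s (cls σ x) +
      (Nat.lcm (ell σ x) (ell τ y) / ell τ y) • T τ t (cls τ y) := by
  rw [T_range, ell_prod, T_range, T_range, ← sum_rounds σ x s, ← sum_rounds τ y t,
    Nat.div_mul_cancel (Nat.dvd_lcm_left _ _), Nat.div_mul_cancel (Nat.dvd_lcm_right _ _),
    ← Finset.sum_add_distrib]
  apply Finset.sum_congr rfl
  intro k _
  rw [prod_iterate]

/-- cycle lengths -/
noncomputable def szc {X : Type} [Fintype X] (ρ : Perm X) (q : CQ ρ) : ℕ := ell ρ q.out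

theorem szc_cls {X : Type} [Fintype X] (ρ : Perm X) (x : X) : szc ρ (cls ρ x) = ell ρ x := by
  unfold szc
  apply ell_congr
  exact Quotient.out_eq _

theorem szc_ne {X : Type} [Fintype X] (ρ : Perm X) (q : CQ ρ) : szc ρ q ≠ 0 :=
  (ell_pos ρ _).ne'

theorem T_prod_zero (σ : Perm U) (τ : Perm V) (s : U → ZMod 2) (t : V → ZMod 2) :
    T (Equiv.prodCongr σ τ : Perm (U × V)) (fun z => s z.1 + t z.2) = 0 ↔
      Cond (fun c => v2 (szc σ c)) (fun d => v2 (szc τ d)) (T σ s) (T τ t) := by
  rw [← cond_iff _ _ (szc_ne σ) (szc_ne τ)]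
  constructor
  · intro h c d
    obtain ⟨x, rfl⟩ := Quotient.exists_rep c
    obtain ⟨y, rfl⟩ := Quotient.exists_rep d
    have h1 := T_prod σ τ s t x y
    rw [h, Pi.zero_apply] at h1
    have h2 : szc σ ⟦x⟧ = ell σ x := szc_cls σ x
    have h3 : szc τ ⟦y⟧ = ell τ y := szc_cls τ y
    rw [h2, h3]
    exact h1.symm
  · intro h
    funext q
    obtain ⟨⟨x, y⟩, rfl⟩ := Quotient.exists_rep q
    have h1 := T_prod σ τ s t x y
    have h2 := h (cls σ x) (cls τ y)
    rw [szc_cls, szc_cls] at h2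
    rw [Pi.zero_apply]
    exact h1.trans h2

theorem cq_prod (σ : Perm U) (τ : Perm V) :
    Fintype.card (CQ (Equiv.prodCongr σ τ : Perm (U × V))) =
      ∑ c : CQ σ, ∑ d : CQ τ, Nat.gcd (szc σ c) (szc τ d) := by
  have h1 : (Fintype.card (CQ (Equiv.prodCongr σ τ : Perm (U × V))) : ℚ) =
      ∑ c : CQ σ, ∑ d : CQ τ, (Nat.gcd (szc σ c) (szc τ d) : ℚ) := by
    have h2 := sum_cycles (Equiv.prodCongr σ τ : Perm (U × V)) (fun _ => 1)
    rw [Finset.sum_const, Finset.card_univ, nsmul_eq_mul, mul_one] at h2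
    rw [h2, sum_cycles σ (fun c => ∑ d : CQ τ, (Nat.gcd (szc σ c) (szc τ d) : ℚ)),
      Fintype.sum_prod_type]
    apply Finset.sum_congr rfl
    intro x _
    rw [sum_cycles τ (fun d => (Nat.gcd (szc σ (cls σ x)) (szc τ d) : ℚ)), Finset.sum_div]
    apply Finset.sum_congr rfl
    intro y _
    rw [ell_prod, szc_cls, szc_cls]
    have h3 := Nat.gcd_mul_lcm (ell σ x) (ell τ y)
    have h4 : (Nat.gcd (ell σ x) (ell τ y) : ℚ) * (Nat.lcm (ell σ x) (ell τ y) : ℚ) =
      ell σ x * ell τ y := by exact_mod_cast h3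
    have h5 : (ell σ x : ℚ) ≠ 0 := by exact_mod_cast (ell_pos σ x).ne'
    have h6 : (ell τ y : ℚ) ≠ 0 := by exact_mod_cast (ell_pos τ y).ne'
    have h7 : (Nat.lcm (ell σ x) (ell τ y) : ℚ) ≠ 0 := by
      exact_mod_cast (Nat.lcm_pos (ell_pos σ x) (ell_pos τ y)).ne'
    field_simp
    linear_combination -h4
  exact_mod_cast h1

/-- the exponent for a pair of permutations -/
noncomputable def epsc (σ : Perm U) (τ : Perm V) : ℕ :=
  epsf (fun c => v2 (szc σ c)) (fun d => v2 (szc τ d))

theorem nfix_eq [Nonempty U] [Nonempty V] (σ : Perm U) (τ : Perm V) :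
    nfix σ τ * 2 ^ (Fintype.card (CQ σ) + Fintype.card (CQ τ)) =
      2 ^ (∑ c : CQ σ, ∑ d : CQ τ, Nat.gcd (szc σ c) (szc τ d)) * 2 ^ epsc σ τ := by
  classical
  have hN := curv_count (fun c : U → U → V → V → ZMod 2 => pull σ τ c = c)
  -- the triple sum
  have h1 : ∀ m : U → V → ZMod 2, 2 * ii (pull σ τ (curv m) = curv m) =
      ∑ s : U → ZMod 2, ∑ t : V → ZMod 2,
        ii (∀ z : U × V, m (σ z.1) (τ z.2) = m z.1 z.2 + (s z.1 + t z.2)) := by
    intro m
    have h2 : pull σ τ (curv m) = curv m ↔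
        curv (fun i j => m (σ i) (τ j) + m i j) = 0 :=
      curv_eq_iff (fun i j => m (σ i) (τ j)) m
    rw [ii_congr h2, ← two_sol]
    apply Finset.sum_congr rfl
    intro s _
    apply Finset.sum_congr rfl
    intro t _
    apply ii_congr
    constructor
    · intro h z
      have h3 := h z.1 z.2
      have h4 := z2 (m z.1 z.2)
      linear_combination h3 - h4
    · intro h i j
      have h3 := h (i, j)
      have h4 := z2 (m i j)
      simp only at h3
      linear_combination h3 + h4
  have h3 : 2 * ∑ m : U → V → ZMod 2, ii (pull σ τ (curv m) = curv m) =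
      ∑ s : U → ZMod 2, ∑ t : V → ZMod 2,
        2 ^ Fintype.card (CQ (Equiv.prodCongr σ τ : Perm (U × V))) *
          ii (Cond (fun c => v2 (szc σ c)) (fun d => v2 (szc τ d)) (T σ s) (T τ t)) := by
    rw [Finset.mul_sum, Finset.sum_congr rfl (fun m _ => h1 m), Finset.sum_comm]
    apply Finset.sum_congr rfl
    intro s _
    rw [Finset.sum_comm]
    apply Finset.sum_congr rfl
    intro t _
    rw [← ii_congr (T_prod_zero σ τ s t), ← sum_sol]
    apply Fintype.sum_equiv (Equiv.curry U V (ZMod 2)).symm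
    intro m
    rfl
  -- pushing forward
  have h4 : (∑ s : U → ZMod 2, ∑ t : V → ZMod 2,
      ii (Cond (fun c => v2 (szc σ c)) (fun d => v2 (szc τ d)) (T σ s) (T τ t))) *
        2 ^ (Fintype.card (CQ σ) + Fintype.card (CQ τ)) =
      2 ^ (Fintype.card U + Fintype.card V) * 2 ^ epsc σ τ := by
    have h5 := sum_T σ (fun α => ∑ t : V → ZMod 2,
      ii (Cond (fun c => v2 (szc σ c)) (fun d => v2 (szc τ d)) α (T τ t)))
    have h6 : ∀ α : CQ σ → ZMod 2, (∑ t : V → ZMod 2,
      ii (Cond (fun c => v2 (szc σ c)) (fun d => v2 (szc τ d)) α (T τ t))) *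
        2 ^ Fintype.card (CQ τ) = 2 ^ Fintype.card V * ∑ β : CQ τ → ZMod 2,
      ii (Cond (fun c => v2 (szc σ c)) (fun d => v2 (szc τ d)) α β) := by
      intro α
      exact sum_T τ (fun β => ii (Cond (fun c => v2 (szc σ c)) (fun d => v2 (szc τ d)) α β))
    have h7 : ∑ α : CQ σ → ZMod 2, ∑ β : CQ τ → ZMod 2,
        ii (Cond (fun c => v2 (szc σ c)) (fun d => v2 (szc τ d)) α β) = 2 ^ epsc σ τ := by
      haveI : Nonempty (CQ σ) := ⟨cls σ (Classical.arbitrary U)⟩
      haveI : Nonempty (CQ τ) := ⟨cls τ (Classical.arbitrary V)⟩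
      rw [← Fintype.sum_prod_type', sum_ii_card (fun p : (CQ σ → ZMod 2) × (CQ τ → ZMod 2) =>
        Cond (fun c => v2 (szc σ c)) (fun d => v2 (szc τ d)) p.1 p.2), card_cond]
      push_cast
      rfl
    rw [pow_add, ← mul_assoc, h5, mul_assoc, Finset.sum_mul,
      Finset.sum_congr rfl (fun α _ => h6 α), ← Finset.mul_sum, h7]
    ring
  have h8 : nfix σ τ * 2 ^ (Fintype.card U + Fintype.card V) =
      2 ^ Fintype.card (CQ (Equiv.prodCongr σ τ : Perm (U × V))) * (∑ s : U → ZMod 2,
        ∑ t : V → ZMod 2,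
      ii (Cond (fun c => v2 (szc σ c)) (fun d => v2 (szc τ d)) (T σ s) (T τ t))) := by
    unfold nfix
    rw [hN, h3]
    simp only [Finset.mul_sum]
  have h9 : (2 : ℚ) ^ (Fintype.card U + Fintype.card V) ≠ 0 := by positivity
  have h10 : (nfix σ τ * 2 ^ (Fintype.card (CQ σ) + Fintype.card (CQ τ))) *
      2 ^ (Fintype.card U + Fintype.card V) =
      (2 ^ (∑ c : CQ σ, ∑ d : CQ τ, Nat.gcd (szc σ c) (szc τ d)) * 2 ^ epsc σ τ) *
      2 ^ (Fintype.card U + Fintype.card V) := by
    rw [← cq_prod]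
    linear_combination 2 ^ (Fintype.card (CQ σ) + Fintype.card (CQ τ)) * h8 +
      2 ^ Fintype.card (CQ (Equiv.prodCongr σ τ : Perm (U × V))) * h4
  exact mul_right_cancel₀ h9 h10

end prod

end Pool.Agent.Helper371.Rho
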