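import Pool.Agent.Helper371.RhoH

set_option autoImplicit false

namespace Pool.Agent.Helper371.Rho

open Finset Equiv Function

section sw
variable {U : Type}

/-- the swap map twisted by a permutation -/
def theta (γ : Perm U) : Perm (U × U) where
  toFun z := (γ z.2, z.1)
  invFun z := (z.2, γ.symm z.1)
  left_inv z := by simp
  right_inv z := by simp

theorem theta_apply (γ : Perm U) (x y : U) : theta γ (x, y) = (γ y, x) := rfl

theorem theta_even (γ : Perm U) (n : ℕ) (x y : U) :
    (theta γ)^[2 * n] (x, y) = (γ^[n] x, γ^[n] y) := by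
  induction n with
  | zero => rfl
  | succ n ih =>
    rw [show 2 * (n + 1) = 2 * n + 1 + 1 by ring, Function.iterate_succ_apply',
      Function.iterate_succ_apply', ih, theta_apply, theta_apply, Function.iterate_succ_apply',
      Function.iterate_succ_apply']

theorem theta_odd (γ : Perm U) (n : ℕ) (x y : U) :
    (theta γ)^[2 * n + 1] (x, y) = (γ^[n + 1] y, γ^[n] x) := by
  rw [Function.iterate_succ_apply', theta_even, theta_apply, Function.iterate_succ_apply']

theorem theta_sum (γ : Perm U) (s t : U → ZMod 2) (x y : U) (n : ℕ) :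
    ∑ k ∈ range (2 * n), (fun z : U × U => t z.1 + s z.2) ((theta γ)^[k] (x, y)) =
      ∑ j ∈ range n, (s + t) (γ^[j] x) + ∑ j ∈ range n, s (γ^[j] y) +
        ∑ j ∈ range n, t (γ^[j + 1] y) := by
  induction n with
  | zero => simp
  | succ n ih =>
    rw [show 2 * (n + 1) = 2 * n + 1 + 1 by ring, Finset.sum_range_succ, Finset.sum_range_succ, ih,
      theta_even, theta_odd, Finset.sum_range_succ, Finset.sum_range_succ, Finset.sum_range_succ]
    simp only [Pi.add_apply]
    ring

theorem sum_shift (t : ℕ → ZMod 2) (n : ℕ) :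
    ∑ j ∈ range n, t (j + 1) + t 0 = ∑ j ∈ range n, t j + t n := by
  rw [← Finset.sum_range_succ, Finset.sum_range_succ']

theorem theta_sum2 (γ : Perm U) (s t : U → ZMod 2) (x y : U) (n : ℕ) (hn : γ^[n] y = y) :
    ∑ k ∈ range (2 * n), (fun z : U × U => t z.1 + s z.2) ((theta γ)^[k] (x, y)) =
      ∑ j ∈ range n, (s + t) (γ^[j] x) + ∑ j ∈ range n, (s + t) (γ^[j] y) := by
  rw [theta_sum]
  have h1 := sum_shift (fun j => t (γ^[j] y)) n
  simp only [hn, Function.iterate_zero, id_eq] at h1
  have h2 : ∑ j ∈ range n, (s + t) (γ^[j] y) = ∑ j ∈ range n, s (γ^[j] y) +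
      ∑ j ∈ range n, t (γ^[j] y) := by
    rw [← Finset.sum_add_distrib]
    rfl
  rw [h2]
  linear_combination h1

variable [Fintype U]

/-- the special pairs -/
def Spec (γ : Perm U) (x y : U) : Prop := ∃ L, ell γ x = 2 * L + 1 ∧ γ^[L] x = y

theorem odd_round {γ : Perm U} {x y : U} {n : ℕ} (h : (theta γ)^[2 * n + 1] (x, y) = (x, y)) :
    γ^[n] x = y ∧ ell γ x ∣ 2 * n + 1 := by
  rw [theta_odd, Prod.mk.injEq] at h
  refine ⟨h.2, ?_⟩
  apply IsPeriodicPt.minimalPeriod_dvd
  show γ^[2 * n + 1] x = x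
  rw [show 2 * n + 1 = n + 1 + n by ring, Function.iterate_add_apply, h.2, h.1]

theorem ell_dvd {X : Type} (ρ : Perm X) (x : X) (n : ℕ) (h : ρ^[n] x = x) : ell ρ x ∣ n :=
  IsPeriodicPt.minimalPeriod_dvd h

theorem iter_of_dvd {X : Type} (ρ : Perm X) (x : X) (n : ℕ) (h : ell ρ x ∣ n) : ρ^[n] x = x := by
  obtain ⟨e, rfl⟩ := h
  have h1 : IsPeriodicPt ρ (ell ρ x * e) x := (isPeriodicPt_minimalPeriod ρ x).mul_const e
  exact h1

theorem spec_ell_eq {γ : Perm U} {x y : U} (h : Spec γ x y) : ell γ y = ell γ x := by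
  obtain ⟨L, h1, rfl⟩ := h
  exact ell_congr (cls_iterate _ _ _)

theorem ell_spec_pair {γ : Perm U} {x y : U} (h : Spec γ x y) : ell (theta γ) (x, y) = ell γ x := by
  obtain ⟨L, h1, rfl⟩ := h
  have h2 : (theta γ)^[2 * L + 1] (x, γ^[L] x) = (x, γ^[L] x) := by
    rw [theta_odd, ← Function.iterate_add_apply]
    rw [show L + 1 + L = 2 * L + 1 by ring, ← h1, ell_spec]
  have h3 := ell_dvd _ _ _ h2
  have h4 : Odd (ell (theta γ) (x, γ^[L] x)) := by
    rcases Nat.even_or_odd (ell (theta γ) (x, γ^[L] x)) with h5 | h5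
    · exfalso
      obtain ⟨e, he⟩ := h5
      rw [he] at h3
      obtain ⟨f, hf⟩ := h3
      have : 2 * L + 1 = 2 * (e * f) := by rw [hf]; ring
      omega
    · exact h5
  obtain ⟨M, hM⟩ := h4
  have h5 := ell_spec (theta γ) (x, γ^[L] x)
  rw [hM] at h5
  have h6 := (odd_round h5).2
  rw [← hM] at h6
  rw [← h1] at h3
  exact Nat.dvd_antisymm h3 h6

theorem ell_nonspec {γ : Perm U} {x y : U} (h : ¬ Spec γ x y) :
    ell (theta γ) (x, y) = 2 * Nat.lcm (ell γ x) (ell γ y) := by
  have h5 := ell_spec (theta γ) (x, y)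
  rcases Nat.even_or_odd' (ell (theta γ) (x, y)) with ⟨N, h1 | h1⟩
  · rw [h1] at h5 ⊢
    congr 1
    rw [theta_even, Prod.mk.injEq] at h5
    have h6 := ell_dvd _ _ _ h5.1
    have h7 := ell_dvd _ _ _ h5.2
    apply Nat.dvd_antisymm
    · have h8 : (theta γ)^[2 * Nat.lcm (ell γ x) (ell γ y)] (x, y) = (x, y) := by
        rw [theta_even, iter_of_dvd γ x _ (Nat.dvd_lcm_left _ _),
          iter_of_dvd γ y _ (Nat.dvd_lcm_right _ _)]
      have h9 := ell_dvd _ _ _ h8
      rw [h1] at h9
      exact Nat.dvd_of_mul_dvd_mul_left (by norm_num) h9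
    · exact Nat.lcm_dvd h6 h7
  · exfalso
    apply h
    rw [h1] at h5
    obtain ⟨h6, h7⟩ := odd_round h5
    have h8 : ell γ y = ell γ x := by
      rw [← h6]
      exact ell_congr (cls_iterate _ _ _)
    have h9 : (theta γ)^[2 * ell γ x] (x, y) = (x, y) := by
      rw [theta_even, iter_of_dvd γ x _ dvd_rfl, iter_of_dvd γ y _ (by rw [h8])]
    have h10 := ell_dvd _ _ _ h9
    rw [h1] at h10
    have h11 : 2 * N + 1 ∣ ell γ x := by
      have h12 : Nat.Coprime (2 * N + 1) 2 := by
        rw [Nat.coprime_two_right]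
        exact ⟨N, rfl⟩
      exact h12.dvd_of_dvd_mul_left h10
    exact ⟨N, Nat.dvd_antisymm h7 h11, h6⟩

variable [DecidableEq U]

theorem T_nonspec {γ : Perm U} {x y : U} (h : ¬ Spec γ x y) (s t : U → ZMod 2) :
    T (theta γ) (fun z => t z.1 + s z.2) (cls _ (x, y)) =
      (Nat.lcm (ell γ x) (ell γ y) / ell γ x) • T γ (s + t) (cls γ x) +
      (Nat.lcm (ell γ x) (ell γ y) / ell γ y) • T γ (s + t) (cls γ y) := by
  rw [T_range, ell_nonspec h, T_range, T_range, ← sum_rounds γ x (s + t), ← sum_rounds γ y (s + t),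
    Nat.div_mul_cancel (Nat.dvd_lcm_left _ _), Nat.div_mul_cancel (Nat.dvd_lcm_right _ _),
    theta_sum2]
  exact iter_of_dvd γ y _ (Nat.dvd_lcm_right _ _)

theorem T_spec {γ : Perm U} {x y : U} (h : Spec γ x y) (s t : U → ZMod 2) :
    T (theta γ) (fun z => t z.1 + s z.2) (cls _ (x, y)) = T γ (s + t) (cls γ x) := by
  have h0 := ell_spec_pair h
  obtain ⟨L, h1, rfl⟩ := h
  rw [T_range, h0, T_range, h1, Finset.sum_range_succ, theta_sum, theta_even]
  simp only [← Function.iterate_add_apply]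
  have h2 : ∑ j ∈ range (2 * L + 1), (s + t) (γ^[j] x) =
      ∑ j ∈ range L, s (γ^[j] x) + ∑ j ∈ range L, s (γ^[j + L] x) + s (γ^[L + L] x) +
      (∑ j ∈ range L, t (γ^[j] x) + t (γ^[L] x) + ∑ j ∈ range L, t (γ^[j + 1 + L] x)) := by
    have h3 : ∑ j ∈ range (2 * L + 1), s (γ^[j] x) = ∑ j ∈ range L, s (γ^[j] x) +
        ∑ j ∈ range L, s (γ^[j + L] x) + s (γ^[L + L] x) := by
      rw [Finset.sum_range_succ, two_mul, Finset.sum_range_add]
      congr 2
      apply Finset.sum_congr rfl
      intro j _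
      rw [add_comm]
    have h4 : ∑ j ∈ range (2 * L + 1), t (γ^[j] x) = ∑ j ∈ range L, t (γ^[j] x) + t (γ^[L] x) +
        ∑ j ∈ range L, t (γ^[j + 1 + L] x) := by
      rw [show 2 * L + 1 = (L + 1) + L by ring, Finset.sum_range_add, Finset.sum_range_succ]
      congr 1
      apply Finset.sum_congr rfl
      intro j _
      rw [show L + 1 + j = j + 1 + L by ring]
    rw [← h3, ← h4, ← Finset.sum_add_distrib]
    rfl
  have h5 : ∑ j ∈ range L, (s + t) (γ^[j] x) = ∑ j ∈ range L, s (γ^[j] x) +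
      ∑ j ∈ range L, t (γ^[j] x) := by
    rw [← Finset.sum_add_distrib]
    rfl
  rw [h2, h5]
  ring

/-- the compatibility condition for the swap -/
def CondS {C : Type} (v : C → ℕ) (α : C → ZMod 2) : Prop :=
  Cond v v α α ∧ ∀ c, v c = 0 → α c = 0

theorem T_theta_zero (γ : Perm U) (s t : U → ZMod 2) :
    T (theta γ) (fun z => t z.1 + s z.2) = 0 ↔
      CondS (fun c => v2 (szc γ c)) (T γ (s + t)) := by
  unfold CondS
  rw [← cond_iff _ _ (szc_ne γ) (szc_ne γ)]
  constructor
  · intro h
    constructor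
    · intro c d
      obtain ⟨x, rfl⟩ := Quotient.exists_rep c
      obtain ⟨y, rfl⟩ := Quotient.exists_rep d
      have h2 : szc γ ⟦x⟧ = ell γ x := szc_cls γ x
      have h3 : szc γ ⟦y⟧ = ell γ y := szc_cls γ y
      rw [h2, h3]
      by_cases hs : Spec γ x y
      · have h4 := spec_ell_eq hs
        obtain ⟨L, h5, h6⟩ := hs
        have h7 : cls γ y = cls γ x := by
          rw [← h6]
          exact cls_iterate _ _ _
        rw [h4]
        have h8 : (⟦y⟧ : CQ γ) = ⟦x⟧ := h7
        rw [h8]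
        exact z2 _
      · have h1 := T_nonspec hs s t
        rw [h, Pi.zero_apply] at h1
        exact h1.symm
    · intro c hc
      obtain ⟨x, rfl⟩ := Quotient.exists_rep c
      have h2 : szc γ ⟦x⟧ = ell γ x := szc_cls γ x
      simp only at hc
      rw [← odd_iff_v2 (szc_ne γ _), h2] at hc
      obtain ⟨L, hL⟩ := hc
      have h1 := T_spec (γ := γ) (x := x) (y := γ^[L] x) ⟨L, hL, rfl⟩ s t
      rw [h, Pi.zero_apply] at h1
      exact h1.symm
  · rintro ⟨h, h'⟩
    funext q
    obtain ⟨⟨x, y⟩, rfl⟩ := Quotient.exists_rep q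
    by_cases hs : Spec γ x y
    · have h1 := T_spec hs s t
      have h2 := h' (cls γ x)
      simp only at h2
      rw [szc_cls, ← odd_iff_v2 (ell_pos γ x).ne'] at h2
      obtain ⟨L, h5, h6⟩ := hs
      rw [h2 ⟨L, h5⟩] at h1
      exact h1
    · have h1 := T_nonspec hs s t
      have h2 := h (cls γ x) (cls γ y)
      rw [szc_cls, szc_cls] at h2
      rw [Pi.zero_apply]
      exact h1.trans h2

open Classical in
/-- one free sign if there is no odd cycle -/
noncomputable def valf {C : Type} (v : C → ℕ) : ℕ := if ∃ c, v c = 0 then 0 else 1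

omit [DecidableEq U] [Fintype U] in
theorem card_condS {C : Type} [Fintype C] [Nonempty C] (v : C → ℕ) :
    Nat.card {α : C → ZMod 2 // CondS v α} = 2 ^ valf v := by
  classical
  unfold valf
  split_ifs with h
  · obtain ⟨c0, hc0⟩ := h
    rw [pow_zero, Nat.card_eq_one_iff_unique]
    constructor
    · constructor
      rintro ⟨α, h1, h2⟩ ⟨β, h3, h4⟩
      have key : ∀ (α : C → ZMod 2), Cond v v α α → (∀ c, v c = 0 → α c = 0) → ∀ c, α c = 0 := by
        intro α h1 h2 c
        by_cases h5 : v c = 0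
        · exact h2 c h5
        · exact (h1 c0 c).2.1 (by omega)
      apply Subtype.ext
      funext c
      show α c = β c
      rw [key α h1 h2, key β h3 h4]
    · exact ⟨⟨0, fun c d => ⟨fun _ => rfl, fun _ => rfl, fun _ => rfl⟩, fun c _ => rfl⟩⟩
  · push Not at h
    obtain ⟨c0, hc⟩ := Finite.exists_min v
    have h2 : Nat.card (ZMod 2) = 2 := by simp
    rw [pow_one]
    refine (Nat.card_congr (β := ZMod 2) ?_).trans h2
    refine ⟨fun p => p.1 c0, fun x => ⟨fun c => if v c = v c0 then x else 0, ?_⟩, ?_, ?_⟩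
    · refine ⟨?_, fun c hc => absurd hc (h c)⟩
      intro c d
      have h3 := hc c
      have h4 := hc d
      simp only
      refine ⟨?_, ?_, ?_⟩
      · intro h
        rw [h]
      · intro h
        rw [if_neg (by omega)]
      · intro h
        rw [if_neg (by omega)]
    · rintro ⟨α, h1, h2⟩
      apply Subtype.ext
      funext c
      have h3 := hc c
      show (if v c = v c0 then α c0 else 0) = α c
      split_ifs with h4
      · exact ((h1 c c0).1 h4).symm
      · exact ((h1 c0 c).2.1 (by omega)).symm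
    · intro x
      simp

theorem cq_theta (γ : Perm U) :
    2 * Fintype.card (CQ (theta γ)) =
      ∑ c : CQ γ, ∑ d : CQ γ, Nat.gcd (szc γ c) (szc γ d) +
        ∑ c : CQ γ, (if Odd (szc γ c) then 1 else 0) := by
  classical
  have h1 : (2 : ℚ) * Fintype.card (CQ (theta γ)) =
      ∑ c : CQ γ, ∑ d : CQ γ, (Nat.gcd (szc γ c) (szc γ d) : ℚ) +
        ∑ c : CQ γ, (if Odd (szc γ c) then (1 : ℚ) else 0) := by
    have h2 := sum_cycles (theta γ) (fun _ => 1)
    rw [Finset.sum_const, Finset.card_univ, nsmul_eq_mul, mul_one] at h2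
    have h2' : Fintype.card (CQ (Equiv.prodCongr γ γ : Perm (U × U))) =
      ∑ c : CQ γ, ∑ d : CQ γ, Nat.gcd (szc γ c) (szc γ d) := cq_prod γ γ
    have h3 := sum_cycles (Equiv.prodCongr γ γ : Perm (U × U)) (fun _ => 1)
    rw [Finset.sum_const, Finset.card_univ, nsmul_eq_mul, mul_one, h2'] at h3
    push_cast at h3
    rw [h2, h3, sum_cycles γ (fun c => if Odd (szc γ c) then (1 : ℚ) else 0),
      Fintype.sum_prod_type, Fintype.sum_prod_type, ← Finset.sum_add_distrib, Finset.mul_sum]
    apply Finset.sum_congr rfl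
    intro x _
    simp only [ell_prod, szc_cls]
    have h4 : ∀ y : U, (2 : ℚ) * (1 / (ell (theta γ) (x, y) : ℚ)) =
        1 / (Nat.lcm (ell γ x) (ell γ y) : ℚ) + ii (Spec γ x y) * (1 / ell γ x) := by
      intro y
      have h7 : (Nat.lcm (ell γ x) (ell γ y) : ℚ) ≠ 0 := by
        exact_mod_cast (Nat.lcm_pos (ell_pos γ x) (ell_pos γ y)).ne'
      by_cases hs : Spec γ x y
      · rw [ii_true hs, ell_spec_pair hs, spec_ell_eq hs, Nat.lcm_self]
        ring
      · rw [ii_false hs, ell_nonspec hs]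
        push_cast
        field_simp
        ring
    rw [Finset.mul_sum, Finset.sum_congr rfl (fun y _ => h4 y), Finset.sum_add_distrib]
    congr 1
    rw [← Finset.sum_mul]
    split_ifs with h5
    · obtain ⟨L, hL⟩ := h5
      rw [sum_ii_unique (fun y => Spec γ x y) (γ^[L] x) ⟨L, hL, rfl⟩, one_mul]
      rintro y ⟨L', h6, h7⟩
      rw [← h7]
      congr 1
      congr 1
      omega
    · rw [sum_ii_none, zero_mul, zero_div]
      rintro y ⟨L', h6, h7⟩
      exact h5 ⟨L', h6⟩
  exact_mod_cast h1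

theorem sfix_eq [Nonempty U] (γ : Perm U) :
    sfix γ * 2 ^ Fintype.card (CQ γ) =
      2 ^ Fintype.card (CQ (theta γ)) * 2 ^ valf (fun c => v2 (szc γ c)) := by
  classical
  have hN := curv_count (fun c : U → U → U → U → ZMod 2 => tr (pull γ id c) = c)
  have h1 : ∀ m : U → U → ZMod 2, 2 * ii (tr (pull γ id (curv m)) = curv m) =
      ∑ s : U → ZMod 2, ∑ t : U → ZMod 2,
        ii (∀ z : U × U, m (γ z.2) z.1 = m z.1 z.2 + (t z.1 + s z.2)) := by
    intro m
    have h2 : tr (pull γ id (curv m)) = curv m ↔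
        curv (fun i j => m (γ i) j + m j i) = 0 := by
      have h3 : tr (pull γ id (curv m)) = tr (curv (fun i j => m (γ i) j)) := rfl
      have h4 : curv m = tr (curv (fun i j => m j i)) := by
        funext i i' j j'
        simp only [tr, curv]
        ring
      rw [h3]
      conv_lhs => rw [h4]
      have h5 := curv_eq_iff (fun i j => m (γ i) j) (fun i j => m j i)
      have h6 : (fun i j => m (γ i) j + m j i) = (fun i j => m (γ i) j) + (fun i j => m j i) := rfl
      rw [h6, ← h5]
      constructor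
      · intro h
        have := congrArg tr h
        rwa [tr_tr, tr_tr] at this
      · intro h
        rw [h]
    rw [ii_congr h2, ← two_sol]
    apply Finset.sum_congr rfl
    intro s _
    apply Finset.sum_congr rfl
    intro t _
    apply ii_congr
    constructor
    · intro h z
      have h3 := h z.2 z.1
      have h4 := z2 (m z.1 z.2)
      linear_combination h3 - h4
    · intro h i j
      have h3 := h (j, i)
      have h4 := z2 (m j i)
      simp only at h3
      linear_combination h3 + h4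
  have h3 : 2 * ∑ m : U → U → ZMod 2, ii (tr (pull γ id (curv m)) = curv m) =
      ∑ s : U → ZMod 2, ∑ t : U → ZMod 2,
        2 ^ Fintype.card (CQ (theta γ)) *
          ii (CondS (fun c => v2 (szc γ c)) (T γ (s + t))) := by
    rw [Finset.mul_sum, Finset.sum_congr rfl (fun m _ => h1 m), Finset.sum_comm]
    apply Finset.sum_congr rfl
    intro s _
    rw [Finset.sum_comm]
    apply Finset.sum_congr rfl
    intro t _
    rw [← ii_congr (T_theta_zero γ s t), ← sum_sol]
    apply Fintype.sum_equiv (Equiv.curry U U (ZMod 2)).symm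
    intro m
    rfl
  have h4 : (∑ s : U → ZMod 2, ∑ t : U → ZMod 2,
      ii (CondS (fun c => v2 (szc γ c)) (T γ (s + t)))) * 2 ^ Fintype.card (CQ γ) =
      2 ^ (Fintype.card U + Fintype.card U) * 2 ^ valf (fun c => v2 (szc γ c)) := by
    have h5 : ∀ s : U → ZMod 2, ∑ t : U → ZMod 2,
        ii (CondS (fun c => v2 (szc γ c)) (T γ (s + t))) = ∑ t : U → ZMod 2,
        ii (CondS (fun c => v2 (szc γ c)) (T γ t)) := by
      intro s
      apply Fintype.sum_equiv (Equiv.addLeft s)
      intro t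
      rfl
    rw [Finset.sum_congr rfl (fun s _ => h5 s), Finset.sum_const, Finset.card_univ, nsmul_eq_mul,
      mul_assoc, sum_T γ (fun α => ii (CondS (fun c => v2 (szc γ c)) α)),
      sum_ii_card (fun α : CQ γ → ZMod 2 => CondS (fun c => v2 (szc γ c)) α)]
    have : Nonempty (CQ γ) := ⟨cls γ (Classical.arbitrary U)⟩
    rw [card_condS, pow_add]
    push_cast
    have h6 : ((Fintype.card (U → ZMod 2) : ℕ) : ℚ) = 2 ^ Fintype.card U := by
      simp [ZMod.card]
    rw [h6]
    ring
  have h8 : sfix γ * 2 ^ (Fintype.card U + Fintype.card U) =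
      2 ^ Fintype.card (CQ (theta γ)) * (∑ s : U → ZMod 2,
        ∑ t : U → ZMod 2, ii (CondS (fun c => v2 (szc γ c)) (T γ (s + t)))) := by
    unfold sfix
    rw [hN, h3]
    simp only [Finset.mul_sum]
  have h9 : (2 : ℚ) ^ (Fintype.card U + Fintype.card U) ≠ 0 := by positivity
  have h10 : (sfix γ * 2 ^ Fintype.card (CQ γ)) *
      2 ^ (Fintype.card U + Fintype.card U) =
      (2 ^ Fintype.card (CQ (theta γ)) * 2 ^ valf (fun c => v2 (szc γ c))) *
      2 ^ (Fintype.card U + Fintype.card U) := by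
    linear_combination 2 ^ Fintype.card (CQ γ) * h8 + 2 ^ Fintype.card (CQ (theta γ)) * h4
  exact mul_right_cancel₀ h9 h10

end sw

end Pool.Agent.Helper371.Rho
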