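import Pool.Agent.Helper371.RhoI

set_option autoImplicit false

namespace Pool.Agent.Helper371.Rho

open Finset Equiv Function

/-- the group of the pairs of permutations and the swap -/
@[ext] structure GG (d : ℕ) where
  l : Perm (Fin d)
  r : Perm (Fin d)
  s : Bool

/-- as a product -/
def ggEquiv (d : ℕ) : GG d ≃ Perm (Fin d) × Perm (Fin d) × Bool where
  toFun a := (a.l, a.r, a.s)
  invFun a := ⟨a.1, a.2.1, a.2.2⟩
  left_inv _ := rfl
  right_inv _ := rfl

instance (d : ℕ) : Fintype (GG d) := Fintype.ofEquiv _ (ggEquiv d).symm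

/-- multiplication -/
def gmul {d : ℕ} (a b : GG d) : GG d :=
  if a.s then ⟨a.l * b.r, a.r * b.l, !b.s⟩ else ⟨a.l * b.l, a.r * b.r, b.s⟩

/-- inverse -/
def ginv {d : ℕ} (a : GG d) : GG d :=
  if a.s then ⟨a.r⁻¹, a.l⁻¹, true⟩ else ⟨a.l⁻¹, a.r⁻¹, false⟩

instance (d : ℕ) : Group (GG d) :=
  letI : Mul (GG d) := ⟨gmul⟩
  letI : One (GG d) := ⟨⟨1, 1, false⟩⟩
  letI : Inv (GG d) := ⟨ginv⟩
  Group.ofLeftAxioms
    (by
      rintro ⟨a1, a2, a3⟩ ⟨b1, b2, b3⟩ ⟨c1, c2, c3⟩
      show gmul (gmul _ _) _ = gmul _ (gmul _ _)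
      cases a3 <;> cases b3 <;> simp [gmul, mul_assoc])
    (by
      rintro ⟨a1, a2, a3⟩
      show gmul ⟨1, 1, false⟩ _ = _
      simp [gmul])
    (by
      rintro ⟨a1, a2, a3⟩
      show gmul (ginv _) _ = ⟨1, 1, false⟩
      cases a3 <;> simp [gmul, ginv])

theorem gmul_eq {d : ℕ} (a b : GG d) : a * b = gmul a b := rfl

theorem gone_eq {d : ℕ} : (1 : GG d) = ⟨1, 1, false⟩ := rfl

/-- reduced curvatures -/
abbrev YY (d : ℕ) : Type := {c : Fin d → Fin d → Fin d → Fin d → ZMod 2 // IsCurv c ∧ Red c}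

theorem red_pull {U V P Q : Type} {c : P → P → Q → Q → ZMod 2} (h : Red c) (f : U ≃ P) (g : V ≃ Q) :
    Red (pull f g c) := by
  constructor
  · intro i i' h1
    apply f.injective
    apply h.1
    intro q q'
    have := h1 (g.symm q) (g.symm q')
    simpa [pull] using this
  · intro i i' h1
    apply g.injective
    apply h.2
    intro q q'
    have := h1 (f.symm q) (f.symm q')
    simpa [pull, tr] using this

/-- the action on curvatures -/
def gact {d : ℕ} (a : GG d) (c : Fin d → Fin d → Fin d → Fin d → ZMod 2) :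
    Fin d → Fin d → Fin d → Fin d → ZMod 2 :=
  pull (a.l⁻¹ : Perm (Fin d)) (a.r⁻¹ : Perm (Fin d)) (if a.s then tr c else c)

theorem gact_mul {d : ℕ} (a b : GG d) (c : Fin d → Fin d → Fin d → Fin d → ZMod 2) :
    gact (a * b) c = gact a (gact b c) := by
  obtain ⟨a1, a2, a3⟩ := a
  obtain ⟨b1, b2, b3⟩ := b
  rw [gmul_eq]
  cases a3 <;> cases b3 <;> simp [gmul, gact, mul_inv_rev] <;> rfl

instance (d : ℕ) : MulAction (GG d) (YY d) where
  smul a y := ⟨gact a y.1, by
    unfold gact
    obtain ⟨h1, h2⟩ := y.2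
    constructor
    · split_ifs
      · exact h1.tr.pull _ _
      · exact h1.pull _ _
    · split_ifs
      · exact red_pull (red_tr h2) _ _
      · exact red_pull h2 _ _⟩
  one_smul y := by
    apply Subtype.ext
    show gact 1 y.1 = y.1
    rw [gone_eq]
    rfl
  mul_smul a b y := by
    apply Subtype.ext
    exact gact_mul a b y.1

theorem smul_val {d : ℕ} (a : GG d) (y : YY d) : (a • y).1 = gact a y.1 := rfl

/-- equivalence of curvatures -/
def Eqv {d : ℕ} (c c' : Fin d → Fin d → Fin d → Fin d → ZMod 2) : Prop :=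
  ∃ σ τ : Perm (Fin d), pull σ τ c = c' ∨ tr (pull σ τ c) = c'

theorem orbit_iff {d : ℕ} (y y' : YY d) :
    (MulAction.orbitRel (GG d) (YY d)) y y' ↔ Eqv y'.1 y.1 := by
  rw [MulAction.orbitRel_apply, MulAction.mem_orbit_iff]
  constructor
  · rintro ⟨⟨a1, a2, a3⟩, h⟩
    have h1 := congrArg Subtype.val h
    rw [smul_val] at h1
    cases a3
    · exact ⟨a1⁻¹, a2⁻¹, Or.inl h1⟩
    · exact ⟨a2⁻¹, a1⁻¹, Or.inr h1⟩
  · rintro ⟨σ, τ, h | h⟩
    · refine ⟨⟨σ⁻¹, τ⁻¹, false⟩, Subtype.ext ?_⟩
      rw [smul_val, ← h]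
      simp [gact]
    · refine ⟨⟨τ⁻¹, σ⁻¹, true⟩, Subtype.ext ?_⟩
      rw [smul_val, ← h]
      simp [gact]
      rfl

theorem swap_conj {d : ℕ} (α β : Perm (Fin d)) :
    ∑ r : Fin d → Fin d → Fin d → Fin d → ZMod 2,
        ii (IsCurv r) * ii (Red r) * ii (tr (pull α β r) = r) =
    ∑ r : Fin d → Fin d → Fin d → Fin d → ZMod 2,
        ii (IsCurv r) * ii (Red r) * ii (tr (pull (α * β : Perm (Fin d)) id r) = r) := by
  classical
  symm
  let e : (Fin d → Fin d → Fin d → Fin d → ZMod 2) ≃ (Fin d → Fin d → Fin d → Fin d → ZMod 2) :=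
    { toFun := pull id (β⁻¹ : Perm (Fin d))
      invFun := pull id β
      left_inv := by
        intro r
        funext i i' j j'
        simp [pull]
      right_inv := by
        intro r
        funext i i' j j'
        simp [pull] }
  apply Fintype.sum_equiv e
  intro r
  have h1 : IsCurv (e r) ↔ IsCurv r := by
    constructor
    · intro h
      have := h.pull id β
      have h2 : pull id β (e r) = r := e.left_inv r
      rwa [h2] at this
    · intro h
      exact h.pull _ _
  have h2 : Red (e r) ↔ Red r := by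
    constructor
    · intro h
      have := red_pull h (Equiv.refl _) β
      have h2 : pull id β (e r) = r := e.left_inv r
      have h3 : pull (Equiv.refl _) β (e r) = pull id β (e r) := rfl
      rwa [h3, h2] at this
    · intro h
      have := red_pull h (Equiv.refl _) (β⁻¹ : Perm (Fin d))
      exact this
  have h3 : tr (pull α β (e r)) = e r ↔ tr (pull (α * β : Perm (Fin d)) id r) = r := by
    have h4 : e (tr (pull (α * β : Perm (Fin d)) id r)) = tr (pull α β (e r)) := by
      funext i i' j j'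
      simp [e, pull, tr]
    rw [← h4, e.injective.eq_iff]
  rw [ii_congr h1, ii_congr h2, ii_congr h3]

/-- Burnside's count of the classes of reduced curvatures -/
theorem classes (d : ℕ) :
    (Nat.card (Quotient (MulAction.orbitRel (GG d) (YY d))) : ℚ) =
      (W d (fun b γ => W d (fun b' γ' => nfix γ γ')) + W d (fun b γ => sfix γ)) / 2 := by
  classical
  have h1 : ∑ a : GG d, Nat.card (MulAction.fixedBy (YY d) a) =
      Nat.card (Quotient (MulAction.orbitRel (GG d) (YY d))) * Fintype.card (GG d) := by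
    letI : ∀ a : GG d, Fintype (MulAction.fixedBy (YY d) a) := fun a => Fintype.ofFinite _
    letI : Fintype (Quotient (MulAction.orbitRel (GG d) (YY d))) := Fintype.ofFinite _
    have := MulAction.sum_card_fixedBy_eq_card_orbits_mul_card_group (GG d) (YY d)
    simp only [← Nat.card_eq_fintype_card] at this
    rw [← Nat.card_eq_fintype_card]
    exact this
  have hfix : ∀ a : GG d, (Nat.card (MulAction.fixedBy (YY d) a) : ℚ) =
      ∑ r : Fin d → Fin d → Fin d → Fin d → ZMod 2,
        ii (IsCurv r) * ii (Red r) * ii (gact a r = r) := by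
    intro a
    have h2 : ∀ r : Fin d → Fin d → Fin d → Fin d → ZMod 2,
        ii (IsCurv r) * ii (Red r) * ii (gact a r = r) =
        ii ((IsCurv r ∧ Red r) ∧ gact a r = r) := by
      intro r
      rw [ii_and, ii_and]
    rw [Finset.sum_congr rfl (fun r _ => h2 r), sum_ii_card
      (fun r : Fin d → Fin d → Fin d → Fin d → ZMod 2 => (IsCurv r ∧ Red r) ∧ gact a r = r)]
    congr 1
    apply Nat.card_congr
    refine ⟨fun y => ⟨y.1.1, y.1.2, ?_⟩, fun r => ⟨⟨r.1, r.2.1⟩, ?_⟩, ?_, ?_⟩
    · have := y.2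
      rw [MulAction.mem_fixedBy] at this
      exact congrArg Subtype.val this
    · rw [MulAction.mem_fixedBy]
      exact Subtype.ext r.2.2
    · intro y; rfl
    · intro r; rfl
  have hcard : (Fintype.card (GG d) : ℚ) = 2 * (d.factorial * d.factorial) := by
    have : Fintype.card (GG d) = Fintype.card (Perm (Fin d) × Perm (Fin d) × Bool) :=
      Fintype.card_congr (ggEquiv d)
    rw [this, Fintype.card_prod, Fintype.card_prod, Fintype.card_perm, Fintype.card_fin,
      Fintype.card_bool]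
    push_cast
    ring
  have hsum : ∑ a : GG d, ∑ r : Fin d → Fin d → Fin d → Fin d → ZMod 2,
        ii (IsCurv r) * ii (Red r) * ii (gact a r = r) =
      (∑ α : Perm (Fin d), ∑ β : Perm (Fin d), ∑ r : Fin d → Fin d → Fin d → Fin d → ZMod 2,
        ii (IsCurv r) * ii (Red r) * ii (pull α β r = r)) +
      ∑ α : Perm (Fin d), ∑ β : Perm (Fin d), ∑ r : Fin d → Fin d → Fin d → Fin d → ZMod 2,
        ii (IsCurv r) * ii (Red r) * ii (tr (pull α β r) = r) := by
    have h3 : ∑ a : GG d, ∑ r : Fin d → Fin d → Fin d → Fin d → ZMod 2,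
        ii (IsCurv r) * ii (Red r) * ii (gact a r = r) =
        ∑ a : Perm (Fin d) × Perm (Fin d) × Bool, ∑ r : Fin d → Fin d → Fin d → Fin d → ZMod 2,
        ii (IsCurv r) * ii (Red r) * ii (gact (⟨a.1, a.2.1, a.2.2⟩ : GG d) r = r) :=
      Fintype.sum_equiv (ggEquiv d) _ _ (fun a => rfl)
    rw [h3, Fintype.sum_prod_type]
    simp only [Fintype.sum_prod_type, Fintype.sum_bool]
    have h4 : ∀ (x y : Perm (Fin d)), gact (⟨x, y, true⟩ : GG d) =
        fun r => tr (pull (y⁻¹ : Perm (Fin d)) (x⁻¹ : Perm (Fin d)) r) := by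
      intro x y; rfl
    have h5 : ∀ (x y : Perm (Fin d)), gact (⟨x, y, false⟩ : GG d) =
        fun r => pull (x⁻¹ : Perm (Fin d)) (y⁻¹ : Perm (Fin d)) r := by
      intro x y; rfl
    simp only [h4, h5, Finset.sum_add_distrib]
    rw [add_comm]
    congr 1
    · apply Fintype.sum_equiv (Equiv.inv _)
      intro x
      apply Fintype.sum_equiv (Equiv.inv _)
      intro y
      rfl
    · rw [Finset.sum_comm]
      apply Fintype.sum_equiv (Equiv.inv _)
      intro x
      apply Fintype.sum_equiv (Equiv.inv _)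
      intro y
      rfl
  have hswap : ∑ α : Perm (Fin d), ∑ β : Perm (Fin d),
      ∑ r : Fin d → Fin d → Fin d → Fin d → ZMod 2,
        ii (IsCurv r) * ii (Red r) * ii (tr (pull α β r) = r) =
      d.factorial * ∑ α : Perm (Fin d), ∑ r : Fin d → Fin d → Fin d → Fin d → ZMod 2,
        ii (IsCurv r) * ii (Red r) * ii (tr (pull α id r) = r) := by
    rw [Finset.sum_comm]
    have h3 : ∀ β : Perm (Fin d), ∑ α : Perm (Fin d),
      ∑ r : Fin d → Fin d → Fin d → Fin d → ZMod 2,
        ii (IsCurv r) * ii (Red r) * ii (tr (pull α β r) = r) =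
      ∑ α : Perm (Fin d), ∑ r : Fin d → Fin d → Fin d → Fin d → ZMod 2,
        ii (IsCurv r) * ii (Red r) * ii (tr (pull α id r) = r) := by
      intro β
      rw [Finset.sum_congr rfl (fun α _ => swap_conj α β)]
      apply Fintype.sum_equiv (Equiv.mulRight β)
      intro α
      rfl
    rw [Finset.sum_congr rfl (fun β _ => h3 β), Finset.sum_const, Finset.card_univ,
      Fintype.card_perm, Fintype.card_fin, nsmul_eq_mul]
  have h6 : (Nat.card (Quotient (MulAction.orbitRel (GG d) (YY d))) : ℚ) *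
      (2 * (d.factorial * d.factorial)) =
      (∑ α : Perm (Fin d), ∑ β : Perm (Fin d), ∑ r : Fin d → Fin d → Fin d → Fin d → ZMod 2,
        ii (IsCurv r) * ii (Red r) * ii (pull α β r = r)) +
      d.factorial * ∑ α : Perm (Fin d), ∑ r : Fin d → Fin d → Fin d → Fin d → ZMod 2,
        ii (IsCurv r) * ii (Red r) * ii (tr (pull α id r) = r) := by
    rw [← hswap, ← hsum, ← hcard]
    have h7 : (∑ a : GG d, (Nat.card (MulAction.fixedBy (YY d) a) : ℚ)) =
        (Nat.card (Quotient (MulAction.orbitRel (GG d) (YY d))) : ℚ) *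
        (Fintype.card (GG d) : ℚ) := by
      exact_mod_cast h1
    rw [← h7]
    apply Finset.sum_congr rfl
    intro a _
    exact hfix a
  rw [NS, SWs]
  have h8 : (d.factorial : ℚ) ≠ 0 := by exact_mod_cast Nat.factorial_ne_zero d
  field_simp
  linear_combination h6

end Pool.Agent.Helper371.Rho
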