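import Pool.Agent.Helper371.SDefs

set_option autoImplicit false

namespace Pool.Agent.Helper371

section facts
variable {V : Type} [Finite V] {G : SimpleGraph V}

omit [Finite V] in
/-- adjacent vertices have distances from `v` differing by exactly one -/
theorem adj_dist (hG : IsSGraph G) (v : V) {x y : V} (h : G.Adj x y) :
    G.dist v y = G.dist v x + 1 ∨ G.dist v x = G.dist v y + 1 := by
  have hc := hG.1
  obtain ⟨c⟩ : Nonempty (G.Coloring Bool) := ⟨hG.2.1.toColoring (by simp)⟩
  have hpar : ∀ z, Even (G.dist v z) ↔ (c v ↔ c z) := by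
    intro z
    obtain ⟨p, hp⟩ := (hc v z).exists_walk_length_eq_dist
    rw [← hp]
    exact c.even_length_iff_congr p
  have h1 := hpar x
  have h2 := hpar y
  have h3 : c x ≠ c y := c.valid h
  have h4 : ¬ (Even (G.dist v x) ↔ Even (G.dist v y)) := by
    rw [h1, h2]
    intro h5
    apply h3
    cases hx : c x <;> cases hy : c y <;> cases hv : c v <;> simp_all
  rcases h.diff_dist_adj (u := v) with h5 | h5 | h5
  · rw [h5] at h4
    exact absurd Iff.rfl h4
  · exact Or.inl h5
  · right
    by_contra h6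
    have h7 : G.dist v y = G.dist v x := by omega
    rw [h7] at h4
    exact h4 Iff.rfl

/-- the opposite vertex -/
noncomputable def bar (hG : IsSGraph G) (v : V) : V := (hG.2.2 v).choose

omit [Finite V] in
theorem bar_mem (hG : IsSGraph G) (v : V) : bar hG v ∈ locMax G v := (hG.2.2 v).choose_spec.1

omit [Finite V] in
theorem eq_bar (hG : IsSGraph G) {v x : V} (hx : x ∈ locMax G v) : x = bar hG v :=
  (hG.2.2 v).choose_spec.2 x hx

theorem dist_bar (hG : IsSGraph G) (v x : V) :
    G.dist v x + G.dist x (bar hG v) = G.dist v (bar hG v) := by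
  obtain ⟨z, hz⟩ : ∃ z, ∀ y, G.dist v y ≤ G.dist v z := by
    have : Nonempty V := ⟨v⟩
    exact Finite.exists_max (fun y => G.dist v y)
  have key : ∀ (k : ℕ) (x : V), G.dist v z = G.dist v x + k →
      G.dist v x + G.dist x (bar hG v) = G.dist v (bar hG v) := by
    intro k
    induction k using Nat.strong_induction_on with
    | _ k ih =>
      intro x hx
      by_cases hxb : x = bar hG v
      · rw [hxb, SimpleGraph.dist_self, add_zero]
      · have hnm : x ∉ locMax G v := fun h => hxb (eq_bar hG h)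
        simp only [locMax, Set.mem_ofPred_eq, not_forall, not_le] at hnm
        obtain ⟨y, hxy, hlt⟩ := hnm
        have h1 := adj_dist hG v hxy
        have h2 := hz y
        have h3 := ih (k - 1) (by omega) y (by omega)
        have h4 : G.dist x (bar hG v) ≤ G.dist x y + G.dist y (bar hG v) := hG.1.dist_triangle
        have h5 : G.dist x y = 1 := SimpleGraph.dist_eq_one_iff_adj.mpr hxy
        have h6 : G.dist v (bar hG v) ≤ G.dist v x + G.dist x (bar hG v) := hG.1.dist_triangle
        omega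
  exact key (G.dist v z - G.dist v x) x (by have := hz x; omega)

theorem bar_bar (hG : IsSGraph G) (v : V) : bar hG (bar hG v) = v := by
  symm
  apply eq_bar
  intro y _
  have h1 := dist_bar hG v y
  have h2 : G.dist (bar hG v) y = G.dist y (bar hG v) := SimpleGraph.dist_comm
  have h3 : G.dist (bar hG v) v = G.dist v (bar hG v) := SimpleGraph.dist_comm
  omega

theorem bar_step (hG : IsSGraph G) {v w : V} (h : G.Adj v w) :
    G.Adj (bar hG v) (bar hG w) ∧ G.dist v (bar hG v) = G.dist w (bar hG w) := by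
  have h0 : G.dist v w = 1 := SimpleGraph.dist_eq_one_iff_adj.mpr h
  have h0' : G.dist w v = 1 := SimpleGraph.dist_eq_one_iff_adj.mpr h.symm
  have h1 := dist_bar hG v w
  have h2 := dist_bar hG w v
  have h3 := dist_bar hG v (bar hG w)
  have h4 := dist_bar hG w (bar hG v)
  have h5 : G.dist (bar hG w) (bar hG v) = G.dist (bar hG v) (bar hG w) := SimpleGraph.dist_comm
  rw [← SimpleGraph.dist_eq_one_iff_adj]
  omega

theorem bar_adj (hG : IsSGraph G) {v w : V} : G.Adj (bar hG v) (bar hG w) ↔ G.Adj v w := by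
  constructor
  · intro h
    have := (bar_step hG h).1
    rwa [bar_bar, bar_bar] at this
  · intro h
    exact (bar_step hG h).1

theorem bar_inj (hG : IsSGraph G) {v w : V} (h : bar hG v = bar hG w) : v = w := by
  rw [← bar_bar hG v, h, bar_bar]

theorem dist_bar_const (hG : IsSGraph G) (v w : V) :
    G.dist v (bar hG v) = G.dist w (bar hG w) := by
  obtain ⟨p⟩ := hG.1 v w
  induction p with
  | nil => rfl
  | cons h p ih => exact (bar_step hG h).2.trans ih

theorem dist_bar_eq_diam (hG : IsSGraph G) (v : V) : G.dist v (bar hG v) = G.diam := by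
  have : Nonempty V := ⟨v⟩
  apply le_antisymm
  · exact SimpleGraph.dist_le_diam (SimpleGraph.connected_iff_ediam_ne_top.mp hG.1)
  · obtain ⟨u, w, huw⟩ := G.exists_dist_eq_diam
    rw [← huw, dist_bar_const hG v u]
    have := dist_bar hG u w
    omega

end facts

/-- recognising the distance function -/
theorem dist_table {V : Type} [Nonempty V] {G : SimpleGraph V} (δ : V → V → ℕ) (h0 : ∀ v x, δ v x = 0 ↔ x = v)
    (h1 : ∀ v x y, G.Adj x y → δ v y ≤ δ v x + 1)
    (h2 : ∀ v x, x ≠ v → ∃ y, G.Adj x y ∧ δ v x = δ v y + 1) :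
    G.Connected ∧ ∀ v x, G.dist v x = δ v x := by
  have hw : ∀ (n : ℕ) (v x : V), δ v x = n → ∃ p : G.Walk v x, p.length = n := by
    intro n
    induction n with
    | zero =>
      intro v x hx
      obtain rfl := (h0 v x).mp hx
      exact ⟨SimpleGraph.Walk.nil, rfl⟩
    | succ n ih =>
      intro v x hx
      have hne : x ≠ v := by
        rintro rfl
        rw [(h0 x x).mpr rfl] at hx
        omega
      obtain ⟨y, hadj, h⟩ := h2 v x hne
      obtain ⟨p, hp⟩ := ih v y (by omega)
      exact ⟨p.concat hadj.symm, by rw [SimpleGraph.Walk.length_concat, hp]⟩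
  have hc : G.Connected := by
    constructor
    intro v x
    obtain ⟨p, _⟩ := hw _ v x rfl
    exact ⟨p⟩
  refine ⟨hc, ?_⟩
  intro v x
  apply le_antisymm
  · obtain ⟨p, hp⟩ := hw _ v x rfl
    rw [← hp]
    exact SimpleGraph.dist_le p
  · obtain ⟨p, hp⟩ := (hc x v).exists_walk_length_eq_dist
    rw [SimpleGraph.dist_comm, ← hp]
    clear hp
    induction p with
    | nil => rw [(h0 _ _).mpr rfl]; simp
    | cons h p ih =>
      rw [SimpleGraph.Walk.length_cons]
      rename_i a b c
      have := h1 c b a h.symm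
      omega

/-- recognising small S-graphs -/
theorem isSGraph_of_table {V : Type} [Nonempty V] {G : SimpleGraph V} (δ : V → V → ℕ)
    (h0 : ∀ v x, δ v x = 0 ↔ x = v)
    (h1 : ∀ v x y, G.Adj x y → δ v y ≤ δ v x + 1)
    (h2 : ∀ v x, x ≠ v → ∃ y, G.Adj x y ∧ δ v x = δ v y + 1)
    (c : V → Fin 2) (hc : ∀ x y, G.Adj x y → c x ≠ c y)
    (a : V → V) (ha : ∀ v x, (∀ y, G.Adj x y → δ v y ≤ δ v x) ↔ x = a v) : IsSGraph G := by
  obtain ⟨k1, k2⟩ := dist_table δ h0 h1 h2
  refine ⟨k1, ⟨SimpleGraph.Coloring.mk c (fun {x y} h => hc x y h)⟩, ?_⟩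
  intro v
  refine ⟨a v, ?_, ?_⟩
  · intro y hy
    rw [k2, k2]
    exact (ha v (a v)).mpr rfl y hy
  · intro x hx
    rw [← ha v x]
    intro y hy
    rw [← k2, ← k2]
    exact hx y hy

/-- the edge -/
def K2g : SimpleGraph (Fin 2) where
  Adj i j := i ≠ j
  symm := ⟨fun _ _ h => h.symm⟩
  loopless := ⟨fun _ h => h rfl⟩

/-- cycles -/
def Cg (n : ℕ) [NeZero n] : SimpleGraph (Fin n) where
  Adj i j := i ≠ j ∧ (j = i + 1 ∨ i = j + 1)
  symm := ⟨fun _ _ h => ⟨h.1.symm, h.2.symm⟩⟩
  loopless := ⟨fun _ h => h.1 rfl⟩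

instance : DecidableRel K2g.Adj := fun i j => inferInstanceAs (Decidable (i ≠ j))
instance (n : ℕ) [NeZero n] : DecidableRel (Cg n).Adj :=
  fun i j => inferInstanceAs (Decidable (i ≠ j ∧ (j = i + 1 ∨ i = j + 1)))

theorem isSGraph_K2 : IsSGraph K2g := by
  refine isSGraph_of_table (fun i j => if i = j then 0 else 1) ?_ ?_ ?_ (fun i => i) ?_
    (fun i => i + 1) ?_ <;> decide

theorem isSGraph_C4 : IsSGraph (Cg 4) := by
  refine isSGraph_of_table (fun i j => min (i - j).val (j - i).val) ?_ ?_ ?_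
    (fun i => ⟨i.val % 2, Nat.mod_lt _ (by norm_num)⟩) ?_ (fun i => i + 2) ?_ <;> decide

theorem isSGraph_C6 : IsSGraph (Cg 6) := by
  refine isSGraph_of_table (fun i j => min (i - j).val (j - i).val) ?_ ?_ ?_
    (fun i => ⟨i.val % 2, Nat.mod_lt _ (by norm_num)⟩) ?_ (fun i => i + 3) ?_ <;> decide

/-- an injective homomorphism from a finite cubic graph to a connected cubic graph is an
isomorphism -/
theorem iso_of_inj {P V : Type} [Nonempty P] {H : SimpleGraph P} {G : SimpleGraph V} (hH : IsCubic H)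
    (hG : IsCubic G) (hc : G.Connected) (ψ : P → V) (hinj : Function.Injective ψ)
    (hhom : ∀ p q, H.Adj p q → G.Adj (ψ p) (ψ q)) : Nonempty (G ≃g H) := by
  have key : ∀ p w, G.Adj (ψ p) w → ∃ q, H.Adj p q ∧ ψ q = w := by
    intro p w hw
    have hsub : ψ '' (H.neighborSet p) ⊆ G.neighborSet (ψ p) := by
      rintro _ ⟨q, hq, rfl⟩
      exact hhom p q hq
    have hfin : (G.neighborSet (ψ p)).Finite := by
      apply Set.finite_of_ncard_ne_zero
      rw [hG]; norm_num
    have heq : ψ '' (H.neighborSet p) = G.neighborSet (ψ p) := by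
      apply Set.eq_of_subset_of_ncard_le hsub _ hfin
      rw [Set.ncard_image_of_injective _ hinj, hG, hH]
    have hw' : w ∈ ψ '' (H.neighborSet p) := by
      rw [heq]; exact hw
    obtain ⟨q, hq, rfl⟩ := hw'
    exact ⟨q, hq, rfl⟩
  have hsurj : Function.Surjective ψ := by
    obtain ⟨p0⟩ := ‹Nonempty P›
    intro w
    obtain ⟨π⟩ := hc (ψ p0) w
    have : ∀ (a b : V) (π : G.Walk a b), (∃ p, ψ p = a) → ∃ p, ψ p = b := by
      intro a b π
      induction π with
      | nil => exact id
      | cons h π ih =>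
        rintro ⟨p, rfl⟩
        obtain ⟨q, _, hq⟩ := key p _ h
        exact ih ⟨q, hq⟩
    exact this _ _ π ⟨p0, rfl⟩
  have hadj : ∀ p q, G.Adj (ψ p) (ψ q) ↔ H.Adj p q := by
    intro p q
    constructor
    · intro h
      obtain ⟨q', hq', h2⟩ := key p _ h
      rwa [← hinj h2]
    · exact hhom p q
  exact ⟨(RelIso.symm ⟨Equiv.ofBijective ψ ⟨hinj, hsurj⟩, fun {p q} => hadj p q⟩)⟩

end Pool.Agent.Helper371
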