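import Pool.Agent.Helper371.RhoC
import Pool.Agent.Helper371.SLow1

set_option autoImplicit false

namespace Pool.Agent.Helper371.Rho

open Pool.Agent.Helper371

section iso
variable {V W : Type} {G : SimpleGraph V} {H : SimpleGraph W}

theorem hom_dist (φ : G →g H) (hc : G.Connected) (v w : V) : H.dist (φ v) (φ w) ≤ G.dist v w := by
  obtain ⟨p, hp⟩ := (hc v w).exists_walk_length_eq_dist
  rw [← hp, ← SimpleGraph.Walk.length_map φ p]
  exact SimpleGraph.dist_le _

theorem iso_connected (φ : G ≃g H) (hc : G.Connected) : H.Connected :=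
  (SimpleGraph.Iso.connected_iff φ).mp hc

theorem iso_dist (φ : G ≃g H) (hc : G.Connected) (v w : V) :
    H.dist (φ v) (φ w) = G.dist v w := by
  apply le_antisymm
  · exact hom_dist φ.toHom hc v w
  · have h := hom_dist φ.symm.toHom (iso_connected φ hc) (φ v) (φ w)
    have h1 : φ.symm.toHom (φ v) = v := φ.symm_apply_apply v
    have h2 : φ.symm.toHom (φ w) = w := φ.symm_apply_apply w
    rwa [h1, h2] at h

theorem iso_diam_le [Finite V] [Finite W] (φ : G ≃g H) (hc : G.Connected) : G.diam ≤ H.diam := by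
  have := hc.nonempty
  have hn : Nonempty W := ⟨φ (Classical.arbitrary V)⟩
  obtain ⟨u, w, h⟩ := G.exists_dist_eq_diam
  rw [← h, ← iso_dist φ hc]
  exact SimpleGraph.dist_le_diam
    (SimpleGraph.connected_iff_ediam_ne_top.mp (iso_connected φ hc))

theorem iso_diam [Finite V] [Finite W] (φ : G ≃g H) (hc : G.Connected) : G.diam = H.diam :=
  le_antisymm (iso_diam_le φ hc) (iso_diam_le φ.symm (iso_connected φ hc))

theorem iso_locMax (φ : G ≃g H) (hc : G.Connected) (v x : V) :
    φ x ∈ locMax H (φ v) ↔ x ∈ locMax G v := by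
  constructor
  · intro h y hy
    have := h (φ y) (φ.map_adj_iff.mpr hy)
    rwa [iso_dist φ hc, iso_dist φ hc] at this
  · intro h y hy
    obtain ⟨z, rfl⟩ := φ.surjective y
    rw [iso_dist φ hc, iso_dist φ hc]
    exact h z (φ.map_adj_iff.mp hy)

theorem iso_isSGraph (φ : G ≃g H) (hG : IsSGraph G) : IsSGraph H := by
  obtain ⟨hc, ⟨col⟩, hu⟩ := hG
  refine ⟨iso_connected φ hc, ⟨col.comp φ.symm.toHom⟩, ?_⟩
  intro w
  obtain ⟨v, rfl⟩ := φ.surjective w
  obtain ⟨x, hx, hux⟩ := hu v
  refine ⟨φ x, (iso_locMax φ hc v x).mpr hx, ?_⟩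
  intro y hy
  obtain ⟨z, rfl⟩ := φ.surjective y
  rw [hux z ((iso_locMax φ hc v z).mp hy)]

theorem iso_regular (φ : G ≃g H) (d : ℕ) (h : ∀ v, (G.neighborSet v).ncard = d) (w : W) :
    (H.neighborSet w).ncard = d := by
  obtain ⟨v, rfl⟩ := φ.surjective w
  rw [← h v, ← Set.ncard_image_of_injective _ φ.injective]
  congr 1
  ext y
  rw [Set.mem_image, SimpleGraph.mem_neighborSet]
  constructor
  · intro hy
    obtain ⟨z, rfl⟩ := φ.surjective y
    exact ⟨z, φ.map_adj_iff.mp hy, rfl⟩
  · rintro ⟨z, hz, rfl⟩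
    exact φ.map_adj_iff.mpr hz

end iso

section gr
variable {U V : Type}

/-- the graph of a matrix -/
def Gr (M : U → V → ZMod 2) : SimpleGraph ((U × ZMod 2) ⊕ (V × ZMod 2)) where
  Adj x y := match x, y with
    | Sum.inl a, Sum.inr b => M a.1 b.1 = a.2 + b.2
    | Sum.inr b, Sum.inl a => M a.1 b.1 = a.2 + b.2
    | Sum.inl _, Sum.inl _ => False
    | Sum.inr _, Sum.inr _ => False
  symm := ⟨by
    rintro (a | a) (b | b) h
    · exact h
    · exact h
    · exact h
    · exact h⟩
  loopless := ⟨by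
    rintro (a | a) h
    · exact h
    · exact h⟩

theorem gr_lr (M : U → V → ZMod 2) (a : U × ZMod 2) (b : V × ZMod 2) :
    (Gr M).Adj (Sum.inl a) (Sum.inr b) ↔ M a.1 b.1 = a.2 + b.2 := Iff.rfl

theorem gr_rl (M : U → V → ZMod 2) (a : U × ZMod 2) (b : V × ZMod 2) :
    (Gr M).Adj (Sum.inr b) (Sum.inl a) ↔ M a.1 b.1 = a.2 + b.2 := Iff.rfl

theorem gr_ll (M : U → V → ZMod 2) (a b : U × ZMod 2) :
    ¬ (Gr M).Adj (Sum.inl a) (Sum.inl b) := fun h => h

theorem gr_rr (M : U → V → ZMod 2) (a b : V × ZMod 2) :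
    ¬ (Gr M).Adj (Sum.inr a) (Sum.inr b) := fun h => h

theorem z2_ne {x y : ZMod 2} (h : x ≠ y) : x = y + 1 := by
  revert x y; decide

theorem z2_succ_ne (x : ZMod 2) : x + 1 ≠ x := by revert x; decide

open Classical in
/-- the distance function of the graph of a reduced matrix -/
noncomputable def dl (M : U → V → ZMod 2) : ((U × ZMod 2) ⊕ (V × ZMod 2)) →
    ((U × ZMod 2) ⊕ (V × ZMod 2)) → ℕ
  | Sum.inl a, Sum.inl a' => if a.1 = a'.1 then (if a.2 = a'.2 then 0 else 4) else 2
  | Sum.inr b, Sum.inr b' => if b.1 = b'.1 then (if b.2 = b'.2 then 0 else 4) else 2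
  | Sum.inl a, Sum.inr b => if M a.1 b.1 = a.2 + b.2 then 1 else 3
  | Sum.inr b, Sum.inl a => if M a.1 b.1 = a.2 + b.2 then 1 else 3

/-- the antipode -/
def abar : ((U × ZMod 2) ⊕ (V × ZMod 2)) → ((U × ZMod 2) ⊕ (V × ZMod 2))
  | Sum.inl a => Sum.inl (a.1, a.2 + 1)
  | Sum.inr b => Sum.inr (b.1, b.2 + 1)

/-- transposition -/
def grTr (M : U → V → ZMod 2) : Gr M ≃g Gr (fun j i => M i j) where
  toEquiv := Equiv.sumComm _ _
  map_rel_iff' := by
    rintro (a | a) (b | b)
    · exact Iff.rfl
    · show M a.1 b.1 = b.2 + a.2 ↔ M a.1 b.1 = a.2 + b.2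
      rw [add_comm]
    · show M b.1 a.1 = a.2 + b.2 ↔ M b.1 a.1 = b.2 + a.2
      rw [add_comm]
    · exact Iff.rfl

theorem dl_tr (M : U → V → ZMod 2) (x y : (U × ZMod 2) ⊕ (V × ZMod 2)) :
    dl (fun j i => M i j) (grTr M x) (grTr M y) = dl M x y := by
  rcases x with a | a <;> rcases y with b | b
  · rfl
  · show (if M a.1 b.1 = b.2 + a.2 then 1 else 3) = (if M a.1 b.1 = a.2 + b.2 then 1 else 3)
    rw [add_comm]
  · show (if M b.1 a.1 = a.2 + b.2 then 1 else 3) = (if M b.1 a.1 = b.2 + a.2 then 1 else 3)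
    rw [add_comm]
  · rfl

theorem row_both {M : U → V → ZMod 2} (h : ∀ i i', rp (curv M) i i' → i = i') {i i' : U}
    (hne : i ≠ i') (e : ZMod 2) : ∃ j, M i j + M i' j = e := by
  by_contra hcon
  push Not at hcon
  apply hne
  apply h
  intro j j'
  have h1 := z2_ne (hcon j)
  have h2 := z2_ne (hcon j')
  have h3 := z2 (e + 1)
  simp only [curv]
  linear_combination h1 + h2 + h3

theorem curv_tr (M : U → V → ZMod 2) : curv (fun j i => M i j) = tr (curv M) := by
  funext j j' i i'
  simp only [curv, tr]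
  ring

/-- the table facts for a row vertex -/
theorem table_row {M : U → V → ZMod 2} (hU : Nontrivial U) (hV : Nontrivial V)
    (h : ∀ i i', rp (curv M) i i' → i = i') (a : U × ZMod 2) :
    (∀ x, dl M (Sum.inl a) x = 0 ↔ x = Sum.inl a) ∧
    (∀ x y, (Gr M).Adj x y → dl M (Sum.inl a) y ≤ dl M (Sum.inl a) x + 1) ∧
    (∀ x, x ≠ Sum.inl a → ∃ y, (Gr M).Adj x y ∧ dl M (Sum.inl a) x = dl M (Sum.inl a) y + 1) ∧
    (∀ x, (∀ y, (Gr M).Adj x y → dl M (Sum.inl a) y ≤ dl M (Sum.inl a) x) ↔
      x = abar (Sum.inl a)) := by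
  classical
  obtain ⟨i, s⟩ := a
  have dll : ∀ i' s', dl M (Sum.inl (i, s)) (Sum.inl (i', s')) =
    if i = i' then (if s = s' then 0 else 4) else 2 := fun i' s' => rfl
  have dlr : ∀ j t, dl M (Sum.inl (i, s)) (Sum.inr (j, t)) =
    if M i j = s + t then 1 else 3 := fun j t => rfl
  have nb : ∀ i', i' ≠ i → ∀ e : ZMod 2, ∃ j, M i' j + M i j = e :=
    fun i' hne e => row_both h hne e
  refine ⟨?_, ?_, ?_, ?_⟩
  · rintro (⟨i', s'⟩ | ⟨j, t⟩)
    · rw [dll]
      constructor
      · intro h1
        split_ifs at h1 with h2 h3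
        rw [h2, h3]
      · intro h1
        rw [Sum.inl.injEq, Prod.mk.injEq] at h1
        rw [if_pos h1.1.symm, if_pos h1.2.symm]
    · rw [dlr]
      constructor
      · intro h1
        split_ifs at h1
      · intro h1
        exact absurd h1 (by simp)
  · rintro (⟨i', s'⟩ | ⟨j, t⟩) (⟨i2, s2⟩ | ⟨j2, t2⟩) hadj
    · exact absurd hadj (gr_ll M _ _)
    · rw [gr_lr] at hadj
      simp only at hadj
      rw [dll, dlr]
      by_cases h1 : i = i'
      · subst h1
        by_cases h2 : s = s'
        · subst h2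
          rw [if_pos hadj, if_pos rfl, if_pos rfl]
        · rw [if_pos rfl, if_neg h2]
          split_ifs <;> omega
      · rw [if_neg h1]
        split_ifs <;> omega
    · rw [gr_rl] at hadj
      simp only at hadj
      rw [dll, dlr]
      by_cases h1 : M i j = s + t
      · rw [if_pos h1]
        by_cases h2 : i = i2
        · subst h2
          rw [h1] at hadj
          rw [if_pos rfl, if_pos (add_right_cancel hadj)]
          omega
        · rw [if_neg h2]
      · rw [if_neg h1]
        split_ifs <;> omega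
    · exact absurd hadj (gr_rr M _ _)
  · rintro (⟨i', s'⟩ | ⟨j, t⟩) hne
    · by_cases h1 : i = i'
      · subst h1
        have h2 : s ≠ s' := fun h => hne (by rw [h])
        obtain ⟨j⟩ := hV.to_nonempty
        refine ⟨Sum.inr (j, M i j + s'), ?_, ?_⟩
        · rw [gr_lr]
          simp only
          linear_combination -(z2 s')
        · rw [dll, dlr, if_pos rfl, if_neg h2, if_neg]
          intro h3
          apply h2
          linear_combination h3 + z2 s
      · obtain ⟨j, hj⟩ := nb i' (fun h => h1 h.symm) (s + s')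
        refine ⟨Sum.inr (j, M i j + s), ?_, ?_⟩
        · rw [gr_lr]
          simp only
          linear_combination hj - z2 (M i j)
        · rw [dll, dlr, if_neg h1, if_pos]
          linear_combination -(z2 s)
    · by_cases h1 : M i j = s + t
      · refine ⟨Sum.inl (i, s), h1, ?_⟩
        rw [dll, dlr, if_pos h1, if_pos rfl, if_pos rfl]
      · obtain ⟨i', hi'⟩ := exists_ne i
        refine ⟨Sum.inl (i', M i' j + t), ?_, ?_⟩
        · rw [gr_rl]
          simp only
          linear_combination -(z2 t)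
        · rw [dll, dlr, if_neg h1, if_neg (fun h => hi' h.symm)]
  · rintro (⟨i', s'⟩ | ⟨j, t⟩)
    · constructor
      · intro h1
        by_cases h2 : i = i'
        · subst h2
          by_cases h3 : s = s'
          · exfalso
            subst h3
            obtain ⟨j⟩ := hV.to_nonempty
            have h4 := h1 (Sum.inr (j, M i j + s)) (by
              rw [gr_lr]
              simp only
              linear_combination -(z2 s))
            rw [dll, dlr, if_pos rfl, if_pos rfl] at h4
            split_ifs at h4 <;> omega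
          · have h4 := z2_ne (x := s') (y := s) (fun h => h3 h.symm)
            rw [h4]
            rfl
        · exfalso
          obtain ⟨j, hj⟩ := nb i' (fun h => h2 h.symm) (s + s' + 1)
          have h4 := h1 (Sum.inr (j, M i' j + s')) (by
              rw [gr_lr]
              simp only
              linear_combination -(z2 s'))
          rw [dll, dlr, if_neg h2, if_neg] at h4
          · omega
          · intro h5
            apply z2_succ_ne (0 : ZMod 2)
            linear_combination h5 - hj + z2 (M i' j)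
      · intro h1 y hy
        have h2 : i' = i ∧ s' = s + 1 := by
          simpa [abar] using h1
        obtain ⟨rfl, rfl⟩ := h2
        rw [dll, if_pos rfl, if_neg (fun h => z2_succ_ne s h.symm)]
        rcases y with ⟨i2, s2⟩ | ⟨j2, t2⟩
        · rw [dll]; split_ifs <;> omega
        · rw [dlr]; split_ifs <;> omega
    · constructor
      · intro h1
        exfalso
        by_cases h2 : M i j = s + t
        · obtain ⟨i', hi'⟩ := exists_ne i
          have h4 := h1 (Sum.inl (i', M i' j + t)) (by
            rw [gr_rl]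
            simp only
            linear_combination -(z2 t))
          rw [dll, dlr, if_pos h2, if_neg (fun h => hi' h.symm)] at h4
          omega
        · have h3 := z2_ne h2
          have h4 := h1 (Sum.inl (i, s + 1)) (by
            rw [gr_rl]
            simp only
            linear_combination h3)
          rw [dll, dlr, if_neg h2, if_pos rfl, if_neg (fun h => z2_succ_ne s h.symm)] at h4
          omega
      · intro h1
        exact absurd h1 (by simp [abar])

theorem abar_tr (M : U → V → ZMod 2) (x : (U × ZMod 2) ⊕ (V × ZMod 2)) :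
    grTr M (abar x) = abar (grTr M x) := by
  rcases x with a | a <;> rfl

/-- the table facts -/
theorem table_all {M : U → V → ZMod 2} (hU : Nontrivial U) (hV : Nontrivial V)
    (h : Red (curv M)) (v : (U × ZMod 2) ⊕ (V × ZMod 2)) :
    (∀ x, dl M v x = 0 ↔ x = v) ∧
    (∀ x y, (Gr M).Adj x y → dl M v y ≤ dl M v x + 1) ∧
    (∀ x, x ≠ v → ∃ y, (Gr M).Adj x y ∧ dl M v x = dl M v y + 1) ∧
    (∀ x, (∀ y, (Gr M).Adj x y → dl M v y ≤ dl M v x) ↔ x = abar v) := by
  rcases v with a | b
  · exact table_row hU hV h.1 a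
  · have h2 : ∀ i i', rp (curv (fun j i => M i j)) i i' → i = i' := by
      rw [curv_tr]
      exact h.2
    obtain ⟨k1, k2, k3, k4⟩ := table_row hV hU h2 b
    have e : grTr M (Sum.inr b) = Sum.inl b := rfl
    rw [← e] at k1 k2 k3 k4
    refine ⟨?_, ?_, ?_, ?_⟩
    · intro x
      rw [← dl_tr, k1, (grTr M).injective.eq_iff]
    · intro x y hxy
      rw [← dl_tr M _ y, ← dl_tr M _ x]
      exact k2 _ _ ((grTr M).map_adj_iff.mpr hxy)
    · intro x hx
      obtain ⟨y, hy1, hy2⟩ := k3 (grTr M x) (fun h => hx ((grTr M).injective h))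
      obtain ⟨z, rfl⟩ := (grTr M).surjective y
      refine ⟨z, (grTr M).map_adj_iff.mp hy1, ?_⟩
      rw [← dl_tr, ← dl_tr M _ z]
      exact hy2
    · intro x
      have h3 : x = abar (Sum.inr b) ↔ grTr M x = abar (grTr M (Sum.inr b)) := by
        rw [← abar_tr, (grTr M).injective.eq_iff]
      rw [h3, ← k4]
      constructor
      · intro h4 y hy
        obtain ⟨z, rfl⟩ := (grTr M).surjective y
        rw [dl_tr, dl_tr]
        exact h4 z ((grTr M).map_adj_iff.mp hy)
      · intro h4 y hy
        rw [← dl_tr M _ y, ← dl_tr M _ x]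
        exact h4 _ ((grTr M).map_adj_iff.mpr hy)

theorem gr_connected {M : U → V → ZMod 2} (hU : Nontrivial U) (hV : Nontrivial V)
    (h : Red (curv M)) : (Gr M).Connected ∧ ∀ v x, (Gr M).dist v x = dl M v x := by
  have : Nonempty ((U × ZMod 2) ⊕ (V × ZMod 2)) := ⟨Sum.inl (hU.to_nonempty.some, 0)⟩
  exact dist_table (dl M) (fun v => (table_all hU hV h v).1) (fun v => (table_all hU hV h v).2.1)
    (fun v => (table_all hU hV h v).2.2.1)

theorem gr_isSGraph {M : U → V → ZMod 2} (hU : Nontrivial U) (hV : Nontrivial V)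
    (h : Red (curv M)) : IsSGraph (Gr M) := by
  have : Nonempty ((U × ZMod 2) ⊕ (V × ZMod 2)) := ⟨Sum.inl (hU.to_nonempty.some, 0)⟩
  refine isSGraph_of_table (dl M) (fun v => (table_all hU hV h v).1)
    (fun v => (table_all hU hV h v).2.1) (fun v => (table_all hU hV h v).2.2.1)
    (Sum.elim (fun _ => 0) (fun _ => 1)) ?_ abar (fun v => (table_all hU hV h v).2.2.2)
  rintro (a | a) (b | b) hab
  · exact absurd hab (gr_ll M _ _)
  · simp
  · simp
  · exact absurd hab (gr_rr M _ _)

theorem gr_bar [Finite U] [Finite V] {M : U → V → ZMod 2} (hU : Nontrivial U) (hV : Nontrivial V)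
    (h : Red (curv M)) (v : (U × ZMod 2) ⊕ (V × ZMod 2)) :
    bar (gr_isSGraph hU hV h) v = abar v := by
  have h1 := bar_mem (gr_isSGraph hU hV h) v
  have h2 := (table_all hU hV h v).2.2.2 (bar (gr_isSGraph hU hV h) v)
  apply h2.mp
  intro y hy
  rw [← (gr_connected hU hV h).2, ← (gr_connected hU hV h).2]
  exact h1 y hy

theorem gr_diam [Finite U] [Finite V] {M : U → V → ZMod 2} (hU : Nontrivial U) (hV : Nontrivial V)
    (h : Red (curv M)) : (Gr M).diam = 4 := by
  classical
  have h1 := dist_bar_eq_diam (gr_isSGraph hU hV h) (Sum.inl (hU.to_nonempty.some, 0))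
  rw [← h1, gr_bar hU hV h, (gr_connected hU hV h).2]
  show (if _ = _ then (if (0 : ZMod 2) = 0 + 1 then 0 else 4) else 2) = 4
  rw [if_pos rfl, if_neg (by decide)]

theorem gr_regular (M : U → V → ZMod 2) (d : ℕ) (hU : Nat.card U = d) (hV : Nat.card V = d)
    (v : (U × ZMod 2) ⊕ (V × ZMod 2)) : ((Gr M).neighborSet v).ncard = d := by
  rcases v with ⟨i, s⟩ | ⟨j, t⟩
  · have h1 : (Gr M).neighborSet (Sum.inl (i, s)) =
        (fun j => (Sum.inr (j, M i j + s) : (U × ZMod 2) ⊕ (V × ZMod 2))) '' Set.univ := by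
      ext y
      rw [SimpleGraph.mem_neighborSet, Set.mem_image]
      rcases y with ⟨i', s'⟩ | ⟨j', t'⟩
      · constructor
        · intro h; exact absurd h (gr_ll M _ _)
        · rintro ⟨j, _, hj⟩; exact absurd hj (by simp)
      · rw [gr_lr]
        simp only [Set.mem_univ, true_and]
        constructor
        · intro h
          refine ⟨j', ?_⟩
          rw [Sum.inr.injEq, Prod.mk.injEq]
          refine ⟨rfl, ?_⟩
          linear_combination h + z2 s
        · rintro ⟨j, hj⟩
          rw [Sum.inr.injEq, Prod.mk.injEq] at hj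
          obtain ⟨rfl, rfl⟩ := hj
          linear_combination -(z2 s)
    rw [h1, Set.ncard_image_of_injective, Set.ncard_univ, hV]
    intro j j' h
    rw [Sum.inr.injEq, Prod.mk.injEq] at h
    exact h.1
  · have h1 : (Gr M).neighborSet (Sum.inr (j, t)) =
        (fun i => (Sum.inl (i, M i j + t) : (U × ZMod 2) ⊕ (V × ZMod 2))) '' Set.univ := by
      ext y
      rw [SimpleGraph.mem_neighborSet, Set.mem_image]
      rcases y with ⟨i', s'⟩ | ⟨j', t'⟩
      · rw [gr_rl]
        simp only [Set.mem_univ, true_and]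
        constructor
        · intro h
          refine ⟨i', ?_⟩
          rw [Sum.inl.injEq, Prod.mk.injEq]
          refine ⟨rfl, ?_⟩
          linear_combination h + z2 t
        · rintro ⟨i, hi⟩
          rw [Sum.inl.injEq, Prod.mk.injEq] at hi
          obtain ⟨rfl, rfl⟩ := hi
          linear_combination -(z2 t)
      · constructor
        · intro h; exact absurd h (gr_rr M _ _)
        · rintro ⟨i, _, hi⟩; exact absurd hi (by simp)
    rw [h1, Set.ncard_image_of_injective, Set.ncard_univ, hU]
    intro i i' h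
    rw [Sum.inl.injEq, Prod.mk.injEq] at h
    exact h.1

/-- an S-graph of diameter four comes from a reduced matrix -/
theorem red_of_gr_row [Finite U] [Finite V] {M : U → V → ZMod 2} (hV : Nonempty V)
    (hG : IsSGraph (Gr M)) (hd : (Gr M).diam = 4) (i i' : U) (h : rp (curv M) i i') : i = i' := by
  by_contra hne
  obtain ⟨j0⟩ := hV
  -- the twin vertex
  have hj : ∀ j, M i j = M i' j + (M i j0 + M i' j0) := by
    intro j
    have h1 := h j j0
    simp only [curv] at h1
    linear_combination h1 - z2 (M i' j) - z2 (M i j0) - z2 (M i' j0)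
  have h1 : (Sum.inl (i', M i j0 + M i' j0) : (U × ZMod 2) ⊕ (V × ZMod 2)) ∈
      locMax (Gr M) (Sum.inl (i, 0)) := by
    intro y hy
    rcases y with b | ⟨j, t⟩
    · exact absurd hy (gr_ll M _ _)
    · rw [gr_lr] at hy
      simp only at hy
      have h2 : (Gr M).Adj (Sum.inl (i, 0)) (Sum.inr (j, t)) := by
        rw [gr_lr]
        simp only
        rw [hj j, hy]
        linear_combination z2 (M i j0) + z2 (M i' j0)
      rw [SimpleGraph.dist_eq_one_iff_adj.mpr h2]
      apply hG.1.pos_dist_of_ne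
      intro h3
      rw [Sum.inl.injEq, Prod.mk.injEq] at h3
      exact hne h3.1
  have h2 := eq_bar hG h1
  have h3 := dist_bar_eq_diam hG (Sum.inl (i, 0))
  rw [← h2, hd] at h3
  have h4 : (Gr M).Adj (Sum.inl (i, 0)) (Sum.inr (j0, M i j0)) := by
    rw [gr_lr]
    simp
  have h5 : (Gr M).Adj (Sum.inr (j0, M i j0)) (Sum.inl (i', M i j0 + M i' j0)) := by
    rw [gr_rl]
    simp only
    linear_combination -(z2 (M i j0))
  have h6 : (Gr M).dist (Sum.inl (i, 0)) (Sum.inl (i', M i j0 + M i' j0)) ≤
      (Gr M).dist (Sum.inl (i, 0)) (Sum.inr (j0, M i j0)) +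
      (Gr M).dist (Sum.inr (j0, M i j0)) (Sum.inl (i', M i j0 + M i' j0)) := hG.1.dist_triangle
  rw [SimpleGraph.dist_eq_one_iff_adj.mpr h4, SimpleGraph.dist_eq_one_iff_adj.mpr h5] at h6
  omega

theorem red_of_gr [Finite U] [Finite V] {M : U → V → ZMod 2} (hU : Nonempty U) (hV : Nonempty V)
    (hG : IsSGraph (Gr M)) (hd : (Gr M).diam = 4) : Red (curv M) := by
  constructor
  · exact red_of_gr_row hV hG hd
  · have h1 := red_of_gr_row (M := fun j i => M i j) hU (iso_isSGraph (grTr M) hG)
      (by rw [← iso_diam (grTr M) hG.1]; exact hd)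
    rw [curv_tr] at h1
    exact h1

end gr

end Pool.Agent.Helper371.Rho
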