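import Pool.Agent.Helper371.RhoK

set_option autoImplicit false

namespace Pool.Agent.Helper371.Rho

open Pool.Agent.Helper371

section struct
variable {V : Type} [Finite V] {G : SimpleGraph V}

theorem dist_bar4 (hG : IsSGraph G) (hd : G.diam = 4) (v w : V) :
    G.dist v w + G.dist v (bar hG w) = 4 := by
  have h1 := dist_bar hG w v
  rw [dist_bar_eq_diam, hd] at h1
  rw [SimpleGraph.dist_comm (u := v) (v := w)]
  exact h1

theorem two_le_deg (hG : IsSGraph G) (hd : G.diam = 4) (d : ℕ)
    (hr : ∀ v, (G.neighborSet v).ncard = d) : 2 ≤ d := by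
  obtain ⟨v⟩ := hG.1.nonempty
  have hb := dist_bar_eq_diam hG v
  rw [hd] at hb
  -- a neighbour
  have h1 : v ∉ locMax G v := by
    intro h
    have := eq_bar hG h
    rw [← this, SimpleGraph.dist_self] at hb
    omega
  simp only [locMax, Set.mem_ofPred_eq, not_forall, not_le] at h1
  obtain ⟨w, hvw, _⟩ := h1
  have h0 : G.dist v w = 1 := SimpleGraph.dist_eq_one_iff_adj.mpr hvw
  have h2 : w ∉ locMax G v := by
    intro h
    have := eq_bar hG h
    rw [← this] at hb
    omega
  simp only [locMax, Set.mem_ofPred_eq, not_forall, not_le] at h2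
  obtain ⟨y, hwy, hlt⟩ := h2
  have hne : v ≠ y := by
    rintro rfl
    rw [SimpleGraph.dist_self] at hlt
    omega
  have h3 : ({v, y} : Set V) ⊆ G.neighborSet w := by
    rintro z (rfl | rfl)
    · exact hvw.symm
    · exact hwy
  have h4 := Set.ncard_le_ncard h3 (Set.toFinite _)
  rw [hr, Set.ncard_pair hne] at h4
  exact h4

/-- the signed version of a vertex -/
noncomputable def sg (hG : IsSGraph G) (s : ZMod 2) (v : V) : V := by
  classical
  exact if s = 0 then v else bar hG v

theorem sg_zero (hG : IsSGraph G) (v : V) : sg hG 0 v = v := by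
  unfold sg; rw [if_pos rfl]

theorem sg_one (hG : IsSGraph G) (v : V) : sg hG 1 v = bar hG v := by
  unfold sg; rw [if_neg (by decide)]

theorem z2_cases (s : ZMod 2) : s = 0 ∨ s = 1 := by revert s; decide

/-- every regular S-graph of diameter four comes from a matrix -/
theorem exists_matrix (hG : IsSGraph G) (hd : G.diam = 4) (d : ℕ)
    (hr : ∀ v, (G.neighborSet v).ncard = d) :
    ∃ M : Fin d → Fin d → ZMod 2, Nonempty (Gr M ≃g G) := by
  classical
  have hd2 := two_le_deg hG hd d hr
  obtain ⟨x0⟩ := hG.1.nonempty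
  obtain ⟨y0, hy0⟩ : ∃ y0, y0 ∈ G.neighborSet x0 := by
    apply Set.nonempty_of_ncard_ne_zero
    rw [hr]; omega
  rw [SimpleGraph.mem_neighborSet] at hy0
  have c1 : Nat.card (G.neighborSet y0) = d := hr y0
  have c2 : Nat.card (G.neighborSet x0) = d := hr x0
  let ex : Fin d ≃ G.neighborSet y0 := (Finite.equivFinOfCardEq c1).symm
  let ey : Fin d ≃ G.neighborSet x0 := (Finite.equivFinOfCardEq c2).symm
  have hx : ∀ i, G.Adj y0 (ex i) := fun i => (ex i).2
  have hy : ∀ j, G.Adj x0 (ey j) := fun j => (ey j).2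
  have dx0 : ∀ i, G.dist y0 (ex i) = 1 := fun i => SimpleGraph.dist_eq_one_iff_adj.mpr (hx i)
  have dy0 : ∀ j, G.dist x0 (ey j) = 1 := fun j => SimpleGraph.dist_eq_one_iff_adj.mpr (hy j)
  have dxy0 : G.dist x0 y0 = 1 := SimpleGraph.dist_eq_one_iff_adj.mpr hy0
  have b4 := dist_bar4 hG hd
  -- distances from x0 to the rows are even
  have ev : ∀ i s, G.dist x0 (sg hG s (ex i)) = 0 ∨ G.dist x0 (sg hG s (ex i)) = 2 ∨
      G.dist x0 (sg hG s (ex i)) = 4 := by
    intro i s
    have h1 := adj_dist hG x0 (hx i)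
    have h2 := b4 x0 (ex i)
    rcases z2_cases s with rfl | rfl
    · rw [sg_zero]; omega
    · rw [sg_one]; omega
  have od : ∀ j t, G.dist x0 (sg hG t (ey j)) = 1 ∨ G.dist x0 (sg hG t (ey j)) = 3 := by
    intro j t
    have h2 := b4 x0 (ey j)
    have h3 := dy0 j
    rcases z2_cases t with rfl | rfl
    · rw [sg_zero]; omega
    · rw [sg_one]; omega
  have d13 : ∀ i j, G.dist (ex i) (ey j) = 1 ∨ G.dist (ex i) (ey j) = 3 := by
    intro i j
    have h1 := adj_dist hG (ex i) (hy j)
    have h2 := adj_dist hG x0 (hx i)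
    rw [SimpleGraph.dist_comm (u := (ex i : V)) (v := x0)] at h1
    omega
  let M : Fin d → Fin d → ZMod 2 := fun i j => if G.Adj (ex i) (ey j) then 0 else 1
  let φ : (Fin d × ZMod 2) ⊕ (Fin d × ZMod 2) → V :=
    Sum.elim (fun a => sg hG a.2 (ex a.1)) (fun b => sg hG b.2 (ey b.1))
  have φl : ∀ i s, φ (Sum.inl (i, s)) = sg hG s (ex i) := fun i s => rfl
  have φr : ∀ j t, φ (Sum.inr (j, t)) = sg hG t (ey j) := fun j t => rfl
  have hinj : Function.Injective φ := by
    rintro (⟨i, s⟩ | ⟨j, t⟩) (⟨i', s'⟩ | ⟨j', t'⟩) h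
    · rw [φl, φl] at h
      have h1 : s = s' ∧ ex i = ex i' := by
        have h3 := b4 y0 (ex i)
        have h4 := b4 y0 (ex i')
        have h5 := dx0 i
        have h6 := dx0 i'
        rcases z2_cases s with rfl | rfl <;> rcases z2_cases s' with rfl | rfl
        · rw [sg_zero, sg_zero] at h
          exact ⟨rfl, Subtype.ext h⟩
        · rw [sg_zero, sg_one] at h
          rw [h] at h5
          omega
        · rw [sg_zero, sg_one] at h
          rw [← h] at h6
          omega
        · rw [sg_one, sg_one] at h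
          exact ⟨rfl, Subtype.ext (bar_inj hG h)⟩
      rw [h1.1, ex.injective h1.2]
    · exfalso
      rw [φl, φr] at h
      have h1 := ev i s
      have h2 := od j' t'
      rw [h] at h1
      omega
    · exfalso
      rw [φl, φr] at h
      have h1 := ev i' s'
      have h2 := od j t
      rw [h] at h2
      omega
    · rw [φr, φr] at h
      have h1 : t = t' ∧ ey j = ey j' := by
        have h3 := b4 x0 (ey j)
        have h4 := b4 x0 (ey j')
        have h5 := dy0 j
        have h6 := dy0 j'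
        rcases z2_cases t with rfl | rfl <;> rcases z2_cases t' with rfl | rfl
        · rw [sg_zero, sg_zero] at h
          exact ⟨rfl, Subtype.ext h⟩
        · rw [sg_zero, sg_one] at h
          rw [h] at h5
          omega
        · rw [sg_zero, sg_one] at h
          rw [← h] at h6
          omega
        · rw [sg_one, sg_one] at h
          exact ⟨rfl, Subtype.ext (bar_inj hG h)⟩
      rw [h1.1, ey.injective h1.2]
  have hsurj : Function.Surjective φ := by
    intro v
    have h1 := b4 x0 v
    have h2 := b4 y0 v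
    have h3 := adj_dist hG v hy0
    rw [SimpleGraph.dist_comm (u := v) (v := x0), SimpleGraph.dist_comm (u := v) (v := y0)] at h3
    have h4 : G.dist x0 v = 1 ∨ G.dist x0 (bar hG v) = 1 ∨ G.dist y0 v = 1 ∨
        G.dist y0 (bar hG v) = 1 := by omega
    rcases h4 with h4 | h4 | h4 | h4
    · refine ⟨Sum.inr (ey.symm ⟨v, SimpleGraph.dist_eq_one_iff_adj.mp h4⟩, 0), ?_⟩
      rw [φr, sg_zero, Equiv.apply_symm_apply]
    · refine ⟨Sum.inr (ey.symm ⟨bar hG v, SimpleGraph.dist_eq_one_iff_adj.mp h4⟩, 1), ?_⟩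
      rw [φr, sg_one, Equiv.apply_symm_apply, bar_bar]
    · refine ⟨Sum.inl (ex.symm ⟨v, SimpleGraph.dist_eq_one_iff_adj.mp h4⟩, 0), ?_⟩
      rw [φl, sg_zero, Equiv.apply_symm_apply]
    · refine ⟨Sum.inl (ex.symm ⟨bar hG v, SimpleGraph.dist_eq_one_iff_adj.mp h4⟩, 1), ?_⟩
      rw [φl, sg_one, Equiv.apply_symm_apply, bar_bar]
  have hadj : ∀ i s j t, G.Adj (sg hG s (ex i)) (sg hG t (ey j)) ↔ M i j = s + t := by
    intro i s j t
    have hM : ∀ e : ZMod 2, M i j = e ↔ (G.Adj (ex i) (ey j) ↔ e = 0) := by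
      intro e
      show (if G.Adj (ex i) (ey j) then (0 : ZMod 2) else 1) = e ↔ _
      by_cases h : G.Adj (ex i) (ey j)
      · rw [if_pos h]
        constructor
        · intro h1; exact ⟨fun _ => h1.symm, fun _ => h⟩
        · intro h1; exact (h1.mp h).symm
      · rw [if_neg h]
        constructor
        · rintro rfl
          exact ⟨fun h1 => absurd h1 h, fun h1 => absurd h1 (by decide)⟩
        · intro h1
          rcases z2_cases e with rfl | rfl
          · exact absurd (h1.mpr rfl) h
          · rfl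
    have hflip : G.Adj (ex i) (bar hG (ey j)) ↔ ¬ G.Adj (ex i) (ey j) := by
      rw [← SimpleGraph.dist_eq_one_iff_adj, ← SimpleGraph.dist_eq_one_iff_adj]
      have h1 := b4 (ex i) (ey j)
      have h2 := d13 i j
      omega
    have hflip2 : G.Adj (bar hG (ex i)) (ey j) ↔ G.Adj (ex i) (bar hG (ey j)) := by
      have := bar_adj hG (v := ex i) (w := bar hG (ey j))
      rw [bar_bar] at this
      exact this
    rw [hM]
    rcases z2_cases s with rfl | rfl <;> rcases z2_cases t with rfl | rfl
    · rw [sg_zero, sg_zero]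
      simp
    · rw [sg_zero, sg_one, hflip]
      simp
    · rw [sg_zero, sg_one, hflip2, hflip]
      simp
    · rw [sg_one, sg_one, bar_adj]
      have : (1 : ZMod 2) + 1 = 0 := by decide
      rw [this]
      simp
  refine ⟨M, ⟨⟨Equiv.ofBijective φ ⟨hinj, hsurj⟩, ?_⟩⟩⟩
  intro a b
  show G.Adj (φ a) (φ b) ↔ (Gr M).Adj a b
  rcases a with ⟨i, s⟩ | ⟨j, t⟩ <;> rcases b with ⟨i', s'⟩ | ⟨j', t'⟩
  · rw [φl, φl]
    constructor
    · intro h
      exfalso
      have h1 := adj_dist hG x0 h
      have h2 := ev i s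
      have h3 := ev i' s'
      omega
    · intro h; exact absurd h (gr_ll M _ _)
  · rw [φl, φr, gr_lr, hadj]
  · rw [φl, φr, gr_rl, SimpleGraph.adj_comm, hadj]
  · rw [φr, φr]
    constructor
    · intro h
      exfalso
      have h1 := adj_dist hG x0 h
      have h2 := od j t
      have h3 := od j' t'
      omega
    · intro h; exact absurd h (gr_rr M _ _)

end struct

section crit
variable {U V : Type}

/-- isomorphism from a signed permutation equivalence -/
theorem iso_of_pull [Nonempty U] [Nonempty V] {M M' : U → V → ZMod 2} (σ : Equiv.Perm U)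
    (τ : Equiv.Perm V) (h : pull σ τ (curv M) = curv M') : Nonempty (Gr M' ≃g Gr M) := by
  obtain ⟨i0⟩ := ‹Nonempty U›
  obtain ⟨j0⟩ := ‹Nonempty V›
  have h1 : ∀ i j, M (σ i) (τ j) = M' i j + (M (σ i) (τ j0) + M' i j0) +
      (M (σ i0) (τ j) + M' i0 j + M (σ i0) (τ j0) + M' i0 j0) := by
    intro i j
    have h2 := congrFun (congrFun (congrFun (congrFun h i) i0) j) j0
    simp only [pull, curv] at h2
    linear_combination h2 - z2 (M (σ i0) (τ j)) - z2 (M (σ i) (τ j0)) - z2 (M (σ i0) (τ j0))
  let a : U → ZMod 2 := fun i => M (σ i) (τ j0) + M' i j0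
  let b : V → ZMod 2 := fun j => M (σ i0) (τ j) + M' i0 j + M (σ i0) (τ j0) + M' i0 j0
  have h3 : ∀ i j, M (σ i) (τ j) = M' i j + a i + b j := h1
  clear_value a b
  let e : ((U × ZMod 2) ⊕ (V × ZMod 2)) ≃ ((U × ZMod 2) ⊕ (V × ZMod 2)) :=
    { toFun := Sum.elim (fun x => Sum.inl (σ x.1, x.2 + a x.1))
        (fun y => Sum.inr (τ y.1, y.2 + b y.1))
      invFun := Sum.elim (fun x => Sum.inl (σ.symm x.1, x.2 + a (σ.symm x.1)))
        (fun y => Sum.inr (τ.symm y.1, y.2 + b (τ.symm y.1)))
      left_inv := by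
        rintro (⟨i, s⟩ | ⟨j, t⟩)
        · simp only [Sum.elim_inl, Equiv.symm_apply_apply]
          rw [add_assoc, z2, add_zero]
        · simp only [Sum.elim_inr, Equiv.symm_apply_apply]
          rw [add_assoc, z2, add_zero]
      right_inv := by
        rintro (⟨i, s⟩ | ⟨j, t⟩)
        · simp only [Sum.elim_inl, Equiv.apply_symm_apply]
          rw [add_assoc, z2, add_zero]
        · simp only [Sum.elim_inr, Equiv.apply_symm_apply]
          rw [add_assoc, z2, add_zero] }
  refine ⟨⟨e, ?_⟩⟩
  rintro (⟨i, s⟩ | ⟨j, t⟩) (⟨i', s'⟩ | ⟨j', t'⟩)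
  · exact Iff.rfl
  · show M (σ i) (τ j') = s + a i + (t' + b j') ↔ M' i j' = s + t'
    rw [h3]
    constructor
    · intro h
      linear_combination h
    · intro h
      linear_combination h
  · show M (σ i') (τ j) = s' + a i' + (t + b j) ↔ M' i' j = s' + t
    rw [h3]
    constructor
    · intro h
      linear_combination h
    · intro h
      linear_combination h
  · exact Iff.rfl

/-- side preserving isomorphisms -/
theorem pull_of_iso [Finite U] [Finite V] (hU : Nontrivial U) (hV : Nontrivial V)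
    {M M' : U → V → ZMod 2} (hM : Red (curv M)) (hM' : Red (curv M')) (φ : Gr M ≃g Gr M')
    (hl : ∀ a, ∃ a', φ (Sum.inl a) = Sum.inl a') (hr : ∀ b, ∃ b', φ (Sum.inr b) = Sum.inr b') :
    ∃ (σ : Equiv.Perm U) (τ : Equiv.Perm V), pull σ τ (curv M') = curv M := by
  classical
  -- compatibility with the antipodes
  have hc := (gr_connected hU hV hM).1
  have hbar : ∀ x, φ (abar x) = abar (φ x) := by
    intro x
    have h1 : (∀ y, (Gr M').Adj (φ (abar x)) y → (Gr M').dist (φ x) y ≤
        (Gr M').dist (φ x) (φ (abar x))) := by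
      have h2 : abar x ∈ locMax (Gr M) x := by
        rw [← gr_bar hU hV hM]
        exact bar_mem _ _
      exact (iso_locMax φ hc x (abar x)).mpr h2
    rw [← gr_bar hU hV hM' (φ x)]
    exact eq_bar _ h1
  choose f hf using hl
  choose g hg using hr
  have fbar : ∀ i s, f (i, s) = ((f (i, 0)).1, (f (i, 0)).2 + s) := by
    intro i s
    rcases z2_cases s with rfl | rfl
    · rw [add_zero]
    · have h1 := hbar (Sum.inl (i, 0))
      rw [hf] at h1
      have h2 : abar (Sum.inl (i, (0 : ZMod 2)) : (U × ZMod 2) ⊕ (V × ZMod 2)) =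
        Sum.inl (i, 1) := by
        show Sum.inl (i, (0 : ZMod 2) + 1) = _
        rw [zero_add]
      rw [h2, hf] at h1
      exact Sum.inl.inj h1
  have gbar : ∀ j t, g (j, t) = ((g (j, 0)).1, (g (j, 0)).2 + t) := by
    intro j t
    rcases z2_cases t with rfl | rfl
    · rw [add_zero]
    · have h1 := hbar (Sum.inr (j, 0))
      rw [hg] at h1
      have h2 : abar (Sum.inr (j, (0 : ZMod 2)) : (U × ZMod 2) ⊕ (V × ZMod 2)) =
        Sum.inr (j, 1) := by
        show Sum.inr (j, (0 : ZMod 2) + 1) = _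
        rw [zero_add]
      rw [h2, hg] at h1
      exact Sum.inr.inj h1
  have sinj : Function.Injective (fun i => (f (i, 0)).1) := by
    intro i i' h
    simp only at h
    have h1 : f (i, (f (i', 0)).2) = f (i', (f (i, 0)).2) := by
      rw [fbar i ((f (i', 0)).2), fbar i' ((f (i, 0)).2), h, add_comm]
    have h2 : φ (Sum.inl (i, (f (i', 0)).2)) = φ (Sum.inl (i', (f (i, 0)).2)) := by
      rw [hf, hf, h1]
    have h3 := Sum.inl.inj (φ.injective h2)
    exact congrArg Prod.fst h3
  have tinj : Function.Injective (fun j => (g (j, 0)).1) := by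
    intro j j' h
    simp only at h
    have h1 : g (j, (g (j', 0)).2) = g (j', (g (j, 0)).2) := by
      rw [gbar j ((g (j', 0)).2), gbar j' ((g (j, 0)).2), h, add_comm]
    have h2 : φ (Sum.inr (j, (g (j', 0)).2)) = φ (Sum.inr (j', (g (j, 0)).2)) := by
      rw [hg, hg, h1]
    have h3 := Sum.inr.inj (φ.injective h2)
    exact congrArg Prod.fst h3
  refine ⟨Equiv.ofBijective _ (Finite.injective_iff_bijective.mp sinj),
    Equiv.ofBijective _ (Finite.injective_iff_bijective.mp tinj), ?_⟩
  have key : ∀ i j, M' (f (i, 0)).1 (g (j, 0)).1 = M i j + (f (i, 0)).2 + (g (j, 0)).2 := by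
    intro i j
    have h1 : (Gr M).Adj (Sum.inl (i, 0)) (Sum.inr (j, M i j)) := by
      rw [gr_lr]; simp
    have h2 := φ.map_adj_iff.mpr h1
    rw [hf, hg, gr_lr, gbar] at h2
    simp only at h2
    linear_combination h2
  funext i i' j j'
  simp only [pull, curv, Equiv.ofBijective_apply]
  rw [key, key, key, key]
  linear_combination z2 ((f (i, 0)).2) + z2 ((f (i', 0)).2) + z2 ((g (j, 0)).2) +
    z2 ((g (j', 0)).2)

end crit

/-- the isomorphism criterion -/
theorem iso_crit {d : ℕ} (hd : 2 ≤ d) {M M' : Fin d → Fin d → ZMod 2} (hM : Red (curv M))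
    (hM' : Red (curv M')) : Nonempty (Gr M ≃g Gr M') ↔
      ∃ σ τ : Equiv.Perm (Fin d), pull σ τ (curv M') = curv M ∨ tr (pull σ τ (curv M')) = curv M := by
  have hU : Nontrivial (Fin d) := Fin.nontrivial_iff_two_le.mpr hd
  have hn : Nonempty (Fin d) := hU.to_nonempty
  constructor
  · rintro ⟨φ⟩
    have hc := (gr_connected hU hU hM).1
    have hpar : ∀ x y, Even ((Gr M').dist (φ x) (φ y)) ↔ Even ((Gr M).dist x y) := by
      intro x y
      rw [iso_dist φ hc]
    have par : ∀ (N : Fin d → Fin d → ZMod 2) (hN : Red (curv N))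
        (x y : (Fin d × ZMod 2) ⊕ (Fin d × ZMod 2)),
        Even ((Gr N).dist x y) ↔ (x.isLeft = y.isLeft) := by
      intro N hN x y
      rw [(gr_connected hU hU hN).2]
      rcases x with a | a <;> rcases y with b | b
      · simp only [dl, Sum.isLeft_inl, iff_true]
        split_ifs <;> decide
      · simp only [dl, Sum.isLeft_inl, Sum.isLeft_inr]
        split_ifs <;> decide
      · simp only [dl, Sum.isLeft_inl, Sum.isLeft_inr]
        split_ifs <;> decide
      · simp only [dl, Sum.isLeft_inr, iff_true]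
        split_ifs <;> decide
    have side : ∀ x y, ((φ x).isLeft = (φ y).isLeft) ↔ (x.isLeft = y.isLeft) := by
      intro x y
      rw [← par M' hM' (φ x) (φ y), ← par M hM x y, hpar]
    let x0 : (Fin d × ZMod 2) ⊕ (Fin d × ZMod 2) := Sum.inl (Classical.arbitrary _, 0)
    have hx0 : x0.isLeft = true := rfl
    by_cases h0 : (φ x0).isLeft = true
    · have hl : ∀ a, ∃ a', φ (Sum.inl a) = Sum.inl a' := by
        intro a
        have h1 := (side (Sum.inl a) x0).mpr rfl
        rw [h0] at h1
        exact Sum.isLeft_iff.mp h1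
      have hr : ∀ b, ∃ b', φ (Sum.inr b) = Sum.inr b' := by
        intro b
        have h1 : ¬ ((φ (Sum.inr b)).isLeft = (φ x0).isLeft) := by
          rw [side, hx0]
          simp
        rw [h0] at h1
        rw [Bool.not_eq_true, Sum.isLeft_eq_false] at h1
        exact Sum.isRight_iff.mp h1
      obtain ⟨σ, τ, h⟩ := pull_of_iso hU hU hM hM' φ hl hr
      exact ⟨σ, τ, Or.inl h⟩
    · let ψ : Gr M ≃g Gr (fun j i => M' i j) := φ.trans (grTr M')
      have hψl : ∀ x, (ψ x).isLeft = !(φ x).isLeft := by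
        intro x
        show ((grTr M') (φ x)).isLeft = _
        rcases φ x with a | a <;> rfl
      have hl : ∀ a, ∃ a', ψ (Sum.inl a) = Sum.inl a' := by
        intro a
        have h1 := (side (Sum.inl a) x0).mpr rfl
        rw [Bool.not_eq_true] at h0
        have h2 := hψl (Sum.inl a)
        rw [h1, h0] at h2
        exact Sum.isLeft_iff.mp h2
      have hr : ∀ b, ∃ b', ψ (Sum.inr b) = Sum.inr b' := by
        intro b
        have h1 : ¬ ((φ (Sum.inr b)).isLeft = (φ x0).isLeft) := by
          rw [side, hx0]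
          simp
        rw [Bool.not_eq_true] at h0
        rw [h0, Bool.not_eq_false] at h1
        have h2 := hψl (Sum.inr b)
        rw [h1] at h2
        apply Sum.isRight_iff.mp
        rw [← Sum.isLeft_eq_false]
        exact h2
      obtain ⟨σ, τ, h⟩ := pull_of_iso hU hU hM (M' := fun j i => M' i j)
        (by rw [curv_tr]; exact red_tr hM') ψ hl hr
      refine ⟨τ, σ, Or.inr ?_⟩
      rw [← h, curv_tr M']
      rfl
  · rintro ⟨σ, τ, h | h⟩
    · exact iso_of_pull σ τ h
    · have h1 : pull σ τ (curv M') = curv (fun j i => M i j) := by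
        rw [curv_tr M, ← h, tr_tr]
      obtain ⟨φ⟩ := iso_of_pull σ τ h1
      exact ⟨(grTr M).trans φ⟩

end Pool.Agent.Helper371.Rho
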