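import Pool.Agent.Helper371.RhoDefs
import Pool.Agent.Helper371.RhoJ
import Pool.Agent.Helper371.RhoL

set_option autoImplicit false

namespace Pool.Agent.Helper371.Rho

open Pool.Agent.Helper371

/-- the matrix chosen for a curvature -/
noncomputable def mt {d : ℕ} (y : YY d) : Fin d → Fin d → ZMod 2 := y.2.1.choose

theorem mt_spec {d : ℕ} (y : YY d) : curv (mt y) = y.1 := y.2.1.choose_spec.symm

theorem mt_red {d : ℕ} (y : YY d) : Red (curv (mt y)) := by
  rw [mt_spec]; exact y.2.2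

/-- the vertex set -/
abbrev XX (d : ℕ) : Type := (Fin d × ZMod 2) ⊕ (Fin d × ZMod 2)

/-- numbering of the vertices -/
noncomputable def num (d : ℕ) : Fin (Fintype.card (XX d)) ≃ XX d := (Fintype.equivFin (XX d)).symm

/-- the isomorphism onto a graph on an initial segment -/
noncomputable def numIso {d : ℕ} (G : SimpleGraph (XX d)) : G.comap (num d) ≃g G :=
  SimpleGraph.Iso.comap (num d) G

/-- the graph of a curvature -/
noncomputable def gph {d : ℕ} (hd : 2 ≤ d) (y : YY d) : RegSGraph4 d :=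
  ⟨⟨Fintype.card (XX d), (Gr (mt y)).comap (num d)⟩, by
    have hU : Nontrivial (Fin d) := Fin.nontrivial_iff_two_le.mpr hd
    have hS := gr_isSGraph hU hU (mt_red y)
    refine ⟨?_, ?_, ?_⟩
    · intro v
      apply iso_regular (numIso (Gr (mt y))).symm d
      exact gr_regular (mt y) d (by simp) (by simp)
    · exact iso_isSGraph (numIso (Gr (mt y))).symm hS
    · have h := iso_diam (numIso (Gr (mt y))).symm hS.1
      rw [gr_diam hU hU (mt_red y)] at h
      exact h.symm⟩

theorem gph_iff {d : ℕ} (hd : 2 ≤ d) (y y' : YY d) :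
    (isoSetoid d) (gph hd y) (gph hd y') ↔ (MulAction.orbitRel (GG d) (YY d)) y y' := by
  rw [orbit_iff]
  have h1 := iso_crit hd (mt_red y) (mt_red y')
  rw [mt_spec, mt_spec] at h1
  unfold Eqv
  rw [← h1]
  constructor
  · rintro ⟨f⟩
    exact ⟨((numIso (Gr (mt y))).symm.trans f).trans (numIso (Gr (mt y')))⟩
  · rintro ⟨f⟩
    exact ⟨((numIso (Gr (mt y))).trans f).trans (numIso (Gr (mt y'))).symm⟩

theorem gph_surj {d : ℕ} (hd : 2 ≤ d) (x : RegSGraph4 d) :
    ∃ y : YY d, (isoSetoid d) (gph hd y) x := by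
  have hU : Nontrivial (Fin d) := Fin.nontrivial_iff_two_le.mpr hd
  have hn : Nonempty (Fin d) := hU.to_nonempty
  obtain ⟨⟨n, G⟩, h1, h2, h3⟩ := x
  simp only at h1 h2 h3
  obtain ⟨M, ⟨φ⟩⟩ := exists_matrix h2 h3 d h1
  have hS : IsSGraph (Gr M) := iso_isSGraph φ.symm h2
  have hD : (Gr M).diam = 4 := by rw [iso_diam φ hS.1]; exact h3
  have hR := red_of_gr hn hn hS hD
  let y : YY d := ⟨curv M, ⟨M, rfl⟩, hR⟩
  refine ⟨y, ?_⟩
  have h4 : pull (Equiv.refl (Fin d)) (Equiv.refl (Fin d)) (curv M) = curv (mt y) := by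
    rw [mt_spec]
    rfl
  obtain ⟨ψ⟩ := iso_of_pull (Equiv.refl (Fin d)) (Equiv.refl (Fin d)) h4
  exact ⟨((numIso (Gr (mt y))).trans ψ).trans φ⟩

/-- the classes of graphs and of curvatures -/
noncomputable def clsEquiv {d : ℕ} (hd : 2 ≤ d) :
    Quotient (MulAction.orbitRel (GG d) (YY d)) ≃ IsoClasses d :=
  Equiv.ofBijective
    (Quotient.lift (fun y => (Quotient.mk (isoSetoid d) (gph hd y))) (fun a b h =>
      Quotient.sound ((gph_iff hd a b).mpr h))) (by
    constructor
    · intro a b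
      induction a using Quotient.inductionOn
      induction b using Quotient.inductionOn
      intro h
      exact Quotient.sound ((gph_iff hd _ _).mp (Quotient.exact h))
    · intro q
      obtain ⟨x, rfl⟩ := Quotient.exists_rep q
      obtain ⟨y, hy⟩ := gph_surj hd x
      exact ⟨Quotient.mk _ y, Quotient.sound hy⟩)

theorem rho_eq {d : ℕ} (hd : 2 ≤ d) :
    rho d = Nat.card (Quotient (MulAction.orbitRel (GG d) (YY d))) :=
  (Nat.card_congr (clsEquiv hd)).symm

theorem small {d : ℕ} (hd : ¬ 2 ≤ d) : IsEmpty (IsoClasses d) := by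
  constructor
  intro q
  obtain ⟨x, rfl⟩ := Quotient.exists_rep q
  obtain ⟨⟨n, G⟩, h1, h2, h3⟩ := x
  exact hd (two_le_deg h2 h3 d h1)

theorem finite_classes (d : ℕ) : Finite (IsoClasses d) := by
  by_cases hd : 2 ≤ d
  · exact Finite.of_equiv _ (clsEquiv hd)
  · have := small hd
    infer_instance

theorem rho_small {d : ℕ} (hd : ¬ 2 ≤ d) : rho d = 0 := by
  have := small hd
  unfold rho
  exact Nat.card_of_isEmpty

theorem rho_W {d : ℕ} (hd : 2 ≤ d) : (rho d : ℚ) =
      (W d (fun _ γ => W d (fun _ γ' => nfix γ γ')) + W d (fun _ γ => sfix γ)) / 2 := by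
  rw [rho_eq hd]
  exact classes d

end Pool.Agent.Helper371.Rho
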