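import Pool.Agent.Helper371.RhoDefs
import Pool.Agent.Helper371.RhoI

set_option autoImplicit false

namespace Pool.Agent.Helper371.Rho

open Finset Equiv Function Pool.Agent.Helper371

/-- the cycle type as a multiset, including the fixed points -/
noncomputable def ctq {X : Type} [Fintype X] (ρ : Perm X) : Multiset ℕ :=
  (Finset.univ : Finset (CQ ρ)).val.map (szc ρ)

theorem mset_ext {A B : Multiset ℕ} (h : ∀ f : ℕ → ℚ, (A.map f).sum = (B.map f).sum) : A = B := by
  ext n
  have key : ∀ C : Multiset ℕ, (C.map (fun k => if k = n then (1 : ℚ) else 0)).sum = C.count n := by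
    intro C
    induction C using Multiset.induction_on with
    | empty => simp
    | cons a C ih =>
      rw [Multiset.map_cons, Multiset.sum_cons, ih, Multiset.count_cons]
      by_cases h : a = n
      · subst h
        simp
        ring
      · rw [if_neg h, if_neg (fun h' => h h'.symm)]
        simp
  have h1 := h (fun k => if k = n then (1 : ℚ) else 0)
  rw [key, key] at h1
  exact_mod_cast h1

theorem ctq_sum {X : Type} [Fintype X] (ρ : Perm X) (f : ℕ → ℚ) :
    ((ctq ρ).map f).sum = ∑ x, f (ell ρ x) / ell ρ x := by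
  unfold ctq
  rw [Multiset.map_map]
  have h1 := sum_cycles ρ (fun q => f (szc ρ q))
  simp only [szc_cls] at h1
  exact h1

theorem ctq_card {X : Type} [Fintype X] (ρ : Perm X) : (ctq ρ).card = Fintype.card (CQ ρ) := by
  unfold ctq
  rw [Multiset.card_map]
  rfl

theorem ctq_pos {X : Type} [Fintype X] (ρ : Perm X) {n : ℕ} (hn : n ∈ ctq ρ) : 0 < n := by
  unfold ctq at hn
  rw [Multiset.mem_map] at hn
  obtain ⟨q, _, rfl⟩ := hn
  exact ell_pos _ _

theorem ctq_total {X : Type} [Fintype X] (ρ : Perm X) : (ctq ρ).sum = Fintype.card X := by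
  have h1 := ctq_sum ρ (fun n => (n : ℚ))
  have h2 : ∀ x, (ell ρ x : ℚ) / ell ρ x = 1 := by
    intro x
    have : (ell ρ x : ℚ) ≠ 0 := by exact_mod_cast (ell_pos ρ x).ne'
    field_simp
  rw [Finset.sum_congr rfl (fun x _ => h2 x), Finset.sum_const, Finset.card_univ, nsmul_eq_mul,
    mul_one] at h1
  have h3 : (((ctq ρ).sum : ℕ) : ℚ) = ((ctq ρ).map (fun n : ℕ => (n : ℚ))).sum := by
    rw [Nat.cast_multiset_sum]
  rw [← h3] at h1
  exact_mod_cast h1

section sumc
variable {X Y : Type} [Fintype X] [Fintype Y]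

omit [Fintype X] [Fintype Y] in
theorem sumCongr_iter_inl (σ : Perm X) (τ : Perm Y) (n : ℕ) (x : X) :
    (Equiv.sumCongr σ τ)^[n] (Sum.inl x) = Sum.inl (σ^[n] x) := by
  induction n with
  | zero => rfl
  | succ n ih => rw [Function.iterate_succ_apply', ih, Function.iterate_succ_apply']; rfl

omit [Fintype X] [Fintype Y] in
theorem sumCongr_iter_inr (σ : Perm X) (τ : Perm Y) (n : ℕ) (y : Y) :
    (Equiv.sumCongr σ τ)^[n] (Sum.inr y) = Sum.inr (τ^[n] y) := by
  induction n with
  | zero => rfl
  | succ n ih => rw [Function.iterate_succ_apply', ih, Function.iterate_succ_apply']; rfl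

omit [Fintype X] [Fintype Y] in
theorem ell_inl (σ : Perm X) (τ : Perm Y) (x : X) :
    ell (Equiv.sumCongr σ τ : Perm (X ⊕ Y)) (Sum.inl x) = ell σ x := by
  apply Nat.dvd_antisymm
  · apply ell_dvd
    rw [sumCongr_iter_inl, ell_spec]
  · apply ell_dvd
    have h := ell_spec (Equiv.sumCongr σ τ : Perm (X ⊕ Y)) (Sum.inl x)
    rw [sumCongr_iter_inl] at h
    exact Sum.inl.inj h

omit [Fintype X] [Fintype Y] in
theorem ell_inr (σ : Perm X) (τ : Perm Y) (y : Y) :
    ell (Equiv.sumCongr σ τ : Perm (X ⊕ Y)) (Sum.inr y) = ell τ y := by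
  apply Nat.dvd_antisymm
  · apply ell_dvd
    rw [sumCongr_iter_inr, ell_spec]
  · apply ell_dvd
    have h := ell_spec (Equiv.sumCongr σ τ : Perm (X ⊕ Y)) (Sum.inr y)
    rw [sumCongr_iter_inr] at h
    exact Sum.inr.inj h

theorem ctq_sumCongr (σ : Perm X) (τ : Perm Y) :
    ctq (Equiv.sumCongr σ τ : Perm (X ⊕ Y)) = ctq σ + ctq τ := by
  apply mset_ext
  intro f
  rw [ctq_sum, Multiset.map_add, Multiset.sum_add, ctq_sum, ctq_sum, Fintype.sum_sum_type]
  simp only [ell_inl, ell_inr]

end sumc

section part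
variable {X : Type} [Fintype X] [DecidableEq X]

theorem ell_fixed (σ : Perm X) (x : X) (hx : x ∉ σ.support) : ell σ x = 1 := by
  have h1 : ell σ x ∣ 1 := by
    apply ell_dvd
    rw [Function.iterate_one]
    exact Perm.notMem_support.mp hx
  exact Nat.dvd_one.mp h1

theorem ell_supp (σ : Perm X) (x : X) (hx : x ∈ σ.support) :
    (σ.cycleOf x).support.card = ell σ x := by
  have h1 := sum_cls σ x (fun _ => (1 : ℕ))
  rw [Finset.sum_const, card_range, smul_eq_mul, mul_one] at h1
  rw [← h1, ← Finset.sum_filter, Finset.sum_const, smul_eq_mul, mul_one]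
  congr 1
  ext y
  rw [Perm.mem_support_cycleOf_iff, mem_filter, cls_eq]
  constructor
  · rintro ⟨h2, _⟩
    exact ⟨mem_univ _, h2.symm⟩
  · rintro ⟨_, h2⟩
    exact ⟨h2.symm, hx⟩

theorem ctq_partition (σ : Perm X) : ctq σ = σ.partition.parts := by
  apply mset_ext
  intro f
  rw [ctq_sum, Perm.parts_partition, Multiset.map_add, Multiset.sum_add, Perm.cycleType_def,
    Multiset.map_map, Multiset.map_replicate, Multiset.sum_replicate]
  have h1 : (σ.cycleFactorsFinset.1.map (f ∘ (Finset.card ∘ Perm.support))).sum =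
      ∑ c ∈ σ.cycleFactorsFinset, f (c.support.card) := rfl
  rw [h1]
  have h2 : ∀ c ∈ σ.cycleFactorsFinset, f (c.support.card) =
      ∑ x ∈ c.support, f (ell σ x) / ell σ x := by
    intro c hc
    have h3 : ∀ x ∈ c.support, f (ell σ x) / ell σ x = f (c.support.card) / c.support.card := by
      intro x hx
      have h4 := Perm.cycle_is_cycleOf hx hc
      have h5 : x ∈ σ.support := Perm.mem_cycleFactorsFinset_support_le hc hx
      rw [← ell_supp σ x h5, ← h4]
    rw [Finset.sum_congr rfl h3, Finset.sum_const, nsmul_eq_mul]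
    have h6 : (c.support.card : ℚ) ≠ 0 := by
      have h7 := (Perm.mem_cycleFactorsFinset_iff.mp hc).1.two_le_card_support
      have : c.support.card ≠ 0 := by omega
      exact_mod_cast this
    field_simp
  rw [Finset.sum_congr rfl h2]
  have h3 : ∑ c ∈ σ.cycleFactorsFinset, ∑ x ∈ c.support, f (ell σ x) / ell σ x =
      ∑ x ∈ σ.support, ∑ c ∈ {σ.cycleOf x}, f (ell σ x) / ell σ x := by
    apply Finset.sum_comm'
    intro c x
    constructor
    · rintro ⟨hc, hx⟩
      refine ⟨?_, Perm.mem_cycleFactorsFinset_support_le hc hx⟩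
      rw [mem_singleton]
      exact Perm.cycle_is_cycleOf hx hc
    · rintro ⟨hc, hx⟩
      rw [mem_singleton] at hc
      subst hc
      refine ⟨Perm.cycleOf_mem_cycleFactorsFinset_iff.mpr hx, ?_⟩
      rw [Perm.mem_support_cycleOf_iff]
      exact ⟨Perm.SameCycle.refl _ _, hx⟩
  rw [h3]
  simp only [Finset.sum_singleton]
  rw [← Finset.sum_add_sum_compl σ.support]
  congr 1
  have h4 : ∀ x ∈ σ.supportᶜ, f (ell σ x) / ell σ x = f 1 := by
    intro x hx
    rw [mem_compl] at hx
    rw [ell_fixed σ x hx]
    simp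
  rw [Finset.sum_congr rfl h4, Finset.sum_const, Finset.card_compl]

theorem sign_ctq (σ : Perm X) :
    (-1 : ℚ) ^ Fintype.card X * (((Perm.sign σ : ℤˣ) : ℤ) : ℚ) = (-1) ^ (ctq σ).card := by
  rw [Perm.sign_of_cycleType, ctq_partition, Perm.parts_partition, Multiset.card_add,
    Multiset.card_replicate]
  have h1 : σ.cycleType.sum = σ.support.card := Perm.sum_cycleType σ
  have h2 : σ.support.card ≤ Fintype.card X := Finset.card_le_univ _
  rw [h1]
  obtain ⟨k, hk⟩ := Nat.exists_eq_add_of_le h2
  rw [hk, Nat.add_sub_cancel_left]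
  push_cast
  rw [← pow_add]
  have h3 : σ.support.card + k + (σ.support.card + σ.cycleType.card) =
      2 * σ.support.card + (σ.cycleType.card + k) := by ring
  rw [h3, pow_add, pow_mul]
  norm_num

end part

/-- the full cycle type as a partition -/
noncomputable def pt {n : ℕ} (σ : Perm (Fin n)) : n.Partition where
  parts := ctq σ
  parts_pos := fun h => ctq_pos σ h
  parts_sum := by rw [ctq_total, Fintype.card_fin]

theorem ones_split (A : Multiset ℕ) (hA : ∀ a ∈ A, 0 < a) :
    A = (A.filter fun n => 2 ≤ n) + Multiset.replicate (A.count 1) 1 := by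
  ext n
  rw [Multiset.count_add, Multiset.count_replicate, Multiset.count_filter]
  by_cases h1 : n = 1
  · subst h1
    simp
  · have h0 : ¬ (1 = n) := fun h => h1 h.symm
    rw [if_neg h0, add_zero]
    split_ifs with h2
    · rfl
    · have h3 : n = 0 := by omega
      subst h3
      rw [Multiset.count_eq_zero]
      intro h4
      exact absurd (hA 0 h4) (lt_irrefl 0)

theorem class_card {n : ℕ} (l : n.Partition) :
    (Finset.univ.filter (fun σ : Perm (Fin n) => pt σ = l)).card * zee l.parts = n.factorial := by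
  classical
  set B := l.parts.filter (fun n => 2 ≤ n) with hB
  have hs := ones_split l.parts (fun a ha => l.parts_pos ha)
  rw [← hB] at hs
  have hsum : B.sum + l.parts.count 1 = n := by
    have h1 := l.parts_sum
    rw [hs] at h1
    rw [Multiset.sum_add, Multiset.sum_replicate, smul_eq_mul, mul_one] at h1
    exact h1
  have h1 : (Finset.univ.filter (fun σ : Perm (Fin n) => pt σ = l)) =
      Finset.univ.filter (fun σ : Perm (Fin n) => σ.cycleType = B) := by
    ext σ
    rw [mem_filter, mem_filter]
    have hA : ctq σ = l.parts ↔ σ.cycleType = B := by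
      rw [ctq_partition, ← Perm.filter_parts_partition_eq_cycleType]
      constructor
      · intro h
        rw [h]
      · intro h
        have hs' := ones_split σ.partition.parts (fun a ha => σ.partition.parts_pos ha)
        rw [h] at hs'
        have hsum' := σ.partition.parts_sum
        rw [hs', Multiset.sum_add, Multiset.sum_replicate, smul_eq_mul, mul_one] at hsum'
        have hsum2 := hsum'.trans (Fintype.card_fin n)
        rw [hs', hs]
        congr 2
        have h5 : Multiset.count 1 (B + Multiset.replicate (Multiset.count 1 σ.partition.parts) 1) =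
          Multiset.count 1 σ.partition.parts := by
          conv_rhs => rw [hs']
        omega
    constructor
    · rintro ⟨_, h⟩
      exact ⟨mem_univ _, hA.mp (congrArg Nat.Partition.parts h)⟩
    · rintro ⟨_, h⟩
      exact ⟨mem_univ _, Nat.Partition.ext (hA.mpr h)⟩
  have h2 := Perm.card_of_cycleType_mul_eq (Fin n) B
  rw [if_pos] at h2
  swap
  · constructor
    · rw [Fintype.card_fin]; omega
    · intro a ha
      rw [hB, Multiset.mem_filter] at ha
      exact ha.2
  rw [Fintype.card_fin] at h2
  rw [h1, ← h2]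
  congr 1
  unfold zee
  have h3 : n - B.sum = l.parts.count 1 := by omega
  have h4 : l.parts.prod = B.prod := by
    conv_lhs => rw [hs]
    rw [Multiset.prod_add, Multiset.prod_replicate, one_pow, mul_one]
  have h5 : ∏ k ∈ l.parts.toFinset, (l.parts.count k).factorial =
      (l.parts.count 1).factorial * ∏ k ∈ B.toFinset, (B.count k).factorial := by
    have h6 : (1 : ℕ) ∉ B.toFinset := by
      rw [Multiset.mem_toFinset, hB, Multiset.mem_filter]
      omega
    have h7 : ∀ k ∈ B.toFinset, (B.count k).factorial = (l.parts.count k).factorial := by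
      intro k hk
      rw [Multiset.mem_toFinset, hB, Multiset.mem_filter] at hk
      rw [hB, Multiset.count_filter, if_pos hk.2]
    rw [Finset.prod_congr rfl h7, ← Finset.prod_insert
      (f := fun k => (Multiset.count k l.parts).factorial) h6]
    apply Finset.prod_subset_one_on_sdiff
    · intro k hk
      rw [Multiset.mem_toFinset] at hk
      rw [mem_insert, Multiset.mem_toFinset, hB, Multiset.mem_filter]
      have := l.parts_pos hk
      by_cases h8 : k = 1
      · exact Or.inl h8
      · exact Or.inr ⟨hk, by omega⟩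
    · intro k hk
      rw [mem_sdiff, Multiset.mem_toFinset] at hk
      have : l.parts.count k = 0 := Multiset.count_eq_zero.mpr hk.2
      rw [this]
      rfl
    · intro k _
      rfl
  rw [h3, h4, h5]
  ring

/-- sums over permutations as sums over partitions -/
theorem sum_perm (n : ℕ) (F : Multiset ℕ → ℚ) :
    (n.factorial : ℚ)⁻¹ * ∑ σ : Perm (Fin n), F (ctq σ) =
      ∑ l : n.Partition, F l.parts / zee l.parts := by
  classical
  rw [← Finset.sum_fiberwise Finset.univ (fun σ : Perm (Fin n) => pt σ) (fun σ => F (ctq σ)),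
    Finset.mul_sum]
  apply Finset.sum_congr rfl
  intro l _
  have h1 : ∀ σ ∈ Finset.univ.filter (fun σ : Perm (Fin n) => pt σ = l), F (ctq σ) = F l.parts := by
    intro σ hσ
    rw [mem_filter] at hσ
    rw [← hσ.2]
    rfl
  rw [Finset.sum_congr rfl h1, Finset.sum_const, nsmul_eq_mul]
  have h2 := class_card l
  have h3 : ((Finset.univ.filter (fun σ : Perm (Fin n) => pt σ = l)).card : ℚ) * zee l.parts =
      n.factorial := by exact_mod_cast h2
  have h4 : (n.factorial : ℚ) ≠ 0 := by exact_mod_cast Nat.factorial_ne_zero n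
  have h5 : (zee l.parts : ℚ) ≠ 0 := by
    intro h
    rw [h, mul_zero] at h3
    exact h4 h3.symm
  field_simp
  rw [← h3]
  ring

/-- the alternating sum over permutations as a sum over partitions -/
theorem W_altSum (d : ℕ) (F : Multiset ℕ → ℚ) :
    W d (fun _ γ => F (ctq γ)) = altSum d F := by
  unfold W altSum
  apply Finset.sum_congr rfl
  intro b _
  have h1 : ∀ (σ : Perm (Fin (d - 2 * b))) (σ' : Perm (Fin b)),
      (-1 : ℚ) ^ b * ((((Perm.sign σ' : ℤˣ) : ℤ) : ℚ) *
        F (ctq (Equiv.sumCongr σ σ' : Perm (Fin (d - 2 * b) ⊕ Fin b)))) =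
      (-1 : ℚ) ^ (ctq σ').card * F (ctq σ + ctq σ') := by
    intro σ σ'
    have h2 := sign_ctq σ'
    rw [Fintype.card_fin] at h2
    rw [ctq_sumCongr, ← mul_assoc, h2]
  have h2 : (-1 : ℚ) ^ b / ((d - 2 * b).factorial * b.factorial) *
      ∑ σ : Perm (Fin (d - 2 * b)), ∑ σ' : Perm (Fin b), (((Perm.sign σ' : ℤˣ) : ℤ) : ℚ) *
        F (ctq (Equiv.sumCongr σ σ' : Perm (Fin (d - 2 * b) ⊕ Fin b))) =
      ((d - 2 * b).factorial : ℚ)⁻¹ * ∑ σ : Perm (Fin (d - 2 * b)),
        ((b.factorial : ℚ)⁻¹ * ∑ σ' : Perm (Fin b), (-1 : ℚ) ^ (ctq σ').card *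
          F (ctq σ + ctq σ')) := by
    rw [← Finset.mul_sum]
    simp only [← h1]
    simp only [← Finset.mul_sum]
    have h4 : ((d - 2 * b).factorial : ℚ) ≠ 0 := by exact_mod_cast Nat.factorial_ne_zero _
    have h5 : (b.factorial : ℚ) ≠ 0 := by exact_mod_cast Nat.factorial_ne_zero _
    field_simp
  rw [h2]
  rw [sum_perm (d - 2 * b) (fun A => ((b.factorial : ℚ)⁻¹ * ∑ σ' : Perm (Fin b),
    (-1 : ℚ) ^ (ctq σ').card * F (A + ctq σ')))]
  apply Finset.sum_congr rfl
  intro l _
  rw [sum_perm b (fun B => (-1 : ℚ) ^ B.card * F (l.parts + B)), Finset.sum_div]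
  apply Finset.sum_congr rfl
  intro k _
  have h4 : (zee l.parts : ℚ) ≠ 0 := by
    have h3 := class_card l
    intro h
    have h5 : zee l.parts = 0 := by exact_mod_cast h
    rw [h5, mul_zero] at h3
    exact (Nat.factorial_ne_zero _) h3.symm
  have h5 : (zee k.parts : ℚ) ≠ 0 := by
    have h3 := class_card k
    intro h
    have h5 : zee k.parts = 0 := by exact_mod_cast h
    rw [h5, mul_zero] at h3
    exact (Nat.factorial_ne_zero _) h3.symm
  field_simp

end Pool.Agent.Helper371.Rho
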