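import Pool.Agent.Helper371.RhoM
import Pool.Agent.Helper371.RhoN

set_option autoImplicit false

namespace Pool.Agent.Helper371.Rho

open Finset Equiv Function Pool.Agent.Helper371

theorem v2_eq (n : ℕ) : v2 n = padicValNat 2 n := Nat.factorization_def n Nat.prime_two

theorem mem_ctq {X : Type} [Fintype X] (ρ : Perm X) (n : ℕ) :
    n ∈ ctq ρ ↔ ∃ q, szc ρ q = n := by
  unfold ctq
  rw [Multiset.mem_map]
  constructor
  · rintro ⟨q, _, h⟩; exact ⟨q, h⟩
  · rintro ⟨q, h⟩; exact ⟨q, mem_univ q, h⟩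

theorem card_filter_ctq {X : Type} [Fintype X] (ρ : Perm X) (p : ℕ → Prop) [DecidablePred p]
    [Fintype {c : CQ ρ // p (szc ρ c)}] :
    ((ctq ρ).filter p).card = Fintype.card {c : CQ ρ // p (szc ρ c)} := by
  classical
  unfold ctq
  rw [Multiset.filter_map, Multiset.card_map, Fintype.card_subtype]
  rfl

theorem gcdSum_ctq {X Y : Type} [Fintype X] [Fintype Y] (σ : Perm X) (τ : Perm Y) :
    ∑ c : CQ σ, ∑ d : CQ τ, Nat.gcd (szc σ c) (szc τ d) = gcdSum (ctq σ) (ctq τ) := by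
  unfold gcdSum ctq
  rw [Multiset.map_map]
  simp only [Multiset.map_map, Function.comp_def]
  rfl

theorem epsf_max {C D : Type} [Fintype C] [Fintype D] [Nonempty C] [Nonempty D] (v : C → ℕ)
    (w : D → ℕ) (a b : ℕ) (ha : a = Nat.card {c // ∀ d, v c < w d})
    (hb : b = Nat.card {d // ∀ c, w d < v c}) :
    epsf v w = max 1 (a + b) := by
  classical
  obtain ⟨c0, hc⟩ := Finite.exists_min v
  obtain ⟨d0, hd⟩ := Finite.exists_min w
  unfold epsf
  rw [← Nat.card_eq_fintype_card, ← Nat.card_eq_fintype_card, ← ha, ← hb]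
  split_ifs with h
  · obtain ⟨c, d, h1, h2, h3⟩ := h
    have ea : a = 0 := by
      rw [ha, Nat.card_eq_zero]
      left
      constructor
      rintro ⟨c', h4⟩
      have h5 := h4 d
      have h6 := h2 c'
      omega
    have eb : b = 0 := by
      rw [hb, Nat.card_eq_zero]
      left
      constructor
      rintro ⟨d', h4⟩
      have h5 := h4 c
      have h6 := h3 d'
      omega
    rw [ea, eb]
    rfl
  · have hne : v c0 ≠ w d0 := fun h1 => h ⟨c0, d0, h1, hc, hd⟩
    have hpos : 1 ≤ a + b := by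
      rcases lt_or_gt_of_ne hne with h1 | h1
      · have h2 : 0 < Nat.card {c // ∀ d, v c < w d} :=
          Nat.card_pos_iff.mpr ⟨⟨⟨c0, fun d => lt_of_lt_of_le h1 (hd d)⟩⟩, inferInstance⟩
        omega
      · have h2 : 0 < Nat.card {d // ∀ c, w d < v c} :=
          Nat.card_pos_iff.mpr ⟨⟨⟨d0, fun c => lt_of_lt_of_le h1 (hc c)⟩⟩, inferInstance⟩
        omega
    rw [max_eq_right hpos, add_zero]

theorem epsc_eq {X Y : Type} [Fintype X] [Fintype Y] [Nonempty X] [Nonempty Y] (σ : Perm X)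
    (τ : Perm Y) : epsc σ τ = eps (ctq σ) (ctq τ) := by
  classical
  have : Nonempty (CQ σ) := ⟨cls σ (Classical.arbitrary X)⟩
  have : Nonempty (CQ τ) := ⟨cls τ (Classical.arbitrary Y)⟩
  unfold epsc eps
  apply epsf_max
  · rw [card_filter_ctq σ (fun a => ∀ b ∈ ctq τ, padicValNat 2 a < padicValNat 2 b),
      ← Nat.card_eq_fintype_card]
    apply Nat.card_congr
    apply Equiv.subtypeEquivRight
    intro c
    constructor
    · intro h d
      rw [v2_eq, v2_eq]
      exact h _ ((mem_ctq τ _).mpr ⟨d, rfl⟩)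
    · intro h b hb
      obtain ⟨d, rfl⟩ := (mem_ctq τ _).mp hb
      have := h d
      rwa [v2_eq, v2_eq] at this
  · rw [card_filter_ctq τ (fun b => ∀ a ∈ ctq σ, padicValNat 2 b < padicValNat 2 a),
      ← Nat.card_eq_fintype_card]
    apply Nat.card_congr
    apply Equiv.subtypeEquivRight
    intro c
    constructor
    · intro h d
      rw [v2_eq, v2_eq]
      exact h _ ((mem_ctq σ _).mpr ⟨d, rfl⟩)
    · intro h b hb
      obtain ⟨d, rfl⟩ := (mem_ctq σ _).mp hb
      have := h d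
      rwa [v2_eq, v2_eq] at this

theorem nfix_ctq {X Y : Type} [Fintype X] [Fintype Y] [DecidableEq X] [DecidableEq Y] [Nonempty X]
    [Nonempty Y] (σ : Perm X) (τ : Perm Y) :
    nfix σ τ = 2 ^ (gcdSum (ctq σ) (ctq τ) + eps (ctq σ) (ctq τ)) /
      2 ^ ((ctq σ).card + (ctq τ).card) := by
  have h1 := nfix_eq σ τ
  rw [gcdSum_ctq, epsc_eq, ← pow_add] at h1
  rw [ctq_card, ctq_card, ← h1]
  have h2 : (2 : ℚ) ^ (Fintype.card (CQ σ) + Fintype.card (CQ τ)) ≠ 0 := by positivity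
  field_simp

theorem oddCount_ctq {X : Type} [Fintype X] (σ : Perm X) :
    oddCount (ctq σ) = ∑ c : CQ σ, (if Odd (szc σ c) then 1 else 0) := by
  classical
  unfold oddCount
  rw [card_filter_ctq σ (fun a => Odd a), Fintype.card_subtype, Finset.card_filter]

theorem valf_ctq {X : Type} [Fintype X] (σ : Perm X) :
    valf (fun c => v2 (szc σ c)) = if oddCount (ctq σ) = 0 then 1 else 0 := by
  classical
  unfold valf
  have h1 : oddCount (ctq σ) = 0 ↔ ¬ ∃ c, v2 (szc σ c) = 0 := by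
    unfold oddCount
    rw [Multiset.card_eq_zero, Multiset.filter_eq_nil]
    constructor
    · rintro h ⟨c, hc⟩
      apply h (szc σ c) ((mem_ctq σ _).mpr ⟨c, rfl⟩)
      rw [odd_iff_v2 (szc_ne σ c)]
      exact hc
    · intro h a ha hodd
      obtain ⟨c, rfl⟩ := (mem_ctq σ _).mp ha
      exact h ⟨c, (odd_iff_v2 (szc_ne σ c)).mp hodd⟩
  by_cases h : ∃ c, v2 (szc σ c) = 0
  · rw [if_pos h, if_neg (fun h' => h1.mp h' h)]
  · rw [if_neg h, if_pos (h1.mpr h)]

theorem sfix_ctq {X : Type} [Fintype X] [DecidableEq X] [Nonempty X] (γ : Perm X) :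
    sfix γ = 2 ^ ((gcdSum (ctq γ) (ctq γ) + oddCount (ctq γ)) / 2 +
      (if oddCount (ctq γ) = 0 then 1 else 0)) / 2 ^ (ctq γ).card := by
  have h1 := sfix_eq γ
  have h2 := cq_theta γ
  rw [gcdSum_ctq, ← oddCount_ctq] at h2
  rw [valf_ctq, ← pow_add] at h1
  have h3 : (gcdSum (ctq γ) (ctq γ) + oddCount (ctq γ)) / 2 = Fintype.card (CQ (theta γ)) := by
    omega
  rw [h3, ctq_card, ← h1]
  have h4 : (2 : ℚ) ^ Fintype.card (CQ γ) ≠ 0 := by positivity
  field_simp

theorem nonempty_idx {d b : ℕ} (hd : 2 ≤ d) (hb : b ∈ range (d / 2 + 1)) :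
    Nonempty (Fin (d - 2 * b) ⊕ Fin b) := by
  rw [mem_range] at hb
  by_cases h : b = 0
  · subst h
    exact ⟨Sum.inl ⟨0, by omega⟩⟩
  · exact ⟨Sum.inr ⟨0, by omega⟩⟩

theorem rho_formula {d : ℕ} (hd : 2 ≤ d) : (rho d : ℚ) = (RR d + SS d) / 2 := by
  rw [rho_W hd]
  congr 2
  · unfold RR
    rw [← W_altSum]
    apply W_congr
    intro b hb γ
    rw [← W_altSum]
    apply W_congr
    intro b' hb' γ'
    have := nonempty_idx hd hb
    have := nonempty_idx hd hb'
    exact nfix_ctq γ γ'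
  · unfold SS
    rw [← W_altSum]
    apply W_congr
    intro b hb γ
    have := nonempty_idx hd hb
    exact sfix_ctq γ

end Pool.Agent.Helper371.Rho
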