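import Pool.Agent.Helper371.SDefs

set_option autoImplicit false

namespace Pool.Agent.Helper371

open Classical in
/-- the graph in which two vertices are adjacent iff their sign vectors differ in exactly one
place -/
def signGraph {V L : Type} (f : V → L → Prop) : SimpleGraph V where
  Adj x y := ∃ l, ∀ l', (f x l' ↔ f y l') ↔ l' ≠ l
  symm := ⟨by
    rintro x y ⟨l, h⟩
    exact ⟨l, fun l' => by rw [← h l']; exact ⟨fun h => h.symm, fun h => h.symm⟩⟩⟩
  loopless := ⟨by
    rintro x ⟨l, h⟩
    exact (h l).mp Iff.rfl rfl⟩

/-- the local condition at a vertex -/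
def Good {V L : Type} (f : V → L → Prop) (x : V) : Prop :=
  ∃ (e : Fin 3 → L) (y : Fin 3 → V), Function.Injective e ∧
    (∀ k l, (f x l ↔ f (y k) l) ↔ l ≠ e k) ∧ ∀ v, (∀ k, f v (e k) ↔ f x (e k)) → v = x

section
variable {V L : Type} {f : V → L → Prop}

theorem Good.of_antipode (a : V → V) (ha : ∀ x l, f (a x) l ↔ ¬ f x l) (haa : ∀ x, a (a x) = x)
    {x : V} (h : Good f (a x)) : Good f x := by
  obtain ⟨e, y, he, hy, h3⟩ := h
  refine ⟨e, fun k => a (y k), he, ?_, ?_⟩
  · intro k l
    rw [← hy k l, ha, ha]
    by_cases h1 : f x l <;> by_cases h2 : f (y k) l <;> simp [h1, h2]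
  · intro v hv
    have : a v = a x := h3 (a v) (fun k => by rw [ha, ha, hv k])
    rw [← haa v, this, haa x]

theorem sign_inj (hgood : ∀ x, Good f x) {x y : V} (h : ∀ l, f x l ↔ f y l) : x = y := by
  obtain ⟨e, _, _, _, h3⟩ := hgood y
  exact h3 x (fun k => h _)

theorem finite_of_good [Finite L] (hgood : ∀ x, Good f x) : Finite V := by
  have : Function.Injective f := by
    intro x y hxy
    exact sign_inj hgood (fun l => by rw [hxy])
  exact Finite.of_injective f this

variable [Fintype L]

open Classical in
/-- Hamming distance of the sign vectors -/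
noncomputable def ham (f : V → L → Prop) (x y : V) : ℕ :=
  (Finset.univ.filter fun l => ¬ (f x l ↔ f y l)).card

theorem ham_le (x y : V) : ham f x y ≤ Fintype.card L := by
  unfold ham
  exact (Finset.card_le_univ _)

theorem ham_self (x : V) : ham f x x = 0 := by
  unfold ham; simp

theorem ham_flip_up {v x y : V} {l : L} (h : ∀ l', (f x l' ↔ f y l') ↔ l' ≠ l)
    (hl : f v l ↔ f x l) : ham f v y = ham f v x + 1 := by
  classical
  unfold ham
  have : (Finset.univ.filter fun l => ¬ (f v l ↔ f y l)) =
      insert l (Finset.univ.filter fun l => ¬ (f v l ↔ f x l)) := by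
    ext l'
    simp only [Finset.mem_filter, Finset.mem_univ, true_and, Finset.mem_insert]
    by_cases e : l' = l
    · subst e
      have := h l'
      simp only [ne_eq, not_true_eq_false, iff_false] at this
      tauto
    · have := (h l').mpr e
      tauto
  rw [this, Finset.card_insert_of_notMem]
  simp [hl]

theorem ham_flip_down {v x y : V} {l : L} (h : ∀ l', (f x l' ↔ f y l') ↔ l' ≠ l)
    (hl : ¬ (f v l ↔ f x l)) : ham f v x = ham f v y + 1 := by
  apply ham_flip_up (l := l)
  · intro l'
    rw [← h l']
    exact ⟨fun h => h.symm, fun h => h.symm⟩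
  · have := h l
    simp only [ne_eq, not_true_eq_false, iff_false] at this
    tauto

theorem ham_adj {v x y : V} (h : (signGraph f).Adj x y) :
    ham f v y = ham f v x + 1 ∨ ham f v x = ham f v y + 1 := by
  obtain ⟨l, h⟩ := h
  by_cases hl : f v l ↔ f x l
  · exact Or.inl (ham_flip_up h hl)
  · exact Or.inr (ham_flip_down h hl)

theorem exists_down (hgood : ∀ x, Good f x) {v x : V} (hne : x ≠ v) :
    ∃ y, (signGraph f).Adj x y ∧ ham f v x = ham f v y + 1 := by
  obtain ⟨e, y, _, hy, h3⟩ := hgood x
  by_contra hcon
  push Not at hcon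
  apply hne
  refine (h3 v ?_).symm
  intro k
  by_contra hk
  exact hcon (y k) ⟨e k, hy k⟩ (ham_flip_down (hy k) hk)

theorem exists_walk (hgood : ∀ x, Good f x) (v : V) :
    ∀ (n : ℕ) (x : V), ham f v x = n → ∃ p : (signGraph f).Walk v x, p.length = n := by
  intro n
  induction n with
  | zero =>
    intro x hx
    by_cases hne : x = v
    · subst hne; exact ⟨SimpleGraph.Walk.nil, rfl⟩
    · obtain ⟨y, _, h⟩ := exists_down hgood hne
      omega
  | succ n ih =>
    intro x hx
    have hne : x ≠ v := by
      rintro rfl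
      rw [ham_self] at hx
      omega
    obtain ⟨y, hadj, h⟩ := exists_down hgood hne
    obtain ⟨p, hp⟩ := ih y (by omega)
    exact ⟨p.concat hadj.symm, by rw [SimpleGraph.Walk.length_concat, hp]⟩

theorem ham_le_length {v x : V} (p : (signGraph f).Walk x v) : ham f v x ≤ p.length := by
  induction p with
  | nil => simp [ham_self]
  | @cons u v' w h p ih =>
    have h' := ham_adj (f := f) (v := w) h
    rw [SimpleGraph.Walk.length_cons]
    omega

theorem connected_of_good [Nonempty V] (hgood : ∀ x, Good f x) : (signGraph f).Connected := by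
  constructor
  intro v x
  obtain ⟨p, _⟩ := exists_walk hgood v _ x rfl
  exact ⟨p⟩

theorem dist_eq_ham [Nonempty V] (hgood : ∀ x, Good f x) (v x : V) :
    (signGraph f).dist v x = ham f v x := by
  apply le_antisymm
  · obtain ⟨p, hp⟩ := exists_walk hgood v _ x rfl
    rw [← hp]
    exact SimpleGraph.dist_le p
  · obtain ⟨p, hp⟩ := ((connected_of_good hgood) x v).exists_walk_length_eq_dist
    rw [SimpleGraph.dist_comm, ← hp]
    exact ham_le_length p

theorem bipartite_of_good [Nonempty V] :
    (signGraph f).IsBipartite := by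
  obtain ⟨v⟩ := ‹Nonempty V›
  refine ⟨SimpleGraph.Coloring.mk (fun x => (⟨ham f v x % 2, Nat.mod_lt _ (by norm_num)⟩ : Fin 2)) ?_⟩
  intro x y hxy heq
  have h := ham_adj (v := v) hxy
  have : ham f v x % 2 = ham f v y % 2 := by
    simpa [Fin.ext_iff] using heq
  omega

theorem ham_antipode {v w : V} (h : ∀ l, f w l ↔ ¬ f v l) : ham f v w = Fintype.card L := by
  classical
  unfold ham
  rw [Finset.filter_true_of_mem, Finset.card_univ]
  intro l _
  rw [h l]
  by_cases hl : f v l <;> simp [hl]

theorem crit [Nonempty V] (hgood : ∀ x, Good f x) (a : V → V) (ha : ∀ x l, f (a x) l ↔ ¬ f x l) :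
    Finite V ∧ IsCubic (signGraph f) ∧ IsSGraph (signGraph f) ∧
      (signGraph f).diam = Fintype.card L := by
  have hfin : Finite V := finite_of_good hgood
  have hconn := connected_of_good hgood
  refine ⟨hfin, ?_, ⟨hconn, bipartite_of_good, ?_⟩, ?_⟩
  · intro x
    obtain ⟨e, y, he, hy, h3⟩ := hgood x
    have hyinj : Function.Injective y := by
      intro j k hjk
      by_contra hne
      have h1 := hy j (e j)
      have h2 := hy k (e j)
      rw [hjk] at h1
      rw [h1] at h2
      have : e j ≠ e k := fun h => hne (he h)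
      tauto
    have hset : (signGraph f).neighborSet x = Set.range y := by
      ext z
      constructor
      · rintro ⟨l, hl⟩
        by_cases hk : ∃ k, l = e k
        · obtain ⟨k, rfl⟩ := hk
          refine ⟨k, ?_⟩
          apply sign_inj hgood
          intro l'
          have h1 := hl l'
          have h2 := hy k l'
          tauto
        · push Not at hk
          exfalso
          have : z = x := h3 z (fun k => ((hl (e k)).mpr (fun h => hk k h.symm)).symm)
          subst this
          exact (hl l).mp Iff.rfl rfl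
      · rintro ⟨k, rfl⟩
        exact ⟨e k, hy k⟩
    rw [hset, ← Set.image_univ, Set.ncard_image_of_injective _ hyinj, Set.ncard_univ]
    simp
  · intro v
    refine ⟨a v, ?_, ?_⟩
    · intro y _
      rw [dist_eq_ham hgood, dist_eq_ham hgood, ham_antipode (ha v)]
      exact ham_le _ _
    · intro x hx
      by_contra hne
      obtain ⟨e, y, _, hy, h3⟩ := hgood x
      have : ∃ k, f v (e k) ↔ f x (e k) := by
        by_contra hcon
        push Not at hcon
        apply hne
        refine (h3 (a v) ?_).symm
        intro k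
        rw [ha]
        have := hcon k
        tauto
      obtain ⟨k, hk⟩ := this
      have h1 := hx (y k) ⟨e k, hy k⟩
      rw [dist_eq_ham hgood, dist_eq_ham hgood, ham_flip_up (hy k) hk] at h1
      omega
  · apply le_antisymm
    · obtain ⟨u, w, huw⟩ := (signGraph f).exists_dist_eq_diam
      rw [← huw, dist_eq_ham hgood]
      exact ham_le _ _
    · obtain ⟨v⟩ := ‹Nonempty V›
      rw [← ham_antipode (ha v), ← dist_eq_ham hgood]
      exact SimpleGraph.dist_le_diam (SimpleGraph.connected_iff_ediam_ne_top.mp hconn)

/-- In a cubic graph that is a nontrivial product, every vertex has a neighbour which spans a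
4-cycle with each of the other two neighbours. -/
theorem prod_square {G : SimpleGraph V} (hcub : IsCubic G) (A B : Type) (F : SimpleGraph A)
    (H : SimpleGraph B) (hA : Nontrivial A) (hB : Nontrivial B) (hF : F.Connected)
    (hH : H.Connected) (φ : G ≃g F.boxProd H) (x : V) :
    ∃ a, G.Adj x a ∧ ∀ b, G.Adj x b → b ≠ a → ∃ c, c ≠ x ∧ G.Adj a c ∧ G.Adj b c := by
  obtain ⟨p, q, hpq⟩ : ∃ p q, φ x = (p, q) := ⟨_, _, rfl⟩
  obtain ⟨p', hp'⟩ : ∃ p', F.Adj p p' := by
    obtain ⟨w, hw⟩ := exists_ne p
    exact ((hF.preconnected p w).exists_isPath) |> fun ⟨π, _⟩ => by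
      cases π with
      | nil => exact absurd rfl hw
      | cons h _ => exact ⟨_, h⟩
  obtain ⟨q', hq'⟩ : ∃ q', H.Adj q q' := by
    obtain ⟨w, hw⟩ := exists_ne q
    exact ((hH.preconnected q w).exists_isPath) |> fun ⟨π, _⟩ => by
      cases π with
      | nil => exact absurd rfl hw
      | cons h _ => exact ⟨_, h⟩
  have key : ∀ z w, G.Adj z w ↔ (F.boxProd H).Adj (φ z) (φ w) := fun z w => φ.map_rel_iff.symm
  have keyx : ∀ w, G.Adj x w ↔ (F.boxProd H).Adj (p, q) (φ w) := by
    intro w; rw [key, hpq]
  have key2 : ∀ z w, G.Adj (φ.symm z) (φ.symm w) ↔ (F.boxProd H).Adj z w := by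
    intro z w; rw [key]; simp
  by_cases hun : ∀ p'', F.Adj p p'' → p'' = p'
  · refine ⟨φ.symm (p', q), ?_, ?_⟩
    · rw [keyx]; simp [hp']
    · intro b hb hne
      rw [keyx, SimpleGraph.boxProd_adj] at hb
      rcases hb with ⟨h1, h2⟩ | ⟨h1, h2⟩
      · exfalso
        apply hne
        have h3 := hun _ h1
        apply φ.injective
        simp only [RelIso.apply_symm_apply]
        exact Prod.ext h3 h2.symm
      · refine ⟨φ.symm (p', (φ b).2), ?_, ?_, ?_⟩
        · intro h
          have : φ x = (p', (φ b).2) := by rw [← h]; simp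
          rw [hpq] at this
          have h4 : p = p' := congrArg Prod.fst this
          exact hp'.ne h4
        · rw [key2]; simp only [SimpleGraph.boxProd_adj]; right; exact ⟨h1, trivial⟩
        · rw [key]; simp only [RelIso.apply_symm_apply, SimpleGraph.boxProd_adj]
          left
          exact ⟨by rw [← h2]; exact hp', trivial⟩
  · by_cases hun2 : ∀ q'', H.Adj q q'' → q'' = q'
    · refine ⟨φ.symm (p, q'), ?_, ?_⟩
      · rw [keyx]; simp [hq']
      · intro b hb hne
        rw [keyx, SimpleGraph.boxProd_adj] at hb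
        rcases hb with ⟨h1, h2⟩ | ⟨h1, h2⟩
        · refine ⟨φ.symm ((φ b).1, q'), ?_, ?_, ?_⟩
          · intro h
            have : φ x = ((φ b).1, q') := by rw [← h]; simp
            rw [hpq] at this
            have h4 : q = q' := congrArg Prod.snd this
            exact hq'.ne h4
          · rw [key2]; simp only [SimpleGraph.boxProd_adj]; left; exact ⟨h1, trivial⟩
          · rw [key]; simp only [RelIso.apply_symm_apply, SimpleGraph.boxProd_adj]
            right
            exact ⟨by rw [← h2]; exact hq', trivial⟩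
        · exfalso
          apply hne
          have h3 := hun2 _ h1
          apply φ.injective
          simp only [RelIso.apply_symm_apply]
          exact Prod.ext h2.symm h3
    · exfalso
      push Not at hun hun2
      obtain ⟨p'', hp'', hpn⟩ := hun
      obtain ⟨q'', hq'', hqn⟩ := hun2
      classical
      have hsub : ((({(p', q), (p'', q), (p, q'), (p, q'')} : Finset (A × B)).image φ.symm :
          Finset V) : Set V) ⊆ G.neighborSet x := by
        intro z hz
        simp only [Finset.coe_image, Set.mem_image, Finset.coe_insert, Finset.coe_singleton,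
          Set.mem_insert_iff, Set.mem_singleton_iff] at hz
        obtain ⟨w, hw, rfl⟩ := hz
        rw [SimpleGraph.mem_neighborSet, keyx]
        simp only [RelIso.apply_symm_apply, SimpleGraph.boxProd_adj]
        rcases hw with rfl | rfl | rfl | rfl
        · left; exact ⟨hp', rfl⟩
        · left; exact ⟨hp'', rfl⟩
        · right; exact ⟨hq', rfl⟩
        · right; exact ⟨hq'', rfl⟩
      have hfin : (G.neighborSet x).Finite := by
        apply Set.finite_of_ncard_ne_zero
        rw [hcub x]; norm_num
      have hle := Set.ncard_le_ncard hsub hfin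
      rw [Set.ncard_coe_finset, hcub x, Finset.card_image_of_injective _ φ.symm.injective] at hle
      have hcard : ({(p', q), (p'', q), (p, q'), (p, q'')} : Finset (A × B)).card = 4 := by
        have h1 : p ≠ p' := hp'.ne
        have h2 : p ≠ p'' := hp''.ne
        have h3 : q ≠ q' := hq'.ne
        have h4 : q ≠ q'' := hq''.ne
        rw [Finset.card_insert_of_notMem, Finset.card_insert_of_notMem,
          Finset.card_insert_of_notMem, Finset.card_singleton]
        · simp only [Finset.mem_singleton, Prod.mk.injEq, not_and]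
          intro _; exact hqn.symm
        · simp only [Finset.mem_insert, Finset.mem_singleton, Prod.mk.injEq, not_or, not_and]
          exact ⟨fun h => absurd h.symm h2, fun h => absurd h.symm h2⟩
        · simp only [Finset.mem_insert, Finset.mem_singleton, Prod.mk.injEq, not_or, not_and]
          exact ⟨fun h => absurd h.symm hpn, fun h => absurd h.symm h1, fun h => absurd h.symm h1⟩
      omega

omit [Fintype L] in
/-- Sufficient condition for primitivity of the sign graph. -/
theorem prim_of_good (hgood : ∀ x, Good f x) (hcub : IsCubic (signGraph f)) (x : V)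
    (e : Fin 3 → L) (y : Fin 3 → V) (he : Function.Injective e)
    (hy : ∀ k l, (f x l ↔ f (y k) l) ↔ l ≠ e k)
    (h3 : ∀ v, (∀ k, f v (e k) ↔ f x (e k)) → v = x)
    (hn : ∀ k : Fin 3, k ≠ 0 → ¬ ∃ c, ∀ l, (f x l ↔ f c l) ↔ (l ≠ e 0 ∧ l ≠ e k)) :
    IsPrimitive (signGraph f) := by
  rintro ⟨A, B, F, H, _, _, hA, hB, hF, hH, ⟨φ⟩⟩
  obtain ⟨a, hxa, hab⟩ := prod_square hcub A B F H hA hB hF.1 hH.1 φ x
  have hnb : ∀ z, (signGraph f).Adj x z → ∃ k, z = y k := by
    rintro z ⟨l, hl⟩
    by_cases hk : ∃ k, l = e k
    · obtain ⟨k, rfl⟩ := hk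
      refine ⟨k, ?_⟩
      apply sign_inj hgood
      intro l'
      have h1 := hl l'
      have h2 := hy k l'
      tauto
    · push Not at hk
      exfalso
      have : z = x := h3 z (fun k => ((hl (e k)).mpr (fun h => hk k h.symm)).symm)
      subst this
      exact (hl l).mp Iff.rfl rfl
  have hyne : ∀ j k, j ≠ k → y j ≠ y k := by
    intro j k hne hjk
    have h1 := hy j (e j)
    have h2 := hy k (e j)
    rw [hjk] at h1
    rw [h1] at h2
    have : e j ≠ e k := fun h => hne (he h)
    tauto
  -- a common neighbour of two neighbours realises the double flip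
  have common : ∀ j k, j ≠ k → ∀ c, c ≠ x → (signGraph f).Adj (y j) c →
      (signGraph f).Adj (y k) c → ∀ l, (f x l ↔ f c l) ↔ (l ≠ e j ∧ l ≠ e k) := by
    rintro j k hjk c hcx ⟨l0, h0⟩ ⟨l1, h1⟩
    have hejk : e j ≠ e k := fun h => hjk (he h)
    have hl0 : l0 ≠ e j := by
      rintro rfl
      apply hcx
      apply sign_inj hgood
      intro l
      have h2 := h0 l
      have h4 := hy j l
      tauto
    have hl1 : l1 ≠ e k := by
      rintro rfl
      apply hcx
      apply sign_inj hgood
      intro l
      have h2 := h1 l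
      have h4 := hy k l
      tauto
    have hl0k : l0 = e k := by
      by_contra hne
      have h2 := h0 (e k)
      have h4 := hy j (e k)
      have h5 := h1 (e k)
      have h6 := hy k (e k)
      have h7 : e k ≠ l0 := fun h => hne h.symm
      have h8 : e k ≠ e j := fun h => hejk h.symm
      have h9 : e k ≠ l1 := fun h => hl1 h.symm
      tauto
    intro l
    have h2 := h0 l
    have h4 := hy j l
    rw [hl0k] at h2
    have : ¬ (l = e j ∧ l = e k) := fun h => hejk (h.1.symm.trans h.2)
    tauto
  obtain ⟨k, rfl⟩ := hnb a hxa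
  by_cases hk : k = 0
  · subst hk
    obtain ⟨c, hc, hc1, hc2⟩ := hab (y 1) ⟨e 1, hy 1⟩ (hyne _ _ (by decide))
    exact hn 1 (by decide) ⟨c, common 0 1 (by decide) c hc hc1 hc2⟩
  · obtain ⟨c, hc, hc1, hc2⟩ := hab (y 0) ⟨e 0, hy 0⟩ (hyne _ _ (Ne.symm hk))
    exact hn k hk ⟨c, common 0 k (Ne.symm hk) c hc hc2 hc1⟩

end

end Pool.Agent.Helper371
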