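import Mathlib

set_option autoImplicit false

namespace Pool.Agent.Helper371

/-- `locMax G v` is the set `M(v)` of the vertices at which the distance from `v` is locally
maximal. -/
def locMax {V : Type} (G : SimpleGraph V) (v : V) : Set V :=
  {x | ∀ y, G.Adj x y → G.dist v y ≤ G.dist v x}

/-- S-graphs: connected bipartite graphs in which every `M(v)` has exactly one element. -/
def IsSGraph {V : Type} (G : SimpleGraph V) : Prop :=
  G.Connected ∧ G.IsBipartite ∧ ∀ v, ∃! x, x ∈ locMax G v

/-- A graph is cubic if every vertex has exactly three neighbours. -/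
def IsCubic {V : Type} (G : SimpleGraph V) : Prop :=
  ∀ v, (G.neighborSet v).ncard = 3

/-- A graph is primitive if it is not isomorphic to a Cartesian product of two finite S-graphs
with at least two vertices each. -/
def IsPrimitive {V : Type} (G : SimpleGraph V) : Prop :=
  ¬ ∃ (A B : Type) (F : SimpleGraph A) (H : SimpleGraph B),
      Finite A ∧ Finite B ∧ Nontrivial A ∧ Nontrivial B ∧ IsSGraph F ∧ IsSGraph H ∧
      Nonempty (G ≃g F.boxProd H)

/-- The set `D` of the diameters of the finite primitive cubic S-graphs. -/
def diameterSet : Set ℕ :=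
  {n | ∃ (V : Type) (G : SimpleGraph V),
    Finite V ∧ IsCubic G ∧ IsSGraph G ∧ IsPrimitive G ∧ G.diam = n}

end Pool.Agent.Helper371
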