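import Pool.Agent.Helper371.SCrit

set_option autoImplicit false

namespace Pool.Agent.Helper371

/-- sign of slab `i` with respect to the vertical line `a` -/
def VS (m a i : ℕ) : Prop := a ≤ i ∧ i < a + m

/-- membership of `s` in the arc `[1-j-k, j-k]` modulo `2m` -/
def SS (m s k j : ℕ) : Prop :=
  (s + k ≤ j ∧ 1 ≤ s + k + j) ∨ (2*m+1 ≤ s + k + j ∧ s + k ≤ 2*m + j) ∨ (4*m+1 ≤ s + k + j)

/-- next slab -/
def nx (m i : ℕ) : ℕ := if i + 1 = 2*m then 0 else i + 1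

/-- previous slab -/
def pv (m i : ℕ) : ℕ := if i = 0 then 2*m - 1 else i - 1

/-- vertical line to the right of slab `i` -/
def bR (m i : ℕ) : ℕ := if i + 1 < m then i + 1 else if i + 1 < 2*m then i + 1 - m else 0

/-- vertical line to the left of slab `i` -/
def bL (m i : ℕ) : ℕ := if i < m then i else i - m

/-- slanted line at position `j` in slab `i` -/
def cs (m p i j : ℕ) : ℕ :=
  if (i + j + p) % 2 = 0 then (if i ≤ j then j - i else j + 2*m - i)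
  else (if i + j ≤ 1 then 1 - (i + j) else if i + j ≤ 2*m + 1 then 2*m + 1 - i - j
    else 4*m + 1 - i - j)

theorem nx_spec (m i : ℕ) (hi : i < 2*m) :
    (i + 1 = 2*m ∧ nx m i = 0) ∨ (i + 1 < 2*m ∧ nx m i = i + 1) := by
  unfold nx; split_ifs <;> omega

theorem pv_spec (m i : ℕ) (hi : i < 2*m) :
    (i = 0 ∧ pv m i + 1 = 2*m) ∨ (0 < i ∧ pv m i + 1 = i) := by
  unfold pv; split_ifs <;> omega

theorem bR_spec (m i : ℕ) (hi : i < 2*m) : bR m i < m ∧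
    ((i + 1 < m ∧ bR m i = i + 1) ∨ (m ≤ i + 1 ∧ i + 1 < 2*m ∧ bR m i + m = i + 1) ∨
      (i + 1 = 2*m ∧ bR m i = 0)) := by
  unfold bR; split_ifs <;> omega

theorem bL_spec (m i : ℕ) (hi : i < 2*m) : bL m i < m ∧
    ((i < m ∧ bL m i = i) ∨ (m ≤ i ∧ bL m i + m = i)) := by
  unfold bL; split_ifs <;> omega

theorem cs_spec (m p i j : ℕ) (hm : 1 ≤ m) (hp : p ≤ 1) (hi : i < 2*m) (hj : j ≤ m) (hj1 : 1 ≤ j) :
    cs m p i j < 2*m ∧ 2 * (cs m p i j / 2) + p = cs m p i j ∧ cs m p i j / 2 < m ∧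
    (((i + j + p) % 2 = 0 ∧ (cs m p i j + i = j ∨ cs m p i j + i = j + 2*m)) ∨
     ((i + j + p) % 2 = 1 ∧ (cs m p i j + i + j = 1 ∨ cs m p i j + i + j = 2*m + 1 ∨
        cs m p i j + i + j = 4*m + 1))) := by
  unfold cs
  split_ifs <;> refine ⟨?_, ?_, ?_, ?_⟩ <;> omega

end Pool.Agent.Helper371
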