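import Pool.Agent.Helper371.SFam

set_option autoImplicit false

namespace Pool.Agent.Helper371

/-- regions of the arrangement with `2m` lines -/
abbrev V0 (m : ℕ) : Type := {q : ℕ × ℕ // q.1 < 2*m ∧ q.2 ≤ m}

/-- its lines -/
abbrev L0 (m : ℕ) : Type := Fin m ⊕ Fin m

/-- signs -/
def f0 (m : ℕ) (v : V0 m) : L0 m → Prop
  | Sum.inl a => VS m a v.1.1
  | Sum.inr b => SS m (2*b) v.1.1 v.1.2

/-- antipode -/
def a0 (m : ℕ) (v : V0 m) : V0 m :=
  ⟨(if v.1.1 < m then v.1.1 + m else v.1.1 - m, m - v.1.2), by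
    have := v.2
    split_ifs <;> constructor <;> simp only <;> omega⟩

theorem a0_sign (m : ℕ) (v : V0 m) (l : L0 m) : f0 m (a0 m v) l ↔ ¬ f0 m v l := by
  obtain ⟨⟨i, j⟩, hi, hj⟩ := v
  rcases l with a | b
  · have := a.2
    simp only [f0, a0, VS]
    simp only at hi hj
    split_ifs <;> omega
  · have := b.2
    simp only [f0, a0, SS]
    simp only at hi hj
    split_ifs <;> omega

theorem a0_invol (m : ℕ) (v : V0 m) : a0 m (a0 m v) = v := by
  obtain ⟨⟨i, j⟩, hi, hj⟩ := v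
  simp only at hi hj
  simp only [a0, Subtype.mk.injEq, Prod.mk.injEq]
  constructor
  · split_ifs <;> omega
  · omega

theorem good0_zero (m : ℕ) (hm : 3 ≤ m) (v : V0 m) (hv : v.1.2 = 0) :
    Good (f0 m) v := by
  obtain ⟨⟨i, j⟩, hi, hj⟩ := v
  simp only at hi hj hv
  subst hv
  have h1 := nx_spec m i hi
  have h2 := pv_spec m i hi
  have h3 := bR_spec m i hi
  have h4 := bL_spec m i hi
  have h5 := cs_spec m 0 i 1 (by omega) (by omega) hi (by omega) (by omega)
  generalize hnx : nx m i = i1 at *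
  generalize hpv : pv m i = i2 at *
  generalize hbR : bR m i = r at *
  generalize hbL : bL m i = l at *
  generalize hcs : cs m 0 i 1 = s at *
  refine ⟨![Sum.inl ⟨r, h3.1⟩, Sum.inl ⟨l, h4.1⟩, Sum.inr ⟨s / 2, h5.2.2.1⟩],
    ![⟨(i1, 0), by constructor <;> simp only <;> omega⟩, ⟨(i2, 0), by constructor <;> simp only <;> omega⟩,
      ⟨(i, 1), by constructor <;> simp only <;> omega⟩], ?_, ?_, ?_⟩
  · intro a b hab
    fin_cases a <;> fin_cases b <;> simp_all <;> omega
  · intro k l'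
    fin_cases k <;> rcases l' with ⟨a, ha⟩ | ⟨b, hb⟩ <;>
      simp only [f0, VS, SS, Fin.zero_eta, Fin.isValue, Matrix.cons_val_zero, Fin.mk_one, Matrix.cons_val_one,
        Fin.reduceFinMk, Matrix.cons_val, ne_eq, Sum.inl.injEq, Sum.inr.injEq, reduceCtorEq, not_false_eq_true, Fin.mk.injEq, iff_true] <;>
      omega
  · rintro ⟨⟨i', j'⟩, hi', hj'⟩ hw
    have w0 := hw 0
    have w1 := hw 1
    have w2 := hw 2
    simp only at hi' hj'
    simp only [f0, VS, SS, Fin.isValue, Matrix.cons_val_zero, Matrix.cons_val_one, Matrix.cons_val] at w0 w1 w2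
    simp only [Subtype.mk.injEq, Prod.mk.injEq]
    clear hw hnx hpv hbR hbL hcs h1 h2
    obtain ⟨_, h3⟩ := h3
    obtain ⟨_, h4⟩ := h4
    obtain ⟨_, h5a, _, h5⟩ := h5
    rw [show 2 * (s / 2) = s by omega] at w2
    rcases h3 with h3 | h3 | h3 <;> rcases h4 with h4 | h4 <;> rcases h5 with ⟨_, h5 | h5⟩ | ⟨_, h5 | h5 | h5⟩ <;> omega

theorem good0_left (m : ℕ) (hm : 3 ≤ m) (v : V0 m) (hv1 : 1 ≤ v.1.2) (hv2 : v.1.2 < m)
    (hpar : (v.1.1 + v.1.2 + 0) % 2 = 0) : Good (f0 m) v := by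
  obtain ⟨⟨i, j⟩, hi, hj⟩ := v
  simp only at hi hj hv1 hv2 hpar
  have h2 := pv_spec m i hi
  have h4 := bL_spec m i hi
  have h5 := cs_spec m 0 i j (by omega) (by omega) hi (by omega) (by omega)
  have h6 := cs_spec m 0 i (j+1) (by omega) (by omega) hi (by omega) (by omega)
  generalize hpv : pv m i = i2 at *
  generalize hbL : bL m i = l at *
  generalize hcs : cs m 0 i j = s at *
  generalize hcs2 : cs m 0 i (j+1) = t at *
  clear hpv hbL hcs hcs2
  obtain ⟨hl, h4⟩ := h4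
  obtain ⟨hs, h5a, hs2, h5⟩ := h5
  obtain ⟨ht, h6a, ht2, h6⟩ := h6
  have h5' : s + i = j ∨ s + i = j + 2*m := by omega
  have h6' : t + i + j = 0 ∨ t + i + j = 2*m ∨ t + i + j = 4*m := by omega
  clear h5 h6
  refine ⟨![Sum.inr ⟨s / 2, hs2⟩, Sum.inr ⟨t / 2, ht2⟩, Sum.inl ⟨l, hl⟩],
    ![⟨(i, j-1), by constructor <;> simp only <;> omega⟩, ⟨(i, j+1), by constructor <;> simp only <;> omega⟩,
      ⟨(i2, j), by constructor <;> simp only <;> omega⟩], ?_, ?_, ?_⟩
  · intro a b hab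
    fin_cases a <;> fin_cases b <;> simp_all <;> omega
  · intro k l'
    fin_cases k <;> rcases l' with ⟨a, ha⟩ | ⟨b, hb⟩ <;>
      simp only [f0, VS, SS, Fin.zero_eta, Fin.isValue, Matrix.cons_val_zero, Fin.mk_one, Matrix.cons_val_one,
        Fin.reduceFinMk, Matrix.cons_val, ne_eq, Sum.inl.injEq, Sum.inr.injEq, reduceCtorEq, not_false_eq_true, Fin.mk.injEq, iff_true] <;>
      omega
  · rintro ⟨⟨i', j'⟩, hi', hj'⟩ hw
    have w0 := hw 0
    have w1 := hw 1
    have w2 := hw 2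
    simp only at hi' hj'
    simp only [f0, VS, SS, Fin.isValue, Matrix.cons_val_zero, Matrix.cons_val_one, Matrix.cons_val] at w0 w1 w2
    simp only [Subtype.mk.injEq, Prod.mk.injEq]
    clear hw h2
    rw [show 2 * (s / 2) = s by omega] at w0
    rw [show 2 * (t / 2) = t by omega] at w1
    rcases h4 with h4 | h4 <;> rcases h5' with h5 | h5 <;> rcases h6' with h6 | h6 | h6 <;> omega

theorem good0_right (m : ℕ) (hm : 3 ≤ m) (v : V0 m) (hv1 : 1 ≤ v.1.2) (hv2 : v.1.2 < m)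
    (hpar : (v.1.1 + v.1.2 + 0) % 2 = 1) : Good (f0 m) v := by
  obtain ⟨⟨i, j⟩, hi, hj⟩ := v
  simp only at hi hj hv1 hv2 hpar
  have h2 := nx_spec m i hi
  have h4 := bR_spec m i hi
  have h5 := cs_spec m 0 i j (by omega) (by omega) hi (by omega) (by omega)
  have h6 := cs_spec m 0 i (j+1) (by omega) (by omega) hi (by omega) (by omega)
  generalize hpv : nx m i = i2 at *
  generalize hbL : bR m i = l at *
  generalize hcs : cs m 0 i j = s at *
  generalize hcs2 : cs m 0 i (j+1) = t at *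
  clear hpv hbL hcs hcs2
  obtain ⟨hl, h4⟩ := h4
  obtain ⟨hs, h5a, hs2, h5⟩ := h5
  obtain ⟨ht, h6a, ht2, h6⟩ := h6
  have h5' : s + i + j = 1 ∨ s + i + j = 2*m + 1 ∨ s + i + j = 4*m + 1 := by omega
  have h6' : t + i = j + 1 ∨ t + i = j + 1 + 2*m := by omega
  clear h5 h6
  refine ⟨![Sum.inr ⟨s / 2, hs2⟩, Sum.inr ⟨t / 2, ht2⟩, Sum.inl ⟨l, hl⟩],
    ![⟨(i, j-1), by constructor <;> simp only <;> omega⟩, ⟨(i, j+1), by constructor <;> simp only <;> omega⟩,
      ⟨(i2, j), by constructor <;> simp only <;> omega⟩], ?_, ?_, ?_⟩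
  · intro a b hab
    fin_cases a <;> fin_cases b <;> simp_all <;> omega
  · intro k l'
    fin_cases k <;> rcases l' with ⟨a, ha⟩ | ⟨b, hb⟩ <;>
      simp only [f0, VS, SS, Fin.zero_eta, Fin.isValue, Matrix.cons_val_zero, Fin.mk_one, Matrix.cons_val_one,
        Fin.reduceFinMk, Matrix.cons_val, ne_eq, Sum.inl.injEq, Sum.inr.injEq, reduceCtorEq, not_false_eq_true, Fin.mk.injEq, iff_true] <;>
      omega
  · rintro ⟨⟨i', j'⟩, hi', hj'⟩ hw
    have w0 := hw 0
    have w1 := hw 1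
    have w2 := hw 2
    simp only at hi' hj'
    simp only [f0, VS, SS, Fin.isValue, Matrix.cons_val_zero, Matrix.cons_val_one, Matrix.cons_val] at w0 w1 w2
    simp only [Subtype.mk.injEq, Prod.mk.injEq]
    clear hw h2
    rw [show 2 * (s / 2) = s by omega] at w0
    rw [show 2 * (t / 2) = t by omega] at w1
    rcases h4 with h4 | h4 | h4 <;> rcases h5' with h5 | h5 | h5 <;> rcases h6' with h6 | h6 <;> omega

theorem good0 (m : ℕ) (hm : 3 ≤ m) (v : V0 m) : Good (f0 m) v := by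
  have hlt : ∀ v : V0 m, v.1.2 < m → Good (f0 m) v := by
    intro v hv
    by_cases h0 : v.1.2 = 0
    · exact good0_zero m hm v h0
    · by_cases hp : (v.1.1 + v.1.2 + 0) % 2 = 0
      · exact good0_left m hm v (by omega) hv hp
      · exact good0_right m hm v (by omega) hv (by omega)
  by_cases h : v.1.2 < m
  · exact hlt v h
  · apply Good.of_antipode (a0 m) (a0_sign m) (a0_invol m)
    apply hlt
    have := v.2
    simp only [a0]
    omega

instance (m : ℕ) [NeZero m] : Nonempty (V0 m) :=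
  ⟨⟨(0, 0), by
    have := NeZero.pos m
    constructor <;> simp only <;> omega⟩⟩

theorem prim0 (m : ℕ) (hm : 3 ≤ m) : IsPrimitive (signGraph (f0 m)) := by
  have : NeZero m := ⟨by omega⟩
  have hcub := (crit (V := V0 m) (hgood := good0 m hm) (a := a0 m) (a0_sign m)).2.1
  refine prim_of_good (good0 m hm) hcub ⟨(1, 0), by constructor <;> simp only <;> omega⟩
    ![Sum.inl ⟨2, by omega⟩, Sum.inl ⟨1, by omega⟩, Sum.inr ⟨0, by omega⟩]
    ![⟨(2, 0), by constructor <;> simp only <;> omega⟩, ⟨(0, 0), by constructor <;> simp only <;> omega⟩,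
      ⟨(1, 1), by constructor <;> simp only <;> omega⟩] ?_ ?_ ?_ ?_
  · intro a b hab
    fin_cases a <;> fin_cases b <;> simp_all
  · intro k l'
    fin_cases k <;> rcases l' with ⟨a, ha⟩ | ⟨b, hb⟩ <;>
      simp only [f0, VS, SS, Fin.zero_eta, Fin.isValue, Matrix.cons_val_zero, Fin.mk_one, Matrix.cons_val_one,
        Fin.reduceFinMk, Matrix.cons_val, ne_eq, Sum.inl.injEq, Sum.inr.injEq, reduceCtorEq, not_false_eq_true, Fin.mk.injEq, iff_true] <;>
      omega
  · rintro ⟨⟨i', j'⟩, hi', hj'⟩ hw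
    have w0 := hw 0
    have w1 := hw 1
    have w2 := hw 2
    simp only at hi' hj'
    simp only [f0, VS, SS, Fin.isValue, Matrix.cons_val_zero, Matrix.cons_val_one, Matrix.cons_val] at w0 w1 w2
    simp only [Subtype.mk.injEq, Prod.mk.injEq]
    omega
  · intro k hk
    rintro ⟨⟨⟨i', j'⟩, hi', hj'⟩, hc⟩
    simp only at hi' hj'
    have w0 := hc (Sum.inl ⟨0, by omega⟩)
    have w1 := hc (Sum.inl ⟨1, by omega⟩)
    have w2 := hc (Sum.inl ⟨2, by omega⟩)
    have w3 := hc (Sum.inr ⟨0, by omega⟩)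
    have w4 := hc (Sum.inr ⟨m-1, by omega⟩)
    fin_cases k
    · exact absurd rfl hk
    · simp [f0, VS] at w0 w1 w2
      omega
    · simp [f0, VS, SS] at w1 w2 w3 w4
      omega

/-- every even number `2m`, `m ≥ 3`, is the diameter of a primitive cubic S-graph -/
theorem mem_even (m : ℕ) (hm : 3 ≤ m) : 2 * m ∈ diameterSet := by
  have : NeZero m := ⟨by omega⟩
  obtain ⟨h1, h2, h3, h4⟩ := crit (V := V0 m) (hgood := good0 m hm) (a := a0 m) (a0_sign m)
  refine ⟨V0 m, signGraph (f0 m), h1, h2, h3, prim0 m hm, ?_⟩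
  rw [h4]
  simp
  omega

end Pool.Agent.Helper371
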