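import Pool.Agent.Helper371.SFam

set_option autoImplicit false
set_option linter.unusedSimpArgs false
set_option linter.unreachableTactic false
set_option linter.unusedTactic false
set_option linter.unusedVariables false

namespace Pool.Agent.Helper371

/-- regions of the arrangement with `4h+1` lines; `m = 2h` -/
abbrev V1 (h m : ℕ) : Type :=
  {q : ℕ × ℕ × ℕ // q.1 < 2*m ∧ q.2.1 ≤ m ∧ ((q.2.2 = 0 ∧ q.2.1 ≤ h) ∨ (q.2.2 = 1 ∧ h ≤ q.2.1))}

/-- constructor -/
def mk1 (h m i j w : ℕ) (hp : i < 2*m ∧ j ≤ m ∧ ((w = 0 ∧ j ≤ h) ∨ (w = 1 ∧ h ≤ j))) : V1 h m :=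
  ⟨(i, j, w), hp⟩

/-- its lines -/
abbrev L1 (m : ℕ) : Type := (Fin m ⊕ Fin m) ⊕ Unit

/-- signs -/
def f1 (h m : ℕ) (v : V1 h m) : L1 m → Prop
  | Sum.inl (Sum.inl a) => VS m a v.1.1
  | Sum.inl (Sum.inr b) => SS m (2*b) v.1.1 v.1.2.1
  | Sum.inr _ => v.1.2.2 = 1

/-- antipode -/
def a1 (h m : ℕ) (hm : m = 2*h) (v : V1 h m) : V1 h m :=
  ⟨(if v.1.1 < m then v.1.1 + m else v.1.1 - m, m - v.1.2.1, 1 - v.1.2.2), by
    have := v.2
    refine ⟨?_, ?_, ?_⟩
    · simp only; split_ifs <;> omega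
    · simp only; omega
    · simp only; omega⟩

theorem a1_sign (h m : ℕ) (hm : m = 2*h) (v : V1 h m) (l : L1 m) :
    f1 h m (a1 h m hm v) l ↔ ¬ f1 h m v l := by
  obtain ⟨⟨i, j, w⟩, hi, hj, hw⟩ := v
  rcases l with (a | b) | u
  · have := a.2
    simp only [f1, a1, VS]
    simp only at hi hj hw
    split_ifs <;> omega
  · have := b.2
    simp only [f1, a1, SS]
    simp only at hi hj hw
    split_ifs <;> omega
  · simp only [f1, a1]
    simp only at hi hj hw
    omega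

theorem a1_invol (h m : ℕ) (hm : m = 2*h) (v : V1 h m) : a1 h m hm (a1 h m hm v) = v := by
  obtain ⟨⟨i, j, w⟩, hi, hj, hw⟩ := v
  simp only at hi hj hw
  simp only [a1, Subtype.mk.injEq, Prod.mk.injEq]
  refine ⟨?_, ?_, ?_⟩
  · split_ifs <;> omega
  · omega
  · omega

theorem good1_zero (h m : ℕ) (hh : 2 ≤ h) (hm : m = 2*h) (v : V1 h m) (hv : v.1.2.1 = 0) :
    Good (f1 h m) v := by
  obtain ⟨⟨i, j, w⟩, hi, hj, hw⟩ := v
  simp only at hi hj hw hv
  subst hv
  have hw0 : w = 0 := by omega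
  subst hw0
  have h1 := nx_spec m i hi
  have h2 := pv_spec m i hi
  have h3 := bR_spec m i hi
  have h4 := bL_spec m i hi
  have h5 := cs_spec m 0 i 1 (by omega) (by omega) hi (by omega) (by omega)
  generalize hnx : nx m i = i1 at *
  generalize hpv : pv m i = i2 at *
  generalize hbR : bR m i = r at *
  generalize hbL : bL m i = l at *
  generalize hcs : cs m 0 i 1 = s at *
  refine ⟨![Sum.inl (Sum.inl ⟨r, h3.1⟩), Sum.inl (Sum.inl ⟨l, h4.1⟩), Sum.inl (Sum.inr ⟨s / 2, h5.2.2.1⟩)],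
    ![mk1 h m (i1) (0) (0) (by omega), mk1 h m (i2) (0) (0) (by omega),
      mk1 h m (i) (1) (0) (by omega)], ?_, ?_, ?_⟩
  · intro a b hab
    fin_cases a <;> fin_cases b <;> simp_all <;> omega
  · intro k l'
    fin_cases k <;> rcases l' with (⟨a, ha⟩ | ⟨b, hb⟩) | u <;>
      simp only [mk1, f1, VS, SS, Fin.zero_eta, Fin.isValue, Matrix.cons_val_zero, Fin.mk_one, Matrix.cons_val_one,
        Fin.reduceFinMk, Matrix.cons_val, ne_eq, Sum.inl.injEq, Sum.inr.injEq, reduceCtorEq, not_false_eq_true, Fin.mk.injEq, iff_true] <;>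
      first | omega | simp
  · rintro ⟨⟨i', j', w'⟩, hi', hj', hw'⟩ hw
    have w0 := hw 0
    have w1 := hw 1
    have w2 := hw 2
    simp only at hi' hj' hw'
    simp only [mk1, f1, VS, SS, Fin.isValue, Matrix.cons_val_zero, Matrix.cons_val_one, Matrix.cons_val] at w0 w1 w2
    simp only [mk1, Subtype.mk.injEq, Prod.mk.injEq]
    clear hw hnx hpv hbR hbL hcs h1 h2
    obtain ⟨_, h3⟩ := h3
    obtain ⟨_, h4⟩ := h4
    obtain ⟨_, h5a, _, h5⟩ := h5
    rw [show 2 * (s / 2) = s by omega] at w2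
    rcases h3 with h3 | h3 | h3 <;> rcases h4 with h4 | h4 <;> rcases h5 with ⟨_, h5 | h5⟩ | ⟨_, h5 | h5 | h5⟩ <;> omega

theorem good1_BL (h m : ℕ) (hh : 2 ≤ h) (hm : m = 2*h) (v : V1 h m) (hv1 : 1 ≤ v.1.2.1) (hv2 : v.1.2.1 < h)
    (hpar : (v.1.1 + v.1.2.1 + 0) % 2 = 0) : Good (f1 h m) v := by
  obtain ⟨⟨i, j, w⟩, hi, hj, hw⟩ := v
  simp only at hi hj hw hv1 hv2 hpar
  have hw0 : w = 0 := by omega
  subst hw0
  have h2 := pv_spec m i hi
  have h4 := bL_spec m i hi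
  have h5 := cs_spec m 0 i j (by omega) (by omega) hi (by omega) (by omega)
  have h6 := cs_spec m 0 i (j+1) (by omega) (by omega) hi (by omega) (by omega)
  generalize hpv : pv m i = i2 at *
  generalize hbL : bL m i = l at *
  generalize hcs : cs m 0 i j = s at *
  generalize hcs2 : cs m 0 i (j+1) = t at *
  clear hpv hbL hcs hcs2
  obtain ⟨hl, h4⟩ := h4
  obtain ⟨hs, h5a, hs2, h5⟩ := h5
  obtain ⟨ht, h6a, ht2, h6⟩ := h6
  have h5' : s + i = j ∨ s + i = j + 2*m := by omega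
  have h6' : t + i + j = 0 ∨ t + i + j = 2*m ∨ t + i + j = 4*m := by omega
  clear h5 h6
  refine ⟨![Sum.inl (Sum.inr ⟨s / 2, hs2⟩), Sum.inl (Sum.inr ⟨t / 2, ht2⟩), Sum.inl (Sum.inl ⟨l, hl⟩)],
    ![mk1 h m (i) (j-1) (0) (by omega), mk1 h m (i) (j+1) (0) (by omega),
      mk1 h m (i2) (j) (0) (by omega)], ?_, ?_, ?_⟩
  · intro a b hab
    fin_cases a <;> fin_cases b <;> simp_all <;> omega
  · intro k l'
    fin_cases k <;> rcases l' with (⟨a, ha⟩ | ⟨b, hb⟩) | u <;>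
      simp only [mk1, f1, VS, SS, Fin.zero_eta, Fin.isValue, Matrix.cons_val_zero, Fin.mk_one, Matrix.cons_val_one,
        Fin.reduceFinMk, Matrix.cons_val, ne_eq, Sum.inl.injEq, Sum.inr.injEq, reduceCtorEq, not_false_eq_true, Fin.mk.injEq, iff_true] <;>
      first | omega | simp
  · rintro ⟨⟨i', j', w'⟩, hi', hj', hw'⟩ hw
    have w0 := hw 0
    have w1 := hw 1
    have w2 := hw 2
    simp only at hi' hj' hw'
    simp only [mk1, f1, VS, SS, Fin.isValue, Matrix.cons_val_zero, Matrix.cons_val_one, Matrix.cons_val] at w0 w1 w2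
    simp only [mk1, Subtype.mk.injEq, Prod.mk.injEq]
    clear hw h2
    rw [show 2 * (s / 2) = s by omega] at w0
    rw [show 2 * (t / 2) = t by omega] at w1
    rcases h4 with h4 | h4 <;> rcases h5' with h5 | h5 <;> rcases h6' with h6 | h6 | h6 <;> omega

theorem good1_CL (h m : ℕ) (hh : 2 ≤ h) (hm : m = 2*h) (v : V1 h m) (hv1 : v.1.2.1 = h) (hv2 : v.1.2.2 = 0)
    (hpar : (v.1.1 + v.1.2.1 + 0) % 2 = 0) : Good (f1 h m) v := by
  obtain ⟨⟨i, j, w⟩, hi, hj, hw⟩ := v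
  simp only at hi hj hw hv1 hv2 hpar
  subst hv2
  have h2 := pv_spec m i hi
  have h4 := bL_spec m i hi
  have h5 := cs_spec m 0 i j (by omega) (by omega) hi (by omega) (by omega)
  generalize hpv : pv m i = i2 at *
  generalize hbL : bL m i = l at *
  generalize hcs : cs m 0 i j = s at *
  clear hpv hbL hcs
  obtain ⟨hl, h4⟩ := h4
  obtain ⟨hs, h5a, hs2, h5⟩ := h5
  have h5' : s + i = j ∨ s + i = j + 2*m := by omega
  clear h5
  refine ⟨![Sum.inl (Sum.inr ⟨s / 2, hs2⟩), Sum.inr (), Sum.inl (Sum.inl ⟨l, hl⟩)],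
    ![mk1 h m (i) (j-1) (0) (by omega), mk1 h m (i) (j) (1) (by omega),
      mk1 h m (i2) (j) (0) (by omega)], ?_, ?_, ?_⟩
  · intro a b hab
    fin_cases a <;> fin_cases b <;> simp_all
  · intro k l'
    fin_cases k <;> rcases l' with (⟨a, ha⟩ | ⟨b, hb⟩) | u <;>
      simp only [mk1, f1, VS, SS, Fin.zero_eta, Fin.isValue, Matrix.cons_val_zero, Fin.mk_one, Matrix.cons_val_one,
        Fin.reduceFinMk, Matrix.cons_val, ne_eq, Sum.inl.injEq, Sum.inr.injEq, reduceCtorEq, not_false_eq_true, Fin.mk.injEq, iff_true] <;>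
      first | omega | simp
  · rintro ⟨⟨i', j', w'⟩, hi', hj', hw'⟩ hw
    have w0 := hw 0
    have w1 := hw 1
    have w2 := hw 2
    simp only at hi' hj' hw'
    simp only [mk1, f1, VS, SS, Fin.isValue, Matrix.cons_val_zero, Matrix.cons_val_one, Matrix.cons_val] at w0 w1 w2
    simp only [mk1, Subtype.mk.injEq, Prod.mk.injEq]
    clear hw h2
    rw [show 2 * (s / 2) = s by omega] at w0
    rcases h4 with h4 | h4 <;> rcases h5' with h5 | h5 <;> omega

theorem good1_BR (h m : ℕ) (hh : 2 ≤ h) (hm : m = 2*h) (v : V1 h m) (hv1 : 1 ≤ v.1.2.1) (hv2 : v.1.2.1 < h)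
    (hpar : (v.1.1 + v.1.2.1 + 0) % 2 = 1) : Good (f1 h m) v := by
  obtain ⟨⟨i, j, w⟩, hi, hj, hw⟩ := v
  simp only at hi hj hw hv1 hv2 hpar
  have hw0 : w = 0 := by omega
  subst hw0
  have h2 := nx_spec m i hi
  have h4 := bR_spec m i hi
  have h5 := cs_spec m 0 i j (by omega) (by omega) hi (by omega) (by omega)
  have h6 := cs_spec m 0 i (j+1) (by omega) (by omega) hi (by omega) (by omega)
  generalize hpv : nx m i = i2 at *
  generalize hbL : bR m i = l at *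
  generalize hcs : cs m 0 i j = s at *
  generalize hcs2 : cs m 0 i (j+1) = t at *
  clear hpv hbL hcs hcs2
  obtain ⟨hl, h4⟩ := h4
  obtain ⟨hs, h5a, hs2, h5⟩ := h5
  obtain ⟨ht, h6a, ht2, h6⟩ := h6
  have h5' : s + i + j = 1 ∨ s + i + j = 2*m + 1 ∨ s + i + j = 4*m + 1 := by omega
  have h6' : t + i = j + 1 ∨ t + i = j + 1 + 2*m := by omega
  clear h5 h6
  refine ⟨![Sum.inl (Sum.inr ⟨s / 2, hs2⟩), Sum.inl (Sum.inr ⟨t / 2, ht2⟩), Sum.inl (Sum.inl ⟨l, hl⟩)],
    ![mk1 h m (i) (j-1) (0) (by omega), mk1 h m (i) (j+1) (0) (by omega),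
      mk1 h m (i2) (j) (0) (by omega)], ?_, ?_, ?_⟩
  · intro a b hab
    fin_cases a <;> fin_cases b <;> simp_all <;> omega
  · intro k l'
    fin_cases k <;> rcases l' with (⟨a, ha⟩ | ⟨b, hb⟩) | u <;>
      simp only [mk1, f1, VS, SS, Fin.zero_eta, Fin.isValue, Matrix.cons_val_zero, Fin.mk_one, Matrix.cons_val_one,
        Fin.reduceFinMk, Matrix.cons_val, ne_eq, Sum.inl.injEq, Sum.inr.injEq, reduceCtorEq, not_false_eq_true, Fin.mk.injEq, iff_true] <;>
      first | omega | simp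
  · rintro ⟨⟨i', j', w'⟩, hi', hj', hw'⟩ hw
    have w0 := hw 0
    have w1 := hw 1
    have w2 := hw 2
    simp only at hi' hj' hw'
    simp only [mk1, f1, VS, SS, Fin.isValue, Matrix.cons_val_zero, Matrix.cons_val_one, Matrix.cons_val] at w0 w1 w2
    simp only [mk1, Subtype.mk.injEq, Prod.mk.injEq]
    clear hw h2
    rw [show 2 * (s / 2) = s by omega] at w0
    rw [show 2 * (t / 2) = t by omega] at w1
    rcases h4 with h4 | h4 | h4 <;> rcases h5' with h5 | h5 | h5 <;> rcases h6' with h6 | h6 <;> omega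

theorem good1_CR (h m : ℕ) (hh : 2 ≤ h) (hm : m = 2*h) (v : V1 h m) (hv1 : v.1.2.1 = h) (hv2 : v.1.2.2 = 0)
    (hpar : (v.1.1 + v.1.2.1 + 0) % 2 = 1) : Good (f1 h m) v := by
  obtain ⟨⟨i, j, w⟩, hi, hj, hw⟩ := v
  simp only at hi hj hw hv1 hv2 hpar
  subst hv2
  have h2 := nx_spec m i hi
  have h4 := bR_spec m i hi
  have h5 := cs_spec m 0 i j (by omega) (by omega) hi (by omega) (by omega)
  generalize hpv : nx m i = i2 at *
  generalize hbL : bR m i = l at *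
  generalize hcs : cs m 0 i j = s at *
  clear hpv hbL hcs
  obtain ⟨hl, h4⟩ := h4
  obtain ⟨hs, h5a, hs2, h5⟩ := h5
  have h5' : s + i + j = 1 ∨ s + i + j = 2*m + 1 ∨ s + i + j = 4*m + 1 := by omega
  clear h5
  refine ⟨![Sum.inl (Sum.inr ⟨s / 2, hs2⟩), Sum.inr (), Sum.inl (Sum.inl ⟨l, hl⟩)],
    ![mk1 h m (i) (j-1) (0) (by omega), mk1 h m (i) (j) (1) (by omega),
      mk1 h m (i2) (j) (0) (by omega)], ?_, ?_, ?_⟩
  · intro a b hab
    fin_cases a <;> fin_cases b <;> simp_all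
  · intro k l'
    fin_cases k <;> rcases l' with (⟨a, ha⟩ | ⟨b, hb⟩) | u <;>
      simp only [mk1, f1, VS, SS, Fin.zero_eta, Fin.isValue, Matrix.cons_val_zero, Fin.mk_one, Matrix.cons_val_one,
        Fin.reduceFinMk, Matrix.cons_val, ne_eq, Sum.inl.injEq, Sum.inr.injEq, reduceCtorEq, not_false_eq_true, Fin.mk.injEq, iff_true] <;>
      first | omega | simp
  · rintro ⟨⟨i', j', w'⟩, hi', hj', hw'⟩ hw
    have w0 := hw 0
    have w1 := hw 1
    have w2 := hw 2
    simp only at hi' hj' hw'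
    simp only [mk1, f1, VS, SS, Fin.isValue, Matrix.cons_val_zero, Matrix.cons_val_one, Matrix.cons_val] at w0 w1 w2
    simp only [mk1, Subtype.mk.injEq, Prod.mk.injEq]
    clear hw h2
    rw [show 2 * (s / 2) = s by omega] at w0
    rcases h4 with h4 | h4 | h4 <;> rcases h5' with h5 | h5 | h5 <;> omega

theorem good1 (h m : ℕ) (hh : 2 ≤ h) (hm : m = 2*h) (v : V1 h m) : Good (f1 h m) v := by
  have hlt : ∀ v : V1 h m, v.1.2.2 = 0 → Good (f1 h m) v := by
    intro v hv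
    have hv2 := v.2
    by_cases h0 : v.1.2.1 = 0
    · exact good1_zero h m hh hm v h0
    · by_cases h1 : v.1.2.1 = h
      · by_cases hp : (v.1.1 + v.1.2.1 + 0) % 2 = 0
        · exact good1_CL h m hh hm v h1 hv hp
        · exact good1_CR h m hh hm v h1 hv (by omega)
      · by_cases hp : (v.1.1 + v.1.2.1 + 0) % 2 = 0
        · exact good1_BL h m hh hm v (by omega) (by omega) hp
        · exact good1_BR h m hh hm v (by omega) (by omega) (by omega)
  have hv2 := v.2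
  by_cases h0 : v.1.2.2 = 0
  · exact hlt v h0
  · apply Good.of_antipode (a1 h m hm) (a1_sign h m hm) (a1_invol h m hm)
    apply hlt
    simp only [a1]
    omega

instance (h m : ℕ) [NeZero m] : Nonempty (V1 h m) :=
  ⟨mk1 h m 0 0 0 (by
    have := NeZero.pos m
    omega)⟩

theorem prim1 (h m : ℕ) (hh : 2 ≤ h) (hm : m = 2*h) : IsPrimitive (signGraph (f1 h m)) := by
  have : NeZero m := ⟨by omega⟩
  have hcub := (crit (V := V1 h m) (hgood := good1 h m hh hm) (a := a1 h m hm) (a1_sign h m hm)).2.1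
  refine prim_of_good (good1 h m hh hm) hcub (mk1 h m (1) (0) (0) (by omega))
    ![Sum.inl (Sum.inl ⟨2, by omega⟩), Sum.inl (Sum.inl ⟨1, by omega⟩), Sum.inl (Sum.inr ⟨0, by omega⟩)]
    ![mk1 h m (2) (0) (0) (by omega), mk1 h m (0) (0) (0) (by omega),
      mk1 h m (1) (1) (0) (by omega)] ?_ ?_ ?_ ?_
  · intro a b hab
    fin_cases a <;> fin_cases b <;> simp_all
  · intro k l'
    fin_cases k <;> rcases l' with (⟨a, ha⟩ | ⟨b, hb⟩) | u <;>
      simp only [mk1, f1, VS, SS, Fin.zero_eta, Fin.isValue, Matrix.cons_val_zero, Fin.mk_one, Matrix.cons_val_one,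
        Fin.reduceFinMk, Matrix.cons_val, ne_eq, Sum.inl.injEq, Sum.inr.injEq, reduceCtorEq, not_false_eq_true, Fin.mk.injEq, iff_true] <;>
      first | omega | simp
  · rintro ⟨⟨i', j', w'⟩, hi', hj', hw'⟩ hw
    have w0 := hw 0
    have w1 := hw 1
    have w2 := hw 2
    simp only at hi' hj' hw'
    simp only [mk1, f1, VS, SS, Fin.isValue, Matrix.cons_val_zero, Matrix.cons_val_one, Matrix.cons_val] at w0 w1 w2
    simp only [mk1, Subtype.mk.injEq, Prod.mk.injEq]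
    omega
  · intro k hk
    rintro ⟨⟨⟨i', j', w'⟩, hi', hj', hw'⟩, hc⟩
    simp only at hi' hj' hw'
    have w0 := hc (Sum.inl (Sum.inl ⟨0, by omega⟩))
    have w1 := hc (Sum.inl (Sum.inl ⟨1, by omega⟩))
    have w2 := hc (Sum.inl (Sum.inl ⟨2, by omega⟩))
    have w3 := hc (Sum.inl (Sum.inr ⟨0, by omega⟩))
    have w4 := hc (Sum.inl (Sum.inr ⟨m-1, by omega⟩))
    fin_cases k
    · exact absurd rfl hk
    · simp [f1, mk1, VS] at w0 w1 w2
      omega
    · simp [f1, mk1, VS, SS] at w1 w2 w3 w4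
      omega

/-- every number `4h+1`, `h ≥ 2`, is the diameter of a primitive cubic S-graph -/
theorem mem_one_mod_four (h : ℕ) (hh : 2 ≤ h) : 4 * h + 1 ∈ diameterSet := by
  have : NeZero (2*h) := ⟨by omega⟩
  obtain ⟨h1, h2, h3, h4⟩ := crit (V := V1 h (2*h)) (hgood := good1 h (2*h) hh rfl)
    (a := a1 h (2*h) rfl) (a1_sign h (2*h) rfl)
  refine ⟨V1 h (2*h), signGraph (f1 h (2*h)), h1, h2, h3, prim1 h (2*h) hh rfl, ?_⟩
  rw [h4]
  simp
  omega

end Pool.Agent.Helper371
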