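import Pool.Agent.Helper371.SFam3Val

set_option autoImplicit false
set_option linter.unusedSimpArgs false
set_option linter.unreachableTactic false
set_option linter.unusedTactic false
set_option linter.unusedVariables false

namespace Pool.Agent.Helper371

theorem uniq_DLa {h m i j i' k' j' w' s l : ℕ} (hh : 2 ≤ h) (hm : m = 2*h) (hi : i < 2*m)
    (hj1 : j + 1 = h)
    (hb1 : m + 1 < i)
    (hb2 : i + 2 < 2*m)
    (hpar : i % 2 = 1)
    (s' : s + i + (j+1) = 1 ∨ s + i + (j+1) = 2*m + 1 ∨ s + i + (j+1) = 4*m + 1) (hs1 : s < 2*m)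
    (vl : (i < m ∧ l = i) ∨ (m ≤ i ∧ l + m = i))
    (hi' : i' < 2*m) (hk' : k' < 2*m) (hj' : j' ≤ m)
    (hv' : (k' = i' ∧ ((w' = 0 ∧ j' + 1 ≤ h) ∨ (w' = 0 ∧ j' = h ∧ spec m i') ∨ (w' = 1 ∧ j' = h) ∨
      (w' = 1 ∧ j' + 1 = h ∧ ¬ spec m i') ∨ (w' = 2 ∧ j' = h) ∨ (w' = 2 ∧ j' = h+1 ∧ ¬ spec m i') ∨
      (w' = 3 ∧ h + 1 ≤ j') ∨ (w' = 3 ∧ j' = h ∧ spec m i')))
  ∨ ((w' = 1 ∨ w' = 2) ∧ j' = h ∧ ((i' + 2 = m ∧ k' + 1 = m) ∨ (i' + 2 = 2*m ∧ k' + 1 = 2*m) ∨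
      (i' = 1 ∧ k' = 0) ∨ (i' = m+1 ∧ k' = m))))
    (w0 : ES m 1 i' w' ↔ ES m 1 i 1)
    (w1 : SS m s k' j' ↔ SS m s i j)
    (w2 : VS m l i' ↔ VS m l i)
    : i' = i ∧ k' = i ∧ j' = j ∧ w' = 1 := by
  have hE0 := esUa1 (i := i) (by omega) w0
  clear w0
  obtain ⟨d, hd, hdi⟩ := sideL hi hi' vl w2
  clear w2 vl
  rcases hv' with ⟨hv0, hv'⟩ | ⟨hv0, hv1, hv'⟩
  · rw [hv0] at w1
    obtain ⟨g1, hg1, hgw1⟩ := posUR (d := d) (by omega) (by omega) s' hs1 (by omega) hi' (by omega) hdi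
    have q1 := posGt (hgw1 _ hj') w1 (posSelfU (J := j) (by omega) (by omega) s' hs1 (by omega) (by omega)) (by omega)
    clear hgw1
    clear s' hs1 w1
    unfold spec at *
    rcases hdi with hdi | hdi <;> rcases hg1 with hg1 | hg1 <;> rcases hE0 with hE0 | hE0 <;> rcases hv' with hv' | hv' | hv' | hv' | hv' | hv' | hv' | hv' <;> omega
  · have hcase := extra_case hv'
    clear hv'
    rcases hcase with ⟨hk1, hi1⟩ | ⟨hk1, hi1⟩
    · obtain ⟨g1, hg1, hgw1⟩ := posUR (d := d+1) (by omega) (by omega) s' hs1 (by omega) hk' (by omega) (by omega)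
      have q1 := posGt (hgw1 _ hj') w1 (posSelfU (J := j) (by omega) (by omega) s' hs1 (by omega) (by omega)) (by omega)
      clear hgw1
      clear s' hs1 w1
      unfold spec at *
      rcases hdi with hdi | hdi <;> rcases hg1 with hg1 | hg1 <;> rcases hE0 with hE0 | hE0 <;> rcases hi1 with hi1 | hi1 <;> rcases hv0 with hv0 | hv0 <;> omega
    · rcases Nat.eq_zero_or_pos d with hd0 | hd0
      · subst hd0
        obtain ⟨g1, hg1, hgw1⟩ := posUL (d := 1) (by omega) (by omega) s' hs1 (by omega) hk' (by omega) (by omega)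
        have q1 := posGt (hgw1 _ hj') w1 (posSelfU (J := j) (by omega) (by omega) s' hs1 (by omega) (by omega)) (by omega)
        clear hgw1
        clear s' hs1 w1
        unfold spec at *
        rcases hdi with hdi | hdi <;> rcases hg1 with hg1 | hg1 <;> rcases hE0 with hE0 | hE0 <;> rcases hi1 with hi1 | hi1 <;> rcases hv0 with hv0 | hv0 <;> omega
      · obtain ⟨e, rfl⟩ : ∃ e, d = e + 1 := ⟨d - 1, by omega⟩
        obtain ⟨g1, hg1, hgw1⟩ := posUR (d := e) (by omega) (by omega) s' hs1 (by omega) hk' (by omega) (by omega)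
        have q1 := posGt (hgw1 _ hj') w1 (posSelfU (J := j) (by omega) (by omega) s' hs1 (by omega) (by omega)) (by omega)
        clear hgw1
        clear s' hs1 w1
        unfold spec at *
        rcases hdi with hdi | hdi <;> rcases hg1 with hg1 | hg1 <;> rcases hE0 with hE0 | hE0 <;> rcases hi1 with hi1 | hi1 <;> rcases hv0 with hv0 | hv0 <;> omega

theorem good3_DLa (h m p : ℕ) (hh : 2 ≤ h) (hm : m = 2*h) (hp : p ≤ 1) (hph : (p + h) % 2 = 0)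
    (i j : ℕ) (hi : i < 2*m) (hj1 : j + 1 = h) (hb1 : m + 1 < i) (hb2 : i + 2 < 2*m) (hpar : i % 2 = 1)
    (hv : Valid h m i i j 1) :
    Good (f3 h m p) (mk3 h m i i j 1 hv) := by
  have hjm2 : j + 1 ≤ h := by omega
  have hs : ¬ spec m i := by unfold spec; omega
  obtain ⟨s, hs1, hs2, hs3, s'⟩ : ∃ s, s < 2*m ∧ 2*(s/2) + p = s ∧ s/2 < m ∧ (s + i + (j+1) = 1 ∨ s + i + (j+1) = 2*m + 1 ∨ s + i + (j+1) = 4*m + 1) := by
    obtain ⟨c1, c2, c3, c4⟩ := cs_spec m p i ((j+1)) (by omega) hp (by omega) (by omega) (by omega)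
    refine ⟨_, c1, c2, c3, ?_⟩
    generalize cs m p i ((j+1)) = s0 at *
    clear c1 c2 c3
    omega
  have hnl := pv_spec m i hi
  generalize hpvl : pv m i = i2 at *
  clear hpvl
  have hil : i2 < 2*m := by omega
  have hsp2 : ¬ spec m i2 := by unfold spec; omega
  have hes : i < m ↔ i2 < m := by omega
  obtain ⟨hl, vl⟩ := bL_spec m i hi
  generalize hbdl : bL m i = l at *
  clear hbdl
  refine ⟨![Sum.inr 1, Sum.inl (Sum.inr ⟨s / 2, hs3⟩), Sum.inl (Sum.inl ⟨l, hl⟩)],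
    ![mk3 h m i i j 0 (vA hm hi hjm2),
      mk3 h m i i (j+1) 1 (by rw [hj1]; exact vH1 hm hi),
      mk3 h m i2 i2 j 1 (vR1 hm hil hj1 hsp2)], ?_, ?_, ?_⟩
  · intro a b hab
    fin_cases a <;> fin_cases b <;> first | rfl | (exfalso; simp [Fin.ext_iff] at hab; try omega)
  · intro k' l'
    fin_cases k'
    · rcases l' with (⟨a, ha⟩ | ⟨b, hb⟩) | ⟨u', hu'⟩
      · simp [mk3, f3]
      · simp [mk3, f3]
      · have := flipE10a (m := m) (i := i) (by omega) (t := u') hu'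
        simpa [mk3, f3, Fin.ext_iff] using this
    · rcases l' with (⟨a, ha⟩ | ⟨b, hb⟩) | ⟨u', hu'⟩
      · simp [mk3, f3]
      · have := growU (i := i) (j := (j+1)) (by omega) (by omega) (by omega) hp hs1 hs2 s' b hb
        simpa [mk3, f3, Fin.ext_iff] using this
      · simp [mk3, f3]
    · rcases l' with (⟨a, ha⟩ | ⟨b, hb⟩) | ⟨u', hu'⟩
      · have := flipVL hi hnl vl a ha
        simpa [mk3, f3, Fin.ext_iff] using this
      · have := slideL (p := p) (j := j) hi (by omega) hp hnl (by omega) b hb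
        simpa [mk3, f3] using this
      · have := ESs hes (w := 1) (t := u')
        simpa [mk3, f3] using this
  · rintro ⟨⟨i', k', j', w'⟩, hv'⟩ hw
    have w0 := hw 0
    have w1 := hw 1
    have w2 := hw 2
    clear hw
    obtain ⟨hi', hk', hj', hv'⟩ := hv'
    simp only at hi' hk' hj' hv'
    simp only [mk3, f3, Fin.isValue, Matrix.cons_val_zero, Matrix.cons_val_one, Matrix.cons_val, Fin.val_zero, Fin.val_one, Fin.val_two] at w0 w1 w2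
    rw [hs2] at w1
    obtain ⟨e1, e2, e3, e4⟩ := uniq_DLa hh hm hi hj1 hb1 hb2 hpar s' hs1 vl hi' hk' hj' hv' w0 w1 w2
    exact Subtype.ext (by simp [mk3, e1, e2, e3, e4])

theorem uniq_DLb {h m i j i' k' j' w' s l : ℕ} (hh : 2 ≤ h) (hm : m = 2*h) (hi : i < 2*m)
    (hj1 : j + 1 = h)
    (hb1 : 1 < i)
    (hb2 : i + 2 < m)
    (hpar : i % 2 = 1)
    (s' : s + i + (j+1) = 1 ∨ s + i + (j+1) = 2*m + 1 ∨ s + i + (j+1) = 4*m + 1) (hs1 : s < 2*m)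
    (vl : (i < m ∧ l = i) ∨ (m ≤ i ∧ l + m = i))
    (hi' : i' < 2*m) (hk' : k' < 2*m) (hj' : j' ≤ m)
    (hv' : (k' = i' ∧ ((w' = 0 ∧ j' + 1 ≤ h) ∨ (w' = 0 ∧ j' = h ∧ spec m i') ∨ (w' = 1 ∧ j' = h) ∨
      (w' = 1 ∧ j' + 1 = h ∧ ¬ spec m i') ∨ (w' = 2 ∧ j' = h) ∨ (w' = 2 ∧ j' = h+1 ∧ ¬ spec m i') ∨
      (w' = 3 ∧ h + 1 ≤ j') ∨ (w' = 3 ∧ j' = h ∧ spec m i')))
  ∨ ((w' = 1 ∨ w' = 2) ∧ j' = h ∧ ((i' + 2 = m ∧ k' + 1 = m) ∨ (i' + 2 = 2*m ∧ k' + 1 = 2*m) ∨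
      (i' = 1 ∧ k' = 0) ∨ (i' = m+1 ∧ k' = m))))
    (w0 : ES m 2 i' w' ↔ ES m 2 i 1)
    (w1 : SS m s k' j' ↔ SS m s i j)
    (w2 : VS m l i' ↔ VS m l i)
    : i' = i ∧ k' = i ∧ j' = j ∧ w' = 1 := by
  have hE0 := esUb1 (i := i) (by omega) w0
  clear w0
  obtain ⟨d, hd, hdi⟩ := sideL hi hi' vl w2
  clear w2 vl
  rcases hv' with ⟨hv0, hv'⟩ | ⟨hv0, hv1, hv'⟩
  · rw [hv0] at w1
    obtain ⟨g1, hg1, hgw1⟩ := posUR (d := d) (by omega) (by omega) s' hs1 (by omega) hi' (by omega) hdi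
    have q1 := posGt (hgw1 _ hj') w1 (posSelfU (J := j) (by omega) (by omega) s' hs1 (by omega) (by omega)) (by omega)
    clear hgw1
    clear s' hs1 w1
    unfold spec at *
    rcases hdi with hdi | hdi <;> rcases hg1 with hg1 | hg1 <;> rcases hE0 with hE0 | hE0 <;> rcases hv' with hv' | hv' | hv' | hv' | hv' | hv' | hv' | hv' <;> omega
  · have hcase := extra_case hv'
    clear hv'
    rcases hcase with ⟨hk1, hi1⟩ | ⟨hk1, hi1⟩
    · obtain ⟨g1, hg1, hgw1⟩ := posUR (d := d+1) (by omega) (by omega) s' hs1 (by omega) hk' (by omega) (by omega)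
      have q1 := posGt (hgw1 _ hj') w1 (posSelfU (J := j) (by omega) (by omega) s' hs1 (by omega) (by omega)) (by omega)
      clear hgw1
      clear s' hs1 w1
      unfold spec at *
      rcases hdi with hdi | hdi <;> rcases hg1 with hg1 | hg1 <;> rcases hE0 with hE0 | hE0 <;> rcases hi1 with hi1 | hi1 <;> rcases hv0 with hv0 | hv0 <;> omega
    · rcases Nat.eq_zero_or_pos d with hd0 | hd0
      · subst hd0
        obtain ⟨g1, hg1, hgw1⟩ := posUL (d := 1) (by omega) (by omega) s' hs1 (by omega) hk' (by omega) (by omega)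
        have q1 := posGt (hgw1 _ hj') w1 (posSelfU (J := j) (by omega) (by omega) s' hs1 (by omega) (by omega)) (by omega)
        clear hgw1
        clear s' hs1 w1
        unfold spec at *
        rcases hdi with hdi | hdi <;> rcases hg1 with hg1 | hg1 <;> rcases hE0 with hE0 | hE0 <;> rcases hi1 with hi1 | hi1 <;> rcases hv0 with hv0 | hv0 <;> omega
      · obtain ⟨e, rfl⟩ : ∃ e, d = e + 1 := ⟨d - 1, by omega⟩
        obtain ⟨g1, hg1, hgw1⟩ := posUR (d := e) (by omega) (by omega) s' hs1 (by omega) hk' (by omega) (by omega)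
        have q1 := posGt (hgw1 _ hj') w1 (posSelfU (J := j) (by omega) (by omega) s' hs1 (by omega) (by omega)) (by omega)
        clear hgw1
        clear s' hs1 w1
        unfold spec at *
        rcases hdi with hdi | hdi <;> rcases hg1 with hg1 | hg1 <;> rcases hE0 with hE0 | hE0 <;> rcases hi1 with hi1 | hi1 <;> rcases hv0 with hv0 | hv0 <;> omega

theorem good3_DLb (h m p : ℕ) (hh : 2 ≤ h) (hm : m = 2*h) (hp : p ≤ 1) (hph : (p + h) % 2 = 0)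
    (i j : ℕ) (hi : i < 2*m) (hj1 : j + 1 = h) (hb1 : 1 < i) (hb2 : i + 2 < m) (hpar : i % 2 = 1)
    (hv : Valid h m i i j 1) :
    Good (f3 h m p) (mk3 h m i i j 1 hv) := by
  have hjm2 : j + 1 ≤ h := by omega
  have hs : ¬ spec m i := by unfold spec; omega
  obtain ⟨s, hs1, hs2, hs3, s'⟩ : ∃ s, s < 2*m ∧ 2*(s/2) + p = s ∧ s/2 < m ∧ (s + i + (j+1) = 1 ∨ s + i + (j+1) = 2*m + 1 ∨ s + i + (j+1) = 4*m + 1) := by
    obtain ⟨c1, c2, c3, c4⟩ := cs_spec m p i ((j+1)) (by omega) hp (by omega) (by omega) (by omega)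
    refine ⟨_, c1, c2, c3, ?_⟩
    generalize cs m p i ((j+1)) = s0 at *
    clear c1 c2 c3
    omega
  have hnl := pv_spec m i hi
  generalize hpvl : pv m i = i2 at *
  clear hpvl
  have hil : i2 < 2*m := by omega
  have hsp2 : ¬ spec m i2 := by unfold spec; omega
  have hes : i < m ↔ i2 < m := by omega
  obtain ⟨hl, vl⟩ := bL_spec m i hi
  generalize hbdl : bL m i = l at *
  clear hbdl
  refine ⟨![Sum.inr 2, Sum.inl (Sum.inr ⟨s / 2, hs3⟩), Sum.inl (Sum.inl ⟨l, hl⟩)],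
    ![mk3 h m i i j 0 (vA hm hi hjm2),
      mk3 h m i i (j+1) 1 (by rw [hj1]; exact vH1 hm hi),
      mk3 h m i2 i2 j 1 (vR1 hm hil hj1 hsp2)], ?_, ?_, ?_⟩
  · intro a b hab
    fin_cases a <;> fin_cases b <;> first | rfl | (exfalso; simp [Fin.ext_iff] at hab; try omega)
  · intro k' l'
    fin_cases k'
    · rcases l' with (⟨a, ha⟩ | ⟨b, hb⟩) | ⟨u', hu'⟩
      · simp [mk3, f3]
      · simp [mk3, f3]
      · have := flipE10b (m := m) (i := i) (by omega) (t := u') hu'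
        simpa [mk3, f3, Fin.ext_iff] using this
    · rcases l' with (⟨a, ha⟩ | ⟨b, hb⟩) | ⟨u', hu'⟩
      · simp [mk3, f3]
      · have := growU (i := i) (j := (j+1)) (by omega) (by omega) (by omega) hp hs1 hs2 s' b hb
        simpa [mk3, f3, Fin.ext_iff] using this
      · simp [mk3, f3]
    · rcases l' with (⟨a, ha⟩ | ⟨b, hb⟩) | ⟨u', hu'⟩
      · have := flipVL hi hnl vl a ha
        simpa [mk3, f3, Fin.ext_iff] using this
      · have := slideL (p := p) (j := j) hi (by omega) hp hnl (by omega) b hb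
        simpa [mk3, f3] using this
      · have := ESs hes (w := 1) (t := u')
        simpa [mk3, f3] using this
  · rintro ⟨⟨i', k', j', w'⟩, hv'⟩ hw
    have w0 := hw 0
    have w1 := hw 1
    have w2 := hw 2
    clear hw
    obtain ⟨hi', hk', hj', hv'⟩ := hv'
    simp only at hi' hk' hj' hv'
    simp only [mk3, f3, Fin.isValue, Matrix.cons_val_zero, Matrix.cons_val_one, Matrix.cons_val, Fin.val_zero, Fin.val_one, Fin.val_two] at w0 w1 w2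
    rw [hs2] at w1
    obtain ⟨e1, e2, e3, e4⟩ := uniq_DLb hh hm hi hj1 hb1 hb2 hpar s' hs1 vl hi' hk' hj' hv' w0 w1 w2
    exact Subtype.ext (by simp [mk3, e1, e2, e3, e4])

theorem uniq_DRa {h m i j i' k' j' w' s l : ℕ} (hh : 2 ≤ h) (hm : m = 2*h) (hi : i < 2*m)
    (hj1 : j + 1 = h)
    (hb1 : m + 1 < i)
    (hb2 : i + 2 < 2*m)
    (hpar : i % 2 = 0)
    (s' : s + i = (j+1) ∨ s + i = (j+1) + 2*m) (hs1 : s < 2*m)
    (vl : (i + 1 < m ∧ l = i + 1) ∨ (m ≤ i + 1 ∧ i + 1 < 2*m ∧ l + m = i + 1) ∨ (i + 1 = 2*m ∧ l = 0))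
    (hi' : i' < 2*m) (hk' : k' < 2*m) (hj' : j' ≤ m)
    (hv' : (k' = i' ∧ ((w' = 0 ∧ j' + 1 ≤ h) ∨ (w' = 0 ∧ j' = h ∧ spec m i') ∨ (w' = 1 ∧ j' = h) ∨
      (w' = 1 ∧ j' + 1 = h ∧ ¬ spec m i') ∨ (w' = 2 ∧ j' = h) ∨ (w' = 2 ∧ j' = h+1 ∧ ¬ spec m i') ∨
      (w' = 3 ∧ h + 1 ≤ j') ∨ (w' = 3 ∧ j' = h ∧ spec m i')))
  ∨ ((w' = 1 ∨ w' = 2) ∧ j' = h ∧ ((i' + 2 = m ∧ k' + 1 = m) ∨ (i' + 2 = 2*m ∧ k' + 1 = 2*m) ∨
      (i' = 1 ∧ k' = 0) ∨ (i' = m+1 ∧ k' = m))))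
    (w0 : ES m 1 i' w' ↔ ES m 1 i 1)
    (w1 : SS m s k' j' ↔ SS m s i j)
    (w2 : VS m l i' ↔ VS m l i)
    : i' = i ∧ k' = i ∧ j' = j ∧ w' = 1 := by
  have hE0 := esUa1 (i := i) (by omega) w0
  clear w0
  obtain ⟨d, hd, hdi⟩ := sideR hi hi' vl w2
  clear w2 vl
  rcases hv' with ⟨hv0, hv'⟩ | ⟨hv0, hv1, hv'⟩
  · rw [hv0] at w1
    obtain ⟨g1, hg1, hgw1⟩ := posDL (d := d) (by omega) (by omega) s' hs1 (by omega) hi' (by omega) hdi
    have q1 := posGt (hgw1 _ hj') w1 (posSelfD (J := j) (by omega) (by omega) s' hs1 (by omega) (by omega)) (by omega)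
    clear hgw1
    clear s' hs1 w1
    unfold spec at *
    rcases hdi with hdi | hdi <;> rcases hg1 with hg1 | hg1 <;> rcases hE0 with hE0 | hE0 <;> rcases hv' with hv' | hv' | hv' | hv' | hv' | hv' | hv' | hv' <;> omega
  · have hcase := extra_case hv'
    clear hv'
    rcases hcase with ⟨hk1, hi1⟩ | ⟨hk1, hi1⟩
    · rcases Nat.eq_zero_or_pos d with hd0 | hd0
      · subst hd0
        obtain ⟨g1, hg1, hgw1⟩ := posDR (d := 1) (by omega) (by omega) s' hs1 (by omega) hk' (by omega) (by omega)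
        have q1 := posGt (hgw1 _ hj') w1 (posSelfD (J := j) (by omega) (by omega) s' hs1 (by omega) (by omega)) (by omega)
        clear hgw1
        clear s' hs1 w1
        unfold spec at *
        rcases hdi with hdi | hdi <;> rcases hg1 with hg1 | hg1 <;> rcases hE0 with hE0 | hE0 <;> rcases hi1 with hi1 | hi1 <;> rcases hv0 with hv0 | hv0 <;> omega
      · obtain ⟨e, rfl⟩ : ∃ e, d = e + 1 := ⟨d - 1, by omega⟩
        obtain ⟨g1, hg1, hgw1⟩ := posDL (d := e) (by omega) (by omega) s' hs1 (by omega) hk' (by omega) (by omega)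
        have q1 := posGt (hgw1 _ hj') w1 (posSelfD (J := j) (by omega) (by omega) s' hs1 (by omega) (by omega)) (by omega)
        clear hgw1
        clear s' hs1 w1
        unfold spec at *
        rcases hdi with hdi | hdi <;> rcases hg1 with hg1 | hg1 <;> rcases hE0 with hE0 | hE0 <;> rcases hi1 with hi1 | hi1 <;> rcases hv0 with hv0 | hv0 <;> omega
    · obtain ⟨g1, hg1, hgw1⟩ := posDL (d := d+1) (by omega) (by omega) s' hs1 (by omega) hk' (by omega) (by omega)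
      have q1 := posGt (hgw1 _ hj') w1 (posSelfD (J := j) (by omega) (by omega) s' hs1 (by omega) (by omega)) (by omega)
      clear hgw1
      clear s' hs1 w1
      unfold spec at *
      rcases hdi with hdi | hdi <;> rcases hg1 with hg1 | hg1 <;> rcases hE0 with hE0 | hE0 <;> rcases hi1 with hi1 | hi1 <;> rcases hv0 with hv0 | hv0 <;> omega

theorem good3_DRa (h m p : ℕ) (hh : 2 ≤ h) (hm : m = 2*h) (hp : p ≤ 1) (hph : (p + h) % 2 = 0)
    (i j : ℕ) (hi : i < 2*m) (hj1 : j + 1 = h) (hb1 : m + 1 < i) (hb2 : i + 2 < 2*m) (hpar : i % 2 = 0)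
    (hv : Valid h m i i j 1) :
    Good (f3 h m p) (mk3 h m i i j 1 hv) := by
  have hjm2 : j + 1 ≤ h := by omega
  have hs : ¬ spec m i := by unfold spec; omega
  obtain ⟨s, hs1, hs2, hs3, s'⟩ : ∃ s, s < 2*m ∧ 2*(s/2) + p = s ∧ s/2 < m ∧ (s + i = (j+1) ∨ s + i = (j+1) + 2*m) := by
    obtain ⟨c1, c2, c3, c4⟩ := cs_spec m p i ((j+1)) (by omega) hp (by omega) (by omega) (by omega)
    refine ⟨_, c1, c2, c3, ?_⟩
    generalize cs m p i ((j+1)) = s0 at *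
    clear c1 c2 c3
    omega
  have hnl := nx_spec m i hi
  generalize hpvl : nx m i = i2 at *
  clear hpvl
  have hil : i2 < 2*m := by omega
  have hsp2 : ¬ spec m i2 := by unfold spec; omega
  have hes : i < m ↔ i2 < m := by omega
  obtain ⟨hl, vl⟩ := bR_spec m i hi
  generalize hbdl : bR m i = l at *
  clear hbdl
  refine ⟨![Sum.inr 1, Sum.inl (Sum.inr ⟨s / 2, hs3⟩), Sum.inl (Sum.inl ⟨l, hl⟩)],
    ![mk3 h m i i j 0 (vA hm hi hjm2),
      mk3 h m i i (j+1) 1 (by rw [hj1]; exact vH1 hm hi),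
      mk3 h m i2 i2 j 1 (vR1 hm hil hj1 hsp2)], ?_, ?_, ?_⟩
  · intro a b hab
    fin_cases a <;> fin_cases b <;> first | rfl | (exfalso; simp [Fin.ext_iff] at hab; try omega)
  · intro k' l'
    fin_cases k'
    · rcases l' with (⟨a, ha⟩ | ⟨b, hb⟩) | ⟨u', hu'⟩
      · simp [mk3, f3]
      · simp [mk3, f3]
      · have := flipE10a (m := m) (i := i) (by omega) (t := u') hu'
        simpa [mk3, f3, Fin.ext_iff] using this
    · rcases l' with (⟨a, ha⟩ | ⟨b, hb⟩) | ⟨u', hu'⟩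
      · simp [mk3, f3]
      · have := growD (i := i) (j := (j+1)) (by omega) (by omega) (by omega) hp hs1 hs2 s' b hb
        simpa [mk3, f3, Fin.ext_iff] using this
      · simp [mk3, f3]
    · rcases l' with (⟨a, ha⟩ | ⟨b, hb⟩) | ⟨u', hu'⟩
      · have := flipVR hi hnl vl a ha
        simpa [mk3, f3, Fin.ext_iff] using this
      · have := slideR (p := p) (j := j) hi (by omega) hp hnl (by omega) b hb
        simpa [mk3, f3] using this
      · have := ESs hes (w := 1) (t := u')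
        simpa [mk3, f3] using this
  · rintro ⟨⟨i', k', j', w'⟩, hv'⟩ hw
    have w0 := hw 0
    have w1 := hw 1
    have w2 := hw 2
    clear hw
    obtain ⟨hi', hk', hj', hv'⟩ := hv'
    simp only at hi' hk' hj' hv'
    simp only [mk3, f3, Fin.isValue, Matrix.cons_val_zero, Matrix.cons_val_one, Matrix.cons_val, Fin.val_zero, Fin.val_one, Fin.val_two] at w0 w1 w2
    rw [hs2] at w1
    obtain ⟨e1, e2, e3, e4⟩ := uniq_DRa hh hm hi hj1 hb1 hb2 hpar s' hs1 vl hi' hk' hj' hv' w0 w1 w2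
    exact Subtype.ext (by simp [mk3, e1, e2, e3, e4])

theorem uniq_DRb {h m i j i' k' j' w' s l : ℕ} (hh : 2 ≤ h) (hm : m = 2*h) (hi : i < 2*m)
    (hj1 : j + 1 = h)
    (hb1 : 1 < i)
    (hb2 : i + 2 < m)
    (hpar : i % 2 = 0)
    (s' : s + i = (j+1) ∨ s + i = (j+1) + 2*m) (hs1 : s < 2*m)
    (vl : (i + 1 < m ∧ l = i + 1) ∨ (m ≤ i + 1 ∧ i + 1 < 2*m ∧ l + m = i + 1) ∨ (i + 1 = 2*m ∧ l = 0))
    (hi' : i' < 2*m) (hk' : k' < 2*m) (hj' : j' ≤ m)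
    (hv' : (k' = i' ∧ ((w' = 0 ∧ j' + 1 ≤ h) ∨ (w' = 0 ∧ j' = h ∧ spec m i') ∨ (w' = 1 ∧ j' = h) ∨
      (w' = 1 ∧ j' + 1 = h ∧ ¬ spec m i') ∨ (w' = 2 ∧ j' = h) ∨ (w' = 2 ∧ j' = h+1 ∧ ¬ spec m i') ∨
      (w' = 3 ∧ h + 1 ≤ j') ∨ (w' = 3 ∧ j' = h ∧ spec m i')))
  ∨ ((w' = 1 ∨ w' = 2) ∧ j' = h ∧ ((i' + 2 = m ∧ k' + 1 = m) ∨ (i' + 2 = 2*m ∧ k' + 1 = 2*m) ∨
      (i' = 1 ∧ k' = 0) ∨ (i' = m+1 ∧ k' = m))))
    (w0 : ES m 2 i' w' ↔ ES m 2 i 1)
    (w1 : SS m s k' j' ↔ SS m s i j)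
    (w2 : VS m l i' ↔ VS m l i)
    : i' = i ∧ k' = i ∧ j' = j ∧ w' = 1 := by
  have hE0 := esUb1 (i := i) (by omega) w0
  clear w0
  obtain ⟨d, hd, hdi⟩ := sideR hi hi' vl w2
  clear w2 vl
  rcases hv' with ⟨hv0, hv'⟩ | ⟨hv0, hv1, hv'⟩
  · rw [hv0] at w1
    obtain ⟨g1, hg1, hgw1⟩ := posDL (d := d) (by omega) (by omega) s' hs1 (by omega) hi' (by omega) hdi
    have q1 := posGt (hgw1 _ hj') w1 (posSelfD (J := j) (by omega) (by omega) s' hs1 (by omega) (by omega)) (by omega)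
    clear hgw1
    clear s' hs1 w1
    unfold spec at *
    rcases hdi with hdi | hdi <;> rcases hg1 with hg1 | hg1 <;> rcases hE0 with hE0 | hE0 <;> rcases hv' with hv' | hv' | hv' | hv' | hv' | hv' | hv' | hv' <;> omega
  · have hcase := extra_case hv'
    clear hv'
    rcases hcase with ⟨hk1, hi1⟩ | ⟨hk1, hi1⟩
    · rcases Nat.eq_zero_or_pos d with hd0 | hd0
      · subst hd0
        obtain ⟨g1, hg1, hgw1⟩ := posDR (d := 1) (by omega) (by omega) s' hs1 (by omega) hk' (by omega) (by omega)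
        have q1 := posGt (hgw1 _ hj') w1 (posSelfD (J := j) (by omega) (by omega) s' hs1 (by omega) (by omega)) (by omega)
        clear hgw1
        clear s' hs1 w1
        unfold spec at *
        rcases hdi with hdi | hdi <;> rcases hg1 with hg1 | hg1 <;> rcases hE0 with hE0 | hE0 <;> rcases hi1 with hi1 | hi1 <;> rcases hv0 with hv0 | hv0 <;> omega
      · obtain ⟨e, rfl⟩ : ∃ e, d = e + 1 := ⟨d - 1, by omega⟩
        obtain ⟨g1, hg1, hgw1⟩ := posDL (d := e) (by omega) (by omega) s' hs1 (by omega) hk' (by omega) (by omega)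
        have q1 := posGt (hgw1 _ hj') w1 (posSelfD (J := j) (by omega) (by omega) s' hs1 (by omega) (by omega)) (by omega)
        clear hgw1
        clear s' hs1 w1
        unfold spec at *
        rcases hdi with hdi | hdi <;> rcases hg1 with hg1 | hg1 <;> rcases hE0 with hE0 | hE0 <;> rcases hi1 with hi1 | hi1 <;> rcases hv0 with hv0 | hv0 <;> omega
    · obtain ⟨g1, hg1, hgw1⟩ := posDL (d := d+1) (by omega) (by omega) s' hs1 (by omega) hk' (by omega) (by omega)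
      have q1 := posGt (hgw1 _ hj') w1 (posSelfD (J := j) (by omega) (by omega) s' hs1 (by omega) (by omega)) (by omega)
      clear hgw1
      clear s' hs1 w1
      unfold spec at *
      rcases hdi with hdi | hdi <;> rcases hg1 with hg1 | hg1 <;> rcases hE0 with hE0 | hE0 <;> rcases hi1 with hi1 | hi1 <;> rcases hv0 with hv0 | hv0 <;> omega

theorem good3_DRb (h m p : ℕ) (hh : 2 ≤ h) (hm : m = 2*h) (hp : p ≤ 1) (hph : (p + h) % 2 = 0)
    (i j : ℕ) (hi : i < 2*m) (hj1 : j + 1 = h) (hb1 : 1 < i) (hb2 : i + 2 < m) (hpar : i % 2 = 0)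
    (hv : Valid h m i i j 1) :
    Good (f3 h m p) (mk3 h m i i j 1 hv) := by
  have hjm2 : j + 1 ≤ h := by omega
  have hs : ¬ spec m i := by unfold spec; omega
  obtain ⟨s, hs1, hs2, hs3, s'⟩ : ∃ s, s < 2*m ∧ 2*(s/2) + p = s ∧ s/2 < m ∧ (s + i = (j+1) ∨ s + i = (j+1) + 2*m) := by
    obtain ⟨c1, c2, c3, c4⟩ := cs_spec m p i ((j+1)) (by omega) hp (by omega) (by omega) (by omega)
    refine ⟨_, c1, c2, c3, ?_⟩
    generalize cs m p i ((j+1)) = s0 at *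
    clear c1 c2 c3
    omega
  have hnl := nx_spec m i hi
  generalize hpvl : nx m i = i2 at *
  clear hpvl
  have hil : i2 < 2*m := by omega
  have hsp2 : ¬ spec m i2 := by unfold spec; omega
  have hes : i < m ↔ i2 < m := by omega
  obtain ⟨hl, vl⟩ := bR_spec m i hi
  generalize hbdl : bR m i = l at *
  clear hbdl
  refine ⟨![Sum.inr 2, Sum.inl (Sum.inr ⟨s / 2, hs3⟩), Sum.inl (Sum.inl ⟨l, hl⟩)],
    ![mk3 h m i i j 0 (vA hm hi hjm2),
      mk3 h m i i (j+1) 1 (by rw [hj1]; exact vH1 hm hi),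
      mk3 h m i2 i2 j 1 (vR1 hm hil hj1 hsp2)], ?_, ?_, ?_⟩
  · intro a b hab
    fin_cases a <;> fin_cases b <;> first | rfl | (exfalso; simp [Fin.ext_iff] at hab; try omega)
  · intro k' l'
    fin_cases k'
    · rcases l' with (⟨a, ha⟩ | ⟨b, hb⟩) | ⟨u', hu'⟩
      · simp [mk3, f3]
      · simp [mk3, f3]
      · have := flipE10b (m := m) (i := i) (by omega) (t := u') hu'
        simpa [mk3, f3, Fin.ext_iff] using this
    · rcases l' with (⟨a, ha⟩ | ⟨b, hb⟩) | ⟨u', hu'⟩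
      · simp [mk3, f3]
      · have := growD (i := i) (j := (j+1)) (by omega) (by omega) (by omega) hp hs1 hs2 s' b hb
        simpa [mk3, f3, Fin.ext_iff] using this
      · simp [mk3, f3]
    · rcases l' with (⟨a, ha⟩ | ⟨b, hb⟩) | ⟨u', hu'⟩
      · have := flipVR hi hnl vl a ha
        simpa [mk3, f3, Fin.ext_iff] using this
      · have := slideR (p := p) (j := j) hi (by omega) hp hnl (by omega) b hb
        simpa [mk3, f3] using this
      · have := ESs hes (w := 1) (t := u')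
        simpa [mk3, f3] using this
  · rintro ⟨⟨i', k', j', w'⟩, hv'⟩ hw
    have w0 := hw 0
    have w1 := hw 1
    have w2 := hw 2
    clear hw
    obtain ⟨hi', hk', hj', hv'⟩ := hv'
    simp only at hi' hk' hj' hv'
    simp only [mk3, f3, Fin.isValue, Matrix.cons_val_zero, Matrix.cons_val_one, Matrix.cons_val, Fin.val_zero, Fin.val_one, Fin.val_two] at w0 w1 w2
    rw [hs2] at w1
    obtain ⟨e1, e2, e3, e4⟩ := uniq_DRb hh hm hi hj1 hb1 hb2 hpar s' hs1 vl hi' hk' hj' hv' w0 w1 w2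
    exact Subtype.ext (by simp [mk3, e1, e2, e3, e4])

theorem uniq_Dd1 {h m i j i' k' j' w' s t : ℕ} (hh : 2 ≤ h) (hm : m = 2*h) (hi : i < 2*m)
    (hj1 : j + 1 = h)
    (hs : i = 1)
    (s' : s + i + (j+1) = 1 ∨ s + i + (j+1) = 2*m + 1 ∨ s + i + (j+1) = 4*m + 1) (hs1 : s < 2*m)
    (t' : t + i = (j+2) ∨ t + i = (j+2) + 2*m) (ht1 : t < 2*m)
    (hi' : i' < 2*m) (hk' : k' < 2*m) (hj' : j' ≤ m)
    (hv' : (k' = i' ∧ ((w' = 0 ∧ j' + 1 ≤ h) ∨ (w' = 0 ∧ j' = h ∧ spec m i') ∨ (w' = 1 ∧ j' = h) ∨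
      (w' = 1 ∧ j' + 1 = h ∧ ¬ spec m i') ∨ (w' = 2 ∧ j' = h) ∨ (w' = 2 ∧ j' = h+1 ∧ ¬ spec m i') ∨
      (w' = 3 ∧ h + 1 ≤ j') ∨ (w' = 3 ∧ j' = h ∧ spec m i')))
  ∨ ((w' = 1 ∨ w' = 2) ∧ j' = h ∧ ((i' + 2 = m ∧ k' + 1 = m) ∨ (i' + 2 = 2*m ∧ k' + 1 = 2*m) ∨
      (i' = 1 ∧ k' = 0) ∨ (i' = m+1 ∧ k' = m))))
    (w0 : ES m 2 i' w' ↔ ES m 2 i 1)
    (w1 : SS m s k' j' ↔ SS m s i j)
    (w2 : SS m t k' j' ↔ SS m t i j)
    : i' = i ∧ k' = i ∧ j' = j ∧ w' = 1 := by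
  have hE0 := esUb1 (i := i) (by omega) w0
  clear w0
  have hs0 : s = 3*h := by
    clear hv' w1 w2 hE0 t' ht1
    omega
  have ht0 : t = h := by
    clear hv' w1 w2 hE0 s' hs1 hs0
    omega
  obtain ⟨g1, hg1, hgw1⟩ := posGen hs1 hk'
  have q1 := posGt (hgw1 _ hj') w1 (posSelfU (J := j) (by omega) (by omega) s' hs1 (by omega) (by omega)) (by omega)
  clear hgw1
  obtain ⟨g2, hg2, hgw2⟩ := posGen ht1 hk'
  have q2 := posGt (hgw2 _ hj') w2 (posSelfD (J := j) (by omega) (by omega) t' ht1 (by omega) (by omega)) (by omega)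
  clear hgw2
  clear w1 w2 s' t'
  have hw : 1 ≤ w' := by omega
  have hj : h ≤ j' + 1 := by
    clear hE0 hg1 hg2 q1 q2 hs0 ht0
    rcases hv' with ⟨hv0, hv'⟩ | ⟨hv0, hv1, hv'⟩
    · rcases hv' with hv' | hv' | hv' | hv' | hv' | hv' | hv' | hv' <;> omega
    · omega
  have K : j' + 1 = h ∧ (k' = 0 ∨ k' = 1 ∨ k' = m ∨ k' = m + 1) := by
    clear hE0 hv'
    rcases hg1 with hg1 | hg1 | hg1 | hg1 | hg1 <;> rcases hg2 with hg2 | hg2 | hg2 | hg2 | hg2 <;> omega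
  clear hg1 hg2 q1 q2 hs0 ht0 hs1 ht1
  obtain ⟨K1, K2⟩ := K
  rcases hv' with ⟨hv0, hv'⟩ | ⟨hv0, hv1, hv'⟩
  · have h3 : w' = 1 ∧ ¬ spec m i' := by
      rcases hv' with hv' | hv' | hv' | hv' | hv' | hv' | hv' | hv'
      · omega
      · omega
      · omega
      · exact ⟨hv'.1, hv'.2.2⟩
      all_goals omega
    clear hv'
    obtain ⟨h3, h4⟩ := h3
    unfold spec at h4
    rcases hE0 with hE0 | hE0 <;> rcases K2 with K2 | K2 | K2 | K2 <;> omega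
  · omega

theorem good3_Dd1 (h m p : ℕ) (hh : 2 ≤ h) (hm : m = 2*h) (hp : p ≤ 1) (hph : (p + h) % 2 = 0)
    (i j : ℕ) (hi : i < 2*m) (hj1 : j + 1 = h) (hs : i = 1)
    (hv : Valid h m i i j 1) :
    Good (f3 h m p) (mk3 h m i i j 1 hv) := by
  have hjm2 : j + 1 ≤ h := by omega
  obtain ⟨s, hs1, hs2, hs3, s'⟩ : ∃ s, s < 2*m ∧ 2*(s/2) + p = s ∧ s/2 < m ∧ (s + i + (j+1) = 1 ∨ s + i + (j+1) = 2*m + 1 ∨ s + i + (j+1) = 4*m + 1) := by
    obtain ⟨c1, c2, c3, c4⟩ := cs_spec m p i ((j+1)) (by omega) hp (by omega) (by omega) (by omega)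
    refine ⟨_, c1, c2, c3, ?_⟩
    generalize cs m p i ((j+1)) = s0 at *
    clear c1 c2 c3
    omega
  obtain ⟨t, ht1, ht2, ht3, t'⟩ : ∃ t, t < 2*m ∧ 2*(t/2) + p = t ∧ t/2 < m ∧ (t + i = (j+2) ∨ t + i = (j+2) + 2*m) := by
    obtain ⟨c1, c2, c3, c4⟩ := cs_spec m p i ((j+2)) (by omega) hp (by omega) (by omega) (by omega)
    refine ⟨_, c1, c2, c3, ?_⟩
    generalize cs m p i ((j+2)) = s0 at *
    clear c1 c2 c3
    omega
  refine ⟨![Sum.inr 2, Sum.inl (Sum.inr ⟨s / 2, hs3⟩), Sum.inl (Sum.inr ⟨t / 2, ht3⟩)],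
    ![mk3 h m i i j 0 (vA hm hi hjm2),
      mk3 h m i i (j+1) 1 (by rw [hj1]; exact vH1 hm hi),
      mk3 h m i 0 (j+1) 1 (by rw [hj1]; exact vX hm hi (by omega) (Or.inl rfl) (by omega))], ?_, ?_, ?_⟩
  · intro a b hab
    fin_cases a <;> fin_cases b <;> first | rfl | (exfalso; simp [Fin.ext_iff] at hab; try omega)
  · intro k' l'
    fin_cases k'
    · rcases l' with (⟨a, ha⟩ | ⟨b, hb⟩) | ⟨u', hu'⟩
      · simp [mk3, f3]
      · simp [mk3, f3]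
      · have := flipE10b (m := m) (i := i) (by omega) (t := u') hu'
        simpa [mk3, f3, Fin.ext_iff] using this
    · rcases l' with (⟨a, ha⟩ | ⟨b, hb⟩) | ⟨u', hu'⟩
      · simp [mk3, f3]
      · have := growU (i := i) (j := (j+1)) (by omega) (by omega) (by omega) hp hs1 hs2 s' b hb
        simpa [mk3, f3, Fin.ext_iff] using this
      · simp [mk3, f3]
    · rcases l' with (⟨a, ha⟩ | ⟨b, hb⟩) | ⟨u', hu'⟩
      · simp [mk3, f3]
      · have := flipX_1 (m := m) (p := p) (h := h) (i := i) (j := j) hh hm hs hj1 hp t' ht1 ht2 b hb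
        simpa [mk3, f3, Fin.ext_iff] using this
      · simp [mk3, f3]
  · rintro ⟨⟨i', k', j', w'⟩, hv'⟩ hw
    have w0 := hw 0
    have w1 := hw 1
    have w2 := hw 2
    clear hw
    obtain ⟨hi', hk', hj', hv'⟩ := hv'
    simp only at hi' hk' hj' hv'
    simp only [mk3, f3, Fin.isValue, Matrix.cons_val_zero, Matrix.cons_val_one, Matrix.cons_val, Fin.val_zero, Fin.val_one, Fin.val_two] at w0 w1 w2
    rw [hs2] at w1
    rw [ht2] at w2
    obtain ⟨e1, e2, e3, e4⟩ := uniq_Dd1 hh hm hi hj1 hs s' hs1 t' ht1 hi' hk' hj' hv' w0 w1 w2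
    exact Subtype.ext (by simp [mk3, e1, e2, e3, e4])

theorem uniq_Ddmp1 {h m i j i' k' j' w' s t : ℕ} (hh : 2 ≤ h) (hm : m = 2*h) (hi : i < 2*m)
    (hj1 : j + 1 = h)
    (hs : i = m + 1)
    (s' : s + i + (j+1) = 1 ∨ s + i + (j+1) = 2*m + 1 ∨ s + i + (j+1) = 4*m + 1) (hs1 : s < 2*m)
    (t' : t + i = (j+2) ∨ t + i = (j+2) + 2*m) (ht1 : t < 2*m)
    (hi' : i' < 2*m) (hk' : k' < 2*m) (hj' : j' ≤ m)
    (hv' : (k' = i' ∧ ((w' = 0 ∧ j' + 1 ≤ h) ∨ (w' = 0 ∧ j' = h ∧ spec m i') ∨ (w' = 1 ∧ j' = h) ∨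
      (w' = 1 ∧ j' + 1 = h ∧ ¬ spec m i') ∨ (w' = 2 ∧ j' = h) ∨ (w' = 2 ∧ j' = h+1 ∧ ¬ spec m i') ∨
      (w' = 3 ∧ h + 1 ≤ j') ∨ (w' = 3 ∧ j' = h ∧ spec m i')))
  ∨ ((w' = 1 ∨ w' = 2) ∧ j' = h ∧ ((i' + 2 = m ∧ k' + 1 = m) ∨ (i' + 2 = 2*m ∧ k' + 1 = 2*m) ∨
      (i' = 1 ∧ k' = 0) ∨ (i' = m+1 ∧ k' = m))))
    (w0 : ES m 1 i' w' ↔ ES m 1 i 1)
    (w1 : SS m s k' j' ↔ SS m s i j)
    (w2 : SS m t k' j' ↔ SS m t i j)
    : i' = i ∧ k' = i ∧ j' = j ∧ w' = 1 := by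
  have hE0 := esUa1 (i := i) (by omega) w0
  clear w0
  have hs0 : s = h := by
    clear hv' w1 w2 hE0 t' ht1
    omega
  have ht0 : t = 3*h := by
    clear hv' w1 w2 hE0 s' hs1 hs0
    omega
  obtain ⟨g1, hg1, hgw1⟩ := posGen hs1 hk'
  have q1 := posGt (hgw1 _ hj') w1 (posSelfU (J := j) (by omega) (by omega) s' hs1 (by omega) (by omega)) (by omega)
  clear hgw1
  obtain ⟨g2, hg2, hgw2⟩ := posGen ht1 hk'
  have q2 := posGt (hgw2 _ hj') w2 (posSelfD (J := j) (by omega) (by omega) t' ht1 (by omega) (by omega)) (by omega)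
  clear hgw2
  clear w1 w2 s' t'
  have hw : 1 ≤ w' := by omega
  have hj : h ≤ j' + 1 := by
    clear hE0 hg1 hg2 q1 q2 hs0 ht0
    rcases hv' with ⟨hv0, hv'⟩ | ⟨hv0, hv1, hv'⟩
    · rcases hv' with hv' | hv' | hv' | hv' | hv' | hv' | hv' | hv' <;> omega
    · omega
  have K : j' + 1 = h ∧ (k' = 0 ∨ k' = 1 ∨ k' = m ∨ k' = m + 1) := by
    clear hE0 hv'
    rcases hg1 with hg1 | hg1 | hg1 | hg1 | hg1 <;> rcases hg2 with hg2 | hg2 | hg2 | hg2 | hg2 <;> omega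
  clear hg1 hg2 q1 q2 hs0 ht0 hs1 ht1
  obtain ⟨K1, K2⟩ := K
  rcases hv' with ⟨hv0, hv'⟩ | ⟨hv0, hv1, hv'⟩
  · have h3 : w' = 1 ∧ ¬ spec m i' := by
      rcases hv' with hv' | hv' | hv' | hv' | hv' | hv' | hv' | hv'
      · omega
      · omega
      · omega
      · exact ⟨hv'.1, hv'.2.2⟩
      all_goals omega
    clear hv'
    obtain ⟨h3, h4⟩ := h3
    unfold spec at h4
    rcases hE0 with hE0 | hE0 <;> rcases K2 with K2 | K2 | K2 | K2 <;> omega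
  · omega

theorem good3_Ddmp1 (h m p : ℕ) (hh : 2 ≤ h) (hm : m = 2*h) (hp : p ≤ 1) (hph : (p + h) % 2 = 0)
    (i j : ℕ) (hi : i < 2*m) (hj1 : j + 1 = h) (hs : i = m + 1)
    (hv : Valid h m i i j 1) :
    Good (f3 h m p) (mk3 h m i i j 1 hv) := by
  have hjm2 : j + 1 ≤ h := by omega
  obtain ⟨s, hs1, hs2, hs3, s'⟩ : ∃ s, s < 2*m ∧ 2*(s/2) + p = s ∧ s/2 < m ∧ (s + i + (j+1) = 1 ∨ s + i + (j+1) = 2*m + 1 ∨ s + i + (j+1) = 4*m + 1) := by
    obtain ⟨c1, c2, c3, c4⟩ := cs_spec m p i ((j+1)) (by omega) hp (by omega) (by omega) (by omega)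
    refine ⟨_, c1, c2, c3, ?_⟩
    generalize cs m p i ((j+1)) = s0 at *
    clear c1 c2 c3
    omega
  obtain ⟨t, ht1, ht2, ht3, t'⟩ : ∃ t, t < 2*m ∧ 2*(t/2) + p = t ∧ t/2 < m ∧ (t + i = (j+2) ∨ t + i = (j+2) + 2*m) := by
    obtain ⟨c1, c2, c3, c4⟩ := cs_spec m p i ((j+2)) (by omega) hp (by omega) (by omega) (by omega)
    refine ⟨_, c1, c2, c3, ?_⟩
    generalize cs m p i ((j+2)) = s0 at *
    clear c1 c2 c3
    omega
  refine ⟨![Sum.inr 1, Sum.inl (Sum.inr ⟨s / 2, hs3⟩), Sum.inl (Sum.inr ⟨t / 2, ht3⟩)],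
    ![mk3 h m i i j 0 (vA hm hi hjm2),
      mk3 h m i i (j+1) 1 (by rw [hj1]; exact vH1 hm hi),
      mk3 h m i m (j+1) 1 (by rw [hj1]; exact vX hm hi (by omega) (Or.inl rfl) (by omega))], ?_, ?_, ?_⟩
  · intro a b hab
    fin_cases a <;> fin_cases b <;> first | rfl | (exfalso; simp [Fin.ext_iff] at hab; try omega)
  · intro k' l'
    fin_cases k'
    · rcases l' with (⟨a, ha⟩ | ⟨b, hb⟩) | ⟨u', hu'⟩
      · simp [mk3, f3]
      · simp [mk3, f3]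
      · have := flipE10a (m := m) (i := i) (by omega) (t := u') hu'
        simpa [mk3, f3, Fin.ext_iff] using this
    · rcases l' with (⟨a, ha⟩ | ⟨b, hb⟩) | ⟨u', hu'⟩
      · simp [mk3, f3]
      · have := growU (i := i) (j := (j+1)) (by omega) (by omega) (by omega) hp hs1 hs2 s' b hb
        simpa [mk3, f3, Fin.ext_iff] using this
      · simp [mk3, f3]
    · rcases l' with (⟨a, ha⟩ | ⟨b, hb⟩) | ⟨u', hu'⟩
      · simp [mk3, f3]
      · have := flipX_mp1 (m := m) (p := p) (h := h) (i := i) (j := j) hh hm hs hj1 hp t' ht1 ht2 b hb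
        simpa [mk3, f3, Fin.ext_iff] using this
      · simp [mk3, f3]
  · rintro ⟨⟨i', k', j', w'⟩, hv'⟩ hw
    have w0 := hw 0
    have w1 := hw 1
    have w2 := hw 2
    clear hw
    obtain ⟨hi', hk', hj', hv'⟩ := hv'
    simp only at hi' hk' hj' hv'
    simp only [mk3, f3, Fin.isValue, Matrix.cons_val_zero, Matrix.cons_val_one, Matrix.cons_val, Fin.val_zero, Fin.val_one, Fin.val_two] at w0 w1 w2
    rw [hs2] at w1
    rw [ht2] at w2
    obtain ⟨e1, e2, e3, e4⟩ := uniq_Ddmp1 hh hm hi hj1 hs s' hs1 t' ht1 hi' hk' hj' hv' w0 w1 w2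
    exact Subtype.ext (by simp [mk3, e1, e2, e3, e4])

theorem uniq_Ddmm2 {h m i j i' k' j' w' s t : ℕ} (hh : 2 ≤ h) (hm : m = 2*h) (hi : i < 2*m)
    (hj1 : j + 1 = h)
    (hs : i + 2 = m)
    (s' : s + i = (j+1) ∨ s + i = (j+1) + 2*m) (hs1 : s < 2*m)
    (t' : t + i + (j+2) = 1 ∨ t + i + (j+2) = 2*m + 1 ∨ t + i + (j+2) = 4*m + 1) (ht1 : t < 2*m)
    (hi' : i' < 2*m) (hk' : k' < 2*m) (hj' : j' ≤ m)
    (hv' : (k' = i' ∧ ((w' = 0 ∧ j' + 1 ≤ h) ∨ (w' = 0 ∧ j' = h ∧ spec m i') ∨ (w' = 1 ∧ j' = h) ∨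
      (w' = 1 ∧ j' + 1 = h ∧ ¬ spec m i') ∨ (w' = 2 ∧ j' = h) ∨ (w' = 2 ∧ j' = h+1 ∧ ¬ spec m i') ∨
      (w' = 3 ∧ h + 1 ≤ j') ∨ (w' = 3 ∧ j' = h ∧ spec m i')))
  ∨ ((w' = 1 ∨ w' = 2) ∧ j' = h ∧ ((i' + 2 = m ∧ k' + 1 = m) ∨ (i' + 2 = 2*m ∧ k' + 1 = 2*m) ∨
      (i' = 1 ∧ k' = 0) ∨ (i' = m+1 ∧ k' = m))))
    (w0 : ES m 2 i' w' ↔ ES m 2 i 1)
    (w1 : SS m s k' j' ↔ SS m s i j)
    (w2 : SS m t k' j' ↔ SS m t i j)
    : i' = i ∧ k' = i ∧ j' = j ∧ w' = 1 := by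
  have hE0 := esUb1 (i := i) (by omega) w0
  clear w0
  have hs0 : s = 3*h + 2 ∨ (h = 2 ∧ s = 0) := by
    clear hv' w1 w2 hE0 t' ht1
    omega
  have ht0 : t = h + 2 := by
    clear hv' w1 w2 hE0 s' hs1 hs0
    omega
  obtain ⟨g1, hg1, hgw1⟩ := posGen hs1 hk'
  have q1 := posGt (hgw1 _ hj') w1 (posSelfD (J := j) (by omega) (by omega) s' hs1 (by omega) (by omega)) (by omega)
  clear hgw1
  obtain ⟨g2, hg2, hgw2⟩ := posGen ht1 hk'
  have q2 := posGt (hgw2 _ hj') w2 (posSelfU (J := j) (by omega) (by omega) t' ht1 (by omega) (by omega)) (by omega)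
  clear hgw2
  clear w1 w2 s' t'
  have hw : 1 ≤ w' := by omega
  have hj : h ≤ j' + 1 := by
    clear hE0 hg1 hg2 q1 q2 hs0 ht0
    rcases hv' with ⟨hv0, hv'⟩ | ⟨hv0, hv1, hv'⟩
    · rcases hv' with hv' | hv' | hv' | hv' | hv' | hv' | hv' | hv' <;> omega
    · omega
  have K : j' + 1 = h ∧ (k' + 2 = m ∨ k' + 1 = m ∨ k' + 2 = 2*m ∨ k' + 1 = 2*m) := by
    clear hE0 hv'
    rcases hg1 with hg1 | hg1 | hg1 | hg1 | hg1 <;> rcases hg2 with hg2 | hg2 | hg2 | hg2 | hg2 <;> omega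
  clear hg1 hg2 q1 q2 hs0 ht0 hs1 ht1
  obtain ⟨K1, K2⟩ := K
  rcases hv' with ⟨hv0, hv'⟩ | ⟨hv0, hv1, hv'⟩
  · have h3 : w' = 1 ∧ ¬ spec m i' := by
      rcases hv' with hv' | hv' | hv' | hv' | hv' | hv' | hv' | hv'
      · omega
      · omega
      · omega
      · exact ⟨hv'.1, hv'.2.2⟩
      all_goals omega
    clear hv'
    obtain ⟨h3, h4⟩ := h3
    unfold spec at h4
    rcases hE0 with hE0 | hE0 <;> rcases K2 with K2 | K2 | K2 | K2 <;> omega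
  · omega

theorem good3_Ddmm2 (h m p : ℕ) (hh : 2 ≤ h) (hm : m = 2*h) (hp : p ≤ 1) (hph : (p + h) % 2 = 0)
    (i j : ℕ) (hi : i < 2*m) (hj1 : j + 1 = h) (hs : i + 2 = m)
    (hv : Valid h m i i j 1) :
    Good (f3 h m p) (mk3 h m i i j 1 hv) := by
  have hjm2 : j + 1 ≤ h := by omega
  obtain ⟨s, hs1, hs2, hs3, s'⟩ : ∃ s, s < 2*m ∧ 2*(s/2) + p = s ∧ s/2 < m ∧ (s + i = (j+1) ∨ s + i = (j+1) + 2*m) := by
    obtain ⟨c1, c2, c3, c4⟩ := cs_spec m p i ((j+1)) (by omega) hp (by omega) (by omega) (by omega)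
    refine ⟨_, c1, c2, c3, ?_⟩
    generalize cs m p i ((j+1)) = s0 at *
    clear c1 c2 c3
    omega
  obtain ⟨t, ht1, ht2, ht3, t'⟩ : ∃ t, t < 2*m ∧ 2*(t/2) + p = t ∧ t/2 < m ∧ (t + i + (j+2) = 1 ∨ t + i + (j+2) = 2*m + 1 ∨ t + i + (j+2) = 4*m + 1) := by
    obtain ⟨c1, c2, c3, c4⟩ := cs_spec m p i ((j+2)) (by omega) hp (by omega) (by omega) (by omega)
    refine ⟨_, c1, c2, c3, ?_⟩
    generalize cs m p i ((j+2)) = s0 at *
    clear c1 c2 c3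
    omega
  refine ⟨![Sum.inr 2, Sum.inl (Sum.inr ⟨s / 2, hs3⟩), Sum.inl (Sum.inr ⟨t / 2, ht3⟩)],
    ![mk3 h m i i j 0 (vA hm hi hjm2),
      mk3 h m i i (j+1) 1 (by rw [hj1]; exact vH1 hm hi),
      mk3 h m i (i+1) (j+1) 1 (by rw [hj1]; exact vX hm hi (by omega) (Or.inl rfl) (by omega))], ?_, ?_, ?_⟩
  · intro a b hab
    fin_cases a <;> fin_cases b <;> first | rfl | (exfalso; simp [Fin.ext_iff] at hab; try omega)
  · intro k' l'
    fin_cases k'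
    · rcases l' with (⟨a, ha⟩ | ⟨b, hb⟩) | ⟨u', hu'⟩
      · simp [mk3, f3]
      · simp [mk3, f3]
      · have := flipE10b (m := m) (i := i) (by omega) (t := u') hu'
        simpa [mk3, f3, Fin.ext_iff] using this
    · rcases l' with (⟨a, ha⟩ | ⟨b, hb⟩) | ⟨u', hu'⟩
      · simp [mk3, f3]
      · have := growD (i := i) (j := (j+1)) (by omega) (by omega) (by omega) hp hs1 hs2 s' b hb
        simpa [mk3, f3, Fin.ext_iff] using this
      · simp [mk3, f3]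
    · rcases l' with (⟨a, ha⟩ | ⟨b, hb⟩) | ⟨u', hu'⟩
      · simp [mk3, f3]
      · have := flipX_mm2 (m := m) (p := p) (h := h) (i := i) (j := j) hh hm hs hj1 hp t' ht1 ht2 b hb
        simpa [mk3, f3, Fin.ext_iff] using this
      · simp [mk3, f3]
  · rintro ⟨⟨i', k', j', w'⟩, hv'⟩ hw
    have w0 := hw 0
    have w1 := hw 1
    have w2 := hw 2
    clear hw
    obtain ⟨hi', hk', hj', hv'⟩ := hv'
    simp only at hi' hk' hj' hv'
    simp only [mk3, f3, Fin.isValue, Matrix.cons_val_zero, Matrix.cons_val_one, Matrix.cons_val, Fin.val_zero, Fin.val_one, Fin.val_two] at w0 w1 w2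
    rw [hs2] at w1
    rw [ht2] at w2
    obtain ⟨e1, e2, e3, e4⟩ := uniq_Ddmm2 hh hm hi hj1 hs s' hs1 t' ht1 hi' hk' hj' hv' w0 w1 w2
    exact Subtype.ext (by simp [mk3, e1, e2, e3, e4])

theorem uniq_Dd2mm2 {h m i j i' k' j' w' s t : ℕ} (hh : 2 ≤ h) (hm : m = 2*h) (hi : i < 2*m)
    (hj1 : j + 1 = h)
    (hs : i + 2 = 2*m)
    (s' : s + i = (j+1) ∨ s + i = (j+1) + 2*m) (hs1 : s < 2*m)
    (t' : t + i + (j+2) = 1 ∨ t + i + (j+2) = 2*m + 1 ∨ t + i + (j+2) = 4*m + 1) (ht1 : t < 2*m)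
    (hi' : i' < 2*m) (hk' : k' < 2*m) (hj' : j' ≤ m)
    (hv' : (k' = i' ∧ ((w' = 0 ∧ j' + 1 ≤ h) ∨ (w' = 0 ∧ j' = h ∧ spec m i') ∨ (w' = 1 ∧ j' = h) ∨
      (w' = 1 ∧ j' + 1 = h ∧ ¬ spec m i') ∨ (w' = 2 ∧ j' = h) ∨ (w' = 2 ∧ j' = h+1 ∧ ¬ spec m i') ∨
      (w' = 3 ∧ h + 1 ≤ j') ∨ (w' = 3 ∧ j' = h ∧ spec m i')))
  ∨ ((w' = 1 ∨ w' = 2) ∧ j' = h ∧ ((i' + 2 = m ∧ k' + 1 = m) ∨ (i' + 2 = 2*m ∧ k' + 1 = 2*m) ∨
      (i' = 1 ∧ k' = 0) ∨ (i' = m+1 ∧ k' = m))))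
    (w0 : ES m 1 i' w' ↔ ES m 1 i 1)
    (w1 : SS m s k' j' ↔ SS m s i j)
    (w2 : SS m t k' j' ↔ SS m t i j)
    : i' = i ∧ k' = i ∧ j' = j ∧ w' = 1 := by
  have hE0 := esUa1 (i := i) (by omega) w0
  clear w0
  have hs0 : s = h + 2 := by
    clear hv' w1 w2 hE0 t' ht1
    omega
  have ht0 : t = 3*h + 2 ∨ (h = 2 ∧ t = 0) := by
    clear hv' w1 w2 hE0 s' hs1 hs0
    omega
  obtain ⟨g1, hg1, hgw1⟩ := posGen hs1 hk'
  have q1 := posGt (hgw1 _ hj') w1 (posSelfD (J := j) (by omega) (by omega) s' hs1 (by omega) (by omega)) (by omega)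
  clear hgw1
  obtain ⟨g2, hg2, hgw2⟩ := posGen ht1 hk'
  have q2 := posGt (hgw2 _ hj') w2 (posSelfU (J := j) (by omega) (by omega) t' ht1 (by omega) (by omega)) (by omega)
  clear hgw2
  clear w1 w2 s' t'
  have hw : 1 ≤ w' := by omega
  have hj : h ≤ j' + 1 := by
    clear hE0 hg1 hg2 q1 q2 hs0 ht0
    rcases hv' with ⟨hv0, hv'⟩ | ⟨hv0, hv1, hv'⟩
    · rcases hv' with hv' | hv' | hv' | hv' | hv' | hv' | hv' | hv' <;> omega
    · omega
  have K : j' + 1 = h ∧ (k' + 2 = m ∨ k' + 1 = m ∨ k' + 2 = 2*m ∨ k' + 1 = 2*m) := by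
    clear hE0 hv'
    rcases hg1 with hg1 | hg1 | hg1 | hg1 | hg1 <;> rcases hg2 with hg2 | hg2 | hg2 | hg2 | hg2 <;> omega
  clear hg1 hg2 q1 q2 hs0 ht0 hs1 ht1
  obtain ⟨K1, K2⟩ := K
  rcases hv' with ⟨hv0, hv'⟩ | ⟨hv0, hv1, hv'⟩
  · have h3 : w' = 1 ∧ ¬ spec m i' := by
      rcases hv' with hv' | hv' | hv' | hv' | hv' | hv' | hv' | hv'
      · omega
      · omega
      · omega
      · exact ⟨hv'.1, hv'.2.2⟩
      all_goals omega
    clear hv'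
    obtain ⟨h3, h4⟩ := h3
    unfold spec at h4
    rcases hE0 with hE0 | hE0 <;> rcases K2 with K2 | K2 | K2 | K2 <;> omega
  · omega

theorem good3_Dd2mm2 (h m p : ℕ) (hh : 2 ≤ h) (hm : m = 2*h) (hp : p ≤ 1) (hph : (p + h) % 2 = 0)
    (i j : ℕ) (hi : i < 2*m) (hj1 : j + 1 = h) (hs : i + 2 = 2*m)
    (hv : Valid h m i i j 1) :
    Good (f3 h m p) (mk3 h m i i j 1 hv) := by
  have hjm2 : j + 1 ≤ h := by omega
  obtain ⟨s, hs1, hs2, hs3, s'⟩ : ∃ s, s < 2*m ∧ 2*(s/2) + p = s ∧ s/2 < m ∧ (s + i = (j+1) ∨ s + i = (j+1) + 2*m) := by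
    obtain ⟨c1, c2, c3, c4⟩ := cs_spec m p i ((j+1)) (by omega) hp (by omega) (by omega) (by omega)
    refine ⟨_, c1, c2, c3, ?_⟩
    generalize cs m p i ((j+1)) = s0 at *
    clear c1 c2 c3
    omega
  obtain ⟨t, ht1, ht2, ht3, t'⟩ : ∃ t, t < 2*m ∧ 2*(t/2) + p = t ∧ t/2 < m ∧ (t + i + (j+2) = 1 ∨ t + i + (j+2) = 2*m + 1 ∨ t + i + (j+2) = 4*m + 1) := by
    obtain ⟨c1, c2, c3, c4⟩ := cs_spec m p i ((j+2)) (by omega) hp (by omega) (by omega) (by omega)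
    refine ⟨_, c1, c2, c3, ?_⟩
    generalize cs m p i ((j+2)) = s0 at *
    clear c1 c2 c3
    omega
  refine ⟨![Sum.inr 1, Sum.inl (Sum.inr ⟨s / 2, hs3⟩), Sum.inl (Sum.inr ⟨t / 2, ht3⟩)],
    ![mk3 h m i i j 0 (vA hm hi hjm2),
      mk3 h m i i (j+1) 1 (by rw [hj1]; exact vH1 hm hi),
      mk3 h m i (i+1) (j+1) 1 (by rw [hj1]; exact vX hm hi (by omega) (Or.inl rfl) (by omega))], ?_, ?_, ?_⟩
  · intro a b hab
    fin_cases a <;> fin_cases b <;> first | rfl | (exfalso; simp [Fin.ext_iff] at hab; try omega)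
  · intro k' l'
    fin_cases k'
    · rcases l' with (⟨a, ha⟩ | ⟨b, hb⟩) | ⟨u', hu'⟩
      · simp [mk3, f3]
      · simp [mk3, f3]
      · have := flipE10a (m := m) (i := i) (by omega) (t := u') hu'
        simpa [mk3, f3, Fin.ext_iff] using this
    · rcases l' with (⟨a, ha⟩ | ⟨b, hb⟩) | ⟨u', hu'⟩
      · simp [mk3, f3]
      · have := growD (i := i) (j := (j+1)) (by omega) (by omega) (by omega) hp hs1 hs2 s' b hb
        simpa [mk3, f3, Fin.ext_iff] using this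
      · simp [mk3, f3]
    · rcases l' with (⟨a, ha⟩ | ⟨b, hb⟩) | ⟨u', hu'⟩
      · simp [mk3, f3]
      · have := flipX_2mm2 (m := m) (p := p) (h := h) (i := i) (j := j) hh hm hs hj1 hp t' ht1 ht2 b hb
        simpa [mk3, f3, Fin.ext_iff] using this
      · simp [mk3, f3]
  · rintro ⟨⟨i', k', j', w'⟩, hv'⟩ hw
    have w0 := hw 0
    have w1 := hw 1
    have w2 := hw 2
    clear hw
    obtain ⟨hi', hk', hj', hv'⟩ := hv'
    simp only at hi' hk' hj' hv'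
    simp only [mk3, f3, Fin.isValue, Matrix.cons_val_zero, Matrix.cons_val_one, Matrix.cons_val, Fin.val_zero, Fin.val_one, Fin.val_two] at w0 w1 w2
    rw [hs2] at w1
    rw [ht2] at w2
    obtain ⟨e1, e2, e3, e4⟩ := uniq_Dd2mm2 hh hm hi hj1 hs s' hs1 t' ht1 hi' hk' hj' hv' w0 w1 w2
    exact Subtype.ext (by simp [mk3, e1, e2, e3, e4])

end Pool.Agent.Helper371
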