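import Pool.Agent.Helper371.SFam3Val

set_option autoImplicit false
set_option linter.unusedSimpArgs false
set_option linter.unreachableTactic false
set_option linter.unusedTactic false
set_option linter.unusedVariables false

namespace Pool.Agent.Helper371

theorem uniq_ELa {h m i i' k' j' w' s l : ℕ} (hh : 2 ≤ h) (hm : m = 2*h) (hi : i < 2*m)
    (hb1 : m < i)
    (hb2 : i + 1 < 2*m)
    (hpar : i % 2 = 0)
    (s' : s + i = h ∨ s + i = h + 2*m) (hs1 : s < 2*m)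
    (vl : (i < m ∧ l = i) ∨ (m ≤ i ∧ l + m = i))
    (hi' : i' < 2*m) (hk' : k' < 2*m) (hj' : j' ≤ m)
    (hv' : (k' = i' ∧ ((w' = 0 ∧ j' + 1 ≤ h) ∨ (w' = 0 ∧ j' = h ∧ spec m i') ∨ (w' = 1 ∧ j' = h) ∨
      (w' = 1 ∧ j' + 1 = h ∧ ¬ spec m i') ∨ (w' = 2 ∧ j' = h) ∨ (w' = 2 ∧ j' = h+1 ∧ ¬ spec m i') ∨
      (w' = 3 ∧ h + 1 ≤ j') ∨ (w' = 3 ∧ j' = h ∧ spec m i')))
  ∨ ((w' = 1 ∨ w' = 2) ∧ j' = h ∧ ((i' + 2 = m ∧ k' + 1 = m) ∨ (i' + 2 = 2*m ∧ k' + 1 = 2*m) ∨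
      (i' = 1 ∧ k' = 0) ∨ (i' = m+1 ∧ k' = m))))
    (w0 : SS m s k' j' ↔ SS m s i h)
    (w1 : ES m 0 i' w' ↔ ES m 0 i 1)
    (w2 : VS m l i' ↔ VS m l i)
    : i' = i ∧ k' = i ∧ j' = h ∧ w' = 1 := by
  have hE1 : w' ≤ 1 := esU0 w1
  clear w1
  obtain ⟨d, hd, hdi⟩ := sideL hi hi' vl w2
  clear w2 vl
  rcases hv' with ⟨hv0, hv'⟩ | ⟨hv0, hv1, hv'⟩
  · rw [hv0] at w0
    obtain ⟨g0, hg0, hgw0⟩ := posDR (d := d) (by omega) (by omega) s' hs1 (by omega) hi' (by omega) hdi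
    have q0 := posLe (hgw0 _ hj') w0 (posSelfD (J := h) (by omega) (by omega) s' hs1 (by omega) (by omega)) (by omega)
    clear hgw0
    clear s' hs1 w0
    unfold spec at *
    rcases hdi with hdi | hdi <;> rcases hg0 with hg0 | hg0 <;> rcases hv' with hv' | hv' | hv' | hv' | hv' | hv' | hv' | hv' <;> omega
  · have hcase := extra_case hv'
    clear hv'
    rcases hcase with ⟨hk1, hi1⟩ | ⟨hk1, hi1⟩
    · obtain ⟨g0, hg0, hgw0⟩ := posDR (d := d+1) (by omega) (by omega) s' hs1 (by omega) hk' (by omega) (by omega)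
      have q0 := posLe (hgw0 _ hj') w0 (posSelfD (J := h) (by omega) (by omega) s' hs1 (by omega) (by omega)) (by omega)
      clear hgw0
      clear s' hs1 w0
      unfold spec at *
      rcases hdi with hdi | hdi <;> rcases hg0 with hg0 | hg0 <;> rcases hi1 with hi1 | hi1 <;> rcases hv0 with hv0 | hv0 <;> omega
    · rcases Nat.eq_zero_or_pos d with hd0 | hd0
      · subst hd0
        obtain ⟨g0, hg0, hgw0⟩ := posDL (d := 1) (by omega) (by omega) s' hs1 (by omega) hk' (by omega) (by omega)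
        have q0 := posLe (hgw0 _ hj') w0 (posSelfD (J := h) (by omega) (by omega) s' hs1 (by omega) (by omega)) (by omega)
        clear hgw0
        clear s' hs1 w0
        unfold spec at *
        rcases hdi with hdi | hdi <;> rcases hg0 with hg0 | hg0 <;> rcases hi1 with hi1 | hi1 <;> rcases hv0 with hv0 | hv0 <;> omega
      · obtain ⟨e, rfl⟩ : ∃ e, d = e + 1 := ⟨d - 1, by omega⟩
        obtain ⟨g0, hg0, hgw0⟩ := posDR (d := e) (by omega) (by omega) s' hs1 (by omega) hk' (by omega) (by omega)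
        have q0 := posLe (hgw0 _ hj') w0 (posSelfD (J := h) (by omega) (by omega) s' hs1 (by omega) (by omega)) (by omega)
        clear hgw0
        clear s' hs1 w0
        unfold spec at *
        rcases hdi with hdi | hdi <;> rcases hg0 with hg0 | hg0 <;> rcases hi1 with hi1 | hi1 <;> rcases hv0 with hv0 | hv0 <;> omega

theorem good3_ELa (h m p : ℕ) (hh : 2 ≤ h) (hm : m = 2*h) (hp : p ≤ 1) (hph : (p + h) % 2 = 0)
    (i : ℕ) (hi : i < 2*m) (hb1 : m < i) (hb2 : i + 1 < 2*m) (hpar : i % 2 = 0)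
    (hv : Valid h m i i h 1) :
    Good (f3 h m p) (mk3 h m i i h 1 hv) := by
  have hjm : (h-1) + 1 = h := by omega
  have hs : ¬ spec m i := by unfold spec; omega
  obtain ⟨s, hs1, hs2, hs3, s'⟩ : ∃ s, s < 2*m ∧ 2*(s/2) + p = s ∧ s/2 < m ∧ (s + i = h ∨ s + i = h + 2*m) := by
    obtain ⟨c1, c2, c3, c4⟩ := cs_spec m p i (h) (by omega) hp (by omega) (by omega) (by omega)
    refine ⟨_, c1, c2, c3, ?_⟩
    generalize cs m p i (h) = s0 at *
    clear c1 c2 c3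
    omega
  have hnl := pv_spec m i hi
  generalize hpvl : pv m i = i2 at *
  clear hpvl
  have hil : i2 < 2*m := by omega
  have hes : i < m ↔ i2 < m := by omega
  obtain ⟨hl, vl⟩ := bL_spec m i hi
  generalize hbdl : bL m i = l at *
  clear hbdl
  refine ⟨![Sum.inl (Sum.inr ⟨s / 2, hs3⟩), Sum.inr 0, Sum.inl (Sum.inl ⟨l, hl⟩)],
    ![mk3 h m i i (h-1) 1 (vR1 hm hi hjm hs),
      mk3 h m i i h 2 (vH2 hm hi),
      mk3 h m i2 i2 h 1 (vH1 hm hil)], ?_, ?_, ?_⟩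
  · intro a b hab
    fin_cases a <;> fin_cases b <;> first | rfl | (exfalso; simp [Fin.ext_iff] at hab; try omega)
  · intro k' l'
    fin_cases k'
    · rcases l' with (⟨a, ha⟩ | ⟨b, hb⟩) | ⟨u', hu'⟩
      · simp [mk3, f3]
      · have := growD (i := i) (j := h) (by omega) (by omega) (by omega) hp hs1 hs2 s' b hb
        rw [iff_comm (a := SS m (2*b + p) i (h-1))] at this
        simpa [mk3, f3, Fin.ext_iff] using this
      · simp [mk3, f3]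
    · rcases l' with (⟨a, ha⟩ | ⟨b, hb⟩) | ⟨u', hu'⟩
      · simp [mk3, f3]
      · simp [mk3, f3]
      · have := flipE12 (m := m) (i := i) (t := u') hu'
        simpa [mk3, f3, Fin.ext_iff] using this
    · rcases l' with (⟨a, ha⟩ | ⟨b, hb⟩) | ⟨u', hu'⟩
      · have := flipVL hi hnl vl a ha
        simpa [mk3, f3, Fin.ext_iff] using this
      · have := slideL (p := p) (j := h) hi (by omega) hp hnl (by omega) b hb
        simpa [mk3, f3] using this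
      · have := ESs hes (w := 1) (t := u')
        simpa [mk3, f3] using this
  · rintro ⟨⟨i', k', j', w'⟩, hv'⟩ hw
    have w0 := hw 0
    have w1 := hw 1
    have w2 := hw 2
    clear hw
    obtain ⟨hi', hk', hj', hv'⟩ := hv'
    simp only at hi' hk' hj' hv'
    simp only [mk3, f3, Fin.isValue, Matrix.cons_val_zero, Matrix.cons_val_one, Matrix.cons_val, Fin.val_zero, Fin.val_one, Fin.val_two] at w0 w1 w2
    rw [hs2] at w0
    obtain ⟨e1, e2, e3, e4⟩ := uniq_ELa hh hm hi hb1 hb2 hpar s' hs1 vl hi' hk' hj' hv' w0 w1 w2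
    exact Subtype.ext (by simp [mk3, e1, e2, e3, e4])

theorem uniq_ELb {h m i i' k' j' w' s l : ℕ} (hh : 2 ≤ h) (hm : m = 2*h) (hi : i < 2*m)
    (hb1 : 0 < i)
    (hb2 : i + 1 < m)
    (hpar : i % 2 = 0)
    (s' : s + i = h ∨ s + i = h + 2*m) (hs1 : s < 2*m)
    (vl : (i < m ∧ l = i) ∨ (m ≤ i ∧ l + m = i))
    (hi' : i' < 2*m) (hk' : k' < 2*m) (hj' : j' ≤ m)
    (hv' : (k' = i' ∧ ((w' = 0 ∧ j' + 1 ≤ h) ∨ (w' = 0 ∧ j' = h ∧ spec m i') ∨ (w' = 1 ∧ j' = h) ∨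
      (w' = 1 ∧ j' + 1 = h ∧ ¬ spec m i') ∨ (w' = 2 ∧ j' = h) ∨ (w' = 2 ∧ j' = h+1 ∧ ¬ spec m i') ∨
      (w' = 3 ∧ h + 1 ≤ j') ∨ (w' = 3 ∧ j' = h ∧ spec m i')))
  ∨ ((w' = 1 ∨ w' = 2) ∧ j' = h ∧ ((i' + 2 = m ∧ k' + 1 = m) ∨ (i' + 2 = 2*m ∧ k' + 1 = 2*m) ∨
      (i' = 1 ∧ k' = 0) ∨ (i' = m+1 ∧ k' = m))))
    (w0 : SS m s k' j' ↔ SS m s i h)
    (w1 : ES m 0 i' w' ↔ ES m 0 i 1)
    (w2 : VS m l i' ↔ VS m l i)
    : i' = i ∧ k' = i ∧ j' = h ∧ w' = 1 := by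
  have hE1 : w' ≤ 1 := esU0 w1
  clear w1
  obtain ⟨d, hd, hdi⟩ := sideL hi hi' vl w2
  clear w2 vl
  rcases hv' with ⟨hv0, hv'⟩ | ⟨hv0, hv1, hv'⟩
  · rw [hv0] at w0
    obtain ⟨g0, hg0, hgw0⟩ := posDR (d := d) (by omega) (by omega) s' hs1 (by omega) hi' (by omega) hdi
    have q0 := posLe (hgw0 _ hj') w0 (posSelfD (J := h) (by omega) (by omega) s' hs1 (by omega) (by omega)) (by omega)
    clear hgw0
    clear s' hs1 w0
    unfold spec at *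
    rcases hdi with hdi | hdi <;> rcases hg0 with hg0 | hg0 <;> rcases hv' with hv' | hv' | hv' | hv' | hv' | hv' | hv' | hv' <;> omega
  · have hcase := extra_case hv'
    clear hv'
    rcases hcase with ⟨hk1, hi1⟩ | ⟨hk1, hi1⟩
    · obtain ⟨g0, hg0, hgw0⟩ := posDR (d := d+1) (by omega) (by omega) s' hs1 (by omega) hk' (by omega) (by omega)
      have q0 := posLe (hgw0 _ hj') w0 (posSelfD (J := h) (by omega) (by omega) s' hs1 (by omega) (by omega)) (by omega)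
      clear hgw0
      clear s' hs1 w0
      unfold spec at *
      rcases hdi with hdi | hdi <;> rcases hg0 with hg0 | hg0 <;> rcases hi1 with hi1 | hi1 <;> rcases hv0 with hv0 | hv0 <;> omega
    · rcases Nat.eq_zero_or_pos d with hd0 | hd0
      · subst hd0
        obtain ⟨g0, hg0, hgw0⟩ := posDL (d := 1) (by omega) (by omega) s' hs1 (by omega) hk' (by omega) (by omega)
        have q0 := posLe (hgw0 _ hj') w0 (posSelfD (J := h) (by omega) (by omega) s' hs1 (by omega) (by omega)) (by omega)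
        clear hgw0
        clear s' hs1 w0
        unfold spec at *
        rcases hdi with hdi | hdi <;> rcases hg0 with hg0 | hg0 <;> rcases hi1 with hi1 | hi1 <;> rcases hv0 with hv0 | hv0 <;> omega
      · obtain ⟨e, rfl⟩ : ∃ e, d = e + 1 := ⟨d - 1, by omega⟩
        obtain ⟨g0, hg0, hgw0⟩ := posDR (d := e) (by omega) (by omega) s' hs1 (by omega) hk' (by omega) (by omega)
        have q0 := posLe (hgw0 _ hj') w0 (posSelfD (J := h) (by omega) (by omega) s' hs1 (by omega) (by omega)) (by omega)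
        clear hgw0
        clear s' hs1 w0
        unfold spec at *
        rcases hdi with hdi | hdi <;> rcases hg0 with hg0 | hg0 <;> rcases hi1 with hi1 | hi1 <;> rcases hv0 with hv0 | hv0 <;> omega

theorem good3_ELb (h m p : ℕ) (hh : 2 ≤ h) (hm : m = 2*h) (hp : p ≤ 1) (hph : (p + h) % 2 = 0)
    (i : ℕ) (hi : i < 2*m) (hb1 : 0 < i) (hb2 : i + 1 < m) (hpar : i % 2 = 0)
    (hv : Valid h m i i h 1) :
    Good (f3 h m p) (mk3 h m i i h 1 hv) := by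
  have hjm : (h-1) + 1 = h := by omega
  have hs : ¬ spec m i := by unfold spec; omega
  obtain ⟨s, hs1, hs2, hs3, s'⟩ : ∃ s, s < 2*m ∧ 2*(s/2) + p = s ∧ s/2 < m ∧ (s + i = h ∨ s + i = h + 2*m) := by
    obtain ⟨c1, c2, c3, c4⟩ := cs_spec m p i (h) (by omega) hp (by omega) (by omega) (by omega)
    refine ⟨_, c1, c2, c3, ?_⟩
    generalize cs m p i (h) = s0 at *
    clear c1 c2 c3
    omega
  have hnl := pv_spec m i hi
  generalize hpvl : pv m i = i2 at *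
  clear hpvl
  have hil : i2 < 2*m := by omega
  have hes : i < m ↔ i2 < m := by omega
  obtain ⟨hl, vl⟩ := bL_spec m i hi
  generalize hbdl : bL m i = l at *
  clear hbdl
  refine ⟨![Sum.inl (Sum.inr ⟨s / 2, hs3⟩), Sum.inr 0, Sum.inl (Sum.inl ⟨l, hl⟩)],
    ![mk3 h m i i (h-1) 1 (vR1 hm hi hjm hs),
      mk3 h m i i h 2 (vH2 hm hi),
      mk3 h m i2 i2 h 1 (vH1 hm hil)], ?_, ?_, ?_⟩
  · intro a b hab
    fin_cases a <;> fin_cases b <;> first | rfl | (exfalso; simp [Fin.ext_iff] at hab; try omega)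
  · intro k' l'
    fin_cases k'
    · rcases l' with (⟨a, ha⟩ | ⟨b, hb⟩) | ⟨u', hu'⟩
      · simp [mk3, f3]
      · have := growD (i := i) (j := h) (by omega) (by omega) (by omega) hp hs1 hs2 s' b hb
        rw [iff_comm (a := SS m (2*b + p) i (h-1))] at this
        simpa [mk3, f3, Fin.ext_iff] using this
      · simp [mk3, f3]
    · rcases l' with (⟨a, ha⟩ | ⟨b, hb⟩) | ⟨u', hu'⟩
      · simp [mk3, f3]
      · simp [mk3, f3]
      · have := flipE12 (m := m) (i := i) (t := u') hu'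
        simpa [mk3, f3, Fin.ext_iff] using this
    · rcases l' with (⟨a, ha⟩ | ⟨b, hb⟩) | ⟨u', hu'⟩
      · have := flipVL hi hnl vl a ha
        simpa [mk3, f3, Fin.ext_iff] using this
      · have := slideL (p := p) (j := h) hi (by omega) hp hnl (by omega) b hb
        simpa [mk3, f3] using this
      · have := ESs hes (w := 1) (t := u')
        simpa [mk3, f3] using this
  · rintro ⟨⟨i', k', j', w'⟩, hv'⟩ hw
    have w0 := hw 0
    have w1 := hw 1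
    have w2 := hw 2
    clear hw
    obtain ⟨hi', hk', hj', hv'⟩ := hv'
    simp only at hi' hk' hj' hv'
    simp only [mk3, f3, Fin.isValue, Matrix.cons_val_zero, Matrix.cons_val_one, Matrix.cons_val, Fin.val_zero, Fin.val_one, Fin.val_two] at w0 w1 w2
    rw [hs2] at w0
    obtain ⟨e1, e2, e3, e4⟩ := uniq_ELb hh hm hi hb1 hb2 hpar s' hs1 vl hi' hk' hj' hv' w0 w1 w2
    exact Subtype.ext (by simp [mk3, e1, e2, e3, e4])

theorem uniq_ERa {h m i i' k' j' w' s l : ℕ} (hh : 2 ≤ h) (hm : m = 2*h) (hi : i < 2*m)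
    (hb1 : m < i)
    (hb2 : i + 1 < 2*m)
    (hpar : i % 2 = 1)
    (s' : s + i + h = 1 ∨ s + i + h = 2*m + 1 ∨ s + i + h = 4*m + 1) (hs1 : s < 2*m)
    (vl : (i + 1 < m ∧ l = i + 1) ∨ (m ≤ i + 1 ∧ i + 1 < 2*m ∧ l + m = i + 1) ∨ (i + 1 = 2*m ∧ l = 0))
    (hi' : i' < 2*m) (hk' : k' < 2*m) (hj' : j' ≤ m)
    (hv' : (k' = i' ∧ ((w' = 0 ∧ j' + 1 ≤ h) ∨ (w' = 0 ∧ j' = h ∧ spec m i') ∨ (w' = 1 ∧ j' = h) ∨
      (w' = 1 ∧ j' + 1 = h ∧ ¬ spec m i') ∨ (w' = 2 ∧ j' = h) ∨ (w' = 2 ∧ j' = h+1 ∧ ¬ spec m i') ∨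
      (w' = 3 ∧ h + 1 ≤ j') ∨ (w' = 3 ∧ j' = h ∧ spec m i')))
  ∨ ((w' = 1 ∨ w' = 2) ∧ j' = h ∧ ((i' + 2 = m ∧ k' + 1 = m) ∨ (i' + 2 = 2*m ∧ k' + 1 = 2*m) ∨
      (i' = 1 ∧ k' = 0) ∨ (i' = m+1 ∧ k' = m))))
    (w0 : SS m s k' j' ↔ SS m s i h)
    (w1 : ES m 0 i' w' ↔ ES m 0 i 1)
    (w2 : VS m l i' ↔ VS m l i)
    : i' = i ∧ k' = i ∧ j' = h ∧ w' = 1 := by
  have hE1 : w' ≤ 1 := esU0 w1
  clear w1
  obtain ⟨d, hd, hdi⟩ := sideR hi hi' vl w2
  clear w2 vl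
  rcases hv' with ⟨hv0, hv'⟩ | ⟨hv0, hv1, hv'⟩
  · rw [hv0] at w0
    obtain ⟨g0, hg0, hgw0⟩ := posUL (d := d) (by omega) (by omega) s' hs1 (by omega) hi' (by omega) hdi
    have q0 := posLe (hgw0 _ hj') w0 (posSelfU (J := h) (by omega) (by omega) s' hs1 (by omega) (by omega)) (by omega)
    clear hgw0
    clear s' hs1 w0
    unfold spec at *
    rcases hdi with hdi | hdi <;> rcases hg0 with hg0 | hg0 <;> rcases hv' with hv' | hv' | hv' | hv' | hv' | hv' | hv' | hv' <;> omega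
  · have hcase := extra_case hv'
    clear hv'
    rcases hcase with ⟨hk1, hi1⟩ | ⟨hk1, hi1⟩
    · rcases Nat.eq_zero_or_pos d with hd0 | hd0
      · subst hd0
        obtain ⟨g0, hg0, hgw0⟩ := posUR (d := 1) (by omega) (by omega) s' hs1 (by omega) hk' (by omega) (by omega)
        have q0 := posLe (hgw0 _ hj') w0 (posSelfU (J := h) (by omega) (by omega) s' hs1 (by omega) (by omega)) (by omega)
        clear hgw0
        clear s' hs1 w0
        unfold spec at *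
        rcases hdi with hdi | hdi <;> rcases hg0 with hg0 | hg0 <;> rcases hi1 with hi1 | hi1 <;> rcases hv0 with hv0 | hv0 <;> omega
      · obtain ⟨e, rfl⟩ : ∃ e, d = e + 1 := ⟨d - 1, by omega⟩
        obtain ⟨g0, hg0, hgw0⟩ := posUL (d := e) (by omega) (by omega) s' hs1 (by omega) hk' (by omega) (by omega)
        have q0 := posLe (hgw0 _ hj') w0 (posSelfU (J := h) (by omega) (by omega) s' hs1 (by omega) (by omega)) (by omega)
        clear hgw0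
        clear s' hs1 w0
        unfold spec at *
        rcases hdi with hdi | hdi <;> rcases hg0 with hg0 | hg0 <;> rcases hi1 with hi1 | hi1 <;> rcases hv0 with hv0 | hv0 <;> omega
    · obtain ⟨g0, hg0, hgw0⟩ := posUL (d := d+1) (by omega) (by omega) s' hs1 (by omega) hk' (by omega) (by omega)
      have q0 := posLe (hgw0 _ hj') w0 (posSelfU (J := h) (by omega) (by omega) s' hs1 (by omega) (by omega)) (by omega)
      clear hgw0
      clear s' hs1 w0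
      unfold spec at *
      rcases hdi with hdi | hdi <;> rcases hg0 with hg0 | hg0 <;> rcases hi1 with hi1 | hi1 <;> rcases hv0 with hv0 | hv0 <;> omega

theorem good3_ERa (h m p : ℕ) (hh : 2 ≤ h) (hm : m = 2*h) (hp : p ≤ 1) (hph : (p + h) % 2 = 0)
    (i : ℕ) (hi : i < 2*m) (hb1 : m < i) (hb2 : i + 1 < 2*m) (hpar : i % 2 = 1)
    (hv : Valid h m i i h 1) :
    Good (f3 h m p) (mk3 h m i i h 1 hv) := by
  have hjm : (h-1) + 1 = h := by omega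
  have hs : ¬ spec m i := by unfold spec; omega
  obtain ⟨s, hs1, hs2, hs3, s'⟩ : ∃ s, s < 2*m ∧ 2*(s/2) + p = s ∧ s/2 < m ∧ (s + i + h = 1 ∨ s + i + h = 2*m + 1 ∨ s + i + h = 4*m + 1) := by
    obtain ⟨c1, c2, c3, c4⟩ := cs_spec m p i (h) (by omega) hp (by omega) (by omega) (by omega)
    refine ⟨_, c1, c2, c3, ?_⟩
    generalize cs m p i (h) = s0 at *
    clear c1 c2 c3
    omega
  have hnl := nx_spec m i hi
  generalize hpvl : nx m i = i2 at *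
  clear hpvl
  have hil : i2 < 2*m := by omega
  have hes : i < m ↔ i2 < m := by omega
  obtain ⟨hl, vl⟩ := bR_spec m i hi
  generalize hbdl : bR m i = l at *
  clear hbdl
  refine ⟨![Sum.inl (Sum.inr ⟨s / 2, hs3⟩), Sum.inr 0, Sum.inl (Sum.inl ⟨l, hl⟩)],
    ![mk3 h m i i (h-1) 1 (vR1 hm hi hjm hs),
      mk3 h m i i h 2 (vH2 hm hi),
      mk3 h m i2 i2 h 1 (vH1 hm hil)], ?_, ?_, ?_⟩
  · intro a b hab
    fin_cases a <;> fin_cases b <;> first | rfl | (exfalso; simp [Fin.ext_iff] at hab; try omega)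
  · intro k' l'
    fin_cases k'
    · rcases l' with (⟨a, ha⟩ | ⟨b, hb⟩) | ⟨u', hu'⟩
      · simp [mk3, f3]
      · have := growU (i := i) (j := h) (by omega) (by omega) (by omega) hp hs1 hs2 s' b hb
        rw [iff_comm (a := SS m (2*b + p) i (h-1))] at this
        simpa [mk3, f3, Fin.ext_iff] using this
      · simp [mk3, f3]
    · rcases l' with (⟨a, ha⟩ | ⟨b, hb⟩) | ⟨u', hu'⟩
      · simp [mk3, f3]
      · simp [mk3, f3]
      · have := flipE12 (m := m) (i := i) (t := u') hu'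
        simpa [mk3, f3, Fin.ext_iff] using this
    · rcases l' with (⟨a, ha⟩ | ⟨b, hb⟩) | ⟨u', hu'⟩
      · have := flipVR hi hnl vl a ha
        simpa [mk3, f3, Fin.ext_iff] using this
      · have := slideR (p := p) (j := h) hi (by omega) hp hnl (by omega) b hb
        simpa [mk3, f3] using this
      · have := ESs hes (w := 1) (t := u')
        simpa [mk3, f3] using this
  · rintro ⟨⟨i', k', j', w'⟩, hv'⟩ hw
    have w0 := hw 0
    have w1 := hw 1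
    have w2 := hw 2
    clear hw
    obtain ⟨hi', hk', hj', hv'⟩ := hv'
    simp only at hi' hk' hj' hv'
    simp only [mk3, f3, Fin.isValue, Matrix.cons_val_zero, Matrix.cons_val_one, Matrix.cons_val, Fin.val_zero, Fin.val_one, Fin.val_two] at w0 w1 w2
    rw [hs2] at w0
    obtain ⟨e1, e2, e3, e4⟩ := uniq_ERa hh hm hi hb1 hb2 hpar s' hs1 vl hi' hk' hj' hv' w0 w1 w2
    exact Subtype.ext (by simp [mk3, e1, e2, e3, e4])

theorem uniq_ERb {h m i i' k' j' w' s l : ℕ} (hh : 2 ≤ h) (hm : m = 2*h) (hi : i < 2*m)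
    (hb1 : 0 < i)
    (hb2 : i + 1 < m)
    (hpar : i % 2 = 1)
    (s' : s + i + h = 1 ∨ s + i + h = 2*m + 1 ∨ s + i + h = 4*m + 1) (hs1 : s < 2*m)
    (vl : (i + 1 < m ∧ l = i + 1) ∨ (m ≤ i + 1 ∧ i + 1 < 2*m ∧ l + m = i + 1) ∨ (i + 1 = 2*m ∧ l = 0))
    (hi' : i' < 2*m) (hk' : k' < 2*m) (hj' : j' ≤ m)
    (hv' : (k' = i' ∧ ((w' = 0 ∧ j' + 1 ≤ h) ∨ (w' = 0 ∧ j' = h ∧ spec m i') ∨ (w' = 1 ∧ j' = h) ∨
      (w' = 1 ∧ j' + 1 = h ∧ ¬ spec m i') ∨ (w' = 2 ∧ j' = h) ∨ (w' = 2 ∧ j' = h+1 ∧ ¬ spec m i') ∨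
      (w' = 3 ∧ h + 1 ≤ j') ∨ (w' = 3 ∧ j' = h ∧ spec m i')))
  ∨ ((w' = 1 ∨ w' = 2) ∧ j' = h ∧ ((i' + 2 = m ∧ k' + 1 = m) ∨ (i' + 2 = 2*m ∧ k' + 1 = 2*m) ∨
      (i' = 1 ∧ k' = 0) ∨ (i' = m+1 ∧ k' = m))))
    (w0 : SS m s k' j' ↔ SS m s i h)
    (w1 : ES m 0 i' w' ↔ ES m 0 i 1)
    (w2 : VS m l i' ↔ VS m l i)
    : i' = i ∧ k' = i ∧ j' = h ∧ w' = 1 := by
  have hE1 : w' ≤ 1 := esU0 w1
  clear w1
  obtain ⟨d, hd, hdi⟩ := sideR hi hi' vl w2
  clear w2 vl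
  rcases hv' with ⟨hv0, hv'⟩ | ⟨hv0, hv1, hv'⟩
  · rw [hv0] at w0
    obtain ⟨g0, hg0, hgw0⟩ := posUL (d := d) (by omega) (by omega) s' hs1 (by omega) hi' (by omega) hdi
    have q0 := posLe (hgw0 _ hj') w0 (posSelfU (J := h) (by omega) (by omega) s' hs1 (by omega) (by omega)) (by omega)
    clear hgw0
    clear s' hs1 w0
    unfold spec at *
    rcases hdi with hdi | hdi <;> rcases hg0 with hg0 | hg0 <;> rcases hv' with hv' | hv' | hv' | hv' | hv' | hv' | hv' | hv' <;> omega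
  · have hcase := extra_case hv'
    clear hv'
    rcases hcase with ⟨hk1, hi1⟩ | ⟨hk1, hi1⟩
    · rcases Nat.eq_zero_or_pos d with hd0 | hd0
      · subst hd0
        obtain ⟨g0, hg0, hgw0⟩ := posUR (d := 1) (by omega) (by omega) s' hs1 (by omega) hk' (by omega) (by omega)
        have q0 := posLe (hgw0 _ hj') w0 (posSelfU (J := h) (by omega) (by omega) s' hs1 (by omega) (by omega)) (by omega)
        clear hgw0
        clear s' hs1 w0
        unfold spec at *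
        rcases hdi with hdi | hdi <;> rcases hg0 with hg0 | hg0 <;> rcases hi1 with hi1 | hi1 <;> rcases hv0 with hv0 | hv0 <;> omega
      · obtain ⟨e, rfl⟩ : ∃ e, d = e + 1 := ⟨d - 1, by omega⟩
        obtain ⟨g0, hg0, hgw0⟩ := posUL (d := e) (by omega) (by omega) s' hs1 (by omega) hk' (by omega) (by omega)
        have q0 := posLe (hgw0 _ hj') w0 (posSelfU (J := h) (by omega) (by omega) s' hs1 (by omega) (by omega)) (by omega)
        clear hgw0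
        clear s' hs1 w0
        unfold spec at *
        rcases hdi with hdi | hdi <;> rcases hg0 with hg0 | hg0 <;> rcases hi1 with hi1 | hi1 <;> rcases hv0 with hv0 | hv0 <;> omega
    · obtain ⟨g0, hg0, hgw0⟩ := posUL (d := d+1) (by omega) (by omega) s' hs1 (by omega) hk' (by omega) (by omega)
      have q0 := posLe (hgw0 _ hj') w0 (posSelfU (J := h) (by omega) (by omega) s' hs1 (by omega) (by omega)) (by omega)
      clear hgw0
      clear s' hs1 w0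
      unfold spec at *
      rcases hdi with hdi | hdi <;> rcases hg0 with hg0 | hg0 <;> rcases hi1 with hi1 | hi1 <;> rcases hv0 with hv0 | hv0 <;> omega

theorem good3_ERb (h m p : ℕ) (hh : 2 ≤ h) (hm : m = 2*h) (hp : p ≤ 1) (hph : (p + h) % 2 = 0)
    (i : ℕ) (hi : i < 2*m) (hb1 : 0 < i) (hb2 : i + 1 < m) (hpar : i % 2 = 1)
    (hv : Valid h m i i h 1) :
    Good (f3 h m p) (mk3 h m i i h 1 hv) := by
  have hjm : (h-1) + 1 = h := by omega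
  have hs : ¬ spec m i := by unfold spec; omega
  obtain ⟨s, hs1, hs2, hs3, s'⟩ : ∃ s, s < 2*m ∧ 2*(s/2) + p = s ∧ s/2 < m ∧ (s + i + h = 1 ∨ s + i + h = 2*m + 1 ∨ s + i + h = 4*m + 1) := by
    obtain ⟨c1, c2, c3, c4⟩ := cs_spec m p i (h) (by omega) hp (by omega) (by omega) (by omega)
    refine ⟨_, c1, c2, c3, ?_⟩
    generalize cs m p i (h) = s0 at *
    clear c1 c2 c3
    omega
  have hnl := nx_spec m i hi
  generalize hpvl : nx m i = i2 at *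
  clear hpvl
  have hil : i2 < 2*m := by omega
  have hes : i < m ↔ i2 < m := by omega
  obtain ⟨hl, vl⟩ := bR_spec m i hi
  generalize hbdl : bR m i = l at *
  clear hbdl
  refine ⟨![Sum.inl (Sum.inr ⟨s / 2, hs3⟩), Sum.inr 0, Sum.inl (Sum.inl ⟨l, hl⟩)],
    ![mk3 h m i i (h-1) 1 (vR1 hm hi hjm hs),
      mk3 h m i i h 2 (vH2 hm hi),
      mk3 h m i2 i2 h 1 (vH1 hm hil)], ?_, ?_, ?_⟩
  · intro a b hab
    fin_cases a <;> fin_cases b <;> first | rfl | (exfalso; simp [Fin.ext_iff] at hab; try omega)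
  · intro k' l'
    fin_cases k'
    · rcases l' with (⟨a, ha⟩ | ⟨b, hb⟩) | ⟨u', hu'⟩
      · simp [mk3, f3]
      · have := growU (i := i) (j := h) (by omega) (by omega) (by omega) hp hs1 hs2 s' b hb
        rw [iff_comm (a := SS m (2*b + p) i (h-1))] at this
        simpa [mk3, f3, Fin.ext_iff] using this
      · simp [mk3, f3]
    · rcases l' with (⟨a, ha⟩ | ⟨b, hb⟩) | ⟨u', hu'⟩
      · simp [mk3, f3]
      · simp [mk3, f3]
      · have := flipE12 (m := m) (i := i) (t := u') hu'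
        simpa [mk3, f3, Fin.ext_iff] using this
    · rcases l' with (⟨a, ha⟩ | ⟨b, hb⟩) | ⟨u', hu'⟩
      · have := flipVR hi hnl vl a ha
        simpa [mk3, f3, Fin.ext_iff] using this
      · have := slideR (p := p) (j := h) hi (by omega) hp hnl (by omega) b hb
        simpa [mk3, f3] using this
      · have := ESs hes (w := 1) (t := u')
        simpa [mk3, f3] using this
  · rintro ⟨⟨i', k', j', w'⟩, hv'⟩ hw
    have w0 := hw 0
    have w1 := hw 1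
    have w2 := hw 2
    clear hw
    obtain ⟨hi', hk', hj', hv'⟩ := hv'
    simp only at hi' hk' hj' hv'
    simp only [mk3, f3, Fin.isValue, Matrix.cons_val_zero, Matrix.cons_val_one, Matrix.cons_val, Fin.val_zero, Fin.val_one, Fin.val_two] at w0 w1 w2
    rw [hs2] at w0
    obtain ⟨e1, e2, e3, e4⟩ := uniq_ERb hh hm hi hb1 hb2 hpar s' hs1 vl hi' hk' hj' hv' w0 w1 w2
    exact Subtype.ext (by simp [mk3, e1, e2, e3, e4])

theorem uniq_N0 {h m i i' k' j' w' l : ℕ} (hh : 2 ≤ h) (hm : m = 2*h) (hi : i < 2*m)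
    (hs : i = 0)
    (vl : (i + 1 < m ∧ l = i + 1) ∨ (m ≤ i + 1 ∧ i + 1 < 2*m ∧ l + m = i + 1) ∨ (i + 1 = 2*m ∧ l = 0))
    (hi' : i' < 2*m) (hk' : k' < 2*m) (hj' : j' ≤ m)
    (hv' : (k' = i' ∧ ((w' = 0 ∧ j' + 1 ≤ h) ∨ (w' = 0 ∧ j' = h ∧ spec m i') ∨ (w' = 1 ∧ j' = h) ∨
      (w' = 1 ∧ j' + 1 = h ∧ ¬ spec m i') ∨ (w' = 2 ∧ j' = h) ∨ (w' = 2 ∧ j' = h+1 ∧ ¬ spec m i') ∨
      (w' = 3 ∧ h + 1 ≤ j') ∨ (w' = 3 ∧ j' = h ∧ spec m i')))
  ∨ ((w' = 1 ∨ w' = 2) ∧ j' = h ∧ ((i' + 2 = m ∧ k' + 1 = m) ∨ (i' + 2 = 2*m ∧ k' + 1 = 2*m) ∨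
      (i' = 1 ∧ k' = 0) ∨ (i' = m+1 ∧ k' = m))))
    (w0 : ES m 2 i' w' ↔ ES m 2 i 1)
    (w1 : ES m 0 i' w' ↔ ES m 0 i 1)
    (w2 : VS m l i' ↔ VS m l i)
    : i' = i ∧ k' = i ∧ j' = h ∧ w' = 1 := by
  have hE0 := esUb1 (i := i) (by omega) w0
  clear w0
  have hE1 : w' ≤ 1 := esU0 w1
  clear w1
  obtain ⟨d, hd, hdi⟩ := sideR hi hi' vl w2
  clear w2 vl
  rcases hv' with ⟨hv0, hv'⟩ | ⟨hv0, hv1, hv'⟩
  · unfold spec at *
    rcases hdi with hdi | hdi <;> rcases hE0 with hE0 | hE0 <;> rcases hv' with hv' | hv' | hv' | hv' | hv' | hv' | hv' | hv' <;> omega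
  · have hcase := extra_case hv'
    clear hv'
    rcases hcase with ⟨hk1, hi1⟩ | ⟨hk1, hi1⟩
    · unfold spec at *
      rcases hdi with hdi | hdi <;> rcases hE0 with hE0 | hE0 <;> rcases hi1 with hi1 | hi1 <;> rcases hv0 with hv0 | hv0 <;> omega
    · unfold spec at *
      rcases hdi with hdi | hdi <;> rcases hE0 with hE0 | hE0 <;> rcases hi1 with hi1 | hi1 <;> rcases hv0 with hv0 | hv0 <;> omega

theorem good3_N0 (h m p : ℕ) (hh : 2 ≤ h) (hm : m = 2*h) (hp : p ≤ 1) (hph : (p + h) % 2 = 0)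
    (i : ℕ) (hi : i < 2*m) (hs : i = 0)
    (hv : Valid h m i i h 1) :
    Good (f3 h m p) (mk3 h m i i h 1 hv) := by
  have hsp : spec m i := by unfold spec; omega
  have hnl := nx_spec m i hi
  generalize hpvl : nx m i = i2 at *
  clear hpvl
  have hil : i2 < 2*m := by omega
  have hes : i < m ↔ i2 < m := by omega
  have hx : (i2 + 2 = m ∧ i + 1 = m) ∨ (i2 + 2 = 2*m ∧ i + 1 = 2*m) ∨ (i2 = 1 ∧ i = 0) ∨ (i2 = m+1 ∧ i = m) := by omega
  obtain ⟨hl, vl⟩ := bR_spec m i hi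
  generalize hbdl : bR m i = l at *
  clear hbdl
  refine ⟨![Sum.inr 2, Sum.inr 0, Sum.inl (Sum.inl ⟨l, hl⟩)],
    ![mk3 h m i i h 0 (vS0 hm hi hsp),
      mk3 h m i i h 2 (vH2 hm hi),
      mk3 h m i2 i h 1 (vX hm hil hi (Or.inl rfl) hx)], ?_, ?_, ?_⟩
  · intro a b hab
    fin_cases a <;> fin_cases b <;> first | rfl | (exfalso; simp [Fin.ext_iff] at hab; try omega)
  · intro k' l'
    fin_cases k'
    · rcases l' with (⟨a, ha⟩ | ⟨b, hb⟩) | ⟨u', hu'⟩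
      · simp [mk3, f3]
      · simp [mk3, f3]
      · have := flipE10b (m := m) (i := i) (by omega) (t := u') hu'
        simpa [mk3, f3, Fin.ext_iff] using this
    · rcases l' with (⟨a, ha⟩ | ⟨b, hb⟩) | ⟨u', hu'⟩
      · simp [mk3, f3]
      · simp [mk3, f3]
      · have := flipE12 (m := m) (i := i) (t := u') hu'
        simpa [mk3, f3, Fin.ext_iff] using this
    · rcases l' with (⟨a, ha⟩ | ⟨b, hb⟩) | ⟨u', hu'⟩
      · have := flipVR hi hnl vl a ha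
        simpa [mk3, f3, Fin.ext_iff] using this
      · simp [mk3, f3]
      · have := ESs hes (w := 1) (t := u')
        simpa [mk3, f3] using this
  · rintro ⟨⟨i', k', j', w'⟩, hv'⟩ hw
    have w0 := hw 0
    have w1 := hw 1
    have w2 := hw 2
    clear hw
    obtain ⟨hi', hk', hj', hv'⟩ := hv'
    simp only at hi' hk' hj' hv'
    simp only [mk3, f3, Fin.isValue, Matrix.cons_val_zero, Matrix.cons_val_one, Matrix.cons_val, Fin.val_zero, Fin.val_one, Fin.val_two] at w0 w1 w2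
    obtain ⟨e1, e2, e3, e4⟩ := uniq_N0 hh hm hi hs vl hi' hk' hj' hv' w0 w1 w2
    exact Subtype.ext (by simp [mk3, e1, e2, e3, e4])

theorem uniq_Nm {h m i i' k' j' w' l : ℕ} (hh : 2 ≤ h) (hm : m = 2*h) (hi : i < 2*m)
    (hs : i = m)
    (vl : (i + 1 < m ∧ l = i + 1) ∨ (m ≤ i + 1 ∧ i + 1 < 2*m ∧ l + m = i + 1) ∨ (i + 1 = 2*m ∧ l = 0))
    (hi' : i' < 2*m) (hk' : k' < 2*m) (hj' : j' ≤ m)
    (hv' : (k' = i' ∧ ((w' = 0 ∧ j' + 1 ≤ h) ∨ (w' = 0 ∧ j' = h ∧ spec m i') ∨ (w' = 1 ∧ j' = h) ∨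
      (w' = 1 ∧ j' + 1 = h ∧ ¬ spec m i') ∨ (w' = 2 ∧ j' = h) ∨ (w' = 2 ∧ j' = h+1 ∧ ¬ spec m i') ∨
      (w' = 3 ∧ h + 1 ≤ j') ∨ (w' = 3 ∧ j' = h ∧ spec m i')))
  ∨ ((w' = 1 ∨ w' = 2) ∧ j' = h ∧ ((i' + 2 = m ∧ k' + 1 = m) ∨ (i' + 2 = 2*m ∧ k' + 1 = 2*m) ∨
      (i' = 1 ∧ k' = 0) ∨ (i' = m+1 ∧ k' = m))))
    (w0 : ES m 1 i' w' ↔ ES m 1 i 1)
    (w1 : ES m 0 i' w' ↔ ES m 0 i 1)
    (w2 : VS m l i' ↔ VS m l i)
    : i' = i ∧ k' = i ∧ j' = h ∧ w' = 1 := by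
  have hE0 := esUa1 (i := i) (by omega) w0
  clear w0
  have hE1 : w' ≤ 1 := esU0 w1
  clear w1
  obtain ⟨d, hd, hdi⟩ := sideR hi hi' vl w2
  clear w2 vl
  rcases hv' with ⟨hv0, hv'⟩ | ⟨hv0, hv1, hv'⟩
  · unfold spec at *
    rcases hdi with hdi | hdi <;> rcases hE0 with hE0 | hE0 <;> rcases hv' with hv' | hv' | hv' | hv' | hv' | hv' | hv' | hv' <;> omega
  · have hcase := extra_case hv'
    clear hv'
    rcases hcase with ⟨hk1, hi1⟩ | ⟨hk1, hi1⟩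
    · unfold spec at *
      rcases hdi with hdi | hdi <;> rcases hE0 with hE0 | hE0 <;> rcases hi1 with hi1 | hi1 <;> rcases hv0 with hv0 | hv0 <;> omega
    · unfold spec at *
      rcases hdi with hdi | hdi <;> rcases hE0 with hE0 | hE0 <;> rcases hi1 with hi1 | hi1 <;> rcases hv0 with hv0 | hv0 <;> omega

theorem good3_Nm (h m p : ℕ) (hh : 2 ≤ h) (hm : m = 2*h) (hp : p ≤ 1) (hph : (p + h) % 2 = 0)
    (i : ℕ) (hi : i < 2*m) (hs : i = m)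
    (hv : Valid h m i i h 1) :
    Good (f3 h m p) (mk3 h m i i h 1 hv) := by
  have hsp : spec m i := by unfold spec; omega
  have hnl := nx_spec m i hi
  generalize hpvl : nx m i = i2 at *
  clear hpvl
  have hil : i2 < 2*m := by omega
  have hes : i < m ↔ i2 < m := by omega
  have hx : (i2 + 2 = m ∧ i + 1 = m) ∨ (i2 + 2 = 2*m ∧ i + 1 = 2*m) ∨ (i2 = 1 ∧ i = 0) ∨ (i2 = m+1 ∧ i = m) := by omega
  obtain ⟨hl, vl⟩ := bR_spec m i hi
  generalize hbdl : bR m i = l at *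
  clear hbdl
  refine ⟨![Sum.inr 1, Sum.inr 0, Sum.inl (Sum.inl ⟨l, hl⟩)],
    ![mk3 h m i i h 0 (vS0 hm hi hsp),
      mk3 h m i i h 2 (vH2 hm hi),
      mk3 h m i2 i h 1 (vX hm hil hi (Or.inl rfl) hx)], ?_, ?_, ?_⟩
  · intro a b hab
    fin_cases a <;> fin_cases b <;> first | rfl | (exfalso; simp [Fin.ext_iff] at hab; try omega)
  · intro k' l'
    fin_cases k'
    · rcases l' with (⟨a, ha⟩ | ⟨b, hb⟩) | ⟨u', hu'⟩
      · simp [mk3, f3]
      · simp [mk3, f3]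
      · have := flipE10a (m := m) (i := i) (by omega) (t := u') hu'
        simpa [mk3, f3, Fin.ext_iff] using this
    · rcases l' with (⟨a, ha⟩ | ⟨b, hb⟩) | ⟨u', hu'⟩
      · simp [mk3, f3]
      · simp [mk3, f3]
      · have := flipE12 (m := m) (i := i) (t := u') hu'
        simpa [mk3, f3, Fin.ext_iff] using this
    · rcases l' with (⟨a, ha⟩ | ⟨b, hb⟩) | ⟨u', hu'⟩
      · have := flipVR hi hnl vl a ha
        simpa [mk3, f3, Fin.ext_iff] using this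
      · simp [mk3, f3]
      · have := ESs hes (w := 1) (t := u')
        simpa [mk3, f3] using this
  · rintro ⟨⟨i', k', j', w'⟩, hv'⟩ hw
    have w0 := hw 0
    have w1 := hw 1
    have w2 := hw 2
    clear hw
    obtain ⟨hi', hk', hj', hv'⟩ := hv'
    simp only at hi' hk' hj' hv'
    simp only [mk3, f3, Fin.isValue, Matrix.cons_val_zero, Matrix.cons_val_one, Matrix.cons_val, Fin.val_zero, Fin.val_one, Fin.val_two] at w0 w1 w2
    obtain ⟨e1, e2, e3, e4⟩ := uniq_Nm hh hm hi hs vl hi' hk' hj' hv' w0 w1 w2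
    exact Subtype.ext (by simp [mk3, e1, e2, e3, e4])

theorem uniq_Nm1 {h m i i' k' j' w' l : ℕ} (hh : 2 ≤ h) (hm : m = 2*h) (hi : i < 2*m)
    (hs : i + 1 = m)
    (vl : (i < m ∧ l = i) ∨ (m ≤ i ∧ l + m = i))
    (hi' : i' < 2*m) (hk' : k' < 2*m) (hj' : j' ≤ m)
    (hv' : (k' = i' ∧ ((w' = 0 ∧ j' + 1 ≤ h) ∨ (w' = 0 ∧ j' = h ∧ spec m i') ∨ (w' = 1 ∧ j' = h) ∨
      (w' = 1 ∧ j' + 1 = h ∧ ¬ spec m i') ∨ (w' = 2 ∧ j' = h) ∨ (w' = 2 ∧ j' = h+1 ∧ ¬ spec m i') ∨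
      (w' = 3 ∧ h + 1 ≤ j') ∨ (w' = 3 ∧ j' = h ∧ spec m i')))
  ∨ ((w' = 1 ∨ w' = 2) ∧ j' = h ∧ ((i' + 2 = m ∧ k' + 1 = m) ∨ (i' + 2 = 2*m ∧ k' + 1 = 2*m) ∨
      (i' = 1 ∧ k' = 0) ∨ (i' = m+1 ∧ k' = m))))
    (w0 : ES m 2 i' w' ↔ ES m 2 i 1)
    (w1 : ES m 0 i' w' ↔ ES m 0 i 1)
    (w2 : VS m l i' ↔ VS m l i)
    : i' = i ∧ k' = i ∧ j' = h ∧ w' = 1 := by
  have hE0 := esUb1 (i := i) (by omega) w0
  clear w0
  have hE1 : w' ≤ 1 := esU0 w1
  clear w1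
  obtain ⟨d, hd, hdi⟩ := sideL hi hi' vl w2
  clear w2 vl
  rcases hv' with ⟨hv0, hv'⟩ | ⟨hv0, hv1, hv'⟩
  · unfold spec at *
    rcases hdi with hdi | hdi <;> rcases hE0 with hE0 | hE0 <;> rcases hv' with hv' | hv' | hv' | hv' | hv' | hv' | hv' | hv' <;> omega
  · have hcase := extra_case hv'
    clear hv'
    rcases hcase with ⟨hk1, hi1⟩ | ⟨hk1, hi1⟩
    · unfold spec at *
      rcases hdi with hdi | hdi <;> rcases hE0 with hE0 | hE0 <;> rcases hi1 with hi1 | hi1 <;> rcases hv0 with hv0 | hv0 <;> omega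
    · unfold spec at *
      rcases hdi with hdi | hdi <;> rcases hE0 with hE0 | hE0 <;> rcases hi1 with hi1 | hi1 <;> rcases hv0 with hv0 | hv0 <;> omega

theorem good3_Nm1 (h m p : ℕ) (hh : 2 ≤ h) (hm : m = 2*h) (hp : p ≤ 1) (hph : (p + h) % 2 = 0)
    (i : ℕ) (hi : i < 2*m) (hs : i + 1 = m)
    (hv : Valid h m i i h 1) :
    Good (f3 h m p) (mk3 h m i i h 1 hv) := by
  have hsp : spec m i := by unfold spec; omega
  have hnl := pv_spec m i hi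
  generalize hpvl : pv m i = i2 at *
  clear hpvl
  have hil : i2 < 2*m := by omega
  have hes : i < m ↔ i2 < m := by omega
  have hx : (i2 + 2 = m ∧ i + 1 = m) ∨ (i2 + 2 = 2*m ∧ i + 1 = 2*m) ∨ (i2 = 1 ∧ i = 0) ∨ (i2 = m+1 ∧ i = m) := by omega
  obtain ⟨hl, vl⟩ := bL_spec m i hi
  generalize hbdl : bL m i = l at *
  clear hbdl
  refine ⟨![Sum.inr 2, Sum.inr 0, Sum.inl (Sum.inl ⟨l, hl⟩)],
    ![mk3 h m i i h 0 (vS0 hm hi hsp),
      mk3 h m i i h 2 (vH2 hm hi),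
      mk3 h m i2 i h 1 (vX hm hil hi (Or.inl rfl) hx)], ?_, ?_, ?_⟩
  · intro a b hab
    fin_cases a <;> fin_cases b <;> first | rfl | (exfalso; simp [Fin.ext_iff] at hab; try omega)
  · intro k' l'
    fin_cases k'
    · rcases l' with (⟨a, ha⟩ | ⟨b, hb⟩) | ⟨u', hu'⟩
      · simp [mk3, f3]
      · simp [mk3, f3]
      · have := flipE10b (m := m) (i := i) (by omega) (t := u') hu'
        simpa [mk3, f3, Fin.ext_iff] using this
    · rcases l' with (⟨a, ha⟩ | ⟨b, hb⟩) | ⟨u', hu'⟩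
      · simp [mk3, f3]
      · simp [mk3, f3]
      · have := flipE12 (m := m) (i := i) (t := u') hu'
        simpa [mk3, f3, Fin.ext_iff] using this
    · rcases l' with (⟨a, ha⟩ | ⟨b, hb⟩) | ⟨u', hu'⟩
      · have := flipVL hi hnl vl a ha
        simpa [mk3, f3, Fin.ext_iff] using this
      · simp [mk3, f3]
      · have := ESs hes (w := 1) (t := u')
        simpa [mk3, f3] using this
  · rintro ⟨⟨i', k', j', w'⟩, hv'⟩ hw
    have w0 := hw 0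
    have w1 := hw 1
    have w2 := hw 2
    clear hw
    obtain ⟨hi', hk', hj', hv'⟩ := hv'
    simp only at hi' hk' hj' hv'
    simp only [mk3, f3, Fin.isValue, Matrix.cons_val_zero, Matrix.cons_val_one, Matrix.cons_val, Fin.val_zero, Fin.val_one, Fin.val_two] at w0 w1 w2
    obtain ⟨e1, e2, e3, e4⟩ := uniq_Nm1 hh hm hi hs vl hi' hk' hj' hv' w0 w1 w2
    exact Subtype.ext (by simp [mk3, e1, e2, e3, e4])

theorem uniq_N2m1 {h m i i' k' j' w' l : ℕ} (hh : 2 ≤ h) (hm : m = 2*h) (hi : i < 2*m)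
    (hs : i + 1 = 2*m)
    (vl : (i < m ∧ l = i) ∨ (m ≤ i ∧ l + m = i))
    (hi' : i' < 2*m) (hk' : k' < 2*m) (hj' : j' ≤ m)
    (hv' : (k' = i' ∧ ((w' = 0 ∧ j' + 1 ≤ h) ∨ (w' = 0 ∧ j' = h ∧ spec m i') ∨ (w' = 1 ∧ j' = h) ∨
      (w' = 1 ∧ j' + 1 = h ∧ ¬ spec m i') ∨ (w' = 2 ∧ j' = h) ∨ (w' = 2 ∧ j' = h+1 ∧ ¬ spec m i') ∨
      (w' = 3 ∧ h + 1 ≤ j') ∨ (w' = 3 ∧ j' = h ∧ spec m i')))
  ∨ ((w' = 1 ∨ w' = 2) ∧ j' = h ∧ ((i' + 2 = m ∧ k' + 1 = m) ∨ (i' + 2 = 2*m ∧ k' + 1 = 2*m) ∨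
      (i' = 1 ∧ k' = 0) ∨ (i' = m+1 ∧ k' = m))))
    (w0 : ES m 1 i' w' ↔ ES m 1 i 1)
    (w1 : ES m 0 i' w' ↔ ES m 0 i 1)
    (w2 : VS m l i' ↔ VS m l i)
    : i' = i ∧ k' = i ∧ j' = h ∧ w' = 1 := by
  have hE0 := esUa1 (i := i) (by omega) w0
  clear w0
  have hE1 : w' ≤ 1 := esU0 w1
  clear w1
  obtain ⟨d, hd, hdi⟩ := sideL hi hi' vl w2
  clear w2 vl
  rcases hv' with ⟨hv0, hv'⟩ | ⟨hv0, hv1, hv'⟩
  · unfold spec at *
    rcases hdi with hdi | hdi <;> rcases hE0 with hE0 | hE0 <;> rcases hv' with hv' | hv' | hv' | hv' | hv' | hv' | hv' | hv' <;> omega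
  · have hcase := extra_case hv'
    clear hv'
    rcases hcase with ⟨hk1, hi1⟩ | ⟨hk1, hi1⟩
    · unfold spec at *
      rcases hdi with hdi | hdi <;> rcases hE0 with hE0 | hE0 <;> rcases hi1 with hi1 | hi1 <;> rcases hv0 with hv0 | hv0 <;> omega
    · unfold spec at *
      rcases hdi with hdi | hdi <;> rcases hE0 with hE0 | hE0 <;> rcases hi1 with hi1 | hi1 <;> rcases hv0 with hv0 | hv0 <;> omega

theorem good3_N2m1 (h m p : ℕ) (hh : 2 ≤ h) (hm : m = 2*h) (hp : p ≤ 1) (hph : (p + h) % 2 = 0)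
    (i : ℕ) (hi : i < 2*m) (hs : i + 1 = 2*m)
    (hv : Valid h m i i h 1) :
    Good (f3 h m p) (mk3 h m i i h 1 hv) := by
  have hsp : spec m i := by unfold spec; omega
  have hnl := pv_spec m i hi
  generalize hpvl : pv m i = i2 at *
  clear hpvl
  have hil : i2 < 2*m := by omega
  have hes : i < m ↔ i2 < m := by omega
  have hx : (i2 + 2 = m ∧ i + 1 = m) ∨ (i2 + 2 = 2*m ∧ i + 1 = 2*m) ∨ (i2 = 1 ∧ i = 0) ∨ (i2 = m+1 ∧ i = m) := by omega
  obtain ⟨hl, vl⟩ := bL_spec m i hi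
  generalize hbdl : bL m i = l at *
  clear hbdl
  refine ⟨![Sum.inr 1, Sum.inr 0, Sum.inl (Sum.inl ⟨l, hl⟩)],
    ![mk3 h m i i h 0 (vS0 hm hi hsp),
      mk3 h m i i h 2 (vH2 hm hi),
      mk3 h m i2 i h 1 (vX hm hil hi (Or.inl rfl) hx)], ?_, ?_, ?_⟩
  · intro a b hab
    fin_cases a <;> fin_cases b <;> first | rfl | (exfalso; simp [Fin.ext_iff] at hab; try omega)
  · intro k' l'
    fin_cases k'
    · rcases l' with (⟨a, ha⟩ | ⟨b, hb⟩) | ⟨u', hu'⟩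
      · simp [mk3, f3]
      · simp [mk3, f3]
      · have := flipE10a (m := m) (i := i) (by omega) (t := u') hu'
        simpa [mk3, f3, Fin.ext_iff] using this
    · rcases l' with (⟨a, ha⟩ | ⟨b, hb⟩) | ⟨u', hu'⟩
      · simp [mk3, f3]
      · simp [mk3, f3]
      · have := flipE12 (m := m) (i := i) (t := u') hu'
        simpa [mk3, f3, Fin.ext_iff] using this
    · rcases l' with (⟨a, ha⟩ | ⟨b, hb⟩) | ⟨u', hu'⟩
      · have := flipVL hi hnl vl a ha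
        simpa [mk3, f3, Fin.ext_iff] using this
      · simp [mk3, f3]
      · have := ESs hes (w := 1) (t := u')
        simpa [mk3, f3] using this
  · rintro ⟨⟨i', k', j', w'⟩, hv'⟩ hw
    have w0 := hw 0
    have w1 := hw 1
    have w2 := hw 2
    clear hw
    obtain ⟨hi', hk', hj', hv'⟩ := hv'
    simp only at hi' hk' hj' hv'
    simp only [mk3, f3, Fin.isValue, Matrix.cons_val_zero, Matrix.cons_val_one, Matrix.cons_val, Fin.val_zero, Fin.val_one, Fin.val_two] at w0 w1 w2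
    obtain ⟨e1, e2, e3, e4⟩ := uniq_N2m1 hh hm hi hs vl hi' hk' hj' hv' w0 w1 w2
    exact Subtype.ext (by simp [mk3, e1, e2, e3, e4])

theorem uniq_R1 {h m i i' k' j' w' s l : ℕ} (hh : 2 ≤ h) (hm : m = 2*h) (hi : i < 2*m)
    (hs : i = 1)
    (s' : s + 0 = h ∨ s + 0 = h + 2*m) (hs1 : s < 2*m)
    (vl : (i < m ∧ l = i) ∨ (m ≤ i ∧ l + m = i))
    (hi' : i' < 2*m) (hk' : k' < 2*m) (hj' : j' ≤ m)
    (hv' : (k' = i' ∧ ((w' = 0 ∧ j' + 1 ≤ h) ∨ (w' = 0 ∧ j' = h ∧ spec m i') ∨ (w' = 1 ∧ j' = h) ∨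
      (w' = 1 ∧ j' + 1 = h ∧ ¬ spec m i') ∨ (w' = 2 ∧ j' = h) ∨ (w' = 2 ∧ j' = h+1 ∧ ¬ spec m i') ∨
      (w' = 3 ∧ h + 1 ≤ j') ∨ (w' = 3 ∧ j' = h ∧ spec m i')))
  ∨ ((w' = 1 ∨ w' = 2) ∧ j' = h ∧ ((i' + 2 = m ∧ k' + 1 = m) ∨ (i' + 2 = 2*m ∧ k' + 1 = 2*m) ∨
      (i' = 1 ∧ k' = 0) ∨ (i' = m+1 ∧ k' = m))))
    (w0 : SS m s k' j' ↔ SS m s 0 h)
    (w1 : ES m 0 i' w' ↔ ES m 0 i 1)
    (w2 : VS m l i' ↔ VS m l i)
    : i' = i ∧ k' = 0 ∧ j' = h ∧ w' = 1 := by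
  have hE1 : w' ≤ 1 := esU0 w1
  clear w1
  obtain ⟨g0, hg0, hgw0⟩ := posGen hs1 hk'
  have q0 := posLe (hgw0 _ hj') w0 (posSelfD (J := h) (by omega) (by omega) s' hs1 (by omega) (by omega)) (by omega)
  clear hgw0
  obtain ⟨d, hd, hdi⟩ := sideL hi hi' vl w2
  clear w2 vl
  clear w0
  unfold spec at *
  rcases s' with s' | s' <;> (try omega) <;> rcases hdi with hdi | hdi <;> (try omega) <;> rcases hg0 with hg0 | hg0 | hg0 | hg0 | hg0 <;> (try omega) <;> rcases hv' with ⟨hv0, hv'⟩ | ⟨hv0, hv1, hv'⟩ <;> (try omega)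
  all_goals first
    | (rcases hv' with hv' | hv' | hv' | hv' | hv' | hv' | hv' | hv' <;> omega)
    | (rcases hv' with hv' | hv' | hv' | hv' <;> omega)

theorem good3_R1 (h m p : ℕ) (hh : 2 ≤ h) (hm : m = 2*h) (hp : p ≤ 1) (hph : (p + h) % 2 = 0)
    (i : ℕ) (hi : i < 2*m) (hs : i = 1)
    (hv : Valid h m i 0 h 1) :
    Good (f3 h m p) (mk3 h m i 0 h 1 hv) := by
  have hjm : (h-1) + 1 = h := by omega
  have hsp : ¬ spec m i := by unfold spec; omega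
  have hki : 0 < 2*m := by omega
  have hx : (i + 2 = m ∧ 0 + 1 = m) ∨ (i + 2 = 2*m ∧ 0 + 1 = 2*m) ∨ (i = 1 ∧ 0 = 0) ∨ (i = m+1 ∧ 0 = m) := by omega
  obtain ⟨s, hs1, hs2, hs3, s'⟩ : ∃ s, s < 2*m ∧ 2*(s/2) + p = s ∧ s/2 < m ∧ (s + 0 = h ∨ s + 0 = h + 2*m) := by
    obtain ⟨c1, c2, c3, c4⟩ := cs_spec m p 0 (h) (by omega) hp (by omega) (by omega) (by omega)
    refine ⟨_, c1, c2, c3, ?_⟩
    generalize cs m p 0 (h) = s0 at *
    clear c1 c2 c3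
    omega
  have hnl := pv_spec m i hi
  generalize hpvl : pv m i = i2 at *
  clear hpvl
  have hil : i2 < 2*m := by omega
  have hi2e : i2 = 0 := by omega
  have hes : i < m ↔ 0 < m := by omega
  obtain ⟨hl, vl⟩ := bL_spec m i hi
  generalize hbdl : bL m i = l at *
  clear hbdl
  refine ⟨![Sum.inl (Sum.inr ⟨s / 2, hs3⟩), Sum.inr 0, Sum.inl (Sum.inl ⟨l, hl⟩)],
    ![mk3 h m i i (h-1) 1 (vR1 hm hi hjm hsp),
      mk3 h m i 0 h 2 (vX hm hi hki (Or.inr rfl) hx),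
      mk3 h m 0 0 h 1 (vH1 hm hki)], ?_, ?_, ?_⟩
  · intro a b hab
    fin_cases a <;> fin_cases b <;> first | rfl | (exfalso; simp [Fin.ext_iff] at hab; try omega)
  · intro k' l'
    fin_cases k'
    · rcases l' with (⟨a, ha⟩ | ⟨b, hb⟩) | ⟨u', hu'⟩
      · simp [mk3, f3]
      · have := flipY_1 (m := m) (p := p) (h := h) (i := i) hh hm hs hp s' hs1 hs2 b hb
        simpa [mk3, f3, Fin.ext_iff] using this
      · simp [mk3, f3]
    · rcases l' with (⟨a, ha⟩ | ⟨b, hb⟩) | ⟨u', hu'⟩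
      · simp [mk3, f3]
      · simp [mk3, f3]
      · have := flipE12 (m := m) (i := i) (t := u') hu'
        simpa [mk3, f3, Fin.ext_iff] using this
    · rcases l' with (⟨a, ha⟩ | ⟨b, hb⟩) | ⟨u', hu'⟩
      · have := flipVL hi hnl vl a ha
        rw [hi2e] at this
        simpa [mk3, f3, Fin.ext_iff] using this
      · simp [mk3, f3]
      · have := ESs hes (w := 1) (t := u')
        simpa [mk3, f3] using this
  · rintro ⟨⟨i', k', j', w'⟩, hv'⟩ hw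
    have w0 := hw 0
    have w1 := hw 1
    have w2 := hw 2
    clear hw
    obtain ⟨hi', hk', hj', hv'⟩ := hv'
    simp only at hi' hk' hj' hv'
    simp only [mk3, f3, Fin.isValue, Matrix.cons_val_zero, Matrix.cons_val_one, Matrix.cons_val, Fin.val_zero, Fin.val_one, Fin.val_two] at w0 w1 w2
    rw [hs2] at w0
    obtain ⟨e1, e2, e3, e4⟩ := uniq_R1 hh hm hi hs s' hs1 vl hi' hk' hj' hv' w0 w1 w2
    exact Subtype.ext (by simp [mk3, e1, e2, e3, e4])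

theorem uniq_Rmp1 {h m i i' k' j' w' s l : ℕ} (hh : 2 ≤ h) (hm : m = 2*h) (hi : i < 2*m)
    (hs : i = m + 1)
    (s' : s + m = h ∨ s + m = h + 2*m) (hs1 : s < 2*m)
    (vl : (i < m ∧ l = i) ∨ (m ≤ i ∧ l + m = i))
    (hi' : i' < 2*m) (hk' : k' < 2*m) (hj' : j' ≤ m)
    (hv' : (k' = i' ∧ ((w' = 0 ∧ j' + 1 ≤ h) ∨ (w' = 0 ∧ j' = h ∧ spec m i') ∨ (w' = 1 ∧ j' = h) ∨
      (w' = 1 ∧ j' + 1 = h ∧ ¬ spec m i') ∨ (w' = 2 ∧ j' = h) ∨ (w' = 2 ∧ j' = h+1 ∧ ¬ spec m i') ∨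
      (w' = 3 ∧ h + 1 ≤ j') ∨ (w' = 3 ∧ j' = h ∧ spec m i')))
  ∨ ((w' = 1 ∨ w' = 2) ∧ j' = h ∧ ((i' + 2 = m ∧ k' + 1 = m) ∨ (i' + 2 = 2*m ∧ k' + 1 = 2*m) ∨
      (i' = 1 ∧ k' = 0) ∨ (i' = m+1 ∧ k' = m))))
    (w0 : SS m s k' j' ↔ SS m s m h)
    (w1 : ES m 0 i' w' ↔ ES m 0 i 1)
    (w2 : VS m l i' ↔ VS m l i)
    : i' = i ∧ k' = m ∧ j' = h ∧ w' = 1 := by
  have hE1 : w' ≤ 1 := esU0 w1
  clear w1
  obtain ⟨g0, hg0, hgw0⟩ := posGen hs1 hk'
  have q0 := posLe (hgw0 _ hj') w0 (posSelfD (J := h) (by omega) (by omega) s' hs1 (by omega) (by omega)) (by omega)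
  clear hgw0
  obtain ⟨d, hd, hdi⟩ := sideL hi hi' vl w2
  clear w2 vl
  clear w0
  unfold spec at *
  rcases s' with s' | s' <;> (try omega) <;> rcases hdi with hdi | hdi <;> (try omega) <;> rcases hg0 with hg0 | hg0 | hg0 | hg0 | hg0 <;> (try omega) <;> rcases hv' with ⟨hv0, hv'⟩ | ⟨hv0, hv1, hv'⟩ <;> (try omega)
  all_goals first
    | (rcases hv' with hv' | hv' | hv' | hv' | hv' | hv' | hv' | hv' <;> omega)
    | (rcases hv' with hv' | hv' | hv' | hv' <;> omega)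

theorem good3_Rmp1 (h m p : ℕ) (hh : 2 ≤ h) (hm : m = 2*h) (hp : p ≤ 1) (hph : (p + h) % 2 = 0)
    (i : ℕ) (hi : i < 2*m) (hs : i = m + 1)
    (hv : Valid h m i m h 1) :
    Good (f3 h m p) (mk3 h m i m h 1 hv) := by
  have hjm : (h-1) + 1 = h := by omega
  have hsp : ¬ spec m i := by unfold spec; omega
  have hki : m < 2*m := by omega
  have hx : (i + 2 = m ∧ m + 1 = m) ∨ (i + 2 = 2*m ∧ m + 1 = 2*m) ∨ (i = 1 ∧ m = 0) ∨ (i = m+1 ∧ m = m) := by omega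
  obtain ⟨s, hs1, hs2, hs3, s'⟩ : ∃ s, s < 2*m ∧ 2*(s/2) + p = s ∧ s/2 < m ∧ (s + m = h ∨ s + m = h + 2*m) := by
    obtain ⟨c1, c2, c3, c4⟩ := cs_spec m p m (h) (by omega) hp (by omega) (by omega) (by omega)
    refine ⟨_, c1, c2, c3, ?_⟩
    generalize cs m p m (h) = s0 at *
    clear c1 c2 c3
    omega
  have hnl := pv_spec m i hi
  generalize hpvl : pv m i = i2 at *
  clear hpvl
  have hil : i2 < 2*m := by omega
  have hi2e : i2 = m := by omega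
  have hes : i < m ↔ m < m := by omega
  obtain ⟨hl, vl⟩ := bL_spec m i hi
  generalize hbdl : bL m i = l at *
  clear hbdl
  refine ⟨![Sum.inl (Sum.inr ⟨s / 2, hs3⟩), Sum.inr 0, Sum.inl (Sum.inl ⟨l, hl⟩)],
    ![mk3 h m i i (h-1) 1 (vR1 hm hi hjm hsp),
      mk3 h m i m h 2 (vX hm hi hki (Or.inr rfl) hx),
      mk3 h m m m h 1 (vH1 hm hki)], ?_, ?_, ?_⟩
  · intro a b hab
    fin_cases a <;> fin_cases b <;> first | rfl | (exfalso; simp [Fin.ext_iff] at hab; try omega)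
  · intro k' l'
    fin_cases k'
    · rcases l' with (⟨a, ha⟩ | ⟨b, hb⟩) | ⟨u', hu'⟩
      · simp [mk3, f3]
      · have := flipY_mp1 (m := m) (p := p) (h := h) (i := i) hh hm hs hp s' hs1 hs2 b hb
        simpa [mk3, f3, Fin.ext_iff] using this
      · simp [mk3, f3]
    · rcases l' with (⟨a, ha⟩ | ⟨b, hb⟩) | ⟨u', hu'⟩
      · simp [mk3, f3]
      · simp [mk3, f3]
      · have := flipE12 (m := m) (i := i) (t := u') hu'
        simpa [mk3, f3, Fin.ext_iff] using this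
    · rcases l' with (⟨a, ha⟩ | ⟨b, hb⟩) | ⟨u', hu'⟩
      · have := flipVL hi hnl vl a ha
        rw [hi2e] at this
        simpa [mk3, f3, Fin.ext_iff] using this
      · simp [mk3, f3]
      · have := ESs hes (w := 1) (t := u')
        simpa [mk3, f3] using this
  · rintro ⟨⟨i', k', j', w'⟩, hv'⟩ hw
    have w0 := hw 0
    have w1 := hw 1
    have w2 := hw 2
    clear hw
    obtain ⟨hi', hk', hj', hv'⟩ := hv'
    simp only at hi' hk' hj' hv'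
    simp only [mk3, f3, Fin.isValue, Matrix.cons_val_zero, Matrix.cons_val_one, Matrix.cons_val, Fin.val_zero, Fin.val_one, Fin.val_two] at w0 w1 w2
    rw [hs2] at w0
    obtain ⟨e1, e2, e3, e4⟩ := uniq_Rmp1 hh hm hi hs s' hs1 vl hi' hk' hj' hv' w0 w1 w2
    exact Subtype.ext (by simp [mk3, e1, e2, e3, e4])

theorem uniq_Rmm2 {h m i i' k' j' w' s l : ℕ} (hh : 2 ≤ h) (hm : m = 2*h) (hi : i < 2*m)
    (hs : i + 2 = m)
    (s' : s + (i+1) + h = 1 ∨ s + (i+1) + h = 2*m + 1 ∨ s + (i+1) + h = 4*m + 1) (hs1 : s < 2*m)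
    (vl : (i + 1 < m ∧ l = i + 1) ∨ (m ≤ i + 1 ∧ i + 1 < 2*m ∧ l + m = i + 1) ∨ (i + 1 = 2*m ∧ l = 0))
    (hi' : i' < 2*m) (hk' : k' < 2*m) (hj' : j' ≤ m)
    (hv' : (k' = i' ∧ ((w' = 0 ∧ j' + 1 ≤ h) ∨ (w' = 0 ∧ j' = h ∧ spec m i') ∨ (w' = 1 ∧ j' = h) ∨
      (w' = 1 ∧ j' + 1 = h ∧ ¬ spec m i') ∨ (w' = 2 ∧ j' = h) ∨ (w' = 2 ∧ j' = h+1 ∧ ¬ spec m i') ∨
      (w' = 3 ∧ h + 1 ≤ j') ∨ (w' = 3 ∧ j' = h ∧ spec m i')))
  ∨ ((w' = 1 ∨ w' = 2) ∧ j' = h ∧ ((i' + 2 = m ∧ k' + 1 = m) ∨ (i' + 2 = 2*m ∧ k' + 1 = 2*m) ∨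
      (i' = 1 ∧ k' = 0) ∨ (i' = m+1 ∧ k' = m))))
    (w0 : SS m s k' j' ↔ SS m s (i+1) h)
    (w1 : ES m 0 i' w' ↔ ES m 0 i 1)
    (w2 : VS m l i' ↔ VS m l i)
    : i' = i ∧ k' = (i+1) ∧ j' = h ∧ w' = 1 := by
  have hE1 : w' ≤ 1 := esU0 w1
  clear w1
  obtain ⟨g0, hg0, hgw0⟩ := posGen hs1 hk'
  have q0 := posLe (hgw0 _ hj') w0 (posSelfU (J := h) (by omega) (by omega) s' hs1 (by omega) (by omega)) (by omega)
  clear hgw0
  obtain ⟨d, hd, hdi⟩ := sideR hi hi' vl w2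
  clear w2 vl
  clear w0
  unfold spec at *
  rcases s' with s' | s' | s' <;> (try omega) <;> rcases hdi with hdi | hdi <;> (try omega) <;> rcases hg0 with hg0 | hg0 | hg0 | hg0 | hg0 <;> (try omega) <;> rcases hv' with ⟨hv0, hv'⟩ | ⟨hv0, hv1, hv'⟩ <;> (try omega)
  all_goals first
    | (rcases hv' with hv' | hv' | hv' | hv' | hv' | hv' | hv' | hv' <;> omega)
    | (rcases hv' with hv' | hv' | hv' | hv' <;> omega)

theorem good3_Rmm2 (h m p : ℕ) (hh : 2 ≤ h) (hm : m = 2*h) (hp : p ≤ 1) (hph : (p + h) % 2 = 0)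
    (i : ℕ) (hi : i < 2*m) (hs : i + 2 = m)
    (hv : Valid h m i ((i+1)) h 1) :
    Good (f3 h m p) (mk3 h m i ((i+1)) h 1 hv) := by
  have hjm : (h-1) + 1 = h := by omega
  have hsp : ¬ spec m i := by unfold spec; omega
  have hki : (i+1) < 2*m := by omega
  have hx : (i + 2 = m ∧ (i+1) + 1 = m) ∨ (i + 2 = 2*m ∧ (i+1) + 1 = 2*m) ∨ (i = 1 ∧ (i+1) = 0) ∨ (i = m+1 ∧ (i+1) = m) := by omega
  obtain ⟨s, hs1, hs2, hs3, s'⟩ : ∃ s, s < 2*m ∧ 2*(s/2) + p = s ∧ s/2 < m ∧ (s + (i+1) + h = 1 ∨ s + (i+1) + h = 2*m + 1 ∨ s + (i+1) + h = 4*m + 1) := by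
    obtain ⟨c1, c2, c3, c4⟩ := cs_spec m p (i+1) (h) (by omega) hp (by omega) (by omega) (by omega)
    refine ⟨_, c1, c2, c3, ?_⟩
    generalize cs m p (i+1) (h) = s0 at *
    clear c1 c2 c3
    omega
  have hnl := nx_spec m i hi
  generalize hpvl : nx m i = i2 at *
  clear hpvl
  have hil : i2 < 2*m := by omega
  have hi2e : i2 = (i+1) := by omega
  have hes : i < m ↔ (i+1) < m := by omega
  obtain ⟨hl, vl⟩ := bR_spec m i hi
  generalize hbdl : bR m i = l at *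
  clear hbdl
  refine ⟨![Sum.inl (Sum.inr ⟨s / 2, hs3⟩), Sum.inr 0, Sum.inl (Sum.inl ⟨l, hl⟩)],
    ![mk3 h m i i (h-1) 1 (vR1 hm hi hjm hsp),
      mk3 h m i (i+1) h 2 (vX hm hi hki (Or.inr rfl) hx),
      mk3 h m (i+1) (i+1) h 1 (vH1 hm hki)], ?_, ?_, ?_⟩
  · intro a b hab
    fin_cases a <;> fin_cases b <;> first | rfl | (exfalso; simp [Fin.ext_iff] at hab; try omega)
  · intro k' l'
    fin_cases k'
    · rcases l' with (⟨a, ha⟩ | ⟨b, hb⟩) | ⟨u', hu'⟩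
      · simp [mk3, f3]
      · have := flipY_mm2 (m := m) (p := p) (h := h) (i := i) hh hm hs hp s' hs1 hs2 b hb
        simpa [mk3, f3, Fin.ext_iff] using this
      · simp [mk3, f3]
    · rcases l' with (⟨a, ha⟩ | ⟨b, hb⟩) | ⟨u', hu'⟩
      · simp [mk3, f3]
      · simp [mk3, f3]
      · have := flipE12 (m := m) (i := i) (t := u') hu'
        simpa [mk3, f3, Fin.ext_iff] using this
    · rcases l' with (⟨a, ha⟩ | ⟨b, hb⟩) | ⟨u', hu'⟩
      · have := flipVR hi hnl vl a ha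
        rw [hi2e] at this
        simpa [mk3, f3, Fin.ext_iff] using this
      · simp [mk3, f3]
      · have := ESs hes (w := 1) (t := u')
        simpa [mk3, f3] using this
  · rintro ⟨⟨i', k', j', w'⟩, hv'⟩ hw
    have w0 := hw 0
    have w1 := hw 1
    have w2 := hw 2
    clear hw
    obtain ⟨hi', hk', hj', hv'⟩ := hv'
    simp only at hi' hk' hj' hv'
    simp only [mk3, f3, Fin.isValue, Matrix.cons_val_zero, Matrix.cons_val_one, Matrix.cons_val, Fin.val_zero, Fin.val_one, Fin.val_two] at w0 w1 w2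
    rw [hs2] at w0
    obtain ⟨e1, e2, e3, e4⟩ := uniq_Rmm2 hh hm hi hs s' hs1 vl hi' hk' hj' hv' w0 w1 w2
    exact Subtype.ext (by simp [mk3, e1, e2, e3, e4])

theorem uniq_R2mm2 {h m i i' k' j' w' s l : ℕ} (hh : 2 ≤ h) (hm : m = 2*h) (hi : i < 2*m)
    (hs : i + 2 = 2*m)
    (s' : s + (i+1) + h = 1 ∨ s + (i+1) + h = 2*m + 1 ∨ s + (i+1) + h = 4*m + 1) (hs1 : s < 2*m)
    (vl : (i + 1 < m ∧ l = i + 1) ∨ (m ≤ i + 1 ∧ i + 1 < 2*m ∧ l + m = i + 1) ∨ (i + 1 = 2*m ∧ l = 0))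
    (hi' : i' < 2*m) (hk' : k' < 2*m) (hj' : j' ≤ m)
    (hv' : (k' = i' ∧ ((w' = 0 ∧ j' + 1 ≤ h) ∨ (w' = 0 ∧ j' = h ∧ spec m i') ∨ (w' = 1 ∧ j' = h) ∨
      (w' = 1 ∧ j' + 1 = h ∧ ¬ spec m i') ∨ (w' = 2 ∧ j' = h) ∨ (w' = 2 ∧ j' = h+1 ∧ ¬ spec m i') ∨
      (w' = 3 ∧ h + 1 ≤ j') ∨ (w' = 3 ∧ j' = h ∧ spec m i')))
  ∨ ((w' = 1 ∨ w' = 2) ∧ j' = h ∧ ((i' + 2 = m ∧ k' + 1 = m) ∨ (i' + 2 = 2*m ∧ k' + 1 = 2*m) ∨
      (i' = 1 ∧ k' = 0) ∨ (i' = m+1 ∧ k' = m))))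
    (w0 : SS m s k' j' ↔ SS m s (i+1) h)
    (w1 : ES m 0 i' w' ↔ ES m 0 i 1)
    (w2 : VS m l i' ↔ VS m l i)
    : i' = i ∧ k' = (i+1) ∧ j' = h ∧ w' = 1 := by
  have hE1 : w' ≤ 1 := esU0 w1
  clear w1
  obtain ⟨g0, hg0, hgw0⟩ := posGen hs1 hk'
  have q0 := posLe (hgw0 _ hj') w0 (posSelfU (J := h) (by omega) (by omega) s' hs1 (by omega) (by omega)) (by omega)
  clear hgw0
  obtain ⟨d, hd, hdi⟩ := sideR hi hi' vl w2
  clear w2 vl
  clear w0
  unfold spec at *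
  rcases s' with s' | s' | s' <;> (try omega) <;> rcases hdi with hdi | hdi <;> (try omega) <;> rcases hg0 with hg0 | hg0 | hg0 | hg0 | hg0 <;> (try omega) <;> rcases hv' with ⟨hv0, hv'⟩ | ⟨hv0, hv1, hv'⟩ <;> (try omega)
  all_goals first
    | (rcases hv' with hv' | hv' | hv' | hv' | hv' | hv' | hv' | hv' <;> omega)
    | (rcases hv' with hv' | hv' | hv' | hv' <;> omega)

theorem good3_R2mm2 (h m p : ℕ) (hh : 2 ≤ h) (hm : m = 2*h) (hp : p ≤ 1) (hph : (p + h) % 2 = 0)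
    (i : ℕ) (hi : i < 2*m) (hs : i + 2 = 2*m)
    (hv : Valid h m i ((i+1)) h 1) :
    Good (f3 h m p) (mk3 h m i ((i+1)) h 1 hv) := by
  have hjm : (h-1) + 1 = h := by omega
  have hsp : ¬ spec m i := by unfold spec; omega
  have hki : (i+1) < 2*m := by omega
  have hx : (i + 2 = m ∧ (i+1) + 1 = m) ∨ (i + 2 = 2*m ∧ (i+1) + 1 = 2*m) ∨ (i = 1 ∧ (i+1) = 0) ∨ (i = m+1 ∧ (i+1) = m) := by omega
  obtain ⟨s, hs1, hs2, hs3, s'⟩ : ∃ s, s < 2*m ∧ 2*(s/2) + p = s ∧ s/2 < m ∧ (s + (i+1) + h = 1 ∨ s + (i+1) + h = 2*m + 1 ∨ s + (i+1) + h = 4*m + 1) := by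
    obtain ⟨c1, c2, c3, c4⟩ := cs_spec m p (i+1) (h) (by omega) hp (by omega) (by omega) (by omega)
    refine ⟨_, c1, c2, c3, ?_⟩
    generalize cs m p (i+1) (h) = s0 at *
    clear c1 c2 c3
    omega
  have hnl := nx_spec m i hi
  generalize hpvl : nx m i = i2 at *
  clear hpvl
  have hil : i2 < 2*m := by omega
  have hi2e : i2 = (i+1) := by omega
  have hes : i < m ↔ (i+1) < m := by omega
  obtain ⟨hl, vl⟩ := bR_spec m i hi
  generalize hbdl : bR m i = l at *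
  clear hbdl
  refine ⟨![Sum.inl (Sum.inr ⟨s / 2, hs3⟩), Sum.inr 0, Sum.inl (Sum.inl ⟨l, hl⟩)],
    ![mk3 h m i i (h-1) 1 (vR1 hm hi hjm hsp),
      mk3 h m i (i+1) h 2 (vX hm hi hki (Or.inr rfl) hx),
      mk3 h m (i+1) (i+1) h 1 (vH1 hm hki)], ?_, ?_, ?_⟩
  · intro a b hab
    fin_cases a <;> fin_cases b <;> first | rfl | (exfalso; simp [Fin.ext_iff] at hab; try omega)
  · intro k' l'
    fin_cases k'
    · rcases l' with (⟨a, ha⟩ | ⟨b, hb⟩) | ⟨u', hu'⟩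
      · simp [mk3, f3]
      · have := flipY_2mm2 (m := m) (p := p) (h := h) (i := i) hh hm hs hp s' hs1 hs2 b hb
        simpa [mk3, f3, Fin.ext_iff] using this
      · simp [mk3, f3]
    · rcases l' with (⟨a, ha⟩ | ⟨b, hb⟩) | ⟨u', hu'⟩
      · simp [mk3, f3]
      · simp [mk3, f3]
      · have := flipE12 (m := m) (i := i) (t := u') hu'
        simpa [mk3, f3, Fin.ext_iff] using this
    · rcases l' with (⟨a, ha⟩ | ⟨b, hb⟩) | ⟨u', hu'⟩
      · have := flipVR hi hnl vl a ha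
        rw [hi2e] at this
        simpa [mk3, f3, Fin.ext_iff] using this
      · simp [mk3, f3]
      · have := ESs hes (w := 1) (t := u')
        simpa [mk3, f3] using this
  · rintro ⟨⟨i', k', j', w'⟩, hv'⟩ hw
    have w0 := hw 0
    have w1 := hw 1
    have w2 := hw 2
    clear hw
    obtain ⟨hi', hk', hj', hv'⟩ := hv'
    simp only at hi' hk' hj' hv'
    simp only [mk3, f3, Fin.isValue, Matrix.cons_val_zero, Matrix.cons_val_one, Matrix.cons_val, Fin.val_zero, Fin.val_one, Fin.val_two] at w0 w1 w2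
    rw [hs2] at w0
    obtain ⟨e1, e2, e3, e4⟩ := uniq_R2mm2 hh hm hi hs s' hs1 vl hi' hk' hj' hv' w0 w1 w2
    exact Subtype.ext (by simp [mk3, e1, e2, e3, e4])

end Pool.Agent.Helper371
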