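import Pool.Agent.Helper371.SFam3A
import Pool.Agent.Helper371.SFam3B
import Pool.Agent.Helper371.SFam3C
import Pool.Agent.Helper371.SFam3D

set_option autoImplicit false

namespace Pool.Agent.Helper371

theorem not_spec_cases {m i : ℕ} (hi : i < 2*m) (hs : ¬ spec m i) :
    (m < i ∧ i + 1 < 2*m) ∨ (0 < i ∧ i + 1 < m) := by
  unfold spec at hs
  omega

theorem good3_low (h m p : ℕ) (hh : 2 ≤ h) (hm : m = 2*h) (hp : p ≤ 1) (hph : (p + h) % 2 = 0)
    (i k j w : ℕ) (hv : Valid h m i k j w) (hw : w ≤ 1) :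
    Good (f3 h m p) (mk3 h m i k j w hv) := by
  obtain ⟨hi, hk, hj, hv'⟩ := id hv
  rcases hv' with ⟨rfl, hv'⟩ | ⟨hw2, rfl, hv'⟩
  · have h01 : (w = 0 ∧ j + 1 ≤ h) ∨ (w = 0 ∧ j = h ∧ spec m k) ∨ (w = 1 ∧ j = h) ∨
      (w = 1 ∧ j + 1 = h ∧ ¬ spec m k) := by
      rcases hv' with hv' | hv' | hv' | hv' | hv' | hv' | hv' | hv'
      · exact Or.inl hv'
      · exact Or.inr (Or.inl hv')
      · exact Or.inr (Or.inr (Or.inl hv'))
      · exact Or.inr (Or.inr (Or.inr hv'))
      all_goals omega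
    clear hv'
    rcases h01 with ⟨rfl, h1⟩ | ⟨rfl, rfl, h1⟩ | ⟨rfl, rfl⟩ | ⟨rfl, h1, h2⟩
    · rcases Nat.eq_zero_or_pos j with rfl | hj0
      · rcases Nat.mod_two_eq_zero_or_one (k + 1 + p) with h3 | h3
        · exact good3_A0 h m p hh hm hp hph k hi h3 hv
        · exact good3_A1 h m p hh hm hp hph k hi h3 hv
      · by_cases hs : j + 1 = h → spec m k
        · rcases Nat.mod_two_eq_zero_or_one (k + j + p) with h3 | h3
          · exact good3_BL h m p hh hm hp hph k j hi hj0 h1 hs h3 hv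
          · exact good3_BR h m p hh hm hp hph k j hi hj0 h1 hs h3 hv
        · push Not at hs
          obtain ⟨hs1, hs2⟩ := hs
          rcases not_spec_cases hi hs2 with ⟨h4, h5⟩ | ⟨h4, h5⟩
          · rcases Nat.mod_two_eq_zero_or_one k with h3 | h3
            · exact good3_CRa h m p hh hm hp hph k j hi hs1 h4 h5 h3 hv
            · exact good3_CLa h m p hh hm hp hph k j hi hs1 h4 h5 h3 hv
          · rcases Nat.mod_two_eq_zero_or_one k with h3 | h3
            · exact good3_CRb h m p hh hm hp hph k j hi hs1 h4 h5 h3 hv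
            · exact good3_CLb h m p hh hm hp hph k j hi hs1 h4 h5 h3 hv
    · rcases h1 with h1 | h1 | h1 | h1
      · exact good3_M0 j m p hh hm hp hph k hi h1 hv
      · exact good3_Mm1 j m p hh hm hp hph k hi h1 hv
      · exact good3_Mm j m p hh hm hp hph k hi h1 hv
      · exact good3_M2m1 j m p hh hm hp hph k hi h1 hv
    · by_cases hs : spec m k
      · rcases hs with h1 | h1 | h1 | h1
        · exact good3_N0 j m p hh hm hp hph k hi h1 hv
        · exact good3_Nm1 j m p hh hm hp hph k hi h1 hv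
        · exact good3_Nm j m p hh hm hp hph k hi h1 hv
        · exact good3_N2m1 j m p hh hm hp hph k hi h1 hv
      · rcases not_spec_cases hi hs with ⟨h4, h5⟩ | ⟨h4, h5⟩
        · rcases Nat.mod_two_eq_zero_or_one k with h3 | h3
          · exact good3_ELa j m p hh hm hp hph k hi h4 h5 h3 hv
          · exact good3_ERa j m p hh hm hp hph k hi h4 h5 h3 hv
        · rcases Nat.mod_two_eq_zero_or_one k with h3 | h3
          · exact good3_ELb j m p hh hm hp hph k hi h4 h5 h3 hv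
          · exact good3_ERb j m p hh hm hp hph k hi h4 h5 h3 hv
    · by_cases hd : k = 1
      · exact good3_Dd1 h m p hh hm hp hph k j hi h1 hd hv
      by_cases hd : k = m + 1
      · exact good3_Ddmp1 h m p hh hm hp hph k j hi h1 hd hv
      by_cases hd : k + 2 = m
      · exact good3_Ddmm2 h m p hh hm hp hph k j hi h1 hd hv
      by_cases hd : k + 2 = 2*m
      · exact good3_Dd2mm2 h m p hh hm hp hph k j hi h1 hd hv
      rcases not_spec_cases hi h2 with ⟨h4, h5⟩ | ⟨h4, h5⟩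
      · rcases Nat.mod_two_eq_zero_or_one k with h3 | h3
        · exact good3_DRa h m p hh hm hp hph k j hi h1 (by omega) (by omega) h3 hv
        · exact good3_DLa h m p hh hm hp hph k j hi h1 (by omega) (by omega) h3 hv
      · rcases Nat.mod_two_eq_zero_or_one k with h3 | h3
        · exact good3_DRb h m p hh hm hp hph k j hi h1 (by omega) (by omega) h3 hv
        · exact good3_DLb h m p hh hm hp hph k j hi h1 (by omega) (by omega) h3 hv
  · have hw3 : w = 1 := by omega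
    subst hw3
    rcases hv' with ⟨h1, h2⟩ | ⟨h1, h2⟩ | ⟨h1, h2⟩ | ⟨h1, h2⟩
    · obtain rfl : k = i + 1 := by omega
      exact good3_Rmm2 j m p hh hm hp hph i hi h1 hv
    · obtain rfl : k = i + 1 := by omega
      exact good3_R2mm2 j m p hh hm hp hph i hi h1 hv
    · subst h2
      exact good3_R1 j m p hh hm hp hph i hi h1 hv
    · subst h2
      exact good3_Rmp1 j k p hh hm hp hph i hi h1 hv

theorem good3 (h m p : ℕ) (hh : 2 ≤ h) (hm : m = 2*h) (hp : p ≤ 1) (hph : (p + h) % 2 = 0)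
    (x : V3 h m) : Good (f3 h m p) x := by
  obtain ⟨⟨i, k, j, w⟩, hv⟩ := x
  by_cases hw : w ≤ 1
  · exact good3_low h m p hh hm hp hph i k j w hv hw
  · apply Good.of_antipode (a3 h m hh hm) (a3_sign h m p hh hm hp) (a3_invol h m hh hm)
    exact good3_low h m p hh hm hp hph _ _ _ _ _ (by simp only; omega)

theorem prim3 (h m p : ℕ) (hh : 2 ≤ h) (hm : m = 2*h) (hp : p ≤ 1) (hph : (p + h) % 2 = 0)
    (i : ℕ) (hip : i + p = 1) (hne : Nonempty (V3 h m)) :
    IsPrimitive (signGraph (f3 h m p)) := by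
  have hcub := (crit (V := V3 h m) (hgood := good3 h m p hh hm hp hph) (a := a3 h m hh hm)
    (a3_sign h m p hh hm hp)).2.1
  have hi : i < 2*m := by omega
  have hz1 : 0 + 1 ≤ h := by omega
  have hz2 : 1 + 1 ≤ h := by omega
  have hir : i + 1 < 2*m := by omega
  have hs1 : p < 2*m := by omega
  have hs2 : 2*(p/2) + p = p := by omega
  have hs3 : p/2 < m := by omega
  have s' : p + i = 1 ∨ p + i = 1 + 2*m := by omega
  have hnr : (i + 1 = 2*m ∧ i + 1 = 0) ∨ (i + 1 < 2*m ∧ i + 1 = i + 1) := Or.inr ⟨hir, rfl⟩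
  have hnl := pv_spec m i hi
  generalize hpvl : pv m i = i2 at *
  clear hpvl
  have hil : i2 < 2*m := by omega
  have hr : i + 1 < m := by omega
  have hl : i < m := by omega
  have vr : (i + 1 < m ∧ i + 1 = i + 1) ∨ (m ≤ i + 1 ∧ i + 1 < 2*m ∧ i + 1 + m = i + 1) ∨
    (i + 1 = 2*m ∧ i + 1 = 0) := Or.inl ⟨hr, rfl⟩
  have vl : (i < m ∧ i = i) ∨ (m ≤ i ∧ i + m = i) := Or.inl ⟨hl, rfl⟩
  refine prim_of_good (good3 h m p hh hm hp hph) hcub (mk3 h m i i 0 0 (vA hm hi hz1))
    ![Sum.inl (Sum.inl ⟨i + 1, hr⟩), Sum.inl (Sum.inl ⟨i, hl⟩), Sum.inl (Sum.inr ⟨p / 2, hs3⟩)]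
    ![mk3 h m (i+1) (i+1) 0 0 (vA hm hir hz1),
      mk3 h m i2 i2 0 0 (vA hm hil hz1),
      mk3 h m i i 1 0 (vA hm hi hz2)] ?_ ?_ ?_ ?_
  · intro a b hab
    fin_cases a <;> fin_cases b <;> first | rfl | (exfalso; simp [Fin.ext_iff] at hab; try omega)
  · intro k' l'
    fin_cases k'
    · rcases l' with (⟨a, ha⟩ | ⟨b, hb⟩) | ⟨u', hu'⟩
      · have := flipVR hi hnr vr a ha
        simpa [mk3, f3, Fin.ext_iff] using this
      · have := slideR0 (s := 2*b + p) hi (by omega) hnr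
        simpa [mk3, f3] using this
      · have := ES0 (m := m) (i := i) (i2 := i+1) (t := u')
        simpa [mk3, f3] using this
    · rcases l' with (⟨a, ha⟩ | ⟨b, hb⟩) | ⟨u', hu'⟩
      · have := flipVL hi hnl vl a ha
        simpa [mk3, f3, Fin.ext_iff] using this
      · have := slideL0 (s := 2*b + p) hi (by omega) hnl
        simpa [mk3, f3] using this
      · have := ES0 (m := m) (i := i) (i2 := i2) (t := u')
        simpa [mk3, f3] using this
    · rcases l' with (⟨a, ha⟩ | ⟨b, hb⟩) | ⟨u', hu'⟩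
      · simp [mk3, f3]
      · have := growD (i := i) (j := 1) (by omega) (by omega) (by omega) hp hs1 hs2 s' b hb
        simpa [mk3, f3, Fin.ext_iff] using this
      · simp [mk3, f3]
  · rintro ⟨⟨i', k', j', w'⟩, hv'⟩ hw
    have w0 := hw 0
    have w1 := hw 1
    have w2 := hw 2
    clear hw
    obtain ⟨hi', hk', hj', hv'⟩ := hv'
    simp only at hi' hk' hj' hv'
    simp only [mk3, f3, Fin.isValue, Matrix.cons_val_zero, Matrix.cons_val_one, Matrix.cons_val] at w0 w1 w2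
    rw [hs2] at w2
    obtain ⟨e1, e2, e3, e4⟩ := uniq_A0 hh hm hi vr vl s' hs1 hi' hk' hj' hv' w0 w1 w2
    exact Subtype.ext (by simp [mk3, e1, e2, e3, e4])
  · intro k hk
    rintro ⟨⟨⟨i', k', j', w'⟩, hv'⟩, hc⟩
    obtain ⟨hi', hk', hj', hv'⟩ := hv'
    simp only at hi' hk' hj' hv'
    have w0 := hc (Sum.inl (Sum.inl ⟨0, by omega⟩))
    have w1 := hc (Sum.inl (Sum.inl ⟨1, by omega⟩))
    have w2 := hc (Sum.inl (Sum.inl ⟨2, by omega⟩))
    have w3 := hc (Sum.inl (Sum.inl ⟨3, by omega⟩))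
    have w4 := hc (Sum.inl (Sum.inr ⟨p/2, hs3⟩))
    have w5 := hc (Sum.inl (Sum.inr ⟨m-1, by omega⟩))
    have hip2 : (i = 0 ∧ p = 1) ∨ (i = 1 ∧ p = 0) := by omega
    fin_cases k
    · exact absurd rfl hk
    · rcases hip2 with ⟨rfl, rfl⟩ | ⟨rfl, rfl⟩
      · simp [f3, mk3, VS] at w0 w1 w2 w3
        omega
      · simp [f3, mk3, VS] at w0 w1 w2 w3
        omega
    · rcases hip2 with ⟨rfl, rfl⟩ | ⟨rfl, rfl⟩
      · simp [f3, mk3, VS, SS] at w1 w2 w3 w4 w5
        omega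
      · simp [f3, mk3, VS, SS] at w1 w2 w3 w4 w5
        omega

/-- every number `4h+3`, `h ≥ 2`, is the diameter of a primitive cubic S-graph -/
theorem mem_three_mod_four (h : ℕ) (hh : 2 ≤ h) : 4 * h + 3 ∈ diameterSet := by
  have hne : Nonempty (V3 h (2*h)) := ⟨mk3 h (2*h) 0 0 0 0 (vA rfl (by omega) (by omega))⟩
  obtain ⟨p, hp, hph⟩ : ∃ p, p ≤ 1 ∧ (p + h) % 2 = 0 := ⟨h % 2, by omega, by omega⟩
  obtain ⟨h1, h2, h3, h4⟩ := crit (V := V3 h (2*h)) (hgood := good3 h (2*h) p hh rfl hp hph)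
    (a := a3 h (2*h) hh rfl) (a3_sign h (2*h) p hh rfl hp)
  refine ⟨V3 h (2*h), signGraph (f3 h (2*h) p), h1, h2, h3,
    prim3 h (2*h) p hh rfl hp hph (1 - p) (by omega) hne, ?_⟩
  rw [h4]
  simp
  omega

end Pool.Agent.Helper371
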