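import Pool.Agent.Helper371.SFam3Val

set_option autoImplicit false
set_option linter.unusedSimpArgs false
set_option linter.unreachableTactic false
set_option linter.unusedTactic false
set_option linter.unusedVariables false

namespace Pool.Agent.Helper371

theorem uniq_A0 {h m i i' k' j' w' r l s : ℕ} (hh : 2 ≤ h) (hm : m = 2*h) (hi : i < 2*m)
    (vr : (i + 1 < m ∧ r = i + 1) ∨ (m ≤ i + 1 ∧ i + 1 < 2*m ∧ r + m = i + 1) ∨ (i + 1 = 2*m ∧ r = 0))
    (vl : (i < m ∧ l = i) ∨ (m ≤ i ∧ l + m = i))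
    (s' : s + i = 1 ∨ s + i = 1 + 2*m) (hs1 : s < 2*m)
    (hi' : i' < 2*m) (hk' : k' < 2*m) (hj' : j' ≤ m)
    (hv' : (k' = i' ∧ ((w' = 0 ∧ j' + 1 ≤ h) ∨ (w' = 0 ∧ j' = h ∧ spec m i') ∨ (w' = 1 ∧ j' = h) ∨
      (w' = 1 ∧ j' + 1 = h ∧ ¬ spec m i') ∨ (w' = 2 ∧ j' = h) ∨ (w' = 2 ∧ j' = h+1 ∧ ¬ spec m i') ∨
      (w' = 3 ∧ h + 1 ≤ j') ∨ (w' = 3 ∧ j' = h ∧ spec m i')))
  ∨ ((w' = 1 ∨ w' = 2) ∧ j' = h ∧ ((i' + 2 = m ∧ k' + 1 = m) ∨ (i' + 2 = 2*m ∧ k' + 1 = 2*m) ∨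
      (i' = 1 ∧ k' = 0) ∨ (i' = m+1 ∧ k' = m))))
    (w0 : VS m r i' ↔ VS m r i)
    (w1 : VS m l i' ↔ VS m l i)
    (w2 : SS m s k' j' ↔ SS m s i 0)
    : i' = i ∧ k' = i ∧ j' = 0 ∧ w' = 0 := by
  have hii : i' = i := by
    clear hv' w2 s' hs1
    exact sideLR hi hi' vr vl w0 w1
  clear w0 w1
  subst hii
  rcases hv' with ⟨hv0, hv'⟩ | ⟨hv0, hv1, hv'⟩
  · subst hv0
    have q := posGt (posSelfD (J := j') (by omega) (by omega) s' hs1 (by omega) (by omega)) w2 (posSelfD (J := 0) (by omega) (by omega) s' hs1 (by omega) (by omega)) (by omega)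
    clear w2 s' hs1 vl vr
    rcases hv' with hv' | hv' | hv' | hv' | hv' | hv' | hv' | hv' <;> omega
  · exfalso
    have hcase := extra_case hv'
    clear hv'
    rcases hcase with ⟨hk1, hi1⟩ | ⟨hk1, hi1⟩
    · obtain ⟨g2, hg2, hgw2⟩ := posDR (d := 1) (by omega) (by omega) s' hs1 (by omega) hk' (by omega) (Or.inl hk1)
      have q2 := posGt (hgw2 _ hj') w2 (posSelfD (J := 0) (by omega) (by omega) s' hs1 (by omega) (by omega)) (by omega)
      clear hgw2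
      clear w2 s' hs1 vl vr
      rcases hg2 with hg2 | hg2 <;> omega
    · obtain ⟨g2, hg2, hgw2⟩ := posDL (d := 1) (by omega) (by omega) s' hs1 (by omega) hk' (by omega) (Or.inl hk1)
      have q2 := posGt (hgw2 _ hj') w2 (posSelfD (J := 0) (by omega) (by omega) s' hs1 (by omega) (by omega)) (by omega)
      clear hgw2
      clear w2 s' hs1 vl vr
      rcases hg2 with hg2 | hg2 <;> omega

theorem good3_A0 (h m p : ℕ) (hh : 2 ≤ h) (hm : m = 2*h) (hp : p ≤ 1) (hph : (p + h) % 2 = 0)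
    (i : ℕ) (hi : i < 2*m) (hpar : (i + 1 + p) % 2 = 0)
    (hv : Valid h m i i 0 0) :
    Good (f3 h m p) (mk3 h m i i 0 0 hv) := by
  have hz1 : 0 + 1 ≤ h := by omega
  have hz2 : 1 + 1 ≤ h := by omega
  obtain ⟨s, hs1, hs2, hs3, s'⟩ : ∃ s, s < 2*m ∧ 2*(s/2) + p = s ∧ s/2 < m ∧ (s + i = 1 ∨ s + i = 1 + 2*m) := by
    obtain ⟨c1, c2, c3, c4⟩ := cs_spec m p i (1) (by omega) hp (by omega) (by omega) (by omega)
    refine ⟨_, c1, c2, c3, ?_⟩
    generalize cs m p i (1) = s0 at *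
    clear c1 c2 c3
    omega
  have hnr := nx_spec m i hi
  generalize hpvr : nx m i = i1 at *
  clear hpvr
  have hir : i1 < 2*m := by omega
  have hnl := pv_spec m i hi
  generalize hpvl : pv m i = i2 at *
  clear hpvl
  have hil : i2 < 2*m := by omega
  obtain ⟨hr, vr⟩ := bR_spec m i hi
  generalize hbdr : bR m i = r at *
  clear hbdr
  obtain ⟨hl, vl⟩ := bL_spec m i hi
  generalize hbdl : bL m i = l at *
  clear hbdl
  refine ⟨![Sum.inl (Sum.inl ⟨r, hr⟩), Sum.inl (Sum.inl ⟨l, hl⟩), Sum.inl (Sum.inr ⟨s / 2, hs3⟩)],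
    ![mk3 h m i1 i1 0 0 (vA hm hir hz1),
      mk3 h m i2 i2 0 0 (vA hm hil hz1),
      mk3 h m i i 1 0 (vA hm hi hz2)], ?_, ?_, ?_⟩
  · intro a b hab
    fin_cases a <;> fin_cases b <;> first | rfl | (exfalso; simp [Fin.ext_iff] at hab; try omega)
  · intro k' l'
    fin_cases k'
    · rcases l' with (⟨a, ha⟩ | ⟨b, hb⟩) | ⟨u', hu'⟩
      · have := flipVR hi hnr vr a ha
        simpa [mk3, f3, Fin.ext_iff] using this
      · have := slideR0 (s := 2*b + p) hi (by omega) hnr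
        simpa [mk3, f3] using this
      · have := ES0 (m := m) (i := i) (i2 := i1) (t := u')
        simpa [mk3, f3] using this
    · rcases l' with (⟨a, ha⟩ | ⟨b, hb⟩) | ⟨u', hu'⟩
      · have := flipVL hi hnl vl a ha
        simpa [mk3, f3, Fin.ext_iff] using this
      · have := slideL0 (s := 2*b + p) hi (by omega) hnl
        simpa [mk3, f3] using this
      · have := ES0 (m := m) (i := i) (i2 := i2) (t := u')
        simpa [mk3, f3] using this
    · rcases l' with (⟨a, ha⟩ | ⟨b, hb⟩) | ⟨u', hu'⟩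
      · simp [mk3, f3]
      · have := growD (i := i) (j := 1) (by omega) (by omega) (by omega) hp hs1 hs2 s' b hb
        simpa [mk3, f3, Fin.ext_iff] using this
      · simp [mk3, f3]
  · rintro ⟨⟨i', k', j', w'⟩, hv'⟩ hw
    have w0 := hw 0
    have w1 := hw 1
    have w2 := hw 2
    clear hw
    obtain ⟨hi', hk', hj', hv'⟩ := hv'
    simp only at hi' hk' hj' hv'
    simp only [mk3, f3, Fin.isValue, Matrix.cons_val_zero, Matrix.cons_val_one, Matrix.cons_val, Fin.val_zero, Fin.val_one, Fin.val_two] at w0 w1 w2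
    rw [hs2] at w2
    obtain ⟨e1, e2, e3, e4⟩ := uniq_A0 hh hm hi  vr vl s' hs1 hi' hk' hj' hv' w0 w1 w2
    exact Subtype.ext (by simp [mk3, e1, e2, e3, e4])

theorem uniq_A1 {h m i i' k' j' w' r l s : ℕ} (hh : 2 ≤ h) (hm : m = 2*h) (hi : i < 2*m)
    (vr : (i + 1 < m ∧ r = i + 1) ∨ (m ≤ i + 1 ∧ i + 1 < 2*m ∧ r + m = i + 1) ∨ (i + 1 = 2*m ∧ r = 0))
    (vl : (i < m ∧ l = i) ∨ (m ≤ i ∧ l + m = i))
    (s' : s + i + 1 = 1 ∨ s + i + 1 = 2*m + 1 ∨ s + i + 1 = 4*m + 1) (hs1 : s < 2*m)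
    (hi' : i' < 2*m) (hk' : k' < 2*m) (hj' : j' ≤ m)
    (hv' : (k' = i' ∧ ((w' = 0 ∧ j' + 1 ≤ h) ∨ (w' = 0 ∧ j' = h ∧ spec m i') ∨ (w' = 1 ∧ j' = h) ∨
      (w' = 1 ∧ j' + 1 = h ∧ ¬ spec m i') ∨ (w' = 2 ∧ j' = h) ∨ (w' = 2 ∧ j' = h+1 ∧ ¬ spec m i') ∨
      (w' = 3 ∧ h + 1 ≤ j') ∨ (w' = 3 ∧ j' = h ∧ spec m i')))
  ∨ ((w' = 1 ∨ w' = 2) ∧ j' = h ∧ ((i' + 2 = m ∧ k' + 1 = m) ∨ (i' + 2 = 2*m ∧ k' + 1 = 2*m) ∨
      (i' = 1 ∧ k' = 0) ∨ (i' = m+1 ∧ k' = m))))
    (w0 : VS m r i' ↔ VS m r i)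
    (w1 : VS m l i' ↔ VS m l i)
    (w2 : SS m s k' j' ↔ SS m s i 0)
    : i' = i ∧ k' = i ∧ j' = 0 ∧ w' = 0 := by
  have hii : i' = i := by
    clear hv' w2 s' hs1
    exact sideLR hi hi' vr vl w0 w1
  clear w0 w1
  subst hii
  rcases hv' with ⟨hv0, hv'⟩ | ⟨hv0, hv1, hv'⟩
  · subst hv0
    have q := posGt (posSelfU (J := j') (by omega) (by omega) s' hs1 (by omega) (by omega)) w2 (posSelfU (J := 0) (by omega) (by omega) s' hs1 (by omega) (by omega)) (by omega)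
    clear w2 s' hs1 vl vr
    rcases hv' with hv' | hv' | hv' | hv' | hv' | hv' | hv' | hv' <;> omega
  · exfalso
    have hcase := extra_case hv'
    clear hv'
    rcases hcase with ⟨hk1, hi1⟩ | ⟨hk1, hi1⟩
    · obtain ⟨g2, hg2, hgw2⟩ := posUR (d := 1) (by omega) (by omega) s' hs1 (by omega) hk' (by omega) (Or.inl hk1)
      have q2 := posGt (hgw2 _ hj') w2 (posSelfU (J := 0) (by omega) (by omega) s' hs1 (by omega) (by omega)) (by omega)
      clear hgw2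
      clear w2 s' hs1 vl vr
      rcases hg2 with hg2 | hg2 <;> omega
    · obtain ⟨g2, hg2, hgw2⟩ := posUL (d := 1) (by omega) (by omega) s' hs1 (by omega) hk' (by omega) (Or.inl hk1)
      have q2 := posGt (hgw2 _ hj') w2 (posSelfU (J := 0) (by omega) (by omega) s' hs1 (by omega) (by omega)) (by omega)
      clear hgw2
      clear w2 s' hs1 vl vr
      rcases hg2 with hg2 | hg2 <;> omega

theorem good3_A1 (h m p : ℕ) (hh : 2 ≤ h) (hm : m = 2*h) (hp : p ≤ 1) (hph : (p + h) % 2 = 0)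
    (i : ℕ) (hi : i < 2*m) (hpar : (i + 1 + p) % 2 = 1)
    (hv : Valid h m i i 0 0) :
    Good (f3 h m p) (mk3 h m i i 0 0 hv) := by
  have hz1 : 0 + 1 ≤ h := by omega
  have hz2 : 1 + 1 ≤ h := by omega
  obtain ⟨s, hs1, hs2, hs3, s'⟩ : ∃ s, s < 2*m ∧ 2*(s/2) + p = s ∧ s/2 < m ∧ (s + i + 1 = 1 ∨ s + i + 1 = 2*m + 1 ∨ s + i + 1 = 4*m + 1) := by
    obtain ⟨c1, c2, c3, c4⟩ := cs_spec m p i (1) (by omega) hp (by omega) (by omega) (by omega)
    refine ⟨_, c1, c2, c3, ?_⟩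
    generalize cs m p i (1) = s0 at *
    clear c1 c2 c3
    omega
  have hnr := nx_spec m i hi
  generalize hpvr : nx m i = i1 at *
  clear hpvr
  have hir : i1 < 2*m := by omega
  have hnl := pv_spec m i hi
  generalize hpvl : pv m i = i2 at *
  clear hpvl
  have hil : i2 < 2*m := by omega
  obtain ⟨hr, vr⟩ := bR_spec m i hi
  generalize hbdr : bR m i = r at *
  clear hbdr
  obtain ⟨hl, vl⟩ := bL_spec m i hi
  generalize hbdl : bL m i = l at *
  clear hbdl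
  refine ⟨![Sum.inl (Sum.inl ⟨r, hr⟩), Sum.inl (Sum.inl ⟨l, hl⟩), Sum.inl (Sum.inr ⟨s / 2, hs3⟩)],
    ![mk3 h m i1 i1 0 0 (vA hm hir hz1),
      mk3 h m i2 i2 0 0 (vA hm hil hz1),
      mk3 h m i i 1 0 (vA hm hi hz2)], ?_, ?_, ?_⟩
  · intro a b hab
    fin_cases a <;> fin_cases b <;> first | rfl | (exfalso; simp [Fin.ext_iff] at hab; try omega)
  · intro k' l'
    fin_cases k'
    · rcases l' with (⟨a, ha⟩ | ⟨b, hb⟩) | ⟨u', hu'⟩
      · have := flipVR hi hnr vr a ha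
        simpa [mk3, f3, Fin.ext_iff] using this
      · have := slideR0 (s := 2*b + p) hi (by omega) hnr
        simpa [mk3, f3] using this
      · have := ES0 (m := m) (i := i) (i2 := i1) (t := u')
        simpa [mk3, f3] using this
    · rcases l' with (⟨a, ha⟩ | ⟨b, hb⟩) | ⟨u', hu'⟩
      · have := flipVL hi hnl vl a ha
        simpa [mk3, f3, Fin.ext_iff] using this
      · have := slideL0 (s := 2*b + p) hi (by omega) hnl
        simpa [mk3, f3] using this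
      · have := ES0 (m := m) (i := i) (i2 := i2) (t := u')
        simpa [mk3, f3] using this
    · rcases l' with (⟨a, ha⟩ | ⟨b, hb⟩) | ⟨u', hu'⟩
      · simp [mk3, f3]
      · have := growU (i := i) (j := 1) (by omega) (by omega) (by omega) hp hs1 hs2 s' b hb
        simpa [mk3, f3, Fin.ext_iff] using this
      · simp [mk3, f3]
  · rintro ⟨⟨i', k', j', w'⟩, hv'⟩ hw
    have w0 := hw 0
    have w1 := hw 1
    have w2 := hw 2
    clear hw
    obtain ⟨hi', hk', hj', hv'⟩ := hv'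
    simp only at hi' hk' hj' hv'
    simp only [mk3, f3, Fin.isValue, Matrix.cons_val_zero, Matrix.cons_val_one, Matrix.cons_val, Fin.val_zero, Fin.val_one, Fin.val_two] at w0 w1 w2
    rw [hs2] at w2
    obtain ⟨e1, e2, e3, e4⟩ := uniq_A1 hh hm hi  vr vl s' hs1 hi' hk' hj' hv' w0 w1 w2
    exact Subtype.ext (by simp [mk3, e1, e2, e3, e4])

theorem uniq_BL {h m i j i' k' j' w' s t l : ℕ} (hh : 2 ≤ h) (hm : m = 2*h) (hi : i < 2*m)
    (hj1 : 1 ≤ j)
    (hj2 : j + 1 ≤ h)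
    (hj3 : j + 1 = h → spec m i)
    (s' : s + i = j ∨ s + i = j + 2*m) (hs1 : s < 2*m)
    (t' : t + i + (j+1) = 1 ∨ t + i + (j+1) = 2*m + 1 ∨ t + i + (j+1) = 4*m + 1) (ht1 : t < 2*m)
    (vl : (i < m ∧ l = i) ∨ (m ≤ i ∧ l + m = i))
    (hi' : i' < 2*m) (hk' : k' < 2*m) (hj' : j' ≤ m)
    (hv' : (k' = i' ∧ ((w' = 0 ∧ j' + 1 ≤ h) ∨ (w' = 0 ∧ j' = h ∧ spec m i') ∨ (w' = 1 ∧ j' = h) ∨
      (w' = 1 ∧ j' + 1 = h ∧ ¬ spec m i') ∨ (w' = 2 ∧ j' = h) ∨ (w' = 2 ∧ j' = h+1 ∧ ¬ spec m i') ∨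
      (w' = 3 ∧ h + 1 ≤ j') ∨ (w' = 3 ∧ j' = h ∧ spec m i')))
  ∨ ((w' = 1 ∨ w' = 2) ∧ j' = h ∧ ((i' + 2 = m ∧ k' + 1 = m) ∨ (i' + 2 = 2*m ∧ k' + 1 = 2*m) ∨
      (i' = 1 ∧ k' = 0) ∨ (i' = m+1 ∧ k' = m))))
    (w0 : SS m s k' j' ↔ SS m s i j)
    (w1 : SS m t k' j' ↔ SS m t i j)
    (w2 : VS m l i' ↔ VS m l i)
    : i' = i ∧ k' = i ∧ j' = j ∧ w' = 0 := by
  obtain ⟨d, hd, hdi⟩ := sideL hi hi' vl w2
  clear w2 vl
  rcases hv' with ⟨hv0, hv'⟩ | ⟨hv0, hv1, hv'⟩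
  · rw [hv0] at w0
    obtain ⟨g0, hg0, hgw0⟩ := posDR (d := d) (by omega) (by omega) s' hs1 (by omega) hi' (by omega) hdi
    have q0 := posLe (hgw0 _ hj') w0 (posSelfD (J := j) (by omega) (by omega) s' hs1 (by omega) (by omega)) (by omega)
    clear hgw0
    rw [hv0] at w1
    obtain ⟨g1, hg1, hgw1⟩ := posUR (d := d) (by omega) (by omega) t' ht1 (by omega) hi' (by omega) hdi
    have q1 := posGt (hgw1 _ hj') w1 (posSelfU (J := j) (by omega) (by omega) t' ht1 (by omega) (by omega)) (by omega)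
    clear hgw1
    clear s' t' hs1 ht1 w0 w1
    unfold spec at *
    rcases hdi with hdi | hdi <;> rcases hg0 with hg0 | hg0 <;> rcases hg1 with hg1 | hg1 <;> rcases hv' with hv' | hv' | hv' | hv' | hv' | hv' | hv' | hv' <;> omega
  · have hcase := extra_case hv'
    clear hv'
    rcases hcase with ⟨hk1, hi1⟩ | ⟨hk1, hi1⟩
    · obtain ⟨g0, hg0, hgw0⟩ := posDR (d := d+1) (by omega) (by omega) s' hs1 (by omega) hk' (by omega) (by omega)
      have q0 := posLe (hgw0 _ hj') w0 (posSelfD (J := j) (by omega) (by omega) s' hs1 (by omega) (by omega)) (by omega)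
      clear hgw0
      obtain ⟨g1, hg1, hgw1⟩ := posUR (d := d+1) (by omega) (by omega) t' ht1 (by omega) hk' (by omega) (by omega)
      have q1 := posGt (hgw1 _ hj') w1 (posSelfU (J := j) (by omega) (by omega) t' ht1 (by omega) (by omega)) (by omega)
      clear hgw1
      clear s' t' hs1 ht1 w0 w1
      unfold spec at *
      rcases hdi with hdi | hdi <;> rcases hg0 with hg0 | hg0 <;> rcases hg1 with hg1 | hg1 <;> rcases hi1 with hi1 | hi1 <;> rcases hv0 with hv0 | hv0 <;> omega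
    · rcases Nat.eq_zero_or_pos d with hd0 | hd0
      · subst hd0
        obtain ⟨g0, hg0, hgw0⟩ := posDL (d := 1) (by omega) (by omega) s' hs1 (by omega) hk' (by omega) (by omega)
        have q0 := posLe (hgw0 _ hj') w0 (posSelfD (J := j) (by omega) (by omega) s' hs1 (by omega) (by omega)) (by omega)
        clear hgw0
        obtain ⟨g1, hg1, hgw1⟩ := posUL (d := 1) (by omega) (by omega) t' ht1 (by omega) hk' (by omega) (by omega)
        have q1 := posGt (hgw1 _ hj') w1 (posSelfU (J := j) (by omega) (by omega) t' ht1 (by omega) (by omega)) (by omega)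
        clear hgw1
        clear s' t' hs1 ht1 w0 w1
        unfold spec at *
        rcases hdi with hdi | hdi <;> rcases hg0 with hg0 | hg0 <;> rcases hg1 with hg1 | hg1 <;> rcases hi1 with hi1 | hi1 <;> rcases hv0 with hv0 | hv0 <;> omega
      · obtain ⟨e, rfl⟩ : ∃ e, d = e + 1 := ⟨d - 1, by omega⟩
        obtain ⟨g0, hg0, hgw0⟩ := posDR (d := e) (by omega) (by omega) s' hs1 (by omega) hk' (by omega) (by omega)
        have q0 := posLe (hgw0 _ hj') w0 (posSelfD (J := j) (by omega) (by omega) s' hs1 (by omega) (by omega)) (by omega)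
        clear hgw0
        obtain ⟨g1, hg1, hgw1⟩ := posUR (d := e) (by omega) (by omega) t' ht1 (by omega) hk' (by omega) (by omega)
        have q1 := posGt (hgw1 _ hj') w1 (posSelfU (J := j) (by omega) (by omega) t' ht1 (by omega) (by omega)) (by omega)
        clear hgw1
        clear s' t' hs1 ht1 w0 w1
        unfold spec at *
        rcases hdi with hdi | hdi <;> rcases hg0 with hg0 | hg0 <;> rcases hg1 with hg1 | hg1 <;> rcases hi1 with hi1 | hi1 <;> rcases hv0 with hv0 | hv0 <;> omega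

theorem good3_BL (h m p : ℕ) (hh : 2 ≤ h) (hm : m = 2*h) (hp : p ≤ 1) (hph : (p + h) % 2 = 0)
    (i j : ℕ) (hi : i < 2*m) (hj1 : 1 ≤ j) (hj2 : j + 1 ≤ h) (hj3 : j + 1 = h → spec m i) (hpar : (i + j + p) % 2 = 0)
    (hv : Valid h m i i j 0) :
    Good (f3 h m p) (mk3 h m i i j 0 hv) := by
  have hjm : (j-1) + 1 ≤ h := by omega
  obtain ⟨s, hs1, hs2, hs3, s'⟩ : ∃ s, s < 2*m ∧ 2*(s/2) + p = s ∧ s/2 < m ∧ (s + i = j ∨ s + i = j + 2*m) := by
    obtain ⟨c1, c2, c3, c4⟩ := cs_spec m p i (j) (by omega) hp (by omega) (by omega) (by omega)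
    refine ⟨_, c1, c2, c3, ?_⟩
    generalize cs m p i (j) = s0 at *
    clear c1 c2 c3
    omega
  obtain ⟨t, ht1, ht2, ht3, t'⟩ : ∃ t, t < 2*m ∧ 2*(t/2) + p = t ∧ t/2 < m ∧ (t + i + (j+1) = 1 ∨ t + i + (j+1) = 2*m + 1 ∨ t + i + (j+1) = 4*m + 1) := by
    obtain ⟨c1, c2, c3, c4⟩ := cs_spec m p i ((j+1)) (by omega) hp (by omega) (by omega) (by omega)
    refine ⟨_, c1, c2, c3, ?_⟩
    generalize cs m p i ((j+1)) = s0 at *
    clear c1 c2 c3
    omega
  have hnl := pv_spec m i hi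
  generalize hpvl : pv m i = i2 at *
  clear hpvl
  have hil : i2 < 2*m := by omega
  obtain ⟨hl, vl⟩ := bL_spec m i hi
  generalize hbdl : bL m i = l at *
  clear hbdl
  refine ⟨![Sum.inl (Sum.inr ⟨s / 2, hs3⟩), Sum.inl (Sum.inr ⟨t / 2, ht3⟩), Sum.inl (Sum.inl ⟨l, hl⟩)],
    ![mk3 h m i i (j-1) 0 (vA hm hi hjm),
      mk3 h m i i (j+1) 0 (by
        by_cases hjh : j + 1 = h
        · rw [hjh]; exact vS0 hm hi (hj3 hjh)
        · exact vA hm hi (by omega)),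
      mk3 h m i2 i2 j 0 (vA hm hil hj2)], ?_, ?_, ?_⟩
  · intro a b hab
    fin_cases a <;> fin_cases b <;> first | rfl | (exfalso; simp [Fin.ext_iff] at hab; try omega)
  · intro k' l'
    fin_cases k'
    · rcases l' with (⟨a, ha⟩ | ⟨b, hb⟩) | ⟨u', hu'⟩
      · simp [mk3, f3]
      · have := growD (i := i) (j := j) (by omega) (by omega) (by omega) hp hs1 hs2 s' b hb
        rw [iff_comm (a := SS m (2*b + p) i (j-1))] at this
        simpa [mk3, f3, Fin.ext_iff] using this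
      · simp [mk3, f3]
    · rcases l' with (⟨a, ha⟩ | ⟨b, hb⟩) | ⟨u', hu'⟩
      · simp [mk3, f3]
      · have := growU (i := i) (j := (j+1)) (by omega) (by omega) (by omega) hp ht1 ht2 t' b hb
        simpa [mk3, f3, Fin.ext_iff] using this
      · simp [mk3, f3]
    · rcases l' with (⟨a, ha⟩ | ⟨b, hb⟩) | ⟨u', hu'⟩
      · have := flipVL hi hnl vl a ha
        simpa [mk3, f3, Fin.ext_iff] using this
      · have := slideL (p := p) (j := j) hi (by omega) hp hnl (by omega) b hb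
        simpa [mk3, f3] using this
      · have := ES0 (m := m) (i := i) (i2 := i2) (t := u')
        simpa [mk3, f3] using this
  · rintro ⟨⟨i', k', j', w'⟩, hv'⟩ hw
    have w0 := hw 0
    have w1 := hw 1
    have w2 := hw 2
    clear hw
    obtain ⟨hi', hk', hj', hv'⟩ := hv'
    simp only at hi' hk' hj' hv'
    simp only [mk3, f3, Fin.isValue, Matrix.cons_val_zero, Matrix.cons_val_one, Matrix.cons_val, Fin.val_zero, Fin.val_one, Fin.val_two] at w0 w1 w2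
    rw [hs2] at w0
    rw [ht2] at w1
    obtain ⟨e1, e2, e3, e4⟩ := uniq_BL hh hm hi hj1 hj2 hj3 s' hs1 t' ht1 vl hi' hk' hj' hv' w0 w1 w2
    exact Subtype.ext (by simp [mk3, e1, e2, e3, e4])

theorem uniq_BR {h m i j i' k' j' w' s t l : ℕ} (hh : 2 ≤ h) (hm : m = 2*h) (hi : i < 2*m)
    (hj1 : 1 ≤ j)
    (hj2 : j + 1 ≤ h)
    (hj3 : j + 1 = h → spec m i)
    (s' : s + i + j = 1 ∨ s + i + j = 2*m + 1 ∨ s + i + j = 4*m + 1) (hs1 : s < 2*m)
    (t' : t + i = (j+1) ∨ t + i = (j+1) + 2*m) (ht1 : t < 2*m)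
    (vl : (i + 1 < m ∧ l = i + 1) ∨ (m ≤ i + 1 ∧ i + 1 < 2*m ∧ l + m = i + 1) ∨ (i + 1 = 2*m ∧ l = 0))
    (hi' : i' < 2*m) (hk' : k' < 2*m) (hj' : j' ≤ m)
    (hv' : (k' = i' ∧ ((w' = 0 ∧ j' + 1 ≤ h) ∨ (w' = 0 ∧ j' = h ∧ spec m i') ∨ (w' = 1 ∧ j' = h) ∨
      (w' = 1 ∧ j' + 1 = h ∧ ¬ spec m i') ∨ (w' = 2 ∧ j' = h) ∨ (w' = 2 ∧ j' = h+1 ∧ ¬ spec m i') ∨
      (w' = 3 ∧ h + 1 ≤ j') ∨ (w' = 3 ∧ j' = h ∧ spec m i')))
  ∨ ((w' = 1 ∨ w' = 2) ∧ j' = h ∧ ((i' + 2 = m ∧ k' + 1 = m) ∨ (i' + 2 = 2*m ∧ k' + 1 = 2*m) ∨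
      (i' = 1 ∧ k' = 0) ∨ (i' = m+1 ∧ k' = m))))
    (w0 : SS m s k' j' ↔ SS m s i j)
    (w1 : SS m t k' j' ↔ SS m t i j)
    (w2 : VS m l i' ↔ VS m l i)
    : i' = i ∧ k' = i ∧ j' = j ∧ w' = 0 := by
  obtain ⟨d, hd, hdi⟩ := sideR hi hi' vl w2
  clear w2 vl
  rcases hv' with ⟨hv0, hv'⟩ | ⟨hv0, hv1, hv'⟩
  · rw [hv0] at w0
    obtain ⟨g0, hg0, hgw0⟩ := posUL (d := d) (by omega) (by omega) s' hs1 (by omega) hi' (by omega) hdi
    have q0 := posLe (hgw0 _ hj') w0 (posSelfU (J := j) (by omega) (by omega) s' hs1 (by omega) (by omega)) (by omega)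
    clear hgw0
    rw [hv0] at w1
    obtain ⟨g1, hg1, hgw1⟩ := posDL (d := d) (by omega) (by omega) t' ht1 (by omega) hi' (by omega) hdi
    have q1 := posGt (hgw1 _ hj') w1 (posSelfD (J := j) (by omega) (by omega) t' ht1 (by omega) (by omega)) (by omega)
    clear hgw1
    clear s' t' hs1 ht1 w0 w1
    unfold spec at *
    rcases hdi with hdi | hdi <;> rcases hg0 with hg0 | hg0 <;> rcases hg1 with hg1 | hg1 <;> rcases hv' with hv' | hv' | hv' | hv' | hv' | hv' | hv' | hv' <;> omega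
  · have hcase := extra_case hv'
    clear hv'
    rcases hcase with ⟨hk1, hi1⟩ | ⟨hk1, hi1⟩
    · rcases Nat.eq_zero_or_pos d with hd0 | hd0
      · subst hd0
        obtain ⟨g0, hg0, hgw0⟩ := posUR (d := 1) (by omega) (by omega) s' hs1 (by omega) hk' (by omega) (by omega)
        have q0 := posLe (hgw0 _ hj') w0 (posSelfU (J := j) (by omega) (by omega) s' hs1 (by omega) (by omega)) (by omega)
        clear hgw0
        obtain ⟨g1, hg1, hgw1⟩ := posDR (d := 1) (by omega) (by omega) t' ht1 (by omega) hk' (by omega) (by omega)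
        have q1 := posGt (hgw1 _ hj') w1 (posSelfD (J := j) (by omega) (by omega) t' ht1 (by omega) (by omega)) (by omega)
        clear hgw1
        clear s' t' hs1 ht1 w0 w1
        unfold spec at *
        rcases hdi with hdi | hdi <;> rcases hg0 with hg0 | hg0 <;> rcases hg1 with hg1 | hg1 <;> rcases hi1 with hi1 | hi1 <;> rcases hv0 with hv0 | hv0 <;> omega
      · obtain ⟨e, rfl⟩ : ∃ e, d = e + 1 := ⟨d - 1, by omega⟩
        obtain ⟨g0, hg0, hgw0⟩ := posUL (d := e) (by omega) (by omega) s' hs1 (by omega) hk' (by omega) (by omega)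
        have q0 := posLe (hgw0 _ hj') w0 (posSelfU (J := j) (by omega) (by omega) s' hs1 (by omega) (by omega)) (by omega)
        clear hgw0
        obtain ⟨g1, hg1, hgw1⟩ := posDL (d := e) (by omega) (by omega) t' ht1 (by omega) hk' (by omega) (by omega)
        have q1 := posGt (hgw1 _ hj') w1 (posSelfD (J := j) (by omega) (by omega) t' ht1 (by omega) (by omega)) (by omega)
        clear hgw1
        clear s' t' hs1 ht1 w0 w1
        unfold spec at *
        rcases hdi with hdi | hdi <;> rcases hg0 with hg0 | hg0 <;> rcases hg1 with hg1 | hg1 <;> rcases hi1 with hi1 | hi1 <;> rcases hv0 with hv0 | hv0 <;> omega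
    · obtain ⟨g0, hg0, hgw0⟩ := posUL (d := d+1) (by omega) (by omega) s' hs1 (by omega) hk' (by omega) (by omega)
      have q0 := posLe (hgw0 _ hj') w0 (posSelfU (J := j) (by omega) (by omega) s' hs1 (by omega) (by omega)) (by omega)
      clear hgw0
      obtain ⟨g1, hg1, hgw1⟩ := posDL (d := d+1) (by omega) (by omega) t' ht1 (by omega) hk' (by omega) (by omega)
      have q1 := posGt (hgw1 _ hj') w1 (posSelfD (J := j) (by omega) (by omega) t' ht1 (by omega) (by omega)) (by omega)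
      clear hgw1
      clear s' t' hs1 ht1 w0 w1
      unfold spec at *
      rcases hdi with hdi | hdi <;> rcases hg0 with hg0 | hg0 <;> rcases hg1 with hg1 | hg1 <;> rcases hi1 with hi1 | hi1 <;> rcases hv0 with hv0 | hv0 <;> omega

theorem good3_BR (h m p : ℕ) (hh : 2 ≤ h) (hm : m = 2*h) (hp : p ≤ 1) (hph : (p + h) % 2 = 0)
    (i j : ℕ) (hi : i < 2*m) (hj1 : 1 ≤ j) (hj2 : j + 1 ≤ h) (hj3 : j + 1 = h → spec m i) (hpar : (i + j + p) % 2 = 1)
    (hv : Valid h m i i j 0) :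
    Good (f3 h m p) (mk3 h m i i j 0 hv) := by
  have hjm : (j-1) + 1 ≤ h := by omega
  obtain ⟨s, hs1, hs2, hs3, s'⟩ : ∃ s, s < 2*m ∧ 2*(s/2) + p = s ∧ s/2 < m ∧ (s + i + j = 1 ∨ s + i + j = 2*m + 1 ∨ s + i + j = 4*m + 1) := by
    obtain ⟨c1, c2, c3, c4⟩ := cs_spec m p i (j) (by omega) hp (by omega) (by omega) (by omega)
    refine ⟨_, c1, c2, c3, ?_⟩
    generalize cs m p i (j) = s0 at *
    clear c1 c2 c3
    omega
  obtain ⟨t, ht1, ht2, ht3, t'⟩ : ∃ t, t < 2*m ∧ 2*(t/2) + p = t ∧ t/2 < m ∧ (t + i = (j+1) ∨ t + i = (j+1) + 2*m) := by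
    obtain ⟨c1, c2, c3, c4⟩ := cs_spec m p i ((j+1)) (by omega) hp (by omega) (by omega) (by omega)
    refine ⟨_, c1, c2, c3, ?_⟩
    generalize cs m p i ((j+1)) = s0 at *
    clear c1 c2 c3
    omega
  have hnl := nx_spec m i hi
  generalize hpvl : nx m i = i2 at *
  clear hpvl
  have hil : i2 < 2*m := by omega
  obtain ⟨hl, vl⟩ := bR_spec m i hi
  generalize hbdl : bR m i = l at *
  clear hbdl
  refine ⟨![Sum.inl (Sum.inr ⟨s / 2, hs3⟩), Sum.inl (Sum.inr ⟨t / 2, ht3⟩), Sum.inl (Sum.inl ⟨l, hl⟩)],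
    ![mk3 h m i i (j-1) 0 (vA hm hi hjm),
      mk3 h m i i (j+1) 0 (by
        by_cases hjh : j + 1 = h
        · rw [hjh]; exact vS0 hm hi (hj3 hjh)
        · exact vA hm hi (by omega)),
      mk3 h m i2 i2 j 0 (vA hm hil hj2)], ?_, ?_, ?_⟩
  · intro a b hab
    fin_cases a <;> fin_cases b <;> first | rfl | (exfalso; simp [Fin.ext_iff] at hab; try omega)
  · intro k' l'
    fin_cases k'
    · rcases l' with (⟨a, ha⟩ | ⟨b, hb⟩) | ⟨u', hu'⟩
      · simp [mk3, f3]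
      · have := growU (i := i) (j := j) (by omega) (by omega) (by omega) hp hs1 hs2 s' b hb
        rw [iff_comm (a := SS m (2*b + p) i (j-1))] at this
        simpa [mk3, f3, Fin.ext_iff] using this
      · simp [mk3, f3]
    · rcases l' with (⟨a, ha⟩ | ⟨b, hb⟩) | ⟨u', hu'⟩
      · simp [mk3, f3]
      · have := growD (i := i) (j := (j+1)) (by omega) (by omega) (by omega) hp ht1 ht2 t' b hb
        simpa [mk3, f3, Fin.ext_iff] using this
      · simp [mk3, f3]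
    · rcases l' with (⟨a, ha⟩ | ⟨b, hb⟩) | ⟨u', hu'⟩
      · have := flipVR hi hnl vl a ha
        simpa [mk3, f3, Fin.ext_iff] using this
      · have := slideR (p := p) (j := j) hi (by omega) hp hnl (by omega) b hb
        simpa [mk3, f3] using this
      · have := ES0 (m := m) (i := i) (i2 := i2) (t := u')
        simpa [mk3, f3] using this
  · rintro ⟨⟨i', k', j', w'⟩, hv'⟩ hw
    have w0 := hw 0
    have w1 := hw 1
    have w2 := hw 2
    clear hw
    obtain ⟨hi', hk', hj', hv'⟩ := hv'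
    simp only at hi' hk' hj' hv'
    simp only [mk3, f3, Fin.isValue, Matrix.cons_val_zero, Matrix.cons_val_one, Matrix.cons_val, Fin.val_zero, Fin.val_one, Fin.val_two] at w0 w1 w2
    rw [hs2] at w0
    rw [ht2] at w1
    obtain ⟨e1, e2, e3, e4⟩ := uniq_BR hh hm hi hj1 hj2 hj3 s' hs1 t' ht1 vl hi' hk' hj' hv' w0 w1 w2
    exact Subtype.ext (by simp [mk3, e1, e2, e3, e4])

end Pool.Agent.Helper371
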