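import Pool.Agent.Helper371.SFam

set_option autoImplicit false
set_option linter.unusedSimpArgs false
set_option linter.unreachableTactic false
set_option linter.unusedTactic false
set_option linter.unusedVariables false

namespace Pool.Agent.Helper371

/-- the slabs next to the two special points -/
def spec (m i : ℕ) : Prop := i = 0 ∨ i + 1 = m ∨ i = m ∨ i + 1 = 2*m

/-- the admissible tuples (slab, slab of the slanted data, number of slanted lines above,
number of extra lines above) -/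
def Valid (h m i k j w : ℕ) : Prop :=
  i < 2*m ∧ k < 2*m ∧ j ≤ m ∧
  ((k = i ∧ ((w = 0 ∧ j + 1 ≤ h) ∨ (w = 0 ∧ j = h ∧ spec m i) ∨ (w = 1 ∧ j = h) ∨
      (w = 1 ∧ j + 1 = h ∧ ¬ spec m i) ∨ (w = 2 ∧ j = h) ∨ (w = 2 ∧ j = h+1 ∧ ¬ spec m i) ∨
      (w = 3 ∧ h + 1 ≤ j) ∨ (w = 3 ∧ j = h ∧ spec m i)))
  ∨ ((w = 1 ∨ w = 2) ∧ j = h ∧ ((i + 2 = m ∧ k + 1 = m) ∨ (i + 2 = 2*m ∧ k + 1 = 2*m) ∨
      (i = 1 ∧ k = 0) ∨ (i = m+1 ∧ k = m))))

/-- regions of the arrangement with `4h+3` lines; `m = 2h` -/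
abbrev V3 (h m : ℕ) : Type :=
  {q : ℕ × ℕ × ℕ × ℕ // Valid h m q.1 q.2.1 q.2.2.1 q.2.2.2}

/-- constructor -/
def mk3 (h m i k j w : ℕ) (hp : Valid h m i k j w) : V3 h m := ⟨(i, k, j, w), hp⟩

/-- its lines -/
abbrev L3 (m : ℕ) : Type := (Fin m ⊕ Fin m) ⊕ Fin 3

/-- sign with respect to the extra line `t` -/
def ES (m t i w : ℕ) : Prop :=
  (t = 0 ∧ 2 ≤ w) ∨ (t = 1 ∧ ((m ≤ i ∧ 1 ≤ w) ∨ (i < m ∧ 3 ≤ w))) ∨
    (t = 2 ∧ ((m ≤ i ∧ 3 ≤ w) ∨ (i < m ∧ 1 ≤ w)))

/-- signs -/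
def f3 (h m p : ℕ) (v : V3 h m) : L3 m → Prop
  | Sum.inl (Sum.inl a) => VS m a v.1.1
  | Sum.inl (Sum.inr b) => SS m (2*b + p) v.1.2.1 v.1.2.2.1
  | Sum.inr t => ES m t v.1.1 v.1.2.2.2

/-- the slab opposite to `i` -/
def op (m i : ℕ) : ℕ := if i < m then i + m else i - m

theorem op_spec (m i : ℕ) (hi : i < 2*m) :
    (i < m ∧ op m i = i + m) ∨ (m ≤ i ∧ op m i + m = i) := by
  unfold op; split_ifs <;> omega

theorem op_valid (h m i k j w : ℕ) (hh : 2 ≤ h) (hm : m = 2*h) (hv : Valid h m i k j w) :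
    Valid h m (op m i) (op m k) (m - j) (3 - w) := by
  obtain ⟨hi, hk, hj, hv⟩ := hv
  have h1 := op_spec m i hi
  have h2 := op_spec m k hk
  generalize op m i = i' at *
  generalize op m k = k' at *
  unfold Valid
  refine ⟨by omega, by omega, by omega, ?_⟩
  rcases hv with ⟨rfl, hv⟩ | ⟨hw, hj2, hv⟩
  · left
    have hi' : i' = k' := by omega
    subst hi'
    refine ⟨rfl, ?_⟩
    have hs : spec m i' ↔ spec m k := by
      unfold spec
      omega
    rw [hs]
    clear hs h1 h2 hk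
    rcases hv with hv | hv | hv | hv | hv | hv | hv | hv
    · right; right; right; right; right; right; left; omega
    · right; right; right; right; right; right; right; exact ⟨by omega, by omega, hv.2.2⟩
    · right; right; right; right; left; omega
    · right; right; right; right; right; left; exact ⟨by omega, by omega, hv.2.2⟩
    · right; right; left; omega
    · right; right; right; left; exact ⟨by omega, by omega, hv.2.2⟩
    · left; omega
    · right; left; exact ⟨by omega, by omega, hv.2.2⟩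
  · right
    refine ⟨by omega, by omega, ?_⟩
    omega

/-- antipode -/
def a3 (h m : ℕ) (hh : 2 ≤ h) (hm : m = 2*h) (v : V3 h m) : V3 h m :=
  mk3 h m (op m v.1.1) (op m v.1.2.1) (m - v.1.2.2.1) (3 - v.1.2.2.2)
    (op_valid h m _ _ _ _ hh hm v.2)

theorem valid_le (h m i k j w : ℕ) (hv : Valid h m i k j w) : w ≤ 3 := by
  obtain ⟨hi, hk, hj, hv⟩ := hv
  rcases hv with ⟨rfl, hv⟩ | ⟨hw, hj2, hv⟩ <;> omega

theorem a3_sign (h m p : ℕ) (hh : 2 ≤ h) (hm : m = 2*h) (hp : p ≤ 1) (v : V3 h m) (l : L3 m) :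
    f3 h m p (a3 h m hh hm v) l ↔ ¬ f3 h m p v l := by
  obtain ⟨⟨i, k, j, w⟩, hv⟩ := v
  have hw := valid_le _ _ _ _ _ _ hv
  obtain ⟨hi, hk, hj, _⟩ := hv
  simp only at hi hk hj hw
  have h1 := op_spec m i hi
  have h2 := op_spec m k hk
  rcases l with (a | b) | t
  · have := a.2
    simp only [f3, a3, mk3, VS]
    generalize op m i = i' at *
    omega
  · have := b.2
    simp only [f3, a3, mk3, SS]
    generalize op m k = k' at *
    rcases h2 with ⟨_, h2⟩ | ⟨_, h2⟩ <;> omega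
  · have := t.2
    simp only [f3, a3, mk3, ES]
    generalize op m i = i' at *
    omega

theorem a3_invol (h m : ℕ) (hh : 2 ≤ h) (hm : m = 2*h) (v : V3 h m) :
    a3 h m hh hm (a3 h m hh hm v) = v := by
  obtain ⟨⟨i, k, j, w⟩, hv⟩ := v
  have hw := valid_le _ _ _ _ _ _ hv
  obtain ⟨hi, hk, hj, _⟩ := hv
  simp only at hi hk hj hw
  have e1 : op m (op m i) = i := by unfold op; split_ifs <;> omega
  have e2 : op m (op m k) = k := by unfold op; split_ifs <;> omega
  have e3 : m - (m - j) = j := by omega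
  have e4 : 3 - (3 - w) = w := by omega
  exact Subtype.ext (by simp [a3, mk3, e1, e2, e3, e4])

end Pool.Agent.Helper371
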