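import Pool.Agent.Helper371.SFam3Def

set_option autoImplicit false
set_option linter.unusedSimpArgs false
set_option linter.unreachableTactic false
set_option linter.unusedTactic false
set_option linter.unusedVariables false

namespace Pool.Agent.Helper371


theorem sideL {m i i' l : ℕ} (hi : i < 2*m) (hi' : i' < 2*m)
    (h4 : (i < m ∧ l = i) ∨ (m ≤ i ∧ l + m = i)) (w : VS m l i' ↔ VS m l i) :
    ∃ d, d < m ∧ (i' = i + d ∨ i' + 2*m = i + d) := by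
  unfold VS at w
  by_cases h : i ≤ i'
  · exact ⟨i' - i, by omega, by omega⟩
  · exact ⟨i' + 2*m - i, by omega, by omega⟩

theorem sideR {m i i' l : ℕ} (hi : i < 2*m) (hi' : i' < 2*m)
    (h4 : (i + 1 < m ∧ l = i + 1) ∨ (m ≤ i + 1 ∧ i + 1 < 2*m ∧ l + m = i + 1) ∨ (i + 1 = 2*m ∧ l = 0))
    (w : VS m l i' ↔ VS m l i) :
    ∃ d, d < m ∧ (i' + d = i ∨ i' + d = i + 2*m) := by
  unfold VS at w
  by_cases h : i' ≤ i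
  · exact ⟨i - i', by omega, by omega⟩
  · exact ⟨i + 2*m - i', by omega, by omega⟩

theorem posDR {m s i j k d : ℕ} (hj : 1 ≤ j) (hj2 : j ≤ m) (hs : s + i = j ∨ s + i = j + 2*m)
    (hs2 : s < 2*m) (hi : i < 2*m) (hk : k < 2*m) (hd : d ≤ m) (hkd : k = i + d ∨ k + 2*m = i + d)
    : ∃ g, ((j + d ≤ m ∧ g = j + d) ∨ (m < j + d ∧ g + j + d = 2*m + 1)) ∧ ∀ J, J ≤ m → (SS m s k J ↔ g ≤ J) := by
  refine ⟨if j + d ≤ m then j + d else 2*m + 1 - (j + d), ?_, ?_⟩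
  · split_ifs <;> omega
  · intro J hJ
    unfold SS
    split_ifs <;> omega

theorem posDL {m s i j k d : ℕ} (hj : 1 ≤ j) (hj2 : j ≤ m) (hs : s + i = j ∨ s + i = j + 2*m)
    (hs2 : s < 2*m) (hi : i < 2*m) (hk : k < 2*m) (hd : d ≤ m) (hkd : k + d = i ∨ k + d = i + 2*m)
    : ∃ g, ((d < j ∧ g + d = j) ∨ (j ≤ d ∧ g + j = d + 1)) ∧ ∀ J, J ≤ m → (SS m s k J ↔ g ≤ J) := by
  refine ⟨if d < j then j - d else d + 1 - j, ?_, ?_⟩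
  · split_ifs <;> omega
  · intro J hJ
    unfold SS
    split_ifs <;> omega

theorem posUR {m s i j k d : ℕ} (hj : 1 ≤ j) (hj2 : j ≤ m)
    (hs : s + i + j = 1 ∨ s + i + j = 2*m + 1 ∨ s + i + j = 4*m + 1)
    (hs2 : s < 2*m) (hi : i < 2*m) (hk : k < 2*m) (hd : d ≤ m) (hkd : k = i + d ∨ k + 2*m = i + d)
    : ∃ g, ((d < j ∧ g + d = j) ∨ (j ≤ d ∧ g + j = d + 1)) ∧ ∀ J, J ≤ m → (SS m s k J ↔ g ≤ J) := by
  refine ⟨if d < j then j - d else d + 1 - j, ?_, ?_⟩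
  · split_ifs <;> omega
  · intro J hJ
    unfold SS
    split_ifs <;> omega

theorem posUL {m s i j k d : ℕ} (hj : 1 ≤ j) (hj2 : j ≤ m)
    (hs : s + i + j = 1 ∨ s + i + j = 2*m + 1 ∨ s + i + j = 4*m + 1)
    (hs2 : s < 2*m) (hi : i < 2*m) (hk : k < 2*m) (hd : d ≤ m) (hkd : k + d = i ∨ k + d = i + 2*m)
    : ∃ g, ((j + d ≤ m ∧ g = j + d) ∨ (m < j + d ∧ g + j + d = 2*m + 1)) ∧ ∀ J, J ≤ m → (SS m s k J ↔ g ≤ J) := by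
  refine ⟨if j + d ≤ m then j + d else 2*m + 1 - (j + d), ?_, ?_⟩
  · split_ifs <;> omega
  · intro J hJ
    unfold SS
    split_ifs <;> omega

theorem posSelfD {m s i j : ℕ} (hj : 1 ≤ j) (hj2 : j ≤ m) (hs : s + i = j ∨ s + i = j + 2*m)
    (hs2 : s < 2*m) (hi : i < 2*m) (J : ℕ) (hJ : J ≤ m) : SS m s i J ↔ j ≤ J := by
  unfold SS
  omega

theorem posSelfU {m s i j : ℕ} (hj : 1 ≤ j) (hj2 : j ≤ m)
    (hs : s + i + j = 1 ∨ s + i + j = 2*m + 1 ∨ s + i + j = 4*m + 1)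
    (hs2 : s < 2*m) (hi : i < 2*m) (J : ℕ) (hJ : J ≤ m) : SS m s i J ↔ j ≤ J := by
  unfold SS
  omega

theorem posGen {m s k : ℕ} (hs2 : s < 2*m) (hk : k < 2*m) : ∃ g,
    ((s + k = 0 ∧ g = 1) ∨ (1 ≤ s + k ∧ s + k ≤ m ∧ g = s + k) ∨
      (m < s + k ∧ s + k ≤ 2*m ∧ g + s + k = 2*m + 1) ∨ (2*m < s + k ∧ s + k ≤ 3*m ∧ g + 2*m = s + k) ∨
      (3*m < s + k ∧ g + s + k = 4*m + 1)) ∧ ∀ J, J ≤ m → (SS m s k J ↔ g ≤ J) := by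
  refine ⟨if s + k = 0 then 1 else if s + k ≤ m then s + k else if s + k ≤ 2*m then 2*m + 1 - (s+k)
    else if s + k ≤ 3*m then s + k - 2*m else 4*m + 1 - (s + k), ?_, ?_⟩
  · split_ifs <;> omega
  · intro J hJ
    unfold SS
    split_ifs <;> omega

theorem flipVR {m i i1 r : ℕ} (hi : i < 2*m)
    (h2 : (i + 1 = 2*m ∧ i1 = 0) ∨ (i + 1 < 2*m ∧ i1 = i + 1))
    (h3 : (i + 1 < m ∧ r = i + 1) ∨ (m ≤ i + 1 ∧ i + 1 < 2*m ∧ r + m = i + 1) ∨ (i + 1 = 2*m ∧ r = 0))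
    (a : ℕ) (ha : a < m) : (VS m a i ↔ VS m a i1) ↔ ¬ a = r := by
  unfold VS
  rcases h2 with h2 | h2 <;> rcases h3 with h3 | h3 | h3 <;> omega

theorem flipVL {m i i2 l : ℕ} (hi : i < 2*m)
    (h2 : (i = 0 ∧ i2 + 1 = 2*m) ∨ (0 < i ∧ i2 + 1 = i))
    (h4 : (i < m ∧ l = i) ∨ (m ≤ i ∧ l + m = i))
    (a : ℕ) (ha : a < m) : (VS m a i ↔ VS m a i2) ↔ ¬ a = l := by
  unfold VS
  rcases h2 with h2 | h2 <;> rcases h4 with h4 | h4 <;> omega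

theorem slideR {m p i i1 j : ℕ} (hi : i < 2*m) (hj : j ≤ m) (hp : p ≤ 1)
    (h2 : (i + 1 = 2*m ∧ i1 = 0) ∨ (i + 1 < 2*m ∧ i1 = i + 1)) (hpar : (i + j + p) % 2 = 1)
    (b : ℕ) (hb : b < m) : SS m (2*b + p) i j ↔ SS m (2*b + p) i1 j := by
  unfold SS
  rcases h2 with h2 | h2 <;> omega

theorem slideL {m p i i2 j : ℕ} (hi : i < 2*m) (hj : j ≤ m) (hp : p ≤ 1)
    (h2 : (i = 0 ∧ i2 + 1 = 2*m) ∨ (0 < i ∧ i2 + 1 = i)) (hpar : (i + j + p) % 2 = 0)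
    (b : ℕ) (hb : b < m) : SS m (2*b + p) i j ↔ SS m (2*b + p) i2 j := by
  unfold SS
  rcases h2 with h2 | h2 <;> omega

theorem slideR0 {m s i i1 : ℕ} (hi : i < 2*m) (hs : s < 2*m)
    (h2 : (i + 1 = 2*m ∧ i1 = 0) ∨ (i + 1 < 2*m ∧ i1 = i + 1)) : SS m s i 0 ↔ SS m s i1 0 := by
  unfold SS
  rcases h2 with h2 | h2 <;> omega

theorem slideL0 {m s i i2 : ℕ} (hi : i < 2*m) (hs : s < 2*m)
    (h2 : (i = 0 ∧ i2 + 1 = 2*m) ∨ (0 < i ∧ i2 + 1 = i)) : SS m s i 0 ↔ SS m s i2 0 := by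
  unfold SS
  rcases h2 with h2 | h2 <;> omega

theorem growD {m p s i j : ℕ} (hi : i < 2*m) (hj : 1 ≤ j) (hj2 : j ≤ m) (hp : p ≤ 1) (hs1 : s < 2*m)
    (hs2 : 2*(s/2) + p = s) (s' : s + i = j ∨ s + i = j + 2*m)
    (b : ℕ) (hb : b < m) : (SS m (2*b + p) i (j-1) ↔ SS m (2*b + p) i j) ↔ ¬ b = s/2 := by
  unfold SS
  rcases s' with s' | s' <;> omega

theorem growU {m p s i j : ℕ} (hi : i < 2*m) (hj : 1 ≤ j) (hj2 : j ≤ m) (hp : p ≤ 1) (hs1 : s < 2*m)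
    (hs2 : 2*(s/2) + p = s) (s' : s + i + j = 1 ∨ s + i + j = 2*m + 1 ∨ s + i + j = 4*m + 1)
    (b : ℕ) (hb : b < m) : (SS m (2*b + p) i (j-1) ↔ SS m (2*b + p) i j) ↔ ¬ b = s/2 := by
  unfold SS
  rcases s' with s' | s' | s' <;> omega


theorem vA {h m i j : ℕ} (hm : m = 2*h) (hi : i < 2*m) (hj : j + 1 ≤ h) : Valid h m i i j 0 :=
  ⟨hi, hi, by omega, Or.inl ⟨rfl, Or.inl ⟨rfl, hj⟩⟩⟩

theorem vS0 {h m i : ℕ} (hm : m = 2*h) (hi : i < 2*m) (hs : spec m i) : Valid h m i i h 0 :=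
  ⟨hi, hi, by omega, Or.inl ⟨rfl, Or.inr (Or.inl ⟨rfl, rfl, hs⟩)⟩⟩

theorem vH1 {h m i : ℕ} (hm : m = 2*h) (hi : i < 2*m) : Valid h m i i h 1 :=
  ⟨hi, hi, by omega, Or.inl ⟨rfl, Or.inr (Or.inr (Or.inl ⟨rfl, rfl⟩))⟩⟩

theorem vR1 {h m i j : ℕ} (hm : m = 2*h) (hi : i < 2*m) (hj : j + 1 = h) (hs : ¬ spec m i) :
    Valid h m i i j 1 :=
  ⟨hi, hi, by omega, Or.inl ⟨rfl, Or.inr (Or.inr (Or.inr (Or.inl ⟨rfl, hj, hs⟩)))⟩⟩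

theorem vH2 {h m i : ℕ} (hm : m = 2*h) (hi : i < 2*m) : Valid h m i i h 2 :=
  ⟨hi, hi, by omega, Or.inl ⟨rfl, Or.inr (Or.inr (Or.inr (Or.inr (Or.inl ⟨rfl, rfl⟩))))⟩⟩

theorem vX {h m i k w : ℕ} (hm : m = 2*h) (hi : i < 2*m) (hk : k < 2*m) (hw : w = 1 ∨ w = 2)
    (hx : (i + 2 = m ∧ k + 1 = m) ∨ (i + 2 = 2*m ∧ k + 1 = 2*m) ∨ (i = 1 ∧ k = 0) ∨
      (i = m+1 ∧ k = m)) : Valid h m i k h w :=
  ⟨hi, hk, by omega, Or.inr ⟨hw, rfl, hx⟩⟩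

theorem flipE01a {m i t : ℕ} (hb : m ≤ i) (ht : t < 3) : (ES m t i 0 ↔ ES m t i 1) ↔ ¬ t = 1 := by
  unfold ES
  omega

theorem flipE10a {m i t : ℕ} (hb : m ≤ i) (ht : t < 3) : (ES m t i 1 ↔ ES m t i 0) ↔ ¬ t = 1 := by
  unfold ES
  omega

theorem flipE01b {m i t : ℕ} (hb : i < m) (ht : t < 3) : (ES m t i 0 ↔ ES m t i 1) ↔ ¬ t = 2 := by
  unfold ES
  omega

theorem flipE10b {m i t : ℕ} (hb : i < m) (ht : t < 3) : (ES m t i 1 ↔ ES m t i 0) ↔ ¬ t = 2 := by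
  unfold ES
  omega

theorem flipE12 {m i t : ℕ} (ht : t < 3) : (ES m t i 1 ↔ ES m t i 2) ↔ ¬ t = 0 := by
  unfold ES
  omega

theorem ES0 {m i i2 t : ℕ} : ES m t i 0 ↔ ES m t i2 0 := by
  unfold ES
  omega

theorem ESs {m i i2 t w : ℕ} (h : i < m ↔ i2 < m) : ES m t i w ↔ ES m t i2 w := by
  unfold ES
  rcases Nat.lt_or_ge i m with h1 | h1
  · have h2 := h.mp h1
    omega
  · have h2 : m ≤ i2 := by
      by_contra hc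
      push Not at hc
      have := h.mpr hc
      omega
    omega

theorem esU0 {m i i' w' : ℕ} (w : ES m 0 i' w' ↔ ES m 0 i 1) : w' ≤ 1 := by
  unfold ES at w
  omega

theorem esUa0 {m i i' w' : ℕ} (hb : m ≤ i) (w : ES m 1 i' w' ↔ ES m 1 i 0) :
    (m ≤ i' ∧ w' = 0) ∨ (i' < m ∧ w' ≤ 2) := by
  unfold ES at w
  omega

theorem esUb0 {m i i' w' : ℕ} (hb : i < m) (w : ES m 2 i' w' ↔ ES m 2 i 0) :
    (i' < m ∧ w' = 0) ∨ (m ≤ i' ∧ w' ≤ 2) := by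
  unfold ES at w
  omega

theorem esUa1 {m i i' w' : ℕ} (hb : m ≤ i) (w : ES m 1 i' w' ↔ ES m 1 i 1) :
    (m ≤ i' ∧ 1 ≤ w') ∨ (i' < m ∧ 3 ≤ w') := by
  unfold ES at w
  omega

theorem esUb1 {m i i' w' : ℕ} (hb : i < m) (w : ES m 2 i' w' ↔ ES m 2 i 1) :
    (i' < m ∧ 1 ≤ w') ∨ (m ≤ i' ∧ 3 ≤ w') := by
  unfold ES at w
  omega

theorem posLe {P Q : Prop} {g j a J : ℕ} (h1 : P ↔ g ≤ j) (w : P ↔ Q) (h2 : Q ↔ a ≤ J)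
    (h3 : a ≤ J) : g ≤ j := h1.mp (w.mpr (h2.mpr h3))

theorem posGt {P Q : Prop} {g j a J : ℕ} (h1 : P ↔ g ≤ j) (w : P ↔ Q) (h2 : Q ↔ a ≤ J)
    (h3 : J < a) : j < g := by
  by_contra hc
  push Not at hc
  have := h2.mp (w.mp (h1.mpr hc))
  omega

theorem extra_case {m i' k' : ℕ} (h : (i' + 2 = m ∧ k' + 1 = m) ∨ (i' + 2 = 2*m ∧ k' + 1 = 2*m) ∨
      (i' = 1 ∧ k' = 0) ∨ (i' = m+1 ∧ k' = m)) :
    (k' = i' + 1 ∧ (i' + 2 = m ∨ i' + 2 = 2*m)) ∨ (k' + 1 = i' ∧ (i' = 1 ∨ i' = m + 1)) := by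
  omega

theorem sideLR {m i i' l r : ℕ} (hi : i < 2*m) (hi' : i' < 2*m)
    (h3 : (i + 1 < m ∧ r = i + 1) ∨ (m ≤ i + 1 ∧ i + 1 < 2*m ∧ r + m = i + 1) ∨ (i + 1 = 2*m ∧ r = 0))
    (h4 : (i < m ∧ l = i) ∨ (m ≤ i ∧ l + m = i))
    (w0 : VS m r i' ↔ VS m r i) (w1 : VS m l i' ↔ VS m l i) : i' = i := by
  obtain ⟨d1, hd1, hd1i⟩ := sideR hi hi' h3 w0
  obtain ⟨d2, hd2, hd2i⟩ := sideL hi hi' h4 w1
  clear w0 w1 h3 h4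
  omega

theorem flipX_1 {m p h i j t : ℕ} (hh : 2 ≤ h) (hm : m = 2*h) (hs : i = 1) (hj1 : j + 1 = h) (hp : p ≤ 1)
    (t' : t + i = (j+2) ∨ t + i = (j+2) + 2*m) (ht1 : t < 2*m) (ht2 : 2*(t/2) + p = t) (b : ℕ) (hb : b < m) :
    (SS m (2*b + p) i j ↔ SS m (2*b + p) 0 (j+1)) ↔ ¬ b = t/2 := by
  unfold SS
  rcases t' with t' | t' <;> omega

theorem flipX_mp1 {m p h i j t : ℕ} (hh : 2 ≤ h) (hm : m = 2*h) (hs : i = m + 1) (hj1 : j + 1 = h) (hp : p ≤ 1)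
    (t' : t + i = (j+2) ∨ t + i = (j+2) + 2*m) (ht1 : t < 2*m) (ht2 : 2*(t/2) + p = t) (b : ℕ) (hb : b < m) :
    (SS m (2*b + p) i j ↔ SS m (2*b + p) m (j+1)) ↔ ¬ b = t/2 := by
  unfold SS
  rcases t' with t' | t' <;> omega

theorem flipX_mm2 {m p h i j t : ℕ} (hh : 2 ≤ h) (hm : m = 2*h) (hs : i + 2 = m) (hj1 : j + 1 = h) (hp : p ≤ 1)
    (t' : t + i + (j+2) = 1 ∨ t + i + (j+2) = 2*m + 1 ∨ t + i + (j+2) = 4*m + 1) (ht1 : t < 2*m) (ht2 : 2*(t/2) + p = t) (b : ℕ) (hb : b < m) :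
    (SS m (2*b + p) i j ↔ SS m (2*b + p) (i+1) (j+1)) ↔ ¬ b = t/2 := by
  unfold SS
  rcases t' with t' | t' | t' <;> omega

theorem flipX_2mm2 {m p h i j t : ℕ} (hh : 2 ≤ h) (hm : m = 2*h) (hs : i + 2 = 2*m) (hj1 : j + 1 = h) (hp : p ≤ 1)
    (t' : t + i + (j+2) = 1 ∨ t + i + (j+2) = 2*m + 1 ∨ t + i + (j+2) = 4*m + 1) (ht1 : t < 2*m) (ht2 : 2*(t/2) + p = t) (b : ℕ) (hb : b < m) :
    (SS m (2*b + p) i j ↔ SS m (2*b + p) (i+1) (j+1)) ↔ ¬ b = t/2 := by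
  unfold SS
  rcases t' with t' | t' | t' <;> omega

theorem flipY_1 {m p h i s : ℕ} (hh : 2 ≤ h) (hm : m = 2*h) (hs : i = 1) (hp : p ≤ 1)
    (s' : s + 0 = h ∨ s + 0 = h + 2*m) (hs1 : s < 2*m) (hs2 : 2*(s/2) + p = s) (b : ℕ) (hb : b < m) :
    (SS m (2*b + p) 0 h ↔ SS m (2*b + p) i (h-1)) ↔ ¬ b = s/2 := by
  unfold SS
  rcases s' with s' | s' <;> omega

theorem flipY_mp1 {m p h i s : ℕ} (hh : 2 ≤ h) (hm : m = 2*h) (hs : i = m + 1) (hp : p ≤ 1)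
    (s' : s + m = h ∨ s + m = h + 2*m) (hs1 : s < 2*m) (hs2 : 2*(s/2) + p = s) (b : ℕ) (hb : b < m) :
    (SS m (2*b + p) m h ↔ SS m (2*b + p) i (h-1)) ↔ ¬ b = s/2 := by
  unfold SS
  rcases s' with s' | s' <;> omega

theorem flipY_mm2 {m p h i s : ℕ} (hh : 2 ≤ h) (hm : m = 2*h) (hs : i + 2 = m) (hp : p ≤ 1)
    (s' : s + (i+1) + h = 1 ∨ s + (i+1) + h = 2*m + 1 ∨ s + (i+1) + h = 4*m + 1) (hs1 : s < 2*m) (hs2 : 2*(s/2) + p = s) (b : ℕ) (hb : b < m) :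
    (SS m (2*b + p) (i+1) h ↔ SS m (2*b + p) i (h-1)) ↔ ¬ b = s/2 := by
  unfold SS
  rcases s' with s' | s' | s' <;> omega

theorem flipY_2mm2 {m p h i s : ℕ} (hh : 2 ≤ h) (hm : m = 2*h) (hs : i + 2 = 2*m) (hp : p ≤ 1)
    (s' : s + (i+1) + h = 1 ∨ s + (i+1) + h = 2*m + 1 ∨ s + (i+1) + h = 4*m + 1) (hs1 : s < 2*m) (hs2 : 2*(s/2) + p = s) (b : ℕ) (hb : b < m) :
    (SS m (2*b + p) (i+1) h ↔ SS m (2*b + p) i (h-1)) ↔ ¬ b = s/2 := by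
  unfold SS
  rcases s' with s' | s' | s' <;> omega

end Pool.Agent.Helper371
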