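import Pool.Agent.Helper371.SLow1

set_option autoImplicit false

namespace Pool.Agent.Helper371

theorem cubic_of_decide {W : Type} [Fintype W] [DecidableEq W] (H : SimpleGraph W)
    [DecidableRel H.Adj] (h : ∀ x, (Finset.univ.filter (fun y => H.Adj x y)).card = 3) :
    IsCubic H := by
  intro x
  have : H.neighborSet x = ((Finset.univ.filter (fun y => H.Adj x y) : Finset W) : Set W) := by
    ext; simp
  rw [this, Set.ncard_coe_finset]
  exact h x

instance (n : ℕ) [NeZero n] : DecidableRel (K2g.boxProd (Cg n)).Adj := fun x y =>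
  decidable_of_iff (K2g.Adj x.1 y.1 ∧ x.2 = y.2 ∨ (Cg n).Adj x.2 y.2 ∧ x.1 = y.1)
    SimpleGraph.boxProd_adj.symm

theorem cubic4 : IsCubic (K2g.boxProd (Cg 4)) := cubic_of_decide _ (by decide)
theorem cubic6 : IsCubic (K2g.boxProd (Cg 6)) := cubic_of_decide _ (by decide)

theorem not_prim_of_map {V : Type} {G : SimpleGraph V} {n : ℕ} [NeZero n]
    (hS : IsSGraph (Cg n)) (hP : IsCubic (K2g.boxProd (Cg n))) (hN : Nontrivial (Fin n))
    (hG : IsCubic G) (hc : G.Connected) (ψ : Fin 2 × Fin n → V) (hinj : Function.Injective ψ)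
    (hr : ∀ j, G.Adj (ψ (0, j)) (ψ (1, j))) (hcyc : ∀ i j, G.Adj (ψ (i, j)) (ψ (i, j + 1))) :
    ¬ IsPrimitive G := by
  intro h
  apply h
  refine ⟨Fin 2, Fin n, K2g, Cg n, inferInstance, inferInstance, inferInstance, hN, isSGraph_K2, hS,
    iso_of_inj hP hG hc ψ hinj ?_⟩
  rintro ⟨i, j⟩ ⟨i', j'⟩ hadj
  rw [SimpleGraph.boxProd_adj] at hadj
  rcases hadj with ⟨h1, h2⟩ | ⟨h1, h2⟩
  · simp only at h1 h2
    subst h2
    have h3 : i ≠ i' := h1
    have h4 : (i = 0 ∧ i' = 1) ∨ (i = 1 ∧ i' = 0) := by
      revert h3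
      revert i i'
      decide
    rcases h4 with ⟨rfl, rfl⟩ | ⟨rfl, rfl⟩
    · exact hr j
    · exact (hr j).symm
  · simp only at h1 h2
    subst h2
    rcases h1.2 with h3 | h3
    · rw [h3]; exact hcyc i j
    · rw [h3]; exact (hcyc i j').symm

theorem nbr_sub2 {V : Type} {G : SimpleGraph V} (hG : IsCubic G) (z p q : V)
    (h : ∀ w, G.Adj z w → w = p ∨ w = q) : False := by
  have h1 : G.neighborSet z ⊆ {p, q} := by
    intro w hw
    exact h w hw
  have h2 := Set.ncard_le_ncard h1 (Set.toFinite _)
  have h3 := hG z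
  have h4 := Set.ncard_insert_le p {q}
  rw [Set.ncard_singleton] at h4
  omega

theorem nbr_sub3 {V : Type} {G : SimpleGraph V} (hG : IsCubic G) (z p q r : V)
    (h : ∀ w, G.Adj z w → w = p ∨ w = q ∨ w = r) : G.Adj z p ∧ G.Adj z q ∧ G.Adj z r := by
  refine ⟨?_, ?_, ?_⟩
  · by_contra hc
    refine nbr_sub2 hG z q r (fun w hw => ?_)
    rcases h w hw with rfl | h | h
    · exact absurd hw hc
    · exact Or.inl h
    · exact Or.inr h
  · by_contra hc
    refine nbr_sub2 hG z p r (fun w hw => ?_)
    rcases h w hw with h | rfl | h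
    · exact Or.inl h
    · exact absurd hw hc
    · exact Or.inr h
  · by_contra hc
    refine nbr_sub2 hG z p q (fun w hw => ?_)
    rcases h w hw with h | h | rfl
    · exact Or.inl h
    · exact Or.inr h
    · exact absurd hw hc

section
variable {V : Type} [Finite V] {G : SimpleGraph V}

omit [Finite V] in
theorem dist_pos' (hG : IsSGraph G) {x y : V} (h : x ≠ y) : 1 ≤ G.dist x y :=
  hG.1.pos_dist_of_ne h

omit [Finite V] in
theorem dist_adj {x y : V} (h : G.Adj x y) : G.dist x y = 1 :=
  SimpleGraph.dist_eq_one_iff_adj.mpr h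

theorem bar_adj' (hG : IsSGraph G) {x y : V} (h : G.Adj x (bar hG y)) : G.Adj (bar hG x) y := by
  have := (bar_adj hG).mpr h
  rwa [bar_bar] at this

/-- the prism -/
theorem prism (hG : IsSGraph G) (hcub : IsCubic G) (hd : ∀ v, G.dist v (bar hG v) = 4)
    {v a b c x y : V} (hva : G.Adj v a) (hvb : G.Adj v b) (hvc : G.Adj v c) (hab : a ≠ b)
    (hac : a ≠ c) (hbc : b ≠ c) (hxa : G.Adj x a) (hxb : G.Adj x b) (hxc : G.Adj x (bar hG c))
    (hya : G.Adj y a) (hyc : G.Adj y c) (hyb : G.Adj y (bar hG b)) : ¬ IsPrimitive G := by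
  have D := dist_bar hG
  have da := dist_adj hva
  have db := dist_adj hvb
  have dc := dist_adj hvc
  have dx : G.dist v x = 2 := by
    have h1 := adj_dist hG v hxa
    have h2 := adj_dist hG v hxc
    have h3 := adj_dist hG v ((bar_adj hG).mpr hvc)
    have h4 := D v (bar hG c)
    have h5 := hd v
    have h6 : G.dist (bar hG c) (bar hG v) = 1 := dist_adj ((bar_adj hG).mpr hvc.symm)
    omega
  have dy : G.dist v y = 2 := by
    have h1 := adj_dist hG v hya
    have h2 := adj_dist hG v hyb
    have h4 := D v (bar hG b)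
    have h5 := hd v
    have h6 : G.dist (bar hG b) (bar hG v) = 1 := dist_adj ((bar_adj hG).mpr hvb.symm)
    omega
  have dbar : ∀ z, G.dist v (bar hG z) + G.dist v z = 4 := by
    intro z
    have h1 := D v (bar hG z)
    have h2 := hd v
    have h3 : G.dist v (bar hG z) + G.dist v z = 4 := by
      have h4 := D z v
      have h5 := hd z
      have h6 : G.dist z v = G.dist v z := SimpleGraph.dist_comm
      omega
    exact h3
  have far : ∀ {z w : V}, G.Adj z w → G.Adj z (bar hG w) → False := by
    intro z w h1 h2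
    have h3 := dist_adj h1.symm
    have h4 := dist_adj h2
    have h5 : G.dist w (bar hG w) ≤ G.dist w z + G.dist z (bar hG w) := hG.1.dist_triangle
    have h6 := hd w
    omega
  have hxy : x ≠ y := by
    rintro rfl
    exact far hxb hyb
  have hxy' : x ≠ bar hG y := by
    intro h
    have h1 : G.Adj (bar hG y) (bar hG a) := (bar_adj hG).mpr hya
    rw [← h] at h1
    exact far hxa h1
  have hxy2 : bar hG x ≠ y := by
    rintro h
    apply hxy'
    rw [← h, bar_bar]
  have hself : ∀ z, z ≠ bar hG z := by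
    intro z h
    have h1 := hd z
    rw [← h, SimpleGraph.dist_self] at h1
    omega
  have hbb : ∀ {z w : V}, z ≠ w → bar hG z ≠ bar hG w := fun h h' => h (bar_inj hG h')
  refine not_prim_of_map (n := 6) isSGraph_C6 cubic6 inferInstance hcub hG.1
    (fun q => (![![v, b, bar hG y, bar hG a, bar hG x, c],
      ![a, x, bar hG c, bar hG v, bar hG b, y]] q.1) q.2) ?_ ?_ ?_
  · have hL : ∀ q : Fin 2 × Fin 6, G.dist v ((fun q : Fin 2 × Fin 6 =>
        (![![v, b, bar hG y, bar hG a, bar hG x, c],
          ![a, x, bar hG c, bar hG v, bar hG b, y]] q.1) q.2) q) =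
        (![![0, 1, 2, 3, 2, 1], ![1, 2, 3, 4, 3, 2]] q.1 : Fin 6 → ℕ) q.2 := by
      have e1 := dbar a
      have e2 := dbar b
      have e3 := dbar c
      have e4 := dbar x
      have e5 := dbar y
      have e6 := hd v
      rintro ⟨i, j⟩
      fin_cases i <;> fin_cases j <;> simp <;> omega
    intro p q hpq
    have hlev : (![![0, 1, 2, 3, 2, 1], ![1, 2, 3, 4, 3, 2]] p.1 : Fin 6 → ℕ) p.2 =
        (![![0, 1, 2, 3, 2, 1], ![1, 2, 3, 4, 3, 2]] q.1 : Fin 6 → ℕ) q.2 := by
      rw [← hL, ← hL, hpq]
    obtain ⟨i, j⟩ := p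
    obtain ⟨i', j'⟩ := q
    fin_cases i <;> fin_cases j <;> fin_cases i' <;> fin_cases j' <;>
      first
        | rfl
        | (exfalso; revert hlev; decide)
        | (exfalso; exact hab hpq)
        | (exfalso; exact hab hpq.symm)
        | (exfalso; exact hac hpq)
        | (exfalso; exact hac hpq.symm)
        | (exfalso; exact hbc hpq)
        | (exfalso; exact hbc hpq.symm)
        | (exfalso; exact hxy hpq)
        | (exfalso; exact hxy hpq.symm)
        | (exfalso; exact hxy' hpq)
        | (exfalso; exact hxy' hpq.symm)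
        | (exfalso; exact hxy2 hpq)
        | (exfalso; exact hxy2 hpq.symm)
        | (exfalso; exact hself _ hpq)
        | (exfalso; exact hself _ hpq.symm)
        | (exfalso; exact hbb hab hpq)
        | (exfalso; exact hbb hab hpq.symm)
        | (exfalso; exact hbb hac hpq)
        | (exfalso; exact hbb hac hpq.symm)
        | (exfalso; exact hbb hbc hpq)
        | (exfalso; exact hbb hbc hpq.symm)
        | (exfalso; exact hbb hxy hpq)
        | (exfalso; exact hbb hxy hpq.symm)
  · intro j
    fin_cases j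
    · exact hva
    · exact hxb.symm
    · exact (bar_adj hG).mpr hyc
    · exact (bar_adj hG).mpr hva.symm
    · exact (bar_adj hG).mpr hxb
    · exact hyc.symm
  · intro i j
    fin_cases i <;> fin_cases j
    · exact hvb
    · exact (bar_adj' hG hyb).symm
    · exact (bar_adj hG).mpr hya
    · exact (bar_adj hG).mpr hxa.symm
    · exact bar_adj' hG hxc
    · exact hvc.symm
    · exact hxa.symm
    · exact hxc
    · exact (bar_adj hG).mpr hvc.symm
    · exact (bar_adj hG).mpr hvb
    · exact hyb.symm
    · exact hya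

/-- the cube -/
theorem cube (hG : IsSGraph G) (hcub : IsCubic G) (hd : ∀ v, G.dist v (bar hG v) = 3)
    {v a b c : V} (hva : G.Adj v a) (hvb : G.Adj v b) (hvc : G.Adj v c) (hab : a ≠ b)
    (hac : a ≠ c) (hbc : b ≠ c) (hN : ∀ w, G.Adj v w → w = a ∨ w = b ∨ w = c) :
    ¬ IsPrimitive G := by
  have D := dist_bar hG
  have da := dist_adj hva
  have db := dist_adj hvb
  have dc := dist_adj hvc
  have dbar : ∀ z, G.dist v (bar hG z) + G.dist v z = 3 := by
    intro z
    have h4 := D z v
    have h5 := hd z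
    have h6 : G.dist z v = G.dist v z := SimpleGraph.dist_comm
    omega
  -- neighbours of a neighbour of `v`
  have N1 : ∀ z, G.Adj v z → ∀ w, G.Adj z w → w = v ∨ (w ≠ bar hG z ∧
      (w = bar hG a ∨ w = bar hG b ∨ w = bar hG c)) := by
    intro z hz w hw
    have h1 := dist_adj hz
    have h2 := adj_dist hG v hw
    by_cases h3 : w = v
    · exact Or.inl h3
    · right
      have h4 := dist_pos' hG (Ne.symm h3)
      have h5 : G.dist v w = 2 := by omega
      have h6 := dbar w
      have h7 : G.Adj v (bar hG w) := SimpleGraph.dist_eq_one_iff_adj.mp (by omega)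
      constructor
      · rintro rfl
        have h8 := hd z
        have h9 := dist_adj hw
        omega
      · rcases hN _ h7 with h8 | h8 | h8
        · left; rw [← h8, bar_bar]
        · right; left; rw [← h8, bar_bar]
        · right; right; rw [← h8, bar_bar]
  obtain ⟨_, hab', hac'⟩ := nbr_sub3 hcub a v (bar hG b) (bar hG c) (fun w hw => by
    rcases N1 a hva w hw with h | ⟨h1, h | h | h⟩
    · exact Or.inl h
    · exact absurd h h1
    · exact Or.inr (Or.inl h)
    · exact Or.inr (Or.inr h))
  obtain ⟨_, hba', hbc'⟩ := nbr_sub3 hcub b v (bar hG a) (bar hG c) (fun w hw => by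
    rcases N1 b hvb w hw with h | ⟨h1, h | h | h⟩
    · exact Or.inl h
    · exact Or.inr (Or.inl h)
    · exact absurd h h1
    · exact Or.inr (Or.inr h))
  have hca' : G.Adj c (bar hG a) := (bar_adj' hG hac').symm
  have hcb' : G.Adj c (bar hG b) := (bar_adj' hG hbc').symm
  have hbb : ∀ {z w : V}, z ≠ w → bar hG z ≠ bar hG w := fun h h' => h (bar_inj hG h')
  refine not_prim_of_map (n := 4) isSGraph_C4 cubic4 inferInstance hcub hG.1
    (fun q => (![![v, b, bar hG a, c],
      ![a, bar hG c, bar hG v, bar hG b]] q.1) q.2) ?_ ?_ ?_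
  · have hL : ∀ q : Fin 2 × Fin 4, G.dist v ((fun q : Fin 2 × Fin 4 =>
        (![![v, b, bar hG a, c], ![a, bar hG c, bar hG v, bar hG b]] q.1) q.2) q) =
        (![![0, 1, 2, 1], ![1, 2, 3, 2]] q.1 : Fin 4 → ℕ) q.2 := by
      have e1 := dbar a
      have e2 := dbar b
      have e3 := dbar c
      have e6 := hd v
      rintro ⟨i, j⟩
      fin_cases i <;> fin_cases j <;> simp <;> omega
    intro p q hpq
    have hlev : (![![0, 1, 2, 1], ![1, 2, 3, 2]] p.1 : Fin 4 → ℕ) p.2 =
        (![![0, 1, 2, 1], ![1, 2, 3, 2]] q.1 : Fin 4 → ℕ) q.2 := by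
      rw [← hL, ← hL, hpq]
    obtain ⟨i, j⟩ := p
    obtain ⟨i', j'⟩ := q
    fin_cases i <;> fin_cases j <;> fin_cases i' <;> fin_cases j' <;>
      first
        | rfl
        | (exfalso; revert hlev; decide)
        | (exfalso; exact hab hpq)
        | (exfalso; exact hab hpq.symm)
        | (exfalso; exact hac hpq)
        | (exfalso; exact hac hpq.symm)
        | (exfalso; exact hbc hpq)
        | (exfalso; exact hbc hpq.symm)
        | (exfalso; exact hbb hab hpq)
        | (exfalso; exact hbb hab hpq.symm)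
        | (exfalso; exact hbb hac hpq)
        | (exfalso; exact hbb hac hpq.symm)
        | (exfalso; exact hbb hbc hpq)
        | (exfalso; exact hbb hbc hpq.symm)
  · intro j
    fin_cases j
    · exact hva
    · exact hbc'
    · exact (bar_adj hG).mpr hva.symm
    · exact hcb'
  · intro i j
    fin_cases i <;> fin_cases j
    · exact hvb
    · exact hba'
    · exact hca'.symm
    · exact hvc.symm
    · exact hac'
    · exact (bar_adj hG).mpr hvc.symm
    · exact (bar_adj hG).mpr hvb
    · exact hab'.symm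

end

end Pool.Agent.Helper371
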