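import Pool.Agent.Helper371.SLow2

set_option autoImplicit false

namespace Pool.Agent.Helper371

variable {V : Type} [Finite V] {G : SimpleGraph V}

theorem low4 (hG : IsSGraph G) (hcub : IsCubic G) (hd : ∀ v, G.dist v (bar hG v) = 4)
    {v a b c : V} (hva : G.Adj v a) (hvb : G.Adj v b) (hvc : G.Adj v c) (hab : a ≠ b)
    (hac : a ≠ c) (hbc : b ≠ c) (hN : ∀ w, G.Adj v w → w = a ∨ w = b ∨ w = c) :
    ¬ IsPrimitive G := by
  have D := dist_bar hG
  have da := dist_adj hva
  have db := dist_adj hvb
  have dc := dist_adj hvc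
  have dbar : ∀ z, G.dist v (bar hG z) + G.dist v z = 4 := by
    intro z
    have h4 := D z v
    have h5 := hd z
    have h6 : G.dist z v = G.dist v z := SimpleGraph.dist_comm
    omega
  have far : ∀ {z w : V}, G.Adj z w → G.Adj z (bar hG w) → False := by
    intro z w h1 h2
    have h3 := dist_adj h1.symm
    have h4 := dist_adj h2
    have h5 : G.dist w (bar hG w) ≤ G.dist w z + G.dist z (bar hG w) := hG.1.dist_triangle
    have h6 := hd w
    omega
  -- vertices of the middle layer
  have N2 : ∀ z, G.dist v z = 2 → ∀ w, G.Adj z w → (w = a ∨ w = b ∨ w = c) ∨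
      (w = bar hG a ∨ w = bar hG b ∨ w = bar hG c) := by
    intro z hz w hw
    have h2 := adj_dist hG v hw
    by_cases h3 : G.dist v w = 1
    · exact Or.inl (hN w (SimpleGraph.dist_eq_one_iff_adj.mp h3))
    · right
      have h6 := dbar w
      have h7 : G.Adj v (bar hG w) := SimpleGraph.dist_eq_one_iff_adj.mp (by omega)
      rcases hN _ h7 with h8 | h8 | h8
      · left; rw [← h8, bar_bar]
      · right; left; rw [← h8, bar_bar]
      · right; right; rw [← h8, bar_bar]
  -- exactly one of each pair
  have one : ∀ z, G.dist v z = 2 → (G.Adj z a ∨ G.Adj z (bar hG a)) ∧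
      (G.Adj z b ∨ G.Adj z (bar hG b)) ∧ (G.Adj z c ∨ G.Adj z (bar hG c)) := by
    intro z hz
    have hpair : ∀ w, ∃ t, (t = w ∨ t = bar hG w) ∧ (G.Adj z w → t = w) ∧
        (G.Adj z (bar hG w) → t = bar hG w) := by
      intro w
      by_cases h : G.Adj z w
      · exact ⟨w, Or.inl rfl, fun _ => rfl, fun h' => (far h h').elim⟩
      · exact ⟨bar hG w, Or.inr rfl, fun h' => absurd h' h, fun _ => rfl⟩
    obtain ⟨ta, _, ta1, ta2⟩ := hpair a
    obtain ⟨tb, _, tb1, tb2⟩ := hpair b
    obtain ⟨tc, _, tc1, tc2⟩ := hpair c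
    refine ⟨?_, ?_, ?_⟩
    · by_contra hcon
      push Not at hcon
      refine nbr_sub2 hcub z tb tc (fun w hw => ?_)
      rcases N2 z hz w hw with (h | h | h) | (h | h | h) <;> subst h
      · exact absurd hw hcon.1
      · exact Or.inl (tb1 hw).symm
      · exact Or.inr (tc1 hw).symm
      · exact absurd hw hcon.2
      · exact Or.inl (tb2 hw).symm
      · exact Or.inr (tc2 hw).symm
    · by_contra hcon
      push Not at hcon
      refine nbr_sub2 hcub z ta tc (fun w hw => ?_)
      rcases N2 z hz w hw with (h | h | h) | (h | h | h) <;> subst h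
      · exact Or.inl (ta1 hw).symm
      · exact absurd hw hcon.1
      · exact Or.inr (tc1 hw).symm
      · exact Or.inl (ta2 hw).symm
      · exact absurd hw hcon.2
      · exact Or.inr (tc2 hw).symm
    · by_contra hcon
      push Not at hcon
      refine nbr_sub2 hcub z ta tb (fun w hw => ?_)
      rcases N2 z hz w hw with (h | h | h) | (h | h | h) <;> subst h
      · exact Or.inl (ta1 hw).symm
      · exact Or.inr (tb1 hw).symm
      · exact absurd hw hcon.1
      · exact Or.inl (ta2 hw).symm
      · exact Or.inr (tb2 hw).symm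
      · exact absurd hw hcon.2
  -- not all three on the side of `v`
  have notall : ∀ z, G.dist v z = 2 → G.Adj z a → G.Adj z b → G.Adj z c → False := by
    intro z hz h1 h2 h3
    have h4 : z ∉ locMax G v := by
      intro h
      have h5 := eq_bar hG h
      have h6 := hd v
      rw [← h5] at h6
      omega
    simp only [locMax, Set.mem_ofPred_eq, not_forall, not_le] at h4
    obtain ⟨y, hy, hlt⟩ := h4
    rcases N2 z hz y hy with (h | h | h) | (h | h | h) <;> subst h
    · omega
    · omega
    · omega
    · exact far h1 hy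
    · exact far h2 hy
    · exact far h3 hy
  -- two further neighbours of `a`
  obtain ⟨x, y, hxy, hxa, hya, hxv, hyv⟩ : ∃ x y, x ≠ y ∧ G.Adj x a ∧ G.Adj y a ∧ x ≠ v ∧ y ≠ v := by
    have h3 := hcub a
    rw [Set.ncard_eq_three] at h3
    obtain ⟨p, q, r, hpq, hpr, hqr, hset⟩ := h3
    have hp : G.Adj a p := by
      have : p ∈ G.neighborSet a := by rw [hset]; simp
      exact this
    have hq : G.Adj a q := by
      have : q ∈ G.neighborSet a := by rw [hset]; simp
      exact this
    have hr : G.Adj a r := by
      have : r ∈ G.neighborSet a := by rw [hset]; simp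
      exact this
    by_cases h1 : p = v
    · refine ⟨q, r, hqr, hq.symm, hr.symm, ?_, ?_⟩
      · rintro rfl; exact hpq h1
      · rintro rfl; exact hpr h1
    · by_cases h2 : q = v
      · refine ⟨p, r, hpr, hp.symm, hr.symm, h1, ?_⟩
        rintro rfl; exact hqr h2
      · exact ⟨p, q, hpq, hp.symm, hq.symm, h1, h2⟩
  have dxy : ∀ z, G.Adj z a → z ≠ v → G.dist v z = 2 := by
    intro z h1 h2
    have h3 := adj_dist hG v h1
    have h4 := dist_pos' hG (Ne.symm h2)
    omega
  have dx := dxy x hxa hxv
  have dy := dxy y hya hyv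
  have hne : G.dist x y = 4 → False := by
    intro h
    have h3 := dist_adj hxa
    have h4 := dist_adj hya.symm
    have h5 : G.dist x y ≤ G.dist x a + G.dist a y := hG.1.dist_triangle
    omega
  have same : (∀ w, G.Adj y w → G.Adj x w) → False := by
    intro h
    have h1 : y ∈ locMax G x := by
      intro w hw
      rw [dist_adj (h w hw)]
      exact dist_pos' hG hxy
    have h2 := eq_bar hG h1
    apply hne
    rw [h2]
    exact hd x
  obtain ⟨_, xb, xc⟩ := one x dx
  obtain ⟨_, yb, yc⟩ := one y dy
  have yN : ∀ w, G.Adj y w → w = a ∨ ((w = b ∧ G.Adj y b) ∨ (w = bar hG b ∧ G.Adj y (bar hG b))) ∨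
      ((w = c ∧ G.Adj y c) ∨ (w = bar hG c ∧ G.Adj y (bar hG c))) := by
    intro w hw
    rcases N2 y dy w hw with (h | h | h) | (h | h | h) <;> subst h
    · exact Or.inl rfl
    · exact Or.inr (Or.inl (Or.inl ⟨rfl, hw⟩))
    · exact Or.inr (Or.inr (Or.inl ⟨rfl, hw⟩))
    · exact (far hya hw).elim
    · exact Or.inr (Or.inl (Or.inr ⟨rfl, hw⟩))
    · exact Or.inr (Or.inr (Or.inr ⟨rfl, hw⟩))
  rcases xb with xb | xb <;> rcases xc with xc | xc
  · exact (notall x dx hxa xb xc).elim
  · rcases yb with yb | yb <;> rcases yc with yc | yc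
    · exact (notall y dy hya yb yc).elim
    · -- same
      exfalso
      apply same
      intro w hw
      rcases yN w hw with rfl | (⟨rfl, h⟩ | ⟨rfl, h⟩) | (⟨rfl, h⟩ | ⟨rfl, h⟩)
      · exact hxa
      · exact xb
      · exact (far yb h).elim
      · exact (far h yc).elim
      · exact xc
    · exact prism hG hcub hd hva hvb hvc hab hac hbc hxa xb xc hya yc yb
    · -- x : a b c' ; y : a b' c'
      exact prism hG hcub hd hvb hva hvc hab.symm hbc hac xb hxa xc (y := bar hG y)
        (bar_adj' hG yb) (bar_adj' hG yc) ((bar_adj hG).mpr hya)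
  · rcases yb with yb | yb <;> rcases yc with yc | yc
    · exact (notall y dy hya yb yc).elim
    · exact prism hG hcub hd hva hvb hvc hab hac hbc hya yb yc hxa xc xb
    · exfalso
      apply same
      intro w hw
      rcases yN w hw with rfl | (⟨rfl, h⟩ | ⟨rfl, h⟩) | (⟨rfl, h⟩ | ⟨rfl, h⟩)
      · exact hxa
      · exact (far h yb).elim
      · exact xb
      · exact xc
      · exact (far yc h).elim
    · -- x : a b' c ; y : a b' c'
      exact prism hG hcub hd hvc hva hvb hac.symm hbc.symm hab xc hxa xb (y := bar hG y)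
        (bar_adj' hG yc) (bar_adj' hG yb) ((bar_adj hG).mpr hya)
  · rcases yb with yb | yb <;> rcases yc with yc | yc
    · exact (notall y dy hya yb yc).elim
    · exact prism hG hcub hd hvb hva hvc hab.symm hbc hac yb hya yc (y := bar hG x)
        (bar_adj' hG xb) (bar_adj' hG xc) ((bar_adj hG).mpr hxa)
    · exact prism hG hcub hd hvc hva hvb hac.symm hbc.symm hab yc hya yb (y := bar hG x)
        (bar_adj' hG xc) (bar_adj' hG xb) ((bar_adj hG).mpr hxa)
    · exfalso
      apply same
      intro w hw
      rcases yN w hw with rfl | (⟨rfl, h⟩ | ⟨rfl, h⟩) | (⟨rfl, h⟩ | ⟨rfl, h⟩)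
      · exact hxa
      · exact (far h yb).elim
      · exact xb
      · exact (far h yc).elim
      · exact xc

/-- a primitive cubic S-graph has diameter at least five -/
theorem five_le (hG : IsSGraph G) (hcub : IsCubic G) (hP : IsPrimitive G) : 5 ≤ G.diam := by
  obtain ⟨v⟩ := hG.1.nonempty
  have hd : ∀ v, G.dist v (bar hG v) = G.diam := dist_bar_eq_diam hG
  have h3 := hcub v
  rw [Set.ncard_eq_three] at h3
  obtain ⟨a, b, c, hab, hac, hbc, hset⟩ := h3
  have hva : G.Adj v a := by
    have : a ∈ G.neighborSet v := by rw [hset]; simp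
    exact this
  have hvb : G.Adj v b := by
    have : b ∈ G.neighborSet v := by rw [hset]; simp
    exact this
  have hvc : G.Adj v c := by
    have : c ∈ G.neighborSet v := by rw [hset]; simp
    exact this
  have hN : ∀ w, G.Adj v w → w = a ∨ w = b ∨ w = c := by
    intro w hw
    have : w ∈ G.neighborSet v := hw
    rw [hset] at this
    simpa using this
  by_contra hlt
  have D := dist_bar hG v
  have da := dist_adj hva
  have db := dist_adj hvb
  have h0 := hd v
  have hz : ∀ {x y : V}, G.dist x y = 0 → x = y := by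
    intro x y h
    by_contra hne
    have := dist_pos' hG hne
    omega
  have hcases : G.diam = 0 ∨ G.diam = 1 ∨ G.diam = 2 ∨ G.diam = 3 ∨ G.diam = 4 := by omega
  rcases hcases with h | h | h | h | h
  · have := D a
    omega
  · have h1 := D a
    have h2 := D b
    apply hab
    rw [hz (show G.dist a (bar hG v) = 0 by omega), hz (show G.dist b (bar hG v) = 0 by omega)]
  · refine nbr_sub2 hcub a v (bar hG v) (fun w hw => ?_)
    have h1 := adj_dist hG v hw
    rcases h1 with h1 | h1
    · right
      have h2 := D w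
      exact hz (by omega)
    · left
      exact (hz (show G.dist v w = 0 by omega)).symm
  · exact cube hG hcub (fun v => (hd v).trans h) hva hvb hvc hab hac hbc hN hP
  · exact low4 hG hcub (fun v => (hd v).trans h) hva hvb hvc hab hac hbc hN hP

end Pool.Agent.Helper371
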