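import Pool.Agent.Helper371.SCrit

set_option autoImplicit false

namespace Pool.Agent.Helper371

/-- sign vectors from a table of bits -/
def tM {N n : ℕ} (M : ℕ) (x : Fin N) (l : Fin n) : Bool := Nat.testBit M (n * x.1 + l.1)

/-- three facets per region -/
def tE {N : ℕ} (n : ℕ) [NeZero n] (E : ℕ) (x : Fin N) (k : Fin 3) : Fin n :=
  Fin.ofNat n (E / 8 ^ (3 * x.1 + k.1) % 8)

/-- three neighbours per region -/
def tY {N : ℕ} [NeZero N] (Y : ℕ) (x : Fin N) (k : Fin 3) : Fin N :=
  Fin.ofNat N (Y / 32 ^ (3 * x.1 + k.1) % 32)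

/-- antipodal region -/
def tA {N : ℕ} [NeZero N] (A : ℕ) (x : Fin N) : Fin N := Fin.ofNat N (A / 32 ^ x.1 % 32)

theorem small_mem (N n M E Y A : ℕ) [NeZero N] [NeZero n]
    (h1 : ∀ (x : Fin N) (i j : Fin 3), tE n E x i = tE n E x j → i = j)
    (h2 : ∀ (x : Fin N) (k : Fin 3) (l : Fin n),
      (tM M x l = tM M (tY Y x k) l) ↔ l ≠ tE n E x k)
    (h3 : ∀ (x v : Fin N), (∀ k : Fin 3, tM M v (tE n E x k) = tM M x (tE n E x k)) → v = x)
    (h4 : ∀ (x : Fin N) (l : Fin n), tM M (tA A x) l = !(tM M x l))
    (h5 : ∀ k : Fin 3, k ≠ 0 → ∀ c : Fin N, ¬ ∀ l : Fin n,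
      ((tM M (0 : Fin N) l = tM M c l) ↔ (l ≠ tE n E (0 : Fin N) 0 ∧ l ≠ tE n E (0 : Fin N) k))) :
    n ∈ diameterSet := by
  have hf : ∀ x y : Fin N, ∀ l : Fin n,
      ((fun (x : Fin N) (l : Fin n) => tM M x l = true) x l ↔
        (fun (x : Fin N) (l : Fin n) => tM M x l = true) y l) ↔ tM M x l = tM M y l := by
    intro x y l
    simp only
    cases tM M x l <;> cases tM M y l <;> simp
  have hgood : ∀ x : Fin N, Good (fun (x : Fin N) (l : Fin n) => tM M x l = true) x := by
    intro x
    refine ⟨tE n E x, tY Y x, fun i j => h1 x i j, ?_, ?_⟩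
    · intro k l
      rw [hf, h2]
    · intro v hv
      apply h3
      intro k
      rw [← hf]
      exact hv k
  obtain ⟨c1, c2, c3, c4⟩ := crit (V := Fin N) (hgood := hgood) (a := tA A) (by
    intro x l
    simp only [h4]
    cases tM M x l <;> simp)
  refine ⟨Fin N, _, c1, c2, c3, ?_, ?_⟩
  · refine prim_of_good hgood c2 (0 : Fin N) (tE n E 0) (tY Y 0) (fun i j => h1 0 i j) ?_ ?_ ?_
    · intro k l
      rw [hf, h2]
    · intro v hv
      apply h3
      intro k
      rw [← hf]
      exact hv k
    · rintro k hk ⟨c, hc⟩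
      refine h5 k hk c ?_
      intro l
      rw [← hf]
      exact hc l
  · rw [c4, Fintype.card_fin]

set_option maxRecDepth 100000 in
theorem mem_five : 5 ∈ diameterSet := by
  refine small_mem 20 5 291655079040021551364529074840
    408241349997386455026928927945329998024414688975097992
    1044845715240164699191772647666699901964217059439456641507790801953511786435826406297898188
    1319095317615223102493967955 ?_ ?_ ?_ ?_ ?_ <;> decide +kernel

set_option maxRecDepth 100000 in
theorem mem_seven : 7 ∈ diameterSet := by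
  refine small_mem 32 7 26854213319411631252457558257678130374329698887861159948250312613888
    413623114918789843626091391693307960445340411578265274787241109737481247188352580669865
    3017143735031899260486989267483904021931771508156915246258126458014014597055731389323225526488315460996880720967461494046671938424143505052402762
    1520813358304789717173449357665226867487963103 ?_ ?_ ?_ ?_ ?_ <;> decide +kernel

end Pool.Agent.Helper371
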